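import Pool.Agent.H49.Tsp.Defs

/-!
Basic facts on rooted trees encoded by a parent function.
-/

set_option autoImplicit false

namespace Pool.Agent.H49.Tsp

open Classical

namespace RTree

variable {P : Finset ℂ} (T : RTree P)

theorem iter_mem {v : ℂ} (hv : v ∈ P) (k : ℕ) : T.par^[k] v ∈ P := by
  induction k with
  | zero => exact hv
  | succ k ih => rw [Function.iterate_succ_apply']; exact T.par_mem _ ih

theorem iter_root (k : ℕ) : T.par^[k] T.root = T.root := by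
  induction k with
  | zero => rfl
  | succ k ih => rw [Function.iterate_succ_apply', ih, T.par_root]

theorem mem_D {v q : ℂ} : q ∈ T.D v ↔ q ∈ P ∧ ∃ k : ℕ, T.par^[k] q = v := by
  simp [D]

theorem D_sub (v : ℂ) : T.D v ⊆ P := Finset.filter_subset _ _

theorem mem_of_mem_D {v q : ℂ} (h : q ∈ T.D v) : v ∈ P := by
  obtain ⟨hq, k, rfl⟩ := T.mem_D.1 h
  exact T.iter_mem hq k

theorem self_mem_D {v : ℂ} (hv : v ∈ P) : v ∈ T.D v := T.mem_D.2 ⟨hv, 0, rfl⟩

theorem mem_D_par {v q : ℂ} (h : q ∈ T.D v) : q ∈ T.D (T.par v) := by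
  obtain ⟨hq, k, rfl⟩ := T.mem_D.1 h
  exact T.mem_D.2 ⟨hq, k + 1, by rw [Function.iterate_succ_apply']⟩

theorem D_trans {q u v : ℂ} (h1 : q ∈ T.D u) (h2 : u ∈ T.D v) : q ∈ T.D v := by
  obtain ⟨hq, k, rfl⟩ := T.mem_D.1 h1
  obtain ⟨_, l, rfl⟩ := T.mem_D.1 h2
  exact T.mem_D.2 ⟨hq, l + k, by rw [Function.iterate_add_apply]⟩

theorem D_mono {u v : ℂ} (h : u ∈ T.D v) : T.D u ⊆ T.D v := fun _ hq => T.D_trans hq h

theorem dep_par_le {v : ℂ} (hv : v ∈ P) : T.dep (T.par v) ≤ T.dep v := by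
  by_cases h : v = T.root
  · rw [h, T.par_root]
  · exact (T.dep_lt v hv h).le

theorem dep_iter_le {v : ℂ} (hv : v ∈ P) (k : ℕ) : T.dep (T.par^[k] v) ≤ T.dep v := by
  induction k with
  | zero => exact le_rfl
  | succ k ih =>
    rw [Function.iterate_succ_apply']
    exact (T.dep_par_le (T.iter_mem hv k)).trans ih

theorem dep_le_of_mem_D {q v : ℂ} (h : q ∈ T.D v) : T.dep v ≤ T.dep q := by
  obtain ⟨hq, k, rfl⟩ := T.mem_D.1 h
  exact T.dep_iter_le hq k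

theorem mem_D_root {q : ℂ} (hq : q ∈ P) : q ∈ T.D T.root := by
  by_contra hcon
  have hk : ∀ k, T.par^[k] q ≠ T.root := fun k hk => hcon (T.mem_D.2 ⟨hq, k, hk⟩)
  have hlt : ∀ k, T.dep (T.par^[k] q) + k ≤ T.dep q := by
    intro k
    induction k with
    | zero => simp
    | succ k ih =>
      have := T.dep_lt _ (T.iter_mem hq k) (hk k)
      rw [Function.iterate_succ_apply']
      omega
  have := hlt (T.dep q + 1)
  omega

theorem D_root : T.D T.root = P :=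
  Finset.Subset.antisymm (T.D_sub _) (fun _ hq => T.mem_D_root hq)

theorem D_laminar {q u v : ℂ} (h1 : q ∈ T.D u) (h2 : q ∈ T.D v) : u ∈ T.D v ∨ v ∈ T.D u := by
  obtain ⟨hq, k, rfl⟩ := T.mem_D.1 h1
  obtain ⟨_, l, rfl⟩ := T.mem_D.1 h2
  rcases le_total k l with h | h
  · left
    exact T.mem_D.2 ⟨T.iter_mem hq k, l - k, by
      rw [← Function.iterate_add_apply, Nat.sub_add_cancel h]⟩
  · right
    exact T.mem_D.2 ⟨T.iter_mem hq l, k - l, by
      rw [← Function.iterate_add_apply, Nat.sub_add_cancel h]⟩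

theorem eq_of_dep_eq {q v : ℂ} (h : q ∈ T.D v) (hd : T.dep q = T.dep v) : q = v := by
  obtain ⟨hq, k, rfl⟩ := T.mem_D.1 h
  cases k with
  | zero => rfl
  | succ k =>
    by_cases hr : q = T.root
    · rw [hr, T.iter_root]
    · exfalso
      have h1 := T.dep_lt q hq hr
      have h2 : T.dep (T.par^[k] (T.par q)) ≤ T.dep (T.par q) := T.dep_iter_le (T.par_mem q hq) k
      rw [Function.iterate_succ_apply] at hd
      omega

theorem D_antisymm {u v : ℂ} (h1 : u ∈ T.D v) (h2 : v ∈ T.D u) : u = v :=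
  T.eq_of_dep_eq h1 (le_antisymm (T.dep_le_of_mem_D h2) (T.dep_le_of_mem_D h1))

theorem par_not_mem_D {v : ℂ} (hv : v ∈ P) (hr : v ≠ T.root) : T.par v ∉ T.D v := fun h =>
  absurd (T.dep_le_of_mem_D h) (not_le.2 (T.dep_lt v hv hr))

theorem par_ne {v : ℂ} (hv : v ∈ P) (hr : v ≠ T.root) : T.par v ≠ v := fun h =>
  T.par_not_mem_D hv hr (by rw [h]; exact T.self_mem_D hv)

/-- A descendant of `v` different from `v` has its parent in `D v`. -/
theorem par_mem_D {q v : ℂ} (h : q ∈ T.D v) (hne : q ≠ v) : T.par q ∈ T.D v := by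
  obtain ⟨hq, k, hk⟩ := T.mem_D.1 h
  cases k with
  | zero => exact absurd hk hne
  | succ k => exact T.mem_D.2 ⟨T.par_mem q hq, k, by rw [← hk, Function.iterate_succ_apply]⟩

theorem len_nonneg (v : ℂ) : 0 ≤ T.len v := norm_nonneg _

theorem len_root : T.len T.root = 0 := by simp [len, T.par_root]

theorem len_pos {v : ℂ} (hv : v ∈ P) (hr : v ≠ T.root) : 0 < T.len v := by
  rw [len, norm_pos_iff, sub_ne_zero]
  exact (T.par_ne hv hr).symm

theorem wt_nonneg (A : Finset ℂ) : 0 ≤ T.wt A := Finset.sum_nonneg fun _ _ => T.len_nonneg _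

theorem wt_mono {A B : Finset ℂ} (h : A ⊆ B) : T.wt A ≤ T.wt B :=
  Finset.sum_le_sum_of_subset_of_nonneg h fun _ _ _ => T.len_nonneg _

theorem wt_union_le (A B : Finset ℂ) : T.wt (A ∪ B) ≤ T.wt A + T.wt B := by
  have h := Finset.sum_union_inter (s₁ := A) (s₂ := B) (f := T.len)
  have h2 : 0 ≤ T.wt (A ∩ B) := T.wt_nonneg _
  simp only [wt] at *
  linarith

theorem wt_union {A B : Finset ℂ} (h : Disjoint A B) : T.wt (A ∪ B) = T.wt A + T.wt B :=
  Finset.sum_union h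

theorem mem_sep {p q v : ℂ} : v ∈ T.sep p q ↔ v ∈ P ∧ ¬ (p ∈ T.D v ↔ q ∈ T.D v) := by
  simp [sep]

theorem sep_sub (p q : ℂ) : T.sep p q ⊆ P := Finset.filter_subset _ _

theorem sep_comm (p q : ℂ) : T.sep p q = T.sep q p := by
  ext v; rw [mem_sep, mem_sep]; tauto

theorem sep_self (p : ℂ) : T.sep p p = ∅ := by
  ext v; rw [mem_sep]; simp

theorem sep_tri (p q r : ℂ) : T.sep p r ⊆ T.sep p q ∪ T.sep q r := by
  intro v
  rw [Finset.mem_union, mem_sep, mem_sep, mem_sep]; tauto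

theorem root_not_mem_sep {p q : ℂ} (hp : p ∈ P) (hq : q ∈ P) : T.root ∉ T.sep p q := by
  rw [mem_sep]
  intro h
  exact h.2 ⟨fun _ => T.mem_D_root hq, fun _ => T.mem_D_root hp⟩

theorem ne_root_of_mem_sep {p q v : ℂ} (hp : p ∈ P) (hq : q ∈ P) (h : v ∈ T.sep p q) :
    v ≠ T.root := fun hv => T.root_not_mem_sep hp hq (hv ▸ h)

theorem sep_par {v : ℂ} (hv : v ∈ P) (hr : v ≠ T.root) : T.sep v (T.par v) = {v} := by
  ext u
  rw [mem_sep, Finset.mem_singleton]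
  constructor
  · rintro ⟨hu, h⟩
    by_cases h1 : v ∈ T.D u
    · by_contra hne
      exact h ⟨fun _ => T.par_mem_D h1 (fun h => hne h.symm), fun _ => h1⟩
    · have h2 : T.par v ∈ T.D u := by
        by_contra h2; exact h ⟨fun h => absurd h h1, fun h => absurd h h2⟩
      exact absurd (T.D_trans (T.mem_D_par (T.self_mem_D hv)) h2) h1
  · rintro rfl
    exact ⟨hv, fun h => T.par_not_mem_D hv hr (h.1 (T.self_mem_D hv))⟩

/-- The path from a descendant `q` of `v` up to `v`. -/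
theorem mem_sep_of_mem_D {q v u : ℂ} (h : q ∈ T.D v) :
    u ∈ T.sep q v ↔ q ∈ T.D u ∧ u ∈ T.D v ∧ u ≠ v := by
  rw [mem_sep]
  have hv := T.mem_of_mem_D h
  constructor
  · rintro ⟨hu, hn⟩
    by_cases h1 : q ∈ T.D u
    · have h2 : v ∉ T.D u := fun h2 => hn ⟨fun _ => h2, fun _ => h1⟩
      rcases T.D_laminar h1 h with h3 | h3
      · exact ⟨h1, h3, fun h4 => h2 (by rw [h4]; exact T.self_mem_D hv)⟩
      · exact absurd h3 h2
    · have h2 : v ∈ T.D u := by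
        by_contra h2; exact hn ⟨fun h => absurd h h1, fun h => absurd h h2⟩
      exact absurd (T.D_trans h h2) h1
  · rintro ⟨h1, h2, h3⟩
    exact ⟨T.mem_of_mem_D h1, fun h4 => h3 (T.D_antisymm h2 (h4.1 h1))⟩

theorem sep_trans {q u v : ℂ} (h1 : q ∈ T.D u) (h2 : u ∈ T.D v) :
    T.sep q v = T.sep q u ∪ T.sep u v := by
  ext x
  rw [Finset.mem_union, T.mem_sep_of_mem_D (T.D_trans h1 h2), T.mem_sep_of_mem_D h1,
    T.mem_sep_of_mem_D h2]
  constructor
  · rintro ⟨h3, h4, h5⟩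
    rcases T.D_laminar h3 h1 with h6 | h6
    · by_cases h7 : x = u
      · right; subst h7; exact ⟨h6, h4, h5⟩
      · left; exact ⟨h3, h6, h7⟩
    · right; exact ⟨h6, h4, h5⟩
  · rintro (⟨h3, h4, h5⟩ | ⟨h3, h4, h5⟩)
    · refine ⟨h3, T.D_trans h4 h2, ?_⟩
      rintro rfl
      exact h5 (T.D_antisymm h4 h2)
    · exact ⟨T.D_trans h1 h3, h4, h5⟩

theorem sep_trans_disj {q u v : ℂ} (h1 : q ∈ T.D u) (h2 : u ∈ T.D v) :
    Disjoint (T.sep q u) (T.sep u v) := by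
  rw [Finset.disjoint_left]
  intro x hx hx'
  rw [T.mem_sep_of_mem_D h1] at hx
  rw [T.mem_sep_of_mem_D h2] at hx'
  exact hx.2.2 (T.D_antisymm hx.2.1 hx'.1)

theorem wt_sep_trans {q u v : ℂ} (h1 : q ∈ T.D u) (h2 : u ∈ T.D v) :
    T.wt (T.sep q v) = T.wt (T.sep q u) + T.wt (T.sep u v) := by
  rw [T.sep_trans h1 h2, T.wt_union (T.sep_trans_disj h1 h2)]

theorem wt_sep_tri (p q r : ℂ) : T.wt (T.sep p r) ≤ T.wt (T.sep p q) + T.wt (T.sep q r) :=
  (T.wt_mono (T.sep_tri p q r)).trans (T.wt_union_le _ _)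

theorem norm_le_of_mem_D {q v : ℂ} (h : q ∈ T.D v) : ‖q - v‖ ≤ T.wt (T.sep q v) := by
  obtain ⟨hq, k, rfl⟩ := T.mem_D.1 h
  clear h
  induction k with
  | zero => simp [T.sep_self, wt]
  | succ k ih =>
    have h1 : q ∈ T.D (T.par^[k] q) := T.mem_D.2 ⟨hq, k, rfl⟩
    have h2 : T.par^[k] q ∈ T.D (T.par^[k + 1] q) := by
      rw [Function.iterate_succ_apply']; exact T.mem_D_par (T.self_mem_D (T.iter_mem hq k))
    rw [T.wt_sep_trans h1 h2]
    have h3 : ‖T.par^[k] q - T.par^[k + 1] q‖ ≤ T.wt (T.sep (T.par^[k] q) (T.par^[k + 1] q)) := by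
      rw [Function.iterate_succ_apply']
      by_cases hr : T.par^[k] q = T.root
      · rw [hr, T.par_root, sub_self, norm_zero]; exact T.wt_nonneg _
      · rw [T.sep_par (T.iter_mem hq k) hr, wt, Finset.sum_singleton, len]
    have := norm_sub_le_norm_sub_add_norm_sub q (T.par^[k] q) (T.par^[k + 1] q)
    linarith

/-- The lowest common ancestor. -/
theorem exists_lca {p q : ℂ} (hp : p ∈ P) (hq : q ∈ P) :
    ∃ v ∈ P, p ∈ T.D v ∧ q ∈ T.D v ∧ (∀ u, p ∈ T.D u → q ∈ T.D u → v ∈ T.D u) := by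
  have hne : (P.filter (fun v => p ∈ T.D v ∧ q ∈ T.D v)).Nonempty :=
    ⟨T.root, by simp [T.root_mem, T.mem_D_root hp, T.mem_D_root hq]⟩
  obtain ⟨v, hv, hmax⟩ := Finset.exists_max_image _ T.dep hne
  simp only [Finset.mem_filter] at hv hmax
  refine ⟨v, hv.1, hv.2.1, hv.2.2, fun u h1 h2 => ?_⟩
  rcases T.D_laminar hv.2.1 h1 with h | h
  · exact h
  · have := T.eq_of_dep_eq h (le_antisymm (hmax u ⟨T.mem_of_mem_D h1, h1, h2⟩)
      (T.dep_le_of_mem_D h))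
    rw [this]; exact T.self_mem_D hv.1

theorem sep_eq_of_lca {p q v : ℂ} (h1 : p ∈ T.D v) (h2 : q ∈ T.D v)
    (h3 : ∀ u, p ∈ T.D u → q ∈ T.D u → v ∈ T.D u) :
    T.sep p q = T.sep p v ∪ T.sep v q ∧ Disjoint (T.sep p v) (T.sep v q) := by
  have key : ∀ x, x ∈ T.sep p v → x ∉ T.sep q v := by
    intro x hx hx'
    rw [T.mem_sep_of_mem_D h1] at hx
    rw [T.mem_sep_of_mem_D h2] at hx'
    exact hx.2.2 (T.D_antisymm hx.2.1 (h3 x hx.1 hx'.1))
  refine ⟨?_, ?_⟩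
  · apply Finset.Subset.antisymm (T.sep_tri p v q)
    rw [T.sep_comm v q]
    intro x hx
    rw [Finset.mem_union] at hx
    rcases hx with hx | hx
    · have h4 := key x hx
      rw [T.mem_sep_of_mem_D h1] at hx
      rw [T.mem_sep_of_mem_D h2] at h4
      rw [mem_sep]
      exact ⟨T.mem_of_mem_D hx.1, fun h => h4 ⟨h.1 hx.1, hx.2⟩⟩
    · have h4 : x ∉ T.sep p v := fun h => key x h hx
      rw [T.mem_sep_of_mem_D h2] at hx
      rw [T.mem_sep_of_mem_D h1] at h4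
      rw [mem_sep]
      exact ⟨T.mem_of_mem_D hx.1, fun h => h4 ⟨h.2 hx.1, hx.2⟩⟩
  · rw [T.sep_comm v q, Finset.disjoint_left]
    exact key

theorem norm_le_wt_sep {p q : ℂ} (hp : p ∈ P) (hq : q ∈ P) : ‖p - q‖ ≤ T.wt (T.sep p q) := by
  obtain ⟨v, hv, h1, h2, h3⟩ := T.exists_lca hp hq
  obtain ⟨h4, h5⟩ := T.sep_eq_of_lca h1 h2 h3
  rw [h4, T.wt_union h5]
  have h6 := T.norm_le_of_mem_D h1
  have h7 := T.norm_le_of_mem_D h2
  rw [T.sep_comm v q]
  have h8 := norm_sub_le_norm_sub_add_norm_sub p v q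
  have h9 : ‖v - q‖ = ‖q - v‖ := norm_sub_rev _ _
  linarith

end RTree

end Pool.Agent.H49.Tsp
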