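import Pool.Agent.H49.Tsp.Defs

/-!
Lower bound for the length of a tour by disjoint circles.
-/

set_option autoImplicit false

namespace Pool.Agent.H49.Tsp

open Classical MeasureTheory

open scoped ENNReal NNReal

/-- The circles around `c` of radius in `R` which separate `p` and `q` have measure at most
`‖q - p‖` times the measure of the times at which the segment meets such a circle. -/
theorem rings_edge (p q c : ℂ) (R : Set ℝ) :
    volume (R ∩ Set.uIoc ‖p - c‖ ‖q - c‖) ≤ ENNReal.ofReal ‖p - q‖ *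
      volume (Set.Icc (0 : ℝ) 1 ∩ {t : ℝ | ‖p + (t : ℂ) * (q - p) - c‖ ∈ R}) := by
  set f : ℝ → ℝ := fun t => ‖p + (t : ℂ) * (q - p) - c‖ with hf
  have hcont : Continuous f := by fun_prop
  have hlip : LipschitzWith ‖p - q‖₊ f := by
    refine LipschitzWith.of_dist_le_mul fun s t => ?_
    rw [Real.dist_eq, hf]
    refine (abs_norm_sub_norm_le _ _).trans ?_
    have : p + (s : ℂ) * (q - p) - c - (p + (t : ℂ) * (q - p) - c) = ((s - t : ℝ) : ℂ) * (q - p) := by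
      push_cast; ring
    rw [this, norm_mul, Complex.norm_real, Real.dist_eq, norm_sub_rev q p, coe_nnnorm,
      Real.norm_eq_abs, mul_comm]
  have hsub : R ∩ Set.uIoc ‖p - c‖ ‖q - c‖ ⊆
      f '' (Set.Icc (0 : ℝ) 1 ∩ {t : ℝ | ‖p + (t : ℂ) * (q - p) - c‖ ∈ R}) := by
    rintro r ⟨hr, hr2⟩
    have h0 : f 0 = ‖p - c‖ := by simp [hf]
    have h1 : f 1 = ‖q - c‖ := by simp [hf]
    have hmem : r ∈ Set.uIcc (f 0) (f 1) := by
      rw [h0, h1]; exact Set.uIoc_subset_uIcc hr2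
    obtain ⟨t, ht, htr⟩ := intermediate_value_uIcc hcont.continuousOn hmem
    rw [Set.uIcc_of_le zero_le_one] at ht
    exact ⟨t, ⟨ht, by
      change f t ∈ R
      rw [htr]; exact hr⟩, htr⟩
  refine (measure_mono hsub).trans ?_
  have := (hlip.lipschitzOnWith (s := (Set.Icc (0 : ℝ) 1 ∩
    {t : ℝ | ‖p + (t : ℂ) * (q - p) - c‖ ∈ R}))).hausdorffMeasure_image_le (d := 1) zero_le_one
  rw [hausdorffMeasure_real, ENNReal.rpow_one] at this
  refine this.trans (le_of_eq ?_)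
  congr 1
  rw [ofReal_norm, enorm_eq_nnnorm]

/-- Summation of `rings_edge` over a disjoint family of rings. -/
theorem rings_edge_sum (p q : ℂ) {α : Type} (A : Finset α) (c : α → ℂ) (R : α → Set ℝ)
    (hm : ∀ a ∈ A, MeasurableSet (R a))
    (hdisj : ∀ a ∈ A, ∀ b ∈ A, a ≠ b → ∀ r ∈ R a, ∀ s ∈ R b, ∀ y : ℂ, ‖y - c a‖ = r →
      ‖y - c b‖ = s → False) :
    ∑ a ∈ A, volume (R a ∩ Set.uIoc ‖p - c a‖ ‖q - c a‖) ≤ ENNReal.ofReal ‖p - q‖ := by
  set X : α → Set ℝ := fun a =>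
    Set.Icc (0 : ℝ) 1 ∩ {t : ℝ | ‖p + (t : ℂ) * (q - p) - c a‖ ∈ R a} with hX
  have hXm : ∀ a ∈ A, MeasurableSet (X a) := by
    intro a ha
    refine measurableSet_Icc.inter ?_
    have hcont : Continuous (fun t : ℝ => ‖p + (t : ℂ) * (q - p) - c a‖) := by fun_prop
    exact hcont.measurable (hm a ha)
  have hXd : Set.PairwiseDisjoint (↑A : Set α) X := by
    intro a ha b hb hab
    refine Set.disjoint_left.2 ?_
    rintro t ⟨_, ht1⟩ ⟨_, ht2⟩
    exact hdisj a ha b hb hab _ ht1 _ ht2 (p + (t : ℂ) * (q - p)) rfl rfl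
  calc ∑ a ∈ A, volume (R a ∩ Set.uIoc ‖p - c a‖ ‖q - c a‖)
      ≤ ∑ a ∈ A, ENNReal.ofReal ‖p - q‖ * volume (X a) :=
        Finset.sum_le_sum fun a _ => rings_edge p q (c a) (R a)
    _ = ENNReal.ofReal ‖p - q‖ * volume (⋃ a ∈ A, X a) := by
        rw [← Finset.mul_sum, measure_biUnion_finset hXd hXm]
    _ ≤ ENNReal.ofReal ‖p - q‖ * volume (Set.Icc (0 : ℝ) 1) := by
        gcongr
        exact Set.iUnion₂_subset fun a _ => Set.inter_subset_left
    _ = ENNReal.ofReal ‖p - q‖ := by simp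

/-- A cyclic sequence which is neither inside nor outside changes sides at least twice. -/
theorem two_switches (n : ℕ) (hn : 0 < n) (b : ℕ → Prop) (hb : ∀ i, b (i % n) ↔ b i)
    (h0 : ∃ i, b i) (h1 : ∃ i, ¬ b i) :
    ∃ i < n, ∃ j < n, i ≠ j ∧ ¬ (b i ↔ b (i + 1)) ∧ ¬ (b j ↔ b (j + 1)) := by
  have key : ∀ B : ℕ → Prop, (∀ i, B (i % n) ↔ B i) → (∃ i, B i) → (∃ i, ¬ B i) →
      ∃ i < n, B i ∧ ¬ B (i + 1) := by
    intro B hB ⟨i0, hi0⟩ ⟨i1, hi1⟩
    by_contra hcon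
    push Not at hcon
    have hstep : ∀ i, B i → B (i + 1) := by
      intro i hi
      have h2 := hcon (i % n) (Nat.mod_lt _ hn) ((hB i).2 hi)
      rw [← hB (i % n + 1), Nat.mod_add_mod, hB] at h2
      exact h2
    have hall : ∀ k, B (i0 + k) := by
      intro k
      induction k with
      | zero => exact hi0
      | succ k ih => exact hstep _ ih
    have h3 := hall (n * i0 + i1 - i0)
    rw [← Nat.add_sub_assoc (by nlinarith), Nat.add_sub_cancel_left, ← hB, Nat.mul_add_mod, hB] at h3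
    exact hi1 h3
  obtain ⟨i, hi, hi1, hi2⟩ := key b hb h0 h1
  obtain ⟨j, hj, hj1, hj2⟩ := key (fun i => ¬ b i) (fun i => not_congr (hb i)) h1
    (by obtain ⟨i, hi⟩ := h0; exact ⟨i, not_not.2 hi⟩)
  refine ⟨i, hi, j, hj, ?_, ?_, ?_⟩
  · rintro rfl; exact hj1 hi1
  · exact fun h => hi2 (h.1 hi1)
  · exact fun h => hj2 (fun h3 => hj1 (h.2 h3))

theorem mem_uIoc_iff_not (a b r : ℝ) : r ∈ Set.uIoc a b ↔ ¬ (a < r ↔ b < r) := by
  rw [Set.mem_uIoc]
  constructor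
  · rintro (⟨h1, h2⟩ | ⟨h1, h2⟩) h
    · exact absurd (h.1 h1) (not_lt.2 h2)
    · exact absurd (h.2 h1) (not_lt.2 h2)
  · intro h
    by_cases h1 : a < r
    · left
      refine ⟨h1, ?_⟩
      by_contra h2
      exact h ⟨fun _ => not_le.1 h2, fun _ => h1⟩
    · right
      refine ⟨?_, not_lt.1 h1⟩
      by_contra h2
      exact h ⟨fun h3 => absurd h3 h1, fun h3 => absurd h3 h2⟩

/-- The ring of one centre is crossed at least twice by a closed tour. -/
theorem rings_two (x : ℕ → ℂ) (n : ℕ) (hn : ∀ i, x (i % n) = x i) (c : ℂ) (R : Set ℝ)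
    (hm : MeasurableSet R)
    (hsep : ∀ r ∈ R, (∃ i < n, ‖x i - c‖ < r) ∧ (∃ i < n, r < ‖x i - c‖)) :
    2 * volume R ≤ ∑ i ∈ Finset.range n, volume (R ∩ Set.uIoc ‖x i - c‖ ‖x (i + 1) - c‖) := by
  have hI : ∀ i, MeasurableSet (Set.uIoc ‖x i - c‖ ‖x (i + 1) - c‖) := fun i => measurableSet_uIoc
  calc 2 * volume R = ∫⁻ _ in R, 2 := by rw [setLIntegral_const]
    _ ≤ ∫⁻ r in R, ∑ i ∈ Finset.range n,
          (Set.uIoc ‖x i - c‖ ‖x (i + 1) - c‖).indicator (fun _ => (1 : ℝ≥0∞)) r := by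
        refine setLIntegral_mono' hm ?_
        intro r hr
        obtain ⟨⟨i0, hi0, hi0'⟩, ⟨i1, hi1, hi1'⟩⟩ := hsep r hr
        obtain ⟨i, hi, j, hj, hij, hbi, hbj⟩ := two_switches n (by omega)
          (fun i => ‖x i - c‖ < r) (fun i => by rw [hn]) ⟨i0, hi0'⟩ ⟨i1, not_lt.2 hi1'.le⟩
        have h2 : ∑ k ∈ ({i, j} : Finset ℕ),
            (Set.uIoc ‖x k - c‖ ‖x (k + 1) - c‖).indicator (fun _ => (1 : ℝ≥0∞)) r = 2 := by
          rw [Finset.sum_pair hij, Set.indicator_of_mem ((mem_uIoc_iff_not _ _ _).2 hbi),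
            Set.indicator_of_mem ((mem_uIoc_iff_not _ _ _).2 hbj)]
          norm_num
        rw [← h2]
        refine Finset.sum_le_sum_of_subset ?_
        intro k hk
        simp only [Finset.mem_insert, Finset.mem_singleton] at hk
        rcases hk with rfl | rfl <;> simp [*]
    _ = ∑ i ∈ Finset.range n, ∫⁻ r in R,
          (Set.uIoc ‖x i - c‖ ‖x (i + 1) - c‖).indicator (fun _ => (1 : ℝ≥0∞)) r :=
        lintegral_finsetSum _ fun i _ => measurable_const.indicator (hI i)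
    _ = ∑ i ∈ Finset.range n, volume (R ∩ Set.uIoc ‖x i - c‖ ‖x (i + 1) - c‖) := by
        refine Finset.sum_congr rfl fun i _ => ?_
        rw [lintegral_indicator (hI i), setLIntegral_const, one_mul,
          Measure.restrict_apply (hI i), Set.inter_comm]

/-- Lower bound for one tour. -/
theorem tour_rings (l : List ℂ) {α : Type} (A : Finset α) (c : α → ℂ) (R : α → Set ℝ)
    (hm : ∀ a ∈ A, MeasurableSet (R a))
    (hsep : ∀ a ∈ A, ∀ r ∈ R a, (∃ p ∈ l, ‖p - c a‖ < r) ∧ (∃ p ∈ l, r < ‖p - c a‖))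
    (hdisj : ∀ a ∈ A, ∀ b ∈ A, a ≠ b → ∀ r ∈ R a, ∀ s ∈ R b, ∀ y : ℂ, ‖y - c a‖ = r →
      ‖y - c b‖ = s → False) :
    2 * ∑ a ∈ A, volume (R a) ≤ ENNReal.ofReal (tour l) := by
  set n := l.length with hn
  set x : ℕ → ℂ := fun i => l.getD (i % n) 0 with hx
  have hxn : ∀ i, x (i % n) = x i := by
    intro i; simp only [hx, Nat.mod_mod]
  have htour : tour l = ∑ i ∈ Finset.range n, ‖x i - x (i + 1)‖ := by
    rw [tour, Finset.sum_range]
    refine Finset.sum_congr rfl fun i _ => ?_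
    have h1 : l.get i = x i.val := by
      simp only [hx]
      rw [Nat.mod_eq_of_lt i.isLt, List.getD_eq_getElem _ _ i.isLt]
      rfl
    rw [h1]
  have hmem : ∀ p ∈ l, ∃ i < n, x i = p := by
    intro p hp
    obtain ⟨i, hi, hip⟩ := List.mem_iff_getElem.1 hp
    refine ⟨i, hi, ?_⟩
    simp only [hx]
    rw [Nat.mod_eq_of_lt hi, List.getD_eq_getElem _ _ hi, hip]
  rw [htour, ENNReal.ofReal_sum_of_nonneg (fun i _ => norm_nonneg _), Finset.mul_sum]
  calc ∑ a ∈ A, 2 * volume (R a)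
      ≤ ∑ a ∈ A, ∑ i ∈ Finset.range n,
          volume (R a ∩ Set.uIoc ‖x i - c a‖ ‖x (i + 1) - c a‖) := by
        refine Finset.sum_le_sum fun a ha => rings_two x n hxn (c a) (R a) (hm a ha) ?_
        intro r hr
        obtain ⟨⟨p, hp, hp'⟩, ⟨q, hq, hq'⟩⟩ := hsep a ha r hr
        obtain ⟨i, hi, rfl⟩ := hmem p hp
        obtain ⟨j, hj, rfl⟩ := hmem q hq
        exact ⟨⟨i, hi, hp'⟩, ⟨j, hj, hq'⟩⟩
    _ = ∑ i ∈ Finset.range n, ∑ a ∈ A,
          volume (R a ∩ Set.uIoc ‖x i - c a‖ ‖x (i + 1) - c a‖) := Finset.sum_comm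
    _ ≤ ∑ i ∈ Finset.range n, ENNReal.ofReal ‖x i - x (i + 1)‖ :=
        Finset.sum_le_sum fun i _ => rings_edge_sum _ _ A c R hm hdisj

theorem tsp_rings (P : Finset ℂ) {α : Type} (A : Finset α) (c : α → ℂ) (R : α → Set ℝ)
    (hm : ∀ a ∈ A, MeasurableSet (R a))
    (hsep : ∀ a ∈ A, ∀ r ∈ R a, (∃ p ∈ P, ‖p - c a‖ < r) ∧ (∃ p ∈ P, r < ‖p - c a‖))
    (hdisj : ∀ a ∈ A, ∀ b ∈ A, a ≠ b → ∀ r ∈ R a, ∀ s ∈ R b, ∀ y : ℂ, ‖y - c a‖ = r →
      ‖y - c b‖ = s → False) :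
    2 * ∑ a ∈ A, (volume (R a)).toReal ≤ tsp P := by
  refine le_csInf ⟨tour P.toList, P.toList, P.nodup_toList, P.toList_toFinset, rfl⟩ ?_
  rintro _ ⟨l, hl, rfl, rfl⟩
  have h := tour_rings l A c R hm (by simpa using hsep) hdisj
  have h0 : 0 ≤ tour l := Finset.sum_nonneg fun i _ => norm_nonneg _
  have hfin : 2 * ∑ a ∈ A, volume (R a) < ⊤ := h.trans_lt ENNReal.ofReal_lt_top
  have hfin2 : ∀ a ∈ A, volume (R a) ≠ ⊤ := by
    intro a ha hcon
    have h1 : volume (R a) ≤ ∑ a ∈ A, volume (R a) :=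
      Finset.single_le_sum (f := fun a => volume (R a)) (fun _ _ => zero_le) ha
    rw [hcon, top_le_iff] at h1
    rw [h1] at hfin
    simp at hfin
  have h2 := ENNReal.toReal_mono ENNReal.ofReal_ne_top h
  rw [ENNReal.toReal_ofReal h0, ENNReal.toReal_mul, ENNReal.toReal_sum hfin2] at h2
  simpa using h2

end Pool.Agent.H49.Tsp
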