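import Pool.Agent.H49.Tsp.Basic

/-!
The union trick: a closed walk through a connected even multigraph, shortcutting, averaging.
-/

set_option autoImplicit false

namespace Pool.Agent.H49.Tsp

open Classical

namespace Euler

/-- length of the path from `u` along the list -/
noncomputable def pc : ℂ → List ℂ → ℝ
  | _, [] => 0
  | u, v :: l => ‖u - v‖ + pc v l

theorem pc_nonneg (u : ℂ) (l : List ℂ) : 0 ≤ pc u l := by
  induction l generalizing u with
  | nil => exact le_rfl
  | cons v l ih => exact add_nonneg (norm_nonneg _) (ih v)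

theorem pc_tri (u a : ℂ) (m : List ℂ) : pc u m ≤ ‖u - a‖ + pc a m := by
  cases m with
  | nil => simp [pc]
  | cons x r =>
    have h1 : ‖u - x‖ ≤ ‖u - a‖ + ‖a - x‖ := norm_sub_le_norm_sub_add_norm_sub u a x
    simp only [pc]
    linarith

theorem pc_sublist {l' l : List ℂ} (h : l'.Sublist l) (u w : ℂ) :
    pc u (l' ++ [w]) ≤ pc u (l ++ [w]) := by
  induction h generalizing u with
  | slnil => exact le_rfl
  | cons a h ih =>
    rw [List.cons_append]
    exact (pc_tri u a _).trans (by simp only [pc]; linarith [ih a])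
  | cons_cons a h ih =>
    rw [List.cons_append, List.cons_append]
    simp only [pc]
    linarith [ih a]

theorem sum_pc (t : List ℂ) (u w : ℂ) :
    ∑ i ∈ Finset.range t.length, ‖(u :: t).getD i 0 - t.getD i 0‖
      + ‖(u :: t).getD t.length 0 - w‖ = pc u (t ++ [w]) := by
  induction t generalizing u with
  | nil => simp [pc]
  | cons v s ih =>
    rw [List.length_cons, Finset.sum_range_succ', List.cons_append]
    simp only [pc]
    rw [← ih v]
    simp only [List.getD_cons_succ, List.getD_cons_zero]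
    ring

theorem tour_cons (u : ℂ) (t : List ℂ) : tour (u :: t) = pc u (t ++ [u]) := by
  have h1 : tour (u :: t) = ∑ i ∈ Finset.range (t.length + 1),
      ‖(u :: t).getD i 0 - (u :: t).getD ((i + 1) % (t.length + 1)) 0‖ := by
    rw [← Fin.sum_univ_eq_sum_range
      (fun i => ‖(u :: t).getD i 0 - (u :: t).getD ((i + 1) % (t.length + 1)) 0‖)]
    unfold tour
    apply Finset.sum_congr rfl
    intro i _
    rw [List.getD_eq_getElem _ _ i.isLt]
    rfl
  rw [h1, Finset.sum_range_succ, Nat.mod_self, List.getD_cons_zero, ← sum_pc t u u]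
  congr 1
  apply Finset.sum_congr rfl
  intro i hi
  rw [Finset.mem_range] at hi
  rw [Nat.mod_eq_of_lt (by omega), List.getD_cons_succ]

theorem tour_nonneg (l : List ℂ) : 0 ≤ tour l := Finset.sum_nonneg fun _ _ => norm_nonneg _

theorem tsp_le {P : Finset ℂ} (l : List ℂ) (h1 : l.Nodup) (h2 : l.toFinset = P) :
    tsp P ≤ tour l := by
  apply csInf_le
  · refine ⟨0, ?_⟩
    rintro x ⟨l, _, _, rfl⟩
    exact tour_nonneg l
  · exact ⟨l, h1, h2, rfl⟩

/-- shortcutting a closed walk -/
theorem tsp_le_closed {P : Finset ℂ} (u : ℂ) (m : List ℂ) (hu : u ∈ P) (hm : ∀ p ∈ m, p ∈ P)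
    (hP : ∀ p ∈ P, p = u ∨ p ∈ m) : tsp P ≤ pc u (m ++ [u]) := by
  set l := (m.filter (fun p => p ≠ u)).dedup with hl
  have hsub : l.Sublist m := (List.dedup_sublist _).trans List.filter_sublist
  have h1 : (u :: l).Nodup := by
    rw [List.nodup_cons]
    refine ⟨?_, List.nodup_dedup _⟩
    rw [hl, List.mem_dedup, List.mem_filter]
    simp
  have h2 : (u :: l).toFinset = P := by
    ext p
    rw [List.mem_toFinset, List.mem_cons, hl, List.mem_dedup, List.mem_filter]
    constructor
    · rintro (rfl | ⟨h, _⟩)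
      · exact hu
      · exact hm p h
    · intro hp
      by_cases hpu : p = u
      · exact Or.inl hpu
      · rcases hP p hp with h | h
        · exact absurd h hpu
        · exact Or.inr ⟨h, by simpa using hpu⟩
  calc tsp P ≤ tour (u :: l) := tsp_le _ h1 h2
    _ = pc u (l ++ [u]) := tour_cons u l
    _ ≤ pc u (m ++ [u]) := pc_sublist hsub u u

section walks

variable {κ : Type} (a b : κ → ℂ)

/-- a walk with named edges -/
def IsWalk : ℂ → List (κ × ℂ) → Prop
  | _, [] => True
  | u, s :: L => ((a s.1 = u ∧ b s.1 = s.2) ∨ (a s.1 = s.2 ∧ b s.1 = u)) ∧ IsWalk s.2 L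

/-- last vertex -/
def fin : ℂ → List (κ × ℂ) → ℂ
  | u, [] => u
  | _, s :: L => fin s.2 L

theorem fin_append (u : ℂ) (L M : List (κ × ℂ)) : fin u (L ++ M) = fin (fin u L) M := by
  induction L generalizing u with
  | nil => rfl
  | cons s L ih => simp only [List.cons_append, fin]; exact ih s.2

theorem isWalk_append (u : ℂ) (L M : List (κ × ℂ)) :
    IsWalk a b u (L ++ M) ↔ IsWalk a b u L ∧ IsWalk a b (fin u L) M := by
  induction L generalizing u with
  | nil => simp [IsWalk, fin]
  | cons s L ih =>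
    simp only [List.cons_append, IsWalk, fin]
    rw [ih s.2]
    tauto

/-- indicator mod 2 -/
noncomputable def ind (x p : ℂ) : ZMod 2 := if x = p then 1 else 0

theorem two_zmod (x : ZMod 2) : x + x = 0 := by
  have : x + x = 2 * x := by ring
  rw [this, show (2 : ZMod 2) = 0 from rfl, zero_mul]

theorem walk_parity (p : ℂ) (u : ℂ) (L : List (κ × ℂ)) (h : IsWalk a b u L) :
    ((L.map Prod.fst).map (fun e => ind (a e) p + ind (b e) p)).sum = ind u p + ind (fin u L) p := by
  induction L generalizing u with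
  | nil => simp [fin, two_zmod]
  | cons s L ih =>
    obtain ⟨h1, h2⟩ := h
    simp only [List.map_cons, List.sum_cons, fin]
    rw [ih s.2 h2]
    rcases h1 with ⟨h3, h4⟩ | ⟨h3, h4⟩
    · rw [h3, h4]
      linear_combination two_zmod (ind s.2 p)
    · rw [h3, h4]
      linear_combination two_zmod (ind s.2 p)

theorem walk_ends (u : ℂ) (L : List (κ × ℂ)) (h : IsWalk a b u L) (e : κ)
    (he : e ∈ L.map Prod.fst) :
    (a e = u ∨ a e ∈ L.map Prod.snd) ∧ (b e = u ∨ b e ∈ L.map Prod.snd) := by
  induction L generalizing u with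
  | nil => simp at he
  | cons s L ih =>
    obtain ⟨h1, h2⟩ := h
    simp only [List.map_cons, List.mem_cons] at he ⊢
    rcases he with rfl | he
    · rcases h1 with ⟨h3, h4⟩ | ⟨h3, h4⟩
      · exact ⟨Or.inl h3, Or.inr (Or.inl h4)⟩
      · exact ⟨Or.inr (Or.inl h3), Or.inl h4⟩
    · have := ih s.2 h2 he
      tauto

theorem walk_pc (u : ℂ) (L : List (κ × ℂ)) (h : IsWalk a b u L) :
    pc u (L.map Prod.snd) = ((L.map Prod.fst).map (fun e => ‖a e - b e‖)).sum := by
  induction L generalizing u with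
  | nil => simp [pc]
  | cons s L ih =>
    obtain ⟨h1, h2⟩ := h
    simp only [List.map_cons, List.sum_cons, pc]
    rw [ih s.2 h2]
    rcases h1 with ⟨h3, h4⟩ | ⟨h3, h4⟩
    · rw [h3, h4]
    · rw [h3, h4, norm_sub_rev]

theorem rotate (u w : ℂ) (L : List (κ × ℂ)) (h : IsWalk a b u L) (hf : fin u L = u)
    (hw : w = u ∨ w ∈ L.map Prod.snd) :
    ∃ L' : List (κ × ℂ), IsWalk a b w L' ∧ fin w L' = w ∧ L'.Perm L := by
  rcases hw with rfl | hw
  · exact ⟨L, h, hf, List.Perm.refl _⟩
  · rw [List.mem_map] at hw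
    obtain ⟨s, hs, hsw⟩ := hw
    obtain ⟨L1, L2, rfl⟩ := List.append_of_mem hs
    have e1 : L1 ++ s :: L2 = (L1 ++ [s]) ++ L2 := by simp
    have e2 : fin u (L1 ++ [s]) = w := by rw [fin_append]; exact hsw
    rw [e1] at h hf
    rw [isWalk_append, e2] at h
    rw [fin_append, e2] at hf
    refine ⟨L2 ++ (L1 ++ [s]), ?_, ?_, ?_⟩
    · rw [isWalk_append, hf]
      exact ⟨h.2, h.1⟩
    · rw [fin_append, hf, e2]
    · rw [e1]
      exact List.perm_append_comm

/-- A closed trail through all the vertices of a connected even multigraph. -/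
theorem exists_closed (J : Finset κ) (P : Finset ℂ) (u0 : ℂ) (hu0 : u0 ∈ P)
    (hends : ∀ e ∈ J, a e ∈ P ∧ b e ∈ P)
    (heven : ∀ p ∈ P, ∑ e ∈ J, (ind (a e) p + ind (b e) p) = 0)
    (hconn : ∀ A ⊆ P, A.Nonempty → A ≠ P → ∃ e ∈ J, (a e ∈ A ∧ b e ∉ A) ∨ (a e ∉ A ∧ b e ∈ A)) :
    ∃ (u : ℂ) (L : List (κ × ℂ)), u ∈ P ∧ IsWalk a b u L ∧ fin u L = u ∧
      (L.map Prod.fst).Nodup ∧ (∀ e ∈ L.map Prod.fst, e ∈ J) ∧
      ∀ p ∈ P, p = u ∨ p ∈ L.map Prod.snd := by
  set Q : ℕ → Prop := fun n => ∃ (u : ℂ) (L : List (κ × ℂ)), u ∈ P ∧ IsWalk a b u L ∧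
      (L.map Prod.fst).Nodup ∧ (∀ e ∈ L.map Prod.fst, e ∈ J) ∧ L.length = n with hQ
  have hQ0 : Q 0 := ⟨u0, [], hu0, trivial, by simp, by simp, rfl⟩
  have hQb : ∀ n, Q n → n ≤ J.card := by
    rintro n ⟨u, L, _, _, h3, h4, rfl⟩
    have h5 : (L.map Prod.fst).toFinset ⊆ J := by
      intro e he
      exact h4 e (List.mem_toFinset.1 he)
    have h6 := Finset.card_le_card h5
    rw [List.toFinset_card_of_nodup h3, List.length_map] at h6
    exact h6
  set n := Nat.findGreatest Q J.card with hn
  have hnQ : Q n := Nat.findGreatest_spec (Nat.zero_le _) hQ0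
  have hmax : ∀ m, Q m → m ≤ n := fun m hm => Nat.le_findGreatest (hQb m hm) hm
  obtain ⟨u, L, hu, hW, hnd, hJ, hlen⟩ := hnQ
  -- extension at the front
  have hext : ∀ (w : ℂ) (L' : List (κ × ℂ)) (e : κ), IsWalk a b w L' → L'.Perm L → e ∈ J →
      e ∉ L.map Prod.fst → (a e = w ∨ b e = w) → False := by
    intro w L' e h1 h2 h3 h4 h5
    have h6 : (L'.map Prod.fst).Perm (L.map Prod.fst) := h2.map _
    have h7 : Q (n + 1) := by
      rcases h5 with h5 | h5
      · refine ⟨b e, (e, w) :: L', (hends e h3).2, ⟨Or.inr ⟨h5, rfl⟩, h1⟩, ?_, ?_, ?_⟩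
        · simp only [List.map_cons, List.nodup_cons]
          exact ⟨fun h => h4 (h6.mem_iff.1 h), h6.nodup_iff.2 hnd⟩
        · intro e' he'
          simp only [List.map_cons, List.mem_cons] at he'
          rcases he' with rfl | he'
          · exact h3
          · exact hJ e' (h6.mem_iff.1 he')
        · simp [h2.length_eq, hlen]
      · refine ⟨a e, (e, w) :: L', (hends e h3).1, ⟨Or.inl ⟨rfl, h5⟩, h1⟩, ?_, ?_, ?_⟩
        · simp only [List.map_cons, List.nodup_cons]
          exact ⟨fun h => h4 (h6.mem_iff.1 h), h6.nodup_iff.2 hnd⟩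
        · intro e' he'
          simp only [List.map_cons, List.mem_cons] at he'
          rcases he' with rfl | he'
          · exact h3
          · exact hJ e' (h6.mem_iff.1 he')
        · simp [h2.length_eq, hlen]
    have := hmax _ h7
    omega
  have hclosed : fin u L = u := by
    by_contra hne
    have h1 := walk_parity a b u u L hW
    have h2 : ind u u + ind (fin u L) u = (1 : ZMod 2) := by simp [ind, hne]
    rw [h2, ← List.sum_toFinset _ hnd] at h1
    have h3 := heven u hu
    have hsub : (L.map Prod.fst).toFinset ⊆ J := fun e he => hJ e (List.mem_toFinset.1 he)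
    rw [← Finset.sum_sdiff hsub, h1] at h3
    have h4 : ∑ e ∈ J \ (L.map Prod.fst).toFinset, (ind (a e) u + ind (b e) u) ≠ 0 := by
      intro h
      rw [h] at h3
      exact absurd h3 (by decide)
    obtain ⟨e, he, hne'⟩ := Finset.exists_ne_zero_of_sum_ne_zero h4
    rw [Finset.mem_sdiff, List.mem_toFinset] at he
    have h5 : a e = u ∨ b e = u := by
      by_contra hcon
      rw [not_or] at hcon
      exact hne' (by simp [ind, hcon.1, hcon.2])
    exact hext u L e hW (List.Perm.refl _) he.1 he.2 h5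
  refine ⟨u, L, hu, hW, hclosed, hnd, hJ, ?_⟩
  set A := P.filter (fun p => p = u ∨ p ∈ L.map Prod.snd) with hA
  by_cases hAP : A = P
  · intro p hp
    rw [← hAP, hA, Finset.mem_filter] at hp
    exact hp.2
  · exfalso
    obtain ⟨e, he, hcross⟩ := hconn A (Finset.filter_subset _ _)
      ⟨u, by rw [hA, Finset.mem_filter]; exact ⟨hu, Or.inl rfl⟩⟩ hAP
    have hnot : e ∉ L.map Prod.fst := by
      intro h
      have h1 := walk_ends a b u L hW e h
      have h2 : a e ∈ A := by rw [hA, Finset.mem_filter]; exact ⟨(hends e he).1, h1.1⟩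
      have h3 : b e ∈ A := by rw [hA, Finset.mem_filter]; exact ⟨(hends e he).2, h1.2⟩
      tauto
    rcases hcross with ⟨h1, _⟩ | ⟨_, h1⟩
    · rw [hA, Finset.mem_filter] at h1
      obtain ⟨L', h2, _, h3⟩ := rotate a b u (a e) L hW hclosed h1.2
      exact hext (a e) L' e h2 h3 he hnot (Or.inl rfl)
    · rw [hA, Finset.mem_filter] at h1
      obtain ⟨L', h2, _, h3⟩ := rotate a b u (b e) L hW hclosed h1.2
      exact hext (b e) L' e h2 h3 he hnot (Or.inr rfl)

/-- The travelling salesman bound from a connected even multigraph. -/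
theorem tsp_le_sum (J : Finset κ) (P : Finset ℂ) (u0 : ℂ) (hu0 : u0 ∈ P)
    (hends : ∀ e ∈ J, a e ∈ P ∧ b e ∈ P)
    (heven : ∀ p ∈ P, ∑ e ∈ J, (ind (a e) p + ind (b e) p) = 0)
    (hconn : ∀ A ⊆ P, A.Nonempty → A ≠ P → ∃ e ∈ J, (a e ∈ A ∧ b e ∉ A) ∨ (a e ∉ A ∧ b e ∈ A)) :
    tsp P ≤ ∑ e ∈ J, ‖a e - b e‖ := by
  obtain ⟨u, L, hu, hW, hf, hnd, hJ, hcov⟩ := exists_closed a b J P u0 hu0 hends heven hconn
  have hverts : ∀ p ∈ L.map Prod.snd, p ∈ P := by
    clear hcov hf hnd
    induction L generalizing u with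
    | nil => simp
    | cons s L ih =>
      obtain ⟨h1, h2⟩ := hW
      have hs : s.1 ∈ J := hJ s.1 (by simp)
      have hs2 : s.2 ∈ P := by
        rcases h1 with ⟨h3, h4⟩ | ⟨h3, h4⟩
        · rw [← h4]; exact (hends _ hs).2
        · rw [← h3]; exact (hends _ hs).1
      intro p hp
      simp only [List.map_cons, List.mem_cons] at hp
      rcases hp with rfl | hp
      · exact hs2
      · exact ih s.2 hs2 h2 (fun e he => hJ e (by simp at he ⊢; tauto)) p hp
  have hsum : ((L.map Prod.fst).map (fun e => ‖a e - b e‖)).sum ≤ ∑ e ∈ J, ‖a e - b e‖ := by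
    rw [← List.sum_toFinset _ hnd]
    apply Finset.sum_le_sum_of_subset_of_nonneg
    · intro e he
      exact hJ e (List.mem_toFinset.1 he)
    · intro _ _ _
      exact norm_nonneg _
  rw [← walk_pc a b u L hW] at hsum
  refine le_trans ?_ hsum
  rcases List.eq_nil_or_concat L with rfl | ⟨M, s, rfl⟩
  · have h1 := tsp_le_closed (P := P) u [] hu (by simp) (by simpa using hcov)
    simpa [pc] using h1
  · have h1 : fin u (M ++ [s]) = s.2 := by rw [fin_append]; rfl
    rw [List.concat_eq_append] at *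
    rw [h1] at hf
    rw [List.map_append] at hcov hverts ⊢
    simp only [List.map_cons, List.map_nil] at hcov hverts ⊢
    rw [hf] at hcov hverts ⊢
    apply tsp_le_closed u _ hu
    · intro p hp
      exact hverts p (by simp only [List.mem_append]; exact Or.inl hp)
    · intro p hp
      have := hcov p hp
      simp only [List.mem_append, List.mem_singleton] at this
      tauto

end walks

section tree

variable {P : Finset ℂ} (T : RTree P)

theorem par_sum (p : ℂ) : ∀ (n : ℕ) (x : ℂ), x ∈ P → T.dep x = n →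
    ∑ v ∈ P.filter (fun v => v ≠ T.root ∧ x ∈ T.D v), (ind v p + ind (T.par v) p)
      = ind x p + ind T.root p := by
  intro n
  induction n using Nat.strong_induction_on with
  | _ n ih =>
    intro x hx hn
    by_cases hr : x = T.root
    · rw [hr, two_zmod, Finset.filter_false_of_mem, Finset.sum_empty]
      rintro v _ ⟨h1, h2⟩
      obtain ⟨_, k, hk⟩ := T.mem_D.1 h2
      rw [T.iter_root] at hk
      exact h1 hk.symm
    · have h1 : P.filter (fun v => v ≠ T.root ∧ x ∈ T.D v)
          = insert x (P.filter (fun v => v ≠ T.root ∧ T.par x ∈ T.D v)) := by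
        ext v
        simp only [Finset.mem_filter, Finset.mem_insert]
        constructor
        · rintro ⟨h2, h3, h4⟩
          by_cases hv : v = x
          · exact Or.inl hv
          · exact Or.inr ⟨h2, h3, T.par_mem_D h4 (fun h => hv h.symm)⟩
        · rintro (rfl | ⟨h2, h3, h4⟩)
          · exact ⟨hx, hr, T.self_mem_D hx⟩
          · exact ⟨h2, h3, T.D_trans (T.mem_D_par (T.self_mem_D hx)) h4⟩
      have h2 : x ∉ P.filter (fun v => v ≠ T.root ∧ T.par x ∈ T.D v) := by
        rw [Finset.mem_filter]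
        rintro ⟨_, _, h⟩
        exact T.par_not_mem_D hx hr h
      rw [h1, Finset.sum_insert h2, ih (T.dep (T.par x)) (hn ▸ T.dep_lt x hx hr) (T.par x)
        (T.par_mem x hx) rfl]
      linear_combination two_zmod (ind (T.par x) p)

theorem sep_sum (p x y : ℂ) (hx : x ∈ P) (hy : y ∈ P) :
    ∑ v ∈ P.filter (fun v => v ≠ T.root), (if v ∈ T.sep x y then (ind v p + ind (T.par v) p) else 0)
      = ind x p + ind y p := by
  have h1 := par_sum T p _ x hx rfl
  have h2 := par_sum T p _ y hy rfl
  have h3 : ∀ z : ℂ, ∑ v ∈ P.filter (fun v => v ≠ T.root ∧ z ∈ T.D v),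
      (ind v p + ind (T.par v) p) = ∑ v ∈ P.filter (fun v => v ≠ T.root),
        (if z ∈ T.D v then (ind v p + ind (T.par v) p) else 0) := by
    intro z
    rw [← Finset.sum_filter, Finset.filter_filter]
  rw [h3] at h1 h2
  have h4 : ind x p + ind y p = (ind x p + ind T.root p) + (ind y p + ind T.root p) := by
    linear_combination - two_zmod (ind T.root p)
  rw [h4, ← h1, ← h2, ← Finset.sum_add_distrib]
  apply Finset.sum_congr rfl
  intro v hv
  rw [Finset.mem_filter] at hv
  have hs : v ∈ T.sep x y ↔ ¬ (x ∈ T.D v ↔ y ∈ T.D v) := by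
    rw [T.mem_sep]; exact ⟨fun h => h.2, fun h => ⟨hv.1, h⟩⟩
  by_cases hxv : x ∈ T.D v <;> by_cases hyv : y ∈ T.D v
  · have h5 : v ∉ T.sep x y := by rw [hs]; tauto
    rw [if_neg h5, if_pos hxv, if_pos hyv]
    exact (two_zmod _).symm
  · have h5 : v ∈ T.sep x y := by rw [hs]; tauto
    rw [if_pos h5, if_pos hxv, if_neg hyv, add_zero]
  · have h5 : v ∈ T.sep x y := by rw [hs]; tauto
    rw [if_pos h5, if_neg hxv, if_pos hyv, zero_add]
  · have h5 : v ∉ T.sep x y := by rw [hs]; tauto
    rw [if_neg h5, if_neg hxv, if_neg hyv, add_zero]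

variable {ι : Type}

/-- how often the edge `v` is used by the chords in `S` -/
noncomputable def cnt (x y : ι → ℂ) (S : Finset ι) (v : ℂ) : ℕ :=
  (S.filter (fun i => v ∈ T.sep (x i) (y i))).card

/-- the bound for one set of chords -/
theorem one_set (S : Finset ι) (x y : ι → ℂ) (hx : ∀ i ∈ S, x i ∈ P) (hy : ∀ i ∈ S, y i ∈ P) :
    tsp P ≤ ∑ v ∈ P.filter (fun v => v ≠ T.root), T.len v
      + ∑ v ∈ (P.filter (fun v => v ≠ T.root)).filter (fun v => Even (cnt T x y S v)), T.len v
      + ∑ i ∈ S, ‖x i - y i‖ := by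
  set T1 := P.filter (fun v => v ≠ T.root) with hT1
  set T2 := T1.filter (fun v => Even (cnt T x y S v)) with hT2
  have hmem1 : ∀ v ∈ T1, v ∈ P := fun v hv => (Finset.mem_filter.1 hv).1
  have h := tsp_le_sum (κ := (ℂ ⊕ ℂ) ⊕ ι) (Sum.elim (Sum.elim id id) x)
    (Sum.elim (Sum.elim T.par T.par) y) ((T1.disjSum T2).disjSum S) P T.root T.root_mem ?_ ?_ ?_
  · rw [Finset.sum_disjSum, Finset.sum_disjSum] at h
    exact h
  · intro e he
    rw [Finset.mem_disjSum] at he
    rcases he with ⟨e', he', rfl⟩ | ⟨i, hi, rfl⟩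
    · rw [Finset.mem_disjSum] at he'
      rcases he' with ⟨v, hv, rfl⟩ | ⟨v, hv, rfl⟩
      · exact ⟨hmem1 v hv, T.par_mem v (hmem1 v hv)⟩
      · have := hmem1 v (Finset.mem_filter.1 hv).1
        exact ⟨this, T.par_mem v this⟩
    · exact ⟨hx i hi, hy i hi⟩
  · intro p _
    rw [Finset.sum_disjSum, Finset.sum_disjSum]
    simp only [Sum.elim_inl, Sum.elim_inr, id]
    have h1 : ∑ v ∈ T1, (ind v p + ind (T.par v) p) + ∑ v ∈ T2, (ind v p + ind (T.par v) p)
        = ∑ i ∈ S, (ind (x i) p + ind (y i) p) := by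
      have h0 : ∑ v ∈ T2, (ind v p + ind (T.par v) p) = ∑ v ∈ T1,
          (if Even (cnt T x y S v) then (ind v p + ind (T.par v) p) else 0) := by
        rw [hT2, Finset.sum_filter]
      rw [h0, ← Finset.sum_add_distrib]
      have h2 : ∀ v ∈ T1, (ind v p + ind (T.par v) p)
          + (if Even (cnt T x y S v) then (ind v p + ind (T.par v) p) else 0)
          = ∑ i ∈ S, (if v ∈ T.sep (x i) (y i) then (ind v p + ind (T.par v) p) else 0) := by
        intro v _
        rw [← Finset.sum_filter, Finset.sum_const, nsmul_eq_mul]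
        change _ = ((cnt T x y S v : ℕ) : ZMod 2) * _
        by_cases hev : Even (cnt T x y S v)
        · rw [if_pos hev, (ZMod.natCast_eq_zero_iff_even).2 hev, zero_mul, two_zmod]
        · rw [if_neg hev, (ZMod.natCast_eq_one_iff_odd).2 (Nat.not_even_iff_odd.1 hev), one_mul,
            add_zero]
      rw [Finset.sum_congr rfl h2, Finset.sum_comm]
      apply Finset.sum_congr rfl
      intro i hi
      exact sep_sum T p (x i) (y i) (hx i hi) (hy i hi)
    rw [h1, two_zmod]
  · intro A hA hne hAP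
    by_contra hcon
    push Not at hcon
    have h1 : ∀ v ∈ P, (v ∈ A ↔ T.par v ∈ A) := by
      intro v hv
      by_cases hr : v = T.root
      · rw [hr, T.par_root]
      · have h2 := hcon (Sum.inl (Sum.inl v)) (by
          rw [Finset.mem_disjSum]
          left
          refine ⟨Sum.inl v, ?_, rfl⟩
          rw [Finset.mem_disjSum]
          left
          exact ⟨v, by rw [hT1, Finset.mem_filter]; exact ⟨hv, hr⟩, rfl⟩)
        simp only [Sum.elim_inl, id] at h2
        constructor
        · exact h2.1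
        · intro h3
          by_contra h4
          exact h2.2 h4 h3
    have h2 : ∀ (k : ℕ) (v : ℂ), v ∈ P → (v ∈ A ↔ T.par^[k] v ∈ A) := by
      intro k
      induction k with
      | zero => intro v _; exact Iff.rfl
      | succ k ih =>
        intro v hv
        rw [Function.iterate_succ_apply, ← ih (T.par v) (T.par_mem v hv)]
        exact h1 v hv
    have h3 : ∀ v ∈ P, (v ∈ A ↔ T.root ∈ A) := by
      intro v hv
      obtain ⟨_, k, hk⟩ := T.mem_D.1 (T.mem_D_root hv)
      rw [h2 k v hv, hk]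
    obtain ⟨w, hw⟩ := hne
    apply hAP
    apply Finset.Subset.antisymm hA
    intro v hv
    rw [h3 v hv, ← h3 w (hA hw)]
    exact hw

/-- the sign of the edge `v` -/
noncomputable def eps (x y : ι → ℂ) (v : ℂ) (i : ι) : ℝ := if v ∈ T.sep (x i) (y i) then -1 else 1

theorem prod_eps (x y : ι → ℂ) (S : Finset ι) (v : ℂ) :
    ∏ i ∈ S, eps T x y v i = if Even (cnt T x y S v) then 1 else -1 := by
  unfold eps cnt
  rw [Finset.prod_ite, Finset.prod_const, Finset.prod_const_one, mul_one]
  split_ifs with h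
  · exact h.neg_one_pow
  · exact (Nat.not_even_iff_odd.1 h).neg_one_pow

theorem sum_sub (I : Finset ι) (c : ι → ℝ) :
    ∑ S ∈ I.powerset, ∑ i ∈ S, c i = 2 ^ I.card / 2 * ∑ i ∈ I, c i := by
  induction I using Finset.induction_on with
  | empty => simp
  | insert i I hi ih =>
    rw [Finset.sum_powerset_insert hi]
    have h1 : ∀ S ∈ I.powerset, ∑ j ∈ insert i S, c j = c i + ∑ j ∈ S, c j := by
      intro S hS
      rw [Finset.sum_insert]
      intro h
      exact hi (Finset.mem_powerset.1 hS h)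
    rw [Finset.sum_congr rfl h1, Finset.sum_add_distrib, ih, Finset.sum_const,
      Finset.card_powerset, Finset.card_insert_of_notMem hi, Finset.sum_insert hi, nsmul_eq_mul]
    push_cast
    ring

end tree

end Euler

theorem tsp_nonneg (P : Finset ℂ) : 0 ≤ tsp P := by
  apply Real.sInf_nonneg
  rintro x ⟨l, _, _, rfl⟩
  exact Euler.tour_nonneg l

open Euler in
theorem union_trick {P : Finset ℂ} (T : RTree P) {ι : Type} (I : Finset ι) (x y : ι → ℂ)
    (hx : ∀ i ∈ I, x i ∈ P) (hy : ∀ i ∈ I, y i ∈ P) :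
    tsp P ≤ 2 * T.total
      - 1 / 2 * (T.wt (I.biUnion fun i => T.sep (x i) (y i)) - ∑ i ∈ I, ‖x i - y i‖) := by
  set U := I.biUnion fun i => T.sep (x i) (y i) with hU
  have hUP : U ⊆ P := by
    intro v hv
    rw [hU, Finset.mem_biUnion] at hv
    obtain ⟨i, _, hi⟩ := hv
    exact T.sep_sub _ _ hi
  have htot : ∑ v ∈ P.filter (fun v => v ≠ T.root), T.len v = T.total := by
    unfold RTree.total RTree.wt
    apply Finset.sum_filter_of_ne
    intro v _ hne hr
    exact hne (by rw [hr, T.len_root])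
  have hone : ∀ S ∈ I.powerset, tsp P ≤ T.total
      + ∑ v ∈ P, T.len v * ((1 + ∏ i ∈ S, eps T x y v i) / 2) + ∑ i ∈ S, ‖x i - y i‖ := by
    intro S hS
    rw [Finset.mem_powerset] at hS
    have h1 := one_set T S x y (fun i hi => hx i (hS hi)) (fun i hi => hy i (hS hi))
    rw [htot] at h1
    have h2 : ∑ v ∈ (P.filter (fun v => v ≠ T.root)).filter (fun v => Even (cnt T x y S v)),
        T.len v = ∑ v ∈ P, T.len v * ((1 + ∏ i ∈ S, eps T x y v i) / 2) := by
      rw [Finset.filter_filter, Finset.sum_filter]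
      apply Finset.sum_congr rfl
      intro v _
      rw [prod_eps]
      by_cases hr : v = T.root
      · rw [hr, T.len_root]; simp
      · by_cases hev : Even (cnt T x y S v)
        · rw [if_pos ⟨hr, hev⟩, if_pos hev]; ring
        · rw [if_neg (fun h => hev h.2), if_neg hev]; ring
    rw [h2] at h1
    exact h1
  have hsum := Finset.sum_le_sum hone
  rw [Finset.sum_const, Finset.card_powerset, nsmul_eq_mul, Finset.sum_add_distrib,
    Finset.sum_add_distrib, Finset.sum_const, Finset.card_powerset, nsmul_eq_mul, sum_sub,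
    Finset.sum_comm] at hsum
  have hv : ∀ v ∈ P, ∑ S ∈ I.powerset, T.len v * ((1 + ∏ i ∈ S, eps T x y v i) / 2)
      = 2 ^ I.card * (T.len v - 1 / 2 * (if v ∈ U then T.len v else 0)) := by
    intro v _
    rw [← Finset.mul_sum, ← Finset.sum_div, Finset.sum_add_distrib, ← Finset.prod_one_add,
      Finset.sum_const, Finset.card_powerset, nsmul_eq_mul]
    by_cases hvU : v ∈ U
    · have hvU' := hvU
      rw [hU, Finset.mem_biUnion] at hvU
      obtain ⟨i, hi, hvi⟩ := hvU
      rw [Finset.prod_eq_zero hi (by simp [eps, hvi]), if_pos hvU']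
      push_cast
      ring
    · have h1 : ∏ i ∈ I, (1 + eps T x y v i) = 2 ^ I.card := by
        rw [← Finset.prod_const]
        apply Finset.prod_congr rfl
        intro i hi
        have : v ∉ T.sep (x i) (y i) := fun h => hvU (by
          rw [hU, Finset.mem_biUnion]; exact ⟨i, hi, h⟩)
        simp [eps, this]
        norm_num
      rw [h1, if_neg hvU]
      push_cast
      ring
  rw [Finset.sum_congr rfl hv, ← Finset.mul_sum, Finset.sum_sub_distrib, ← Finset.mul_sum,
    ← Finset.sum_filter, Finset.filter_mem_eq_inter, Finset.inter_eq_right.2 hUP] at hsum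
  have h3 : (0 : ℝ) < 2 ^ I.card := by positivity
  have h4 : ((2 ^ I.card : ℕ) : ℝ) = 2 ^ I.card := by push_cast; rfl
  rw [h4] at hsum
  have h5 : (2 : ℝ) ^ I.card * tsp P ≤ 2 ^ I.card * (2 * T.total
      - 1 / 2 * (T.wt U - ∑ i ∈ I, ‖x i - y i‖)) := by
    refine hsum.trans (le_of_eq ?_)
    unfold RTree.total RTree.wt
    ring
  exact le_of_mul_le_mul_left h5 h3

end Pool.Agent.H49.Tsp
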