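import Pool.Agent.H49.Tsp.Defs3
import Pool.Agent.H49.Tsp.Union
import Pool.Agent.H49.Tsp.Rings

/-!
The number of active squares.
-/

set_option autoImplicit false

namespace Pool.Agent.H49.Tsp

open Classical MeasureTheory

/-- Well separated points of the set. -/
theorem card_sep_le {P : Finset ℂ} (T : RTree P) (D : ℝ) (hD : 0 < D) {α : Type} (A : Finset α)
    (c : α → ℂ) (hc : ∀ a ∈ A, c a ∈ P)
    (hs : ∀ a ∈ A, ∀ b ∈ A, a ≠ b → 2 * D ≤ ‖c a - c b‖) :
    (A.card : ℝ) ≤ T.total / D + 1 := by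
  have htot : 0 ≤ T.total := T.wt_nonneg P
  by_cases h1 : A.card ≤ 1
  · have : (A.card : ℝ) ≤ 1 := by exact_mod_cast h1
    have h2 : 0 ≤ T.total / D := div_nonneg htot hD.le
    linarith
  push Not at h1
  have h2 := tsp_rings P A c (fun _ => Set.Ioo 0 D) (fun _ _ => measurableSet_Ioo) (by
    intro a ha r hr
    refine ⟨⟨c a, hc a ha, by simpa using hr.1⟩, ?_⟩
    obtain ⟨b, hb, hba⟩ := Finset.exists_mem_ne h1 a
    refine ⟨c b, hc b hb, ?_⟩
    have := hs b hb a ha hba
    have h3 := hr.2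
    have h4 := hr.1
    linarith) (by
    intro a ha b hb hab r hr s hs' y hy hy'
    have h3 := hs a ha b hb hab
    have h4 : ‖c a - c b‖ ≤ ‖y - c a‖ + ‖y - c b‖ := by
      calc ‖c a - c b‖ = ‖(y - c b) - (y - c a)‖ := by congr 1; ring
        _ ≤ ‖y - c b‖ + ‖y - c a‖ := norm_sub_le _ _
        _ = _ := add_comm _ _
    have h5 := hr.2
    have h6 := hs'.2
    linarith)
  have h3 := union_trick T (∅ : Finset ℕ) (fun _ => (0 : ℂ)) (fun _ => 0) (by simp) (by simp)
  simp only [Real.volume_Ioo, sub_zero, ENNReal.toReal_ofReal hD.le, Finset.sum_const,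
    nsmul_eq_mul] at h2
  simp only [Finset.biUnion_empty, Finset.sum_empty, sub_zero] at h3
  have h4 : T.wt ∅ = 0 := by simp [RTree.wt]
  rw [h4] at h3
  rw [← sub_le_iff_le_add, le_div_iff₀ hD]
  have h5 : 2 * ((A.card : ℝ) * D) ≤ 2 * T.total := by linarith
  nlinarith

theorem act_card {P : Finset ℂ} (T : RTree P) (s : ℂ) (D : ℝ) (hD : 0 < D) :
    ((act P s D).card : ℝ) ≤ 81 * (T.total / D + 1) := by
  set idx : ℂ → ℤ × ℤ := fun p => (⌊(p.re - s.re) / D⌋, ⌊(p.im - s.im) / D⌋) with hidx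
  set occ : Finset (ℤ × ℤ) := P.image idx with hocc
  set E : Finset (ℤ × ℤ) := (Finset.Icc (-1 : ℤ) 1) ×ˢ (Finset.Icc (-1 : ℤ) 1) with hE
  have hEc : E.card = 9 := by
    rw [hE, Finset.card_product]
    simp
  have h1 : act P s D ⊆ occ.biUnion (fun Q => E.image (fun e => (Q.1 + e.1, Q.2 + e.2))) := by
    intro x hx
    unfold act at hx
    obtain ⟨p, hp, hx⟩ := Finset.mem_biUnion.1 hx
    exact Finset.mem_biUnion.2 ⟨idx p, Finset.mem_image_of_mem _ hp, hx⟩
  have h2 : (act P s D).card ≤ occ.card * 9 := by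
    refine (Finset.card_le_card h1).trans (Finset.card_biUnion_le_card_mul _ _ _ ?_)
    intro Q _
    rw [← hEc]
    exact Finset.card_image_le
  -- choose a point in every occupied square
  have hch : ∀ Q ∈ occ, ∃ p ∈ P, idx p = Q := fun Q hQ => Finset.mem_image.1 hQ
  choose! c hc hcQ using hch
  have h3 : ∀ e ∈ (Finset.range 3 ×ˢ Finset.range 3 : Finset (ℕ × ℕ)),
      ((occ.filter (fun Q => (Q.1 % 3, Q.2 % 3) = ((e.1 : ℤ), (e.2 : ℤ)))).card : ℝ) ≤
        T.total / D + 1 := by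
    intro e _
    refine card_sep_le T D hD _ c (fun Q hQ => hc Q (Finset.mem_filter.1 hQ).1) ?_
    intro Q hQ Q' hQ' hne
    obtain ⟨hQ1, hQ2⟩ := Finset.mem_filter.1 hQ
    obtain ⟨hQ'1, hQ'2⟩ := Finset.mem_filter.1 hQ'
    rw [Prod.mk.injEq] at hQ2 hQ'2
    have e1 := hcQ Q hQ1
    have e2 := hcQ Q' hQ'1
    have key : ∀ a b : ℝ, ∀ i j : ℤ, ⌊a / D⌋ = i → ⌊b / D⌋ = j → i + 3 ≤ j → 2 * D ≤ b - a := by
      intro a b i j hi hj hij
      have h4 : a / D < i + 1 := by
        rw [← hi]; exact Int.lt_floor_add_one _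
      have h5 : (j : ℝ) ≤ b / D := by
        rw [← hj]; exact Int.floor_le _
      have h6 : (i : ℝ) + 3 ≤ j := by exact_mod_cast hij
      rw [div_lt_iff₀ hD] at h4
      rw [le_div_iff₀ hD] at h5
      nlinarith
    have hre : |(c Q - c Q').re| ≤ ‖c Q - c Q'‖ := Complex.abs_re_le_norm _
    have him : |(c Q - c Q').im| ≤ ‖c Q - c Q'‖ := Complex.abs_im_le_norm _
    rw [Complex.sub_re] at hre
    rw [Complex.sub_im] at him
    have hne' : Q.1 ≠ Q'.1 ∨ Q.2 ≠ Q'.2 := by
      by_contra h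
      push Not at h
      exact hne (Prod.ext h.1 h.2)
    have f1 : ⌊((c Q).re - s.re) / D⌋ = Q.1 := congrArg Prod.fst e1
    have f2 : ⌊((c Q).im - s.im) / D⌋ = Q.2 := congrArg Prod.snd e1
    have f1' : ⌊((c Q').re - s.re) / D⌋ = Q'.1 := congrArg Prod.fst e2
    have f2' : ⌊((c Q').im - s.im) / D⌋ = Q'.2 := congrArg Prod.snd e2
    rcases hne' with h | h
    · rcases lt_or_gt_of_ne h with h | h
      · have := key _ _ _ _ f1 f1' (by omega)
        rw [abs_le] at hre
        linarith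
      · have := key _ _ _ _ f1' f1 (by omega)
        rw [abs_le] at hre
        linarith
    · rcases lt_or_gt_of_ne h with h | h
      · have := key _ _ _ _ f2 f2' (by omega)
        rw [abs_le] at him
        linarith
      · have := key _ _ _ _ f2' f2 (by omega)
        rw [abs_le] at him
        linarith
  have h4 : occ.card ≤ ∑ e ∈ (Finset.range 3 ×ˢ Finset.range 3 : Finset (ℕ × ℕ)),
      (occ.filter (fun Q => (Q.1 % 3, Q.2 % 3) = ((e.1 : ℤ), (e.2 : ℤ)))).card := by
    rw [← Finset.card_biUnion]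
    · refine Finset.card_le_card ?_
      intro Q hQ
      rw [Finset.mem_biUnion]
      refine ⟨((Q.1 % 3).toNat, (Q.2 % 3).toNat), ?_, ?_⟩
      · rw [Finset.mem_product, Finset.mem_range, Finset.mem_range]
        constructor
        · show (Q.1 % 3).toNat < 3
          omega
        · show (Q.2 % 3).toNat < 3
          omega
      · rw [Finset.mem_filter]
        refine ⟨hQ, ?_⟩
        rw [Prod.mk.injEq]
        constructor
        · show Q.1 % 3 = ((Q.1 % 3).toNat : ℤ)
          omega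
        · show Q.2 % 3 = ((Q.2 % 3).toNat : ℤ)
          omega
    · intro e _ e' _ hne
      rw [Function.onFun, Finset.disjoint_left]
      intro Q hQ hQ'
      have g1 := (Finset.mem_filter.1 hQ).2
      have g2 := (Finset.mem_filter.1 hQ').2
      rw [g1, Prod.mk.injEq] at g2
      apply hne
      apply Prod.ext
      · exact_mod_cast g2.1
      · exact_mod_cast g2.2
  have h5 : (occ.card : ℝ) ≤ 9 * (T.total / D + 1) := by
    calc (occ.card : ℝ) ≤ ((∑ e ∈ (Finset.range 3 ×ˢ Finset.range 3 : Finset (ℕ × ℕ)),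
          (occ.filter (fun Q => (Q.1 % 3, Q.2 % 3) = ((e.1 : ℤ), (e.2 : ℤ)))).card : ℕ) : ℝ) := by
          exact_mod_cast h4
      _ = ∑ e ∈ (Finset.range 3 ×ˢ Finset.range 3 : Finset (ℕ × ℕ)),
          ((occ.filter (fun Q => (Q.1 % 3, Q.2 % 3) = ((e.1 : ℤ), (e.2 : ℤ)))).card : ℝ) := by
          push_cast; rfl
      _ ≤ ∑ e ∈ (Finset.range 3 ×ˢ Finset.range 3 : Finset (ℕ × ℕ)), (T.total / D + 1) :=
          Finset.sum_le_sum h3
      _ = 9 * (T.total / D + 1) := by
          rw [Finset.sum_const, Finset.card_product, Finset.card_range, nsmul_eq_mul]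
          norm_num
  have h6 : ((act P s D).card : ℝ) ≤ occ.card * 9 := by exact_mod_cast h2
  linarith

end Pool.Agent.H49.Tsp
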