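import Pool.Agent.H49.Tsp.Defs3

/-!
Small lemmas on cells, squares and shifts (streaming TSP problem).
-/

set_option autoImplicit false

namespace Pool.Agent.H49.Tsp

open Classical

private theorem floor_half (x : ℝ) : |(⌊x⌋ : ℝ) + 1 / 2 - x| ≤ 1 / 2 := by
  have h1 := Int.floor_le x
  have h2 := (Int.lt_floor_add_one x).le
  rw [abs_le]; constructor <;> linarith

theorem cel_dist (g : ℝ) (hg : 0 < g) (p : ℂ) : ‖cel g p - p‖ ≤ g := by
  have key : ∀ x : ℝ, |((⌊x / g⌋ : ℝ) + 1 / 2) * g - x| ≤ g / 2 := by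
    intro x
    have h := floor_half (x / g)
    have h2 : ((⌊x / g⌋ : ℝ) + 1 / 2) * g - x = ((⌊x / g⌋ : ℝ) + 1 / 2 - x / g) * g := by
      field_simp
    rw [h2, abs_mul, abs_of_pos hg]
    nlinarith
  have h1 := key p.re
  have h2 := key p.im
  have h3 := Complex.norm_le_abs_re_add_abs_im (cel g p - p)
  have h4 : (cel g p - p).re = ((⌊p.re / g⌋ : ℝ) + 1 / 2) * g - p.re := by simp [cel]
  have h5 : (cel g p - p).im = ((⌊p.im / g⌋ : ℝ) + 1 / 2) * g - p.im := by simp [cel]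
  rw [h4, h5] at h3
  linarith

private theorem window_iff (D : ℝ) (hD : 0 < D) (x s : ℝ) (m : ℤ) :
    (s + m * D - D ≤ x ∧ x < s + m * D + 2 * D) ↔
      (⌊(x - s) / D⌋ = m - 1 ∨ ⌊(x - s) / D⌋ = m ∨ ⌊(x - s) / D⌋ = m + 1) := by
  have h1 : (s + m * D - D ≤ x) ↔ m - 1 ≤ ⌊(x - s) / D⌋ := by
    rw [Int.le_floor, le_div_iff₀ hD]; push_cast
    constructor <;> intro h <;> linarith
  have h2 : (x < s + m * D + 2 * D) ↔ ⌊(x - s) / D⌋ < m + 2 := by
    rw [Int.floor_lt, div_lt_iff₀ hD]; push_cast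
    constructor <;> intro h <;> linarith
  rw [h1, h2]; omega

theorem mem_win (P : Finset ℂ) (s : ℂ) (D : ℝ) (hD : 0 < D) (Q : ℤ × ℤ) (p : ℂ) :
    p ∈ win P D (cor s D Q) ↔ p ∈ P ∧
      (⌊(p.re - s.re) / D⌋ = Q.1 - 1 ∨ ⌊(p.re - s.re) / D⌋ = Q.1 ∨
        ⌊(p.re - s.re) / D⌋ = Q.1 + 1) ∧
      (⌊(p.im - s.im) / D⌋ = Q.2 - 1 ∨ ⌊(p.im - s.im) / D⌋ = Q.2 ∨
        ⌊(p.im - s.im) / D⌋ = Q.2 + 1) := by
  rw [← window_iff D hD, ← window_iff D hD]
  simp only [win, cor, Finset.mem_filter]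
  tauto

theorem mem_act (P : Finset ℂ) (s : ℂ) (D : ℝ) (hD : 0 < D) (Q : ℤ × ℤ) :
    Q ∈ act P s D ↔ (win P D (cor s D Q)).Nonempty := by
  constructor
  · intro h
    simp only [act, Finset.mem_biUnion, Finset.mem_image, Finset.mem_product,
      Finset.mem_Icc] at h
    obtain ⟨p, hp, e, ⟨⟨h1, h2⟩, h3, h4⟩, rfl⟩ := h
    refine ⟨p, (mem_win P s D hD _ p).2 ⟨hp, ?_, ?_⟩⟩
    · simp only; omega
    · simp only; omega
  · rintro ⟨p, hp⟩
    obtain ⟨hp, h1, h2⟩ := (mem_win P s D hD Q p).1 hp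
    simp only [act, Finset.mem_biUnion, Finset.mem_image, Finset.mem_product, Finset.mem_Icc]
    refine ⟨p, hp, (Q.1 - ⌊(p.re - s.re) / D⌋, Q.2 - ⌊(p.im - s.im) / D⌋), ⟨⟨?_, ?_⟩, ?_, ?_⟩, ?_⟩
    · simp only; omega
    · simp only; omega
    · simp only; omega
    · simp only; omega
    · ext <;> simp

theorem sum_win {P : Finset ℂ} (T : RTree P) (s : ℂ) (D : ℝ) (hD : 0 < D) (A : Finset (ℤ × ℤ)) :
    ∑ Q ∈ A, T.wt (win P D (cor s D Q)) ≤ 9 * T.total := by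
  have h0 : ∀ Q ∈ A, T.wt (win P D (cor s D Q)) =
      ∑ p ∈ P, if p ∈ win P D (cor s D Q) then T.len p else 0 := by
    intro Q _
    rw [RTree.wt, ← Finset.sum_filter]
    congr 1
    ext p
    simp only [Finset.mem_filter]
    exact ⟨fun h => ⟨(Finset.mem_filter.1 h).1, h⟩, fun h => h.2⟩
  rw [Finset.sum_congr rfl h0, Finset.sum_comm, RTree.total, RTree.wt, Finset.mul_sum]
  refine Finset.sum_le_sum fun p hp => ?_
  rw [← Finset.sum_filter, Finset.sum_const, nsmul_eq_mul]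
  refine mul_le_mul_of_nonneg_right ?_ (T.len_nonneg p)
  have hsub : (A.filter (fun Q => p ∈ win P D (cor s D Q))) ⊆
      ((Finset.Icc (⌊(p.re - s.re) / D⌋ - 1) (⌊(p.re - s.re) / D⌋ + 1)) ×ˢ
        (Finset.Icc (⌊(p.im - s.im) / D⌋ - 1) (⌊(p.im - s.im) / D⌋ + 1))) := by
    intro Q hQ
    simp only [Finset.mem_filter] at hQ
    obtain ⟨_, h1, h2⟩ := (mem_win P s D hD Q p).1 hQ.2
    simp only [Finset.mem_product, Finset.mem_Icc]
    omega
  have hc := Finset.card_le_card hsub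
  rw [Finset.card_product, Int.card_Icc, Int.card_Icc] at hc
  have h3 : ∀ m : ℤ, (m + 1 + 1 - (m - 1)).toNat = 3 := by intro m; omega
  rw [h3, h3] at hc
  exact_mod_cast hc

private theorem offset_one (x : ℝ) :
    998 ≤ ((Finset.range 1000).filter (fun a : ℕ => ∃ Q : ℤ,
      (a : ℝ) - 2000 + 1000 * Q + 1 ≤ x ∧ x ≤ (a : ℝ) - 2000 + 1000 * Q + 999)).card := by
  -- the bad ones are congruent to `⌊x⌋` or `⌊x⌋ + 1`
  set n : ℤ := ⌊x⌋ with hn
  have hn1 : (n : ℝ) ≤ x := Int.floor_le x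
  have hn2 : x < (n : ℝ) + 1 := Int.lt_floor_add_one x
  have hsub : (Finset.range 1000) \ {(n % 1000).toNat, ((n + 1) % 1000).toNat} ⊆
      ((Finset.range 1000).filter (fun a : ℕ => ∃ Q : ℤ,
        (a : ℝ) - 2000 + 1000 * Q + 1 ≤ x ∧ x ≤ (a : ℝ) - 2000 + 1000 * Q + 999)) := by
    intro a ha
    simp only [Finset.mem_sdiff, Finset.mem_range, Finset.mem_insert, Finset.mem_singleton,
      not_or] at ha
    obtain ⟨ha, h1, h2⟩ := ha
    rw [Finset.mem_filter, Finset.mem_range]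
    refine ⟨ha, (n - a) / 1000 + 2, ?_⟩
    have h3 : (n - a) % 1000 ≠ 0 := by omega
    have h4 : (n - a) % 1000 ≠ 999 := by omega
    have h5 : 1 ≤ (n - a) % 1000 := by omega
    have h6 : (n - a) % 1000 ≤ 998 := by omega
    have h7 : n = a + 1000 * ((n - a) / 1000) + (n - a) % 1000 := by
      have := Int.mul_ediv_add_emod (n - a) 1000
      omega
    have h7' : (n : ℝ) = a + 1000 * (((n - a) / 1000 : ℤ) : ℝ) + (((n - a) % 1000 : ℤ) : ℝ) := by
      exact_mod_cast h7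
    have h5' : (1 : ℝ) ≤ (((n - a) % 1000 : ℤ) : ℝ) := by exact_mod_cast h5
    have h6' : (((n - a) % 1000 : ℤ) : ℝ) ≤ 998 := by exact_mod_cast h6
    push_cast
    constructor <;> linarith
  refine le_trans ?_ (Finset.card_le_card hsub)
  have h1 := Finset.le_card_sdiff {(n % 1000).toNat, ((n + 1) % 1000).toNat} (Finset.range 1000)
  have h2 : ({(n % 1000).toNat, ((n + 1) % 1000).toNat} : Finset ℕ).card ≤ 2 :=
    Finset.card_le_two
  rw [Finset.card_range] at h1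
  omega

private theorem prod_card (S : Finset ℕ) (p q : ℕ → Prop) (r : ℕ × ℕ → Prop)
    (h : ∀ ab : ℕ × ℕ, p ab.1 → q ab.2 → r ab) :
    (S.filter p).card * (S.filter q).card ≤ ((S ×ˢ S).filter r).card := by
  rw [← Finset.card_product]
  refine Finset.card_le_card fun ab hab => ?_
  simp only [Finset.mem_product, Finset.mem_filter] at hab ⊢
  exact ⟨⟨hab.1.1, hab.2.1⟩, h ab hab.1.2 hab.2.2⟩

private theorem offset_aux (D : ℝ) (hD : 0 < D) (w : ℂ) (a b : ℕ) (Q1 Q2 : ℤ)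
    (h2 : (a : ℝ) - 2000 + 1000 * Q1 + 1 ≤ 1000 * (w.re / D))
    (h3 : 1000 * (w.re / D) ≤ (a : ℝ) - 2000 + 1000 * Q1 + 999)
    (h5 : (b : ℝ) - 2000 + 1000 * Q2 + 1 ≤ 1000 * (w.im / D))
    (h6 : 1000 * (w.im / D) ≤ (b : ℝ) - 2000 + 1000 * Q2 + 999) :
    Deep D (cor (off D a b) D (Q1, Q2)) w := by
  have e1 : w.re = D * (w.re / D) := by field_simp
  have e2 : w.im = D * (w.im / D) := by field_simp
  have k2 := mul_le_mul_of_nonneg_left h2 hD.le
  have k3 := mul_le_mul_of_nonneg_left h3 hD.le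
  have k5 := mul_le_mul_of_nonneg_left h5 hD.le
  have k6 := mul_le_mul_of_nonneg_left h6 hD.le
  simp only [Deep, cor, off]
  refine ⟨?_, ?_, ?_, ?_⟩
  · linarith
  · linarith
  · linarith
  · linarith

theorem offset_good (D : ℝ) (hD : 0 < D) (w : ℂ) :
    994000 ≤ (((Finset.range 1000) ×ˢ (Finset.range 1000)).filter
      (fun ab => ∃ Q : ℤ × ℤ, Deep D (cor (off D ab.1 ab.2) D Q) w)).card := by
  have hc := prod_card (Finset.range 1000) (fun a : ℕ => ∃ Q : ℤ,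
      (a : ℝ) - 2000 + 1000 * Q + 1 ≤ 1000 * (w.re / D) ∧
        1000 * (w.re / D) ≤ (a : ℝ) - 2000 + 1000 * Q + 999) (fun a : ℕ => ∃ Q : ℤ,
      (a : ℝ) - 2000 + 1000 * Q + 1 ≤ 1000 * (w.im / D) ∧
        1000 * (w.im / D) ≤ (a : ℝ) - 2000 + 1000 * Q + 999)
      (fun ab => ∃ Q : ℤ × ℤ, Deep D (cor (off D ab.1 ab.2) D Q) w)
      (fun ab ⟨Q1, h2, h3⟩ ⟨Q2, h5, h6⟩ =>
        ⟨(Q1, Q2), offset_aux D hD w ab.1 ab.2 Q1 Q2 h2 h3 h5 h6⟩)
  have h1 := Nat.mul_le_mul (offset_one (1000 * (w.re / D))) (offset_one (1000 * (w.im / D)))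
  exact le_trans (le_trans (by norm_num) h1) hc

private theorem deep_unique_one (D : ℝ) (hD : 0 < D) (s x : ℝ) (m n : ℤ)
    (h1 : s + m * D + D / 1000 ≤ x) (h2 : x ≤ s + m * D + D - D / 1000)
    (h3 : s + n * D + D / 1000 ≤ x) (h4 : x ≤ s + n * D + D - D / 1000) : m = n := by
  have h5 : ((m : ℝ) - n) * D < 1 * D := by nlinarith
  have h6 : ((n : ℝ) - m) * D < 1 * D := by nlinarith
  have h7 := lt_of_mul_lt_mul_right h5 hD.le
  have h8 := lt_of_mul_lt_mul_right h6 hD.le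
  have h9 : m - n < 1 := by exact_mod_cast h7
  have h10 : n - m < 1 := by exact_mod_cast h8
  omega

theorem deep_unique (D : ℝ) (hD : 0 < D) (s w : ℂ) (Q Q' : ℤ × ℤ) (h : Deep D (cor s D Q) w)
    (h' : Deep D (cor s D Q') w) : Q = Q' := by
  obtain ⟨h1, h2, h3, h4⟩ := h
  obtain ⟨h5, h6, h7, h8⟩ := h'
  simp only [cor] at *
  exact Prod.ext (deep_unique_one D hD s.re w.re _ _ h1 h2 h5 h6)
    (deep_unique_one D hD s.im w.im _ _ h3 h4 h7 h8)

/-- Positive numbers with pairwise ratio at most 1/2. -/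
theorem sum_le_two_max {α : Type} (s : Finset α) (f : α → ℝ) (B : ℝ) (hB : 0 ≤ B)
    (h0 : ∀ a ∈ s, 0 ≤ f a) (h1 : ∀ a ∈ s, f a ≤ B)
    (h2 : ∀ a ∈ s, ∀ b ∈ s, a ≠ b → f a ≤ f b / 2 ∨ f b ≤ f a / 2) :
    ∑ a ∈ s, f a ≤ 2 * B := by
  induction s using Finset.strongInduction generalizing B with
  | H s ih =>
    rcases s.eq_empty_or_nonempty with rfl | hne
    · simp only [Finset.sum_empty]; linarith
    · obtain ⟨a, ha, hmax⟩ := Finset.exists_max_image s f hne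
      have h3 : ∀ b ∈ s.erase a, f b ≤ f a / 2 := by
        intro b hb
        have hb1 := Finset.ne_of_mem_erase hb
        have hb2 := Finset.mem_of_mem_erase hb
        rcases h2 b hb2 a ha hb1 with h | h
        · exact h
        · have h4 := hmax b hb2
          have h5 := h0 a ha
          have h6 := h0 b hb2
          linarith
      have h4 := ih (s.erase a) (Finset.erase_ssubset ha) (f a / 2) (by have := h0 a ha; linarith)
        (fun b hb => h0 b (Finset.mem_of_mem_erase hb)) h3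
        (fun b hb c hc => h2 b (Finset.mem_of_mem_erase hb) c (Finset.mem_of_mem_erase hc))
      rw [← Finset.add_sum_erase s f ha]
      have h5 := h1 a ha
      linarith

end Pool.Agent.H49.Tsp
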