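import Pool.Agent.H49.Tsp.Basic

/-!
Minimum spanning trees with consistent tie breaking (job TSP-K).
-/

set_option autoImplicit false

namespace Pool.Agent.H49.Tsp

open Classical

/-! ### Tie breaking -/

/-- key of an unordered pair -/
noncomputable def pkey (i : ℂ → ℕ) (a b : ℂ) : ℝ ×ₗ (ℕ ×ₗ ℕ) :=
  toLex (‖a - b‖, toLex (max (i a) (i b), min (i a) (i b)))

/-- number of smaller pairs -/
noncomputable def prank (P : Finset ℂ) (i : ℂ → ℕ) (a b : ℂ) : ℕ :=
  ((P ×ˢ P).filter (fun x => x.1 ≠ x.2 ∧ pkey i x.1 x.2 ≤ pkey i a b)).card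

theorem pkey_symm (i : ℂ → ℕ) (a b : ℂ) : pkey i a b = pkey i b a := by
  simp only [pkey, norm_sub_rev a b, max_comm (i a), min_comm (i a)]

theorem prank_lt {P : Finset ℂ} {i : ℂ → ℕ} {a b c d : ℂ} (ha : a ∈ P) (hb : b ∈ P)
    (hab : a ≠ b) (h : pkey i c d < pkey i a b) : prank P i c d < prank P i a b := by
  apply Finset.card_lt_card
  rw [Finset.ssubset_iff_of_subset]
  · refine ⟨(a, b), ?_, ?_⟩
    · simp only [Finset.mem_filter, Finset.mem_product]
      exact ⟨⟨ha, hb⟩, hab, le_rfl⟩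
    · simp only [Finset.mem_filter, Finset.mem_product]
      intro h2
      exact absurd h2.2.2 (not_le.2 h)
  · intro x hx
    simp only [Finset.mem_filter] at hx ⊢
    exact ⟨hx.1, hx.2.1, hx.2.2.trans h.le⟩

theorem exists_tieBreak (P : Finset ℂ) : ∃ w : ℂ → ℂ → ℕ, TieBreak P w := by
  obtain ⟨i, hi⟩ : ∃ i : ℂ → ℕ, Set.InjOn i (P : Set ℂ) := by
    refine ⟨fun a => if h : a ∈ P then (P.equivFin ⟨a, h⟩ : ℕ) else 0, ?_⟩
    intro a ha b hb hab
    have ha' : a ∈ P := ha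
    have hb' : b ∈ P := hb
    simp only [ha', hb', dif_pos] at hab
    have := P.equivFin.injective (Fin.ext hab)
    simpa using this
  refine ⟨prank P i, ?_, ?_, ?_⟩
  · intro a b
    simp only [prank, pkey_symm i a b]
  · intro a ha b hb c hc d hd hab hcd h
    have hk : pkey i a b = pkey i c d := by
      rcases lt_trichotomy (pkey i a b) (pkey i c d) with h1 | h1 | h1
      · exact absurd h (prank_lt hc hd hcd h1).ne
      · exact h1
      · exact absurd h (prank_lt ha hb hab h1).ne'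
    simp only [pkey, EmbeddingLike.apply_eq_iff_eq, Prod.mk.injEq] at hk
    obtain ⟨_, h1, h2⟩ := hk
    have h3 : (i a = i c ∧ i b = i d) ∨ (i a = i d ∧ i b = i c) := by omega
    rcases h3 with h3 | h3
    · exact Or.inl ⟨hi ha hc h3.1, hi hb hd h3.2⟩
    · exact Or.inr ⟨hi ha hd h3.1, hi hb hc h3.2⟩
  · intro a ha b hb c hc d hd h
    by_cases hab : a = b
    · rw [hab, sub_self, norm_zero]; exact norm_nonneg _
    by_contra hcon
    push Not at hcon
    have h1 : pkey i c d < pkey i a b := by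
      rw [pkey, pkey, Prod.Lex.toLex_lt_toLex]
      exact Or.inl hcon
    exact absurd h (not_le.2 (prank_lt ha hb hab h1))

theorem isMst_of_isMstW {P X : Finset ℂ} {w : ℂ → ℂ → ℕ} (hw : TieBreak P w) (hX : X ⊆ P)
    (T : RTree X) (hT : T.IsMstW w) : T.IsMst := by
  intro v hv hr a ha b hb hbD
  exact hw.mono v (hX hv) (T.par v) (hX (T.par_mem v hv)) a (hX (T.D_sub v ha)) b (hX hb)
    (hT v hv hr a ha b hb hbD)

/-! ### Walks -/

theorem walk_up {P : Finset ℂ} (T : RTree P) (Q : ℂ → Prop) (z : ℂ) (k : ℕ) : ∀ p ∈ P,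
    T.par^[k] p = z → (∀ y ∈ T.sep p z, (Q y ↔ Q (T.par y))) → (Q p ↔ Q z) := by
  induction k with
  | zero => intro p _ h _; rw [Function.iterate_zero, id] at h; rw [h]
  | succ k ih =>
    intro p hp h hQ
    by_cases hpz : p = z
    · rw [hpz]
    have hpD : p ∈ T.D z := T.mem_D.2 ⟨hp, k + 1, h⟩
    have hpp : p ∈ T.sep p z := (T.mem_sep_of_mem_D hpD).2 ⟨T.self_mem_D hp, hpD, hpz⟩
    rw [hQ p hpp]
    apply ih (T.par p) (T.par_mem p hp) h
    intro y hy
    apply hQ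
    have hpar : T.par p ∈ T.D z := T.mem_D.2 ⟨T.par_mem p hp, k, h⟩
    rw [T.mem_sep_of_mem_D hpar] at hy
    rw [T.mem_sep_of_mem_D hpD]
    exact ⟨T.D_trans (T.mem_D_par (T.self_mem_D hp)) hy.1, hy.2.1, hy.2.2⟩

theorem walk {P : Finset ℂ} (T : RTree P) (Q : ℂ → Prop) {p q : ℂ} (hp : p ∈ P) (hq : q ∈ P)
    (hQ : ∀ y ∈ T.sep p q, (Q y ↔ Q (T.par y))) : Q p ↔ Q q := by
  obtain ⟨z, hz, h1, h2, h3⟩ := T.exists_lca hp hq
  obtain ⟨h4, _⟩ := T.sep_eq_of_lca h1 h2 h3
  obtain ⟨_, k, hk⟩ := T.mem_D.1 h1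
  obtain ⟨_, l, hl⟩ := T.mem_D.1 h2
  have e1 := walk_up T Q z k p hp hk (fun y hy => hQ y (by
    rw [h4, Finset.mem_union]; exact Or.inl hy))
  have e2 := walk_up T Q z l q hq hl (fun y hy => hQ y (by
    rw [h4, Finset.mem_union, T.sep_comm z q]; exact Or.inr hy))
  rw [e1, e2]

/-- An edge of the tree on `P` with both ends in `X` is an edge of the tree on `X`. -/
theorem mst_restrict {P X : Finset ℂ} {w : ℂ → ℂ → ℕ} (hw : TieBreak P w) (hX : X ⊆ P)
    (T : RTree P) (hT : T.IsMstW w) (TX : RTree X) (hTX : TX.IsMstW w) (v : ℂ) (hv : v ∈ X)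
    (hr : v ≠ T.root) (hp : T.par v ∈ X) :
    (v ≠ TX.root ∧ TX.par v = T.par v) ∨ (T.par v ≠ TX.root ∧ TX.par (T.par v) = v) := by
  have hvP := hX hv
  have hne : T.par v ≠ v := T.par_ne hvP hr
  -- an edge of TX crossing the cut
  obtain ⟨y, hy, hcross⟩ : ∃ y ∈ TX.sep v (T.par v), ¬ (y ∈ T.D v ↔ TX.par y ∈ T.D v) := by
    by_contra hcon
    push Not at hcon
    have := walk TX (fun z => z ∈ T.D v) hv hp hcon
    exact T.par_not_mem_D hvP hr (this.1 (T.self_mem_D hvP))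
  have hyX : y ∈ X := TX.sep_sub _ _ hy
  have hyr : y ≠ TX.root := TX.ne_root_of_mem_sep hv hp hy
  have hpyX : TX.par y ∈ X := TX.par_mem y hyX
  have h1 : w v (T.par v) ≤ w y (TX.par y) := by
    by_cases hyD : y ∈ T.D v
    · have h2 : TX.par y ∉ T.D v := fun h => hcross ⟨fun _ => h, fun _ => hyD⟩
      exact hT v hvP hr y hyD _ (hX hpyX) h2
    · have h2 : TX.par y ∈ T.D v := by
        by_contra h; exact hcross ⟨fun h' => absurd h' hyD, fun h' => absurd h' h⟩
      rw [hw.symm y]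
      exact hT v hvP hr _ h2 y (hX hyX) hyD
  have h2 : w y (TX.par y) ≤ w v (T.par v) := by
    rw [TX.mem_sep] at hy
    by_cases hvD : v ∈ TX.D y
    · have h3 : T.par v ∉ TX.D y := fun h => hy.2 ⟨fun _ => h, fun _ => hvD⟩
      exact hTX y hyX hyr v hvD _ hp h3
    · have h3 : T.par v ∈ TX.D y := by
        by_contra h; exact hy.2 ⟨fun h' => absurd h' hvD, fun h' => absurd h' h⟩
      rw [hw.symm v]
      exact hTX y hyX hyr _ h3 v hv hvD
  rcases hw.inj v hvP (T.par v) (hX hp) y (hX hyX) (TX.par y) (hX hpyX) hne.symm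
    (TX.par_ne hyX hyr).symm (le_antisymm h1 h2) with h | h
  · left
    rw [h.1] at *
    exact ⟨hyr, h.2.symm⟩
  · right
    rw [h.2]
    exact ⟨hyr, h.1.symm⟩

/-! ### Existence -/

/-- The edges of a minimum spanning tree of one side of the heaviest cut are light. -/
theorem heavy_aux {P X Y : Finset ℂ} {w : ℂ → ℂ → ℕ} (hw : TieBreak P w) (hX : X ⊆ P)
    (hY : Y ⊆ X) (T : RTree Y) (hT : T.IsMstW w) {e e' : ℂ} (he : e ∈ Y) (he' : e' ∈ X \ Y)
    (hmin : ∀ x ∈ Y, ∀ y ∈ X \ Y, w e e' ≤ w x y)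
    (hmax : ∀ C ⊆ X, C.Nonempty → C ≠ X → ∃ x ∈ C, ∃ y ∈ X \ C, w x y ≤ w e e')
    (v : ℂ) (hv : v ∈ Y) (hr : v ≠ T.root) : w v (T.par v) ≤ w e e' := by
  by_contra hcon
  push Not at hcon
  have he'X : e' ∈ X := (Finset.mem_sdiff.1 he').1
  have he'Y : e' ∉ Y := (Finset.mem_sdiff.1 he').2
  have hee : e ≠ e' := fun h => he'Y (h ▸ he)
  -- the side without e
  obtain ⟨C, hC, hCne, heC, hcross⟩ : ∃ C ⊆ Y, C.Nonempty ∧ e ∉ C ∧
      ∀ x ∈ C, ∀ y ∈ Y, y ∉ C → w v (T.par v) ≤ w x y := by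
    by_cases heD : e ∈ T.D v
    · refine ⟨Y \ T.D v, Finset.sdiff_subset, ⟨T.par v, ?_⟩, ?_, ?_⟩
      · exact Finset.mem_sdiff.2 ⟨T.par_mem v hv, T.par_not_mem_D hv hr⟩
      · simp [heD]
      · intro x hx y hy hyC
        rw [Finset.mem_sdiff] at hx
        have hyD : y ∈ T.D v := by
          by_contra h; exact hyC (Finset.mem_sdiff.2 ⟨hy, h⟩)
        rw [hw.symm x]
        exact hT v hv hr y hyD x hx.1 hx.2
    · refine ⟨T.D v, T.D_sub v, ⟨v, T.self_mem_D hv⟩, heD, ?_⟩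
      intro x hx y hy hyC
      exact hT v hv hr x hx y hy hyC
  have hCX : C ≠ X := fun h => heC (h ▸ hY he)
  obtain ⟨x, hx, y, hy, hxy⟩ := hmax C (hC.trans hY) hCne hCX
  rw [Finset.mem_sdiff] at hy
  by_cases hyY : y ∈ Y
  · exact absurd (hcross x hx y hyY hy.2) (not_le.2 (lt_of_le_of_lt hxy hcon))
  · have h1 := hmin x (hC hx) y (Finset.mem_sdiff.2 ⟨hy.1, hyY⟩)
    have hxne : x ≠ y := fun h => hyY (h ▸ hC hx)
    rcases hw.inj x (hX (hY (hC hx))) y (hX hy.1) e (hX (hY he)) e' (hX he'X) hxne hee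
      (le_antisymm hxy h1) with h | h
    · exact heC (h.1 ▸ hx)
    · exact he'Y (h.1 ▸ hC hx)

section join
variable {X A : Finset ℂ} (hA : A ⊆ X) (TA : RTree A) (TB : RTree (X \ A)) (a : ℂ) (ha : a ∈ A)

/-- Hang the tree `TB` at the vertex `a` of `TA`. -/
noncomputable def joinTree : RTree X where
  root := TA.root
  par := fun v => if v ∈ A then TA.par v else if v = TB.root then a else TB.par v
  dep := fun v => if v ∈ A then TA.dep v else TA.dep a + 1 + TB.dep v
  root_mem := hA TA.root_mem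
  par_root := by rw [if_pos TA.root_mem, TA.par_root]
  par_mem := by
    intro v hv
    by_cases h1 : v ∈ A
    · rw [if_pos h1]; exact hA (TA.par_mem v h1)
    · rw [if_neg h1]
      by_cases h2 : v = TB.root
      · rw [if_pos h2]; exact hA ha
      · rw [if_neg h2]
        exact (Finset.mem_sdiff.1 (TB.par_mem v (Finset.mem_sdiff.2 ⟨hv, h1⟩))).1
  dep_lt := by
    intro v hv hr
    by_cases h1 : v ∈ A
    · rw [if_pos h1, if_pos h1, if_pos (TA.par_mem v h1)]
      exact TA.dep_lt v h1 hr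
    · rw [if_neg h1, if_neg h1]
      by_cases h2 : v = TB.root
      · rw [if_pos h2, if_pos ha]; omega
      · have hvB : v ∈ X \ A := Finset.mem_sdiff.2 ⟨hv, h1⟩
        have h3 := (Finset.mem_sdiff.1 (TB.par_mem v hvB)).2
        rw [if_neg h2, if_neg h3]
        have := TB.dep_lt v hvB h2
        omega

theorem join_par_A {v : ℂ} (hv : v ∈ A) : (joinTree hA TA TB a ha).par v = TA.par v := if_pos hv

theorem join_par_root : (joinTree hA TA TB a ha).par TB.root = a := by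
  have h := (Finset.mem_sdiff.1 TB.root_mem).2
  show (if TB.root ∈ A then _ else _) = a
  rw [if_neg h, if_pos rfl]

theorem join_par_B {v : ℂ} (hv : v ∉ A) (h : v ≠ TB.root) :
    (joinTree hA TA TB a ha).par v = TB.par v := by
  show (if v ∈ A then _ else _) = _
  rw [if_neg hv, if_neg h]

theorem join_iter_A {q : ℂ} (hq : q ∈ A) (k : ℕ) :
    (joinTree hA TA TB a ha).par^[k] q = TA.par^[k] q := by
  induction k with
  | zero => rfl
  | succ k ih =>
    rw [Function.iterate_succ_apply', Function.iterate_succ_apply', ih,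
      join_par_A hA TA TB a ha (TA.iter_mem hq k)]

theorem join_D_A {v q : ℂ} (hq : q ∈ A) : q ∈ (joinTree hA TA TB a ha).D v ↔ q ∈ TA.D v := by
  rw [RTree.mem_D, RTree.mem_D]
  constructor
  · rintro ⟨_, k, hk⟩
    exact ⟨hq, k, by rw [← join_iter_A hA TA TB a ha hq k]; exact hk⟩
  · rintro ⟨_, k, hk⟩
    exact ⟨hA hq, k, by rw [join_iter_A hA TA TB a ha hq k]; exact hk⟩

theorem join_D_B_of {v : ℂ} (hv : v ∈ X \ A) (k : ℕ) : ∀ q ∈ X \ A, TB.par^[k] q = v →
    q ∈ (joinTree hA TA TB a ha).D v := by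
  set T := joinTree hA TA TB a ha with hT
  induction k with
  | zero =>
    intro q hq h
    rw [Function.iterate_zero, id] at h
    rw [h]
    exact T.self_mem_D (Finset.mem_sdiff.1 hv).1
  | succ k ih =>
    intro q hq h
    rw [Function.iterate_succ_apply] at h
    have h1 := ih (TB.par q) (TB.par_mem q hq) h
    by_cases hb : q = TB.root
    · rw [hb, TB.par_root] at h1
      rw [hb]; exact h1
    · have h2 := join_par_B hA TA TB a ha (Finset.mem_sdiff.1 hq).2 hb
      rw [← hT] at h2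
      rw [← h2] at h1
      exact T.D_trans (T.mem_D_par (T.self_mem_D (Finset.mem_sdiff.1 hq).1)) h1

theorem join_D_B_to (k : ℕ) : ∀ q ∈ X, ∀ v ∈ X \ A, (joinTree hA TA TB a ha).par^[k] q = v →
    q ∈ X \ A ∧ q ∈ TB.D v := by
  set T := joinTree hA TA TB a ha with hT
  induction k with
  | zero =>
    intro q hq v hv h
    rw [Function.iterate_zero, id] at h
    rw [h]
    exact ⟨hv, TB.self_mem_D hv⟩
  | succ k ih =>
    intro q hq v hv h
    rw [Function.iterate_succ_apply] at h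
    have h1 := ih (T.par q) (T.par_mem q hq) v hv h
    have hqA : q ∉ A := by
      intro hqA
      have h2 := join_par_A hA TA TB a ha hqA
      rw [← hT] at h2
      rw [h2] at h1
      exact (Finset.mem_sdiff.1 h1.1).2 (TA.par_mem q hqA)
    have hqB : q ∈ X \ A := Finset.mem_sdiff.2 ⟨hq, hqA⟩
    refine ⟨hqB, ?_⟩
    by_cases hb : q = TB.root
    · exfalso
      have h2 := join_par_root hA TA TB a ha
      rw [← hT] at h2
      rw [hb, h2] at h1
      exact (Finset.mem_sdiff.1 h1.1).2 ha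
    · have h2 := join_par_B hA TA TB a ha hqA hb
      rw [← hT] at h2
      rw [h2] at h1
      exact TB.D_trans (TB.mem_D_par (TB.self_mem_D hqB)) h1.2

theorem join_D_B {v q : ℂ} (hv : v ∈ X \ A) :
    q ∈ (joinTree hA TA TB a ha).D v ↔ q ∈ TB.D v := by
  constructor
  · intro h
    obtain ⟨hq, k, hk⟩ := (RTree.mem_D _).1 h
    exact (join_D_B_to hA TA TB a ha k q hq v hv hk).2
  · intro h
    obtain ⟨hq, k, hk⟩ := (RTree.mem_D _).1 h
    exact join_D_B_of hA TA TB a ha hv k q hq hk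

theorem join_D_AB_to (k : ℕ) : ∀ q ∈ X \ A, ∀ v ∈ A, (joinTree hA TA TB a ha).par^[k] q = v →
    a ∈ TA.D v := by
  set T := joinTree hA TA TB a ha with hT
  induction k with
  | zero =>
    intro q hq v hv h
    rw [Function.iterate_zero, id] at h
    rw [h] at hq
    exact absurd hv (Finset.mem_sdiff.1 hq).2
  | succ k ih =>
    intro q hq v hv h
    rw [Function.iterate_succ_apply] at h
    by_cases hb : q = TB.root
    · have h2 := join_par_root hA TA TB a ha
      rw [← hT] at h2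
      rw [hb, h2] at h
      have h3 : a ∈ T.D v := T.mem_D.2 ⟨hA ha, k, h⟩
      rw [hT, join_D_A hA TA TB a ha ha] at h3
      exact h3
    · have h2 := join_par_B hA TA TB a ha (Finset.mem_sdiff.1 hq).2 hb
      rw [← hT] at h2
      rw [h2] at h
      exact ih _ (TB.par_mem q hq) v hv h

theorem join_D_AB {v q : ℂ} (hv : v ∈ A) (hq : q ∈ X \ A) :
    q ∈ (joinTree hA TA TB a ha).D v ↔ a ∈ TA.D v := by
  set T := joinTree hA TA TB a ha with hT
  constructor
  · intro h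
    obtain ⟨_, k, hk⟩ := (RTree.mem_D _).1 h
    exact join_D_AB_to hA TA TB a ha k q hq v hv hk
  · intro h
    have h1 : a ∈ T.D v := by rw [hT, join_D_A hA TA TB a ha ha]; exact h
    have h2 : q ∈ T.D TB.root := by
      rw [hT, join_D_B hA TA TB a ha TB.root_mem]; exact TB.mem_D_root hq
    have h3 := T.mem_D_par h2
    rw [hT, join_par_root hA TA TB a ha, ← hT] at h3
    exact T.D_trans h3 h1

theorem join_isMstW {P : Finset ℂ} {w : ℂ → ℂ → ℕ} (hw : TieBreak P w) (hXP : X ⊆ P)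
    (hTA : TA.IsMstW w) (hTB : TB.IsMstW w)
    (hmin : ∀ x ∈ A, ∀ y ∈ X \ A, w a TB.root ≤ w x y)
    (hmax : ∀ C ⊆ X, C.Nonempty → C ≠ X → ∃ x ∈ C, ∃ y ∈ X \ C, w x y ≤ w a TB.root) :
    (joinTree hA TA TB a ha).IsMstW w := by
  set T := joinTree hA TA TB a ha with hT
  have hAl : ∀ v ∈ A, v ≠ TA.root → w v (TA.par v) ≤ w a TB.root := fun v hv hr =>
    heavy_aux hw hXP hA TA hTA ha TB.root_mem hmin hmax v hv hr
  have hBl : ∀ v ∈ X \ A, v ≠ TB.root → w v (TB.par v) ≤ w a TB.root := by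
    intro v hv hr
    rw [hw.symm a]
    have e : X \ (X \ A) = A := Finset.sdiff_sdiff_eq_self hA
    refine heavy_aux hw hXP Finset.sdiff_subset TB hTB TB.root_mem (by rw [e]; exact ha) ?_ ?_
      v hv hr
    · intro x hx y hy
      rw [e] at hy
      rw [hw.symm TB.root, hw.symm x]
      exact hmin y hy x hx
    · intro C hC h1 h2
      rw [hw.symm TB.root]
      exact hmax C hC h1 h2
  have hroot : T.root = TA.root := rfl
  intro v hv hr x hx y hy hyD
  have hxX : x ∈ X := T.D_sub v hx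
  by_cases hvA : v ∈ A
  · have e1 : T.par v = TA.par v := join_par_A hA TA TB a ha hvA
    rw [e1]
    have hrA : v ≠ TA.root := hr
    by_cases hxA : x ∈ A
    · by_cases hyA : y ∈ A
      · rw [hT, join_D_A hA TA TB a ha hxA] at hx
        rw [hT, join_D_A hA TA TB a ha hyA] at hyD
        exact hTA v hvA hrA x hx y hyA hyD
      · exact (hAl v hvA hrA).trans (hmin x hxA y (Finset.mem_sdiff.2 ⟨hy, hyA⟩))
    · have hxB : x ∈ X \ A := Finset.mem_sdiff.2 ⟨hxX, hxA⟩
      by_cases hyA : y ∈ A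
      · rw [hw.symm x]
        exact (hAl v hvA hrA).trans (hmin y hyA x hxB)
      · exfalso
        have hyB : y ∈ X \ A := Finset.mem_sdiff.2 ⟨hy, hyA⟩
        rw [hT, join_D_AB hA TA TB a ha hvA hxB] at hx
        rw [hT, join_D_AB hA TA TB a ha hvA hyB] at hyD
        exact hyD hx
  · have hvB : v ∈ X \ A := Finset.mem_sdiff.2 ⟨hv, hvA⟩
    have hx' : x ∈ TB.D v := by rw [hT, join_D_B hA TA TB a ha hvB] at hx; exact hx
    have hyD' : y ∉ TB.D v := by rw [hT, join_D_B hA TA TB a ha hvB] at hyD; exact hyD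
    have hxB : x ∈ X \ A := TB.D_sub v hx'
    by_cases hb : v = TB.root
    · have e1 : T.par v = a := by rw [hb]; exact join_par_root hA TA TB a ha
      have hyA : y ∈ A := by
        by_contra h
        apply hyD'
        rw [hb]
        exact TB.mem_D_root (Finset.mem_sdiff.2 ⟨hy, h⟩)
      rw [e1, hw.symm v, hb, hw.symm x]
      exact hmin y hyA x hxB
    · have e1 : T.par v = TB.par v := join_par_B hA TA TB a ha hvA hb
      rw [e1]
      by_cases hyA : y ∈ A
      · rw [hw.symm x]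
        exact (hBl v hvB hb).trans (hmin y hyA x hxB)
      · exact hTB v hvB hb x hx' y (Finset.mem_sdiff.2 ⟨hy, hyA⟩) hyD'

end join

theorem exists_cut {P : Finset ℂ} {w : ℂ → ℂ → ℕ} (hw : TieBreak P w) (X : Finset ℂ)
    (r : ℂ) (hr : r ∈ X) (h2 : X ≠ {r}) :
    ∃ A ⊆ X, r ∈ A ∧ A ≠ X ∧ ∃ a ∈ A, ∃ b ∈ X \ A, (∀ x ∈ A, ∀ y ∈ X \ A, w a b ≤ w x y) ∧
      (∀ C ⊆ X, C.Nonempty → C ≠ X → ∃ x ∈ C, ∃ y ∈ X \ C, w x y ≤ w a b) := by
  set F : Finset (Finset ℂ) := X.powerset.filter (fun C => C.Nonempty ∧ C ≠ X) with hF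
  have hFne : F.Nonempty := by
    refine ⟨{r}, ?_⟩
    simp only [hF, Finset.mem_filter, Finset.mem_powerset, Finset.singleton_subset_iff]
    exact ⟨hr, Finset.singleton_nonempty r, fun h => h2 h.symm⟩
  set f : Finset ℂ → ℕ := fun C => sInf {k | ∃ x ∈ C, ∃ y ∈ X \ C, w x y = k} with hf
  have hfm : ∀ C ∈ F, ∃ x ∈ C, ∃ y ∈ X \ C, w x y = f C := by
    intro C hC
    simp only [hF, Finset.mem_filter, Finset.mem_powerset] at hC
    apply Nat.sInf_mem (s := {k | ∃ x ∈ C, ∃ y ∈ X \ C, w x y = k})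
    obtain ⟨x, hx⟩ := hC.2.1
    obtain ⟨y, hy⟩ : (X \ C).Nonempty := by
      rw [Finset.sdiff_nonempty]
      intro h
      exact hC.2.2 (Finset.Subset.antisymm hC.1 h)
    exact ⟨_, x, hx, y, hy, rfl⟩
  have hfl : ∀ C : Finset ℂ, ∀ x ∈ C, ∀ y ∈ X \ C, f C ≤ w x y := by
    intro C x hx y hy
    exact Nat.sInf_le ⟨x, hx, y, hy, rfl⟩
  obtain ⟨A0, hA0, hmax0⟩ := Finset.exists_max_image F f hFne
  have hA0' := hA0
  simp only [hF, Finset.mem_filter, Finset.mem_powerset] at hA0'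
  obtain ⟨a, ha, b, hb, hab⟩ := hfm A0 hA0
  have hbX := (Finset.mem_sdiff.1 hb).1
  have hbA := (Finset.mem_sdiff.1 hb).2
  have hmax : ∀ C ⊆ X, C.Nonempty → C ≠ X → ∃ x ∈ C, ∃ y ∈ X \ C, w x y ≤ w a b := by
    intro C hC h3 h4
    have hCF : C ∈ F := by
      simp only [hF, Finset.mem_filter, Finset.mem_powerset]; exact ⟨hC, h3, h4⟩
    obtain ⟨x, hx, y, hy, hxy⟩ := hfm C hCF
    exact ⟨x, hx, y, hy, by rw [hxy, hab]; exact hmax0 C hCF⟩
  by_cases hrA : r ∈ A0
  · exact ⟨A0, hA0'.1, hrA, hA0'.2.2, a, ha, b, hb, fun x hx y hy => by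
      rw [hab]; exact hfl A0 x hx y hy, hmax⟩
  · have e : X \ (X \ A0) = A0 := Finset.sdiff_sdiff_eq_self hA0'.1
    refine ⟨X \ A0, Finset.sdiff_subset, Finset.mem_sdiff.2 ⟨hr, hrA⟩, ?_, b, hb, a, ?_, ?_, ?_⟩
    · intro h
      have : a ∈ X \ A0 := by rw [h]; exact hA0'.1 ha
      exact (Finset.mem_sdiff.1 this).2 ha
    · rw [e]; exact ha
    · intro x hx y hy
      rw [e] at hy
      rw [hw.symm b, hw.symm x, hab]
      exact hfl A0 y hy x hx
    · intro C hC h3 h4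
      rw [hw.symm b]
      exact hmax C hC h3 h4

theorem exists_mst_aux {P : Finset ℂ} {w : ℂ → ℂ → ℕ} (hw : TieBreak P w) (n : ℕ) :
    ∀ X : Finset ℂ, X ⊆ P → X.card ≤ n → ∀ r ∈ X, ∃ T : RTree X, T.root = r ∧ T.IsMstW w := by
  induction n with
  | zero =>
    intro X _ hc r hr
    exact absurd (Finset.card_pos.2 ⟨r, hr⟩) (by omega)
  | succ n ih =>
    intro X hXP hc r hr
    by_cases h2 : X = {r}
    · subst h2
      refine ⟨{ root := r, par := fun _ => r, dep := fun _ => 0, root_mem := hr,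
                par_root := rfl, par_mem := fun _ _ => hr,
                dep_lt := fun v hv h => absurd (Finset.mem_singleton.1 hv) h }, rfl, ?_⟩
      intro v hv h
      exact absurd (Finset.mem_singleton.1 hv) h
    · obtain ⟨A, hA, hrA, hAX, a, ha, b, hb, hmin, hmax⟩ := exists_cut hw X r hr h2
      have hcA : A.card < X.card :=
        Finset.card_lt_card (lt_of_le_of_ne hA hAX)
      have hcB : (X \ A).card < X.card := by
        apply Finset.card_lt_card
        rw [Finset.ssubset_iff_of_subset Finset.sdiff_subset]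
        exact ⟨r, hr, fun h => (Finset.mem_sdiff.1 h).2 hrA⟩
      obtain ⟨TA, hTAr, hTA⟩ := ih A (hA.trans hXP) (by omega) r hrA
      obtain ⟨TB, hTBr, hTB⟩ := ih (X \ A) (Finset.sdiff_subset.trans hXP) (by omega) b hb
      refine ⟨joinTree hA TA TB a ha, hTAr, ?_⟩
      subst hTBr
      exact join_isMstW hA TA TB a ha hw hXP hTA hTB hmin hmax

theorem exists_mst {P : Finset ℂ} {w : ℂ → ℂ → ℕ} (hw : TieBreak P w) (X : Finset ℂ)
    (hX : X ⊆ P) (hne : X.Nonempty) : ∃ T : RTree X, T.IsMstW w := by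
  obtain ⟨r, hr⟩ := hne
  obtain ⟨T, _, hT⟩ := exists_mst_aux hw X.card X hX le_rfl r hr
  exact ⟨T, hT⟩

end Pool.Agent.H49.Tsp
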