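import Pool.Agent.H49.Tsp.Defs3
import Pool.Agent.H49.Tsp.Mst

/-!
Leaf test and ring condition for the occupied cells (job TSP2-L).
-/

set_option autoImplicit false

namespace Pool.Agent.H49.Tsp

open Classical

theorem leaf_cel_dist (g : ℝ) (hg : 0 < g) (p : ℂ) : ‖cel g p - p‖ ≤ g := by
  have key : ∀ x : ℝ, |((⌊x / g⌋ : ℝ) + 1 / 2) * g - x| ≤ g / 2 := by
    intro x
    have h1 : (⌊x / g⌋ : ℝ) ≤ x / g := Int.floor_le _
    have h2 : x / g < (⌊x / g⌋ : ℝ) + 1 := Int.lt_floor_add_one _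
    rw [le_div_iff₀ hg] at h1
    rw [div_lt_iff₀ hg] at h2
    rw [abs_le]
    constructor <;> nlinarith
  have h3 := Complex.norm_le_abs_re_add_abs_im (cel g p - p)
  have h4 : (cel g p - p).re = ((⌊p.re / g⌋ : ℝ) + 1 / 2) * g - p.re := rfl
  have h5 : (cel g p - p).im = ((⌊p.im / g⌋ : ℝ) + 1 / 2) * g - p.im := rfl
  rw [h4, h5] at h3
  have h6 := key p.re
  have h7 := key p.im
  linarith

theorem leaf_mem_OO {g : ℝ} {X : Finset ℂ} {z : ℂ} : z ∈ OO g X ↔ ∃ p ∈ X, cel g p = z := by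
  simp only [OO, Finset.mem_image]

theorem lt_of_untouched {P X : Finset ℂ} {ω : ℂ → ℂ → ℕ} (hω : TieBreak P ω) (hX : X ⊆ P)
    (T : RTree P) (hT : T.IsMstW ω) (TX : RTree X) (hTX : TX.IsMstW ω) (g r r' : ℝ)
    (hg0 : 0 < g) (hg : g ≤ r / 10 ^ 8) (c t : ℂ) (ht : t ∈ X) (htc : ‖t - c‖ ≤ g)
    (hr1 : 9992 / 1000000 * r ≤ r') (hr2 : r' ≤ 99981 / 10000000 * r) (v : ℂ) (hv : v ∈ P)
    (hvr : v ≠ T.root)
    (hD : ∀ p ∈ P, (p ∈ T.D v → ‖p - c‖ < r') ∧ (p ∉ T.D v → r' < ‖p - c‖))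
    (hun : ∀ y ∈ X, y ≠ TX.root → ¬ T.Edge y (TX.par y) → TX.len y ≤ 301 * r →
      r' ≤ ‖y - c‖ ∧ r' ≤ ‖TX.par y - c‖) : LT (OO g X) c r := by
  intro z1 hz1 z2 hz2 h1 h1' h2 h2'
  obtain ⟨p1, hp1, hpz1⟩ := leaf_mem_OO.1 hz1
  obtain ⟨p2, hp2, hpz2⟩ := leaf_mem_OO.1 hz2
  have hr0 : 0 < r := by
    have : (0 : ℝ) < r / 10 ^ 8 := lt_of_lt_of_le hg0 hg
    have h10 : (0 : ℝ) < 10 ^ 8 := by positivity
    exact (div_pos_iff_of_pos_right h10).1 this
  have hg' : 10 ^ 8 * g ≤ r := by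
    rw [le_div_iff₀ (by positivity)] at hg; linarith
  have hMst := isMst_of_isMstW hω hX TX hTX
  set M : ℝ := max ‖z1 - c‖ ‖z2 - c‖ with hM
  have hM1 : ‖z1 - c‖ ≤ M := le_max_left _ _
  have hM2 : ‖z2 - c‖ ≤ M := le_max_right _ _
  have hM3 : M ≤ 300 * r := max_le h1' h2'
  have d1 : ‖z1 - p1‖ ≤ g := by rw [← hpz1]; exact leaf_cel_dist g hg0 p1
  have d2 : ‖z2 - p2‖ ≤ g := by rw [← hpz2]; exact leaf_cel_dist g hg0 p2
  -- general norm estimates
  have tri : ∀ a b e : ℂ, ‖a - e‖ ≤ ‖a - b‖ + ‖b - e‖ := fun a b e =>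
    norm_sub_le_norm_sub_add_norm_sub a b e
  have hpt1 : ‖p1 - t‖ ≤ M + 2 * g := by
    have e1 := tri p1 z1 t
    have e2 := tri z1 c t
    have e3 : ‖p1 - z1‖ = ‖z1 - p1‖ := norm_sub_rev _ _
    have e4 : ‖c - t‖ = ‖t - c‖ := norm_sub_rev _ _
    linarith
  have hpt2 : ‖p2 - t‖ ≤ M + 2 * g := by
    have e1 := tri p2 z2 t
    have e2 := tri z2 c t
    have e3 : ‖p2 - z2‖ = ‖z2 - p2‖ := norm_sub_rev _ _
    have e4 : ‖c - t‖ = ‖t - c‖ := norm_sub_rev _ _
    linarith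
  have hp1D : p1 ∉ T.D v := by
    intro h
    have e1 := (hD p1 (hX hp1)).1 h
    have e2 := tri z1 p1 c
    linarith
  have hp2D : p2 ∉ T.D v := by
    intro h
    have e1 := (hD p2 (hX hp2)).1 h
    have e2 := tri z2 p2 c
    linarith
  have hlen : ∀ y ∈ TX.sep p1 p2, TX.len y ≤ M + 2 * g := by
    intro y hy
    have hyX : y ∈ X := TX.sep_sub _ _ hy
    have hyr : y ≠ TX.root := TX.ne_root_of_mem_sep hp1 hp2 hy
    rw [TX.mem_sep] at hy
    by_cases hy1 : p1 ∈ TX.D y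
    · have hy2 : p2 ∉ TX.D y := fun h => hy.2 ⟨fun _ => h, fun _ => hy1⟩
      by_cases hyt : t ∈ TX.D y
      · have := hMst y hyX hyr t hyt p2 hp2 hy2
        rw [norm_sub_rev] at this
        linarith
      · have := hMst y hyX hyr p1 hy1 t ht hyt
        linarith
    · have hy2 : p2 ∈ TX.D y := by
        by_contra h; exact hy.2 ⟨fun h' => absurd h' hy1, fun h' => absurd h' h⟩
      by_cases hyt : t ∈ TX.D y
      · have := hMst y hyX hyr t hyt p1 hp1 hy1
        rw [norm_sub_rev] at this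
        linarith
      · have := hMst y hyX hyr p2 hy2 t ht hyt
        linarith
  -- the edge `v, par v`
  set b0 : ℂ := if (∃ y ∈ TX.sep p1 p2, (y = v ∧ TX.par y = T.par v) ∨
    (y = T.par v ∧ TX.par y = v)) then T.par v else p1 with hb0
  set rho : ℂ → ℂ := fun a => if a ∈ T.D v then b0 else a with hrho
  set R : ℂ → ℂ → Prop := fun a b => b ∈ OO g X ∧ 999 / 100000 * r < ‖b - c‖ ∧
      ‖a - b‖ ≤ (1 + 1 / 10 ^ 5) * M with hR
  have step : ∀ a ∈ X, ∀ b ∈ X, a ∉ T.D v → b ∉ T.D v → ‖a - b‖ ≤ M + 2 * g →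
      R (cel g a) (cel g b) := by
    intro a ha b hb haD hbD hab
    refine ⟨leaf_mem_OO.2 ⟨b, hb, rfl⟩, ?_, ?_⟩
    · have e1 := (hD b (hX hb)).2 hbD
      have e2 := leaf_cel_dist g hg0 b
      have e3 := tri b (cel g b) c
      have e4 : ‖b - cel g b‖ = ‖cel g b - b‖ := norm_sub_rev _ _
      linarith
    · have e1 := leaf_cel_dist g hg0 a
      have e2 := leaf_cel_dist g hg0 b
      have e3 := tri (cel g a) a (cel g b)
      have e4 := tri a b (cel g b)
      have e5 : ‖b - cel g b‖ = ‖cel g b - b‖ := norm_sub_rev _ _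
      have e6 : r / 100 < M := lt_of_lt_of_le h1 hM1
      have e7 : 4 * g ≤ 1 / 10 ^ 5 * M := by
        have : 4 * g ≤ 4 * (r / 10 ^ 8) := by linarith
        have : 4 * (r / 10 ^ 8) ≤ 1 / 10 ^ 5 * (r / 100) := by
          norm_num; linarith
        have : 1 / 10 ^ 5 * (r / 100) ≤ 1 / 10 ^ 5 * M := by
          apply mul_le_mul_of_nonneg_left e6.le; positivity
        linarith
      linarith
  have key : (fun z => Relation.ReflTransGen R z1 (cel g (rho z))) p1 ↔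
      (fun z => Relation.ReflTransGen R z1 (cel g (rho z))) p2 := by
    apply walk TX _ hp1 hp2
    intro y hy
    have hyX : y ∈ X := TX.sep_sub _ _ hy
    have hyr : y ≠ TX.root := TX.ne_root_of_mem_sep hp1 hp2 hy
    have hpX : TX.par y ∈ X := TX.par_mem y hyX
    have hyl := hlen y hy
    have hyl' : ‖y - TX.par y‖ ≤ M + 2 * g := hyl
    have hyl2 : ‖TX.par y - y‖ ≤ M + 2 * g := by rw [norm_sub_rev]; exact hyl
    have hyl3 : TX.len y ≤ 301 * r := by linarith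
    have hexit : ∀ a b : ℂ, a ∈ P → b ∈ P → T.Edge a b → a ∈ T.D v → b ∉ T.D v →
        a = v ∧ b = T.par v := by
      intro a b haP hbP he haD hbD
      rcases he with ⟨_, he⟩ | ⟨_, he⟩
      · have : a = v := by
          by_contra hne
          exact hbD (he ▸ T.par_mem_D haD hne)
        exact ⟨this, by rw [← he, this]⟩
      · exfalso
        apply hbD
        rw [← he] at haD
        exact T.D_trans (T.mem_D_par (T.self_mem_D hbP)) haD
    show Relation.ReflTransGen R z1 (cel g (rho y)) ↔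
      Relation.ReflTransGen R z1 (cel g (rho (TX.par y)))
    by_cases hyD : y ∈ T.D v
    · by_cases hpD : TX.par y ∈ T.D v
      · have e1 : rho y = b0 := if_pos hyD
        have e2 : rho (TX.par y) = b0 := if_pos hpD
        rw [e1, e2]
      · have hE : T.Edge y (TX.par y) := by
          by_contra hE
          have := (hun y hyX hyr hE hyl3).1
          have := (hD y (hX hyX)).1 hyD
          linarith
        obtain ⟨e1, e2⟩ := hexit y (TX.par y) (hX hyX) (hX hpX) hE hyD hpD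
        have e3 : b0 = T.par v := if_pos ⟨y, hy, Or.inl ⟨e1, e2⟩⟩
        have e4 : rho y = b0 := if_pos hyD
        have e5 : rho (TX.par y) = TX.par y := if_neg hpD
        rw [e4, e5, e3, e2]
    · by_cases hpD : TX.par y ∈ T.D v
      · have hE : T.Edge y (TX.par y) := by
          by_contra hE
          have := (hun y hyX hyr hE hyl3).2
          have := (hD _ (hX hpX)).1 hpD
          linarith
        have hE' : T.Edge (TX.par y) y := hE.symm
        obtain ⟨e1, e2⟩ := hexit (TX.par y) y (hX hpX) (hX hyX) hE' hpD hyD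
        have e3 : b0 = T.par v := if_pos ⟨y, hy, Or.inr ⟨e2, e1⟩⟩
        have e4 : rho y = y := if_neg hyD
        have e5 : rho (TX.par y) = b0 := if_pos hpD
        rw [e4, e5, e3, ← e2]
      · have e1 : rho y = y := if_neg hyD
        have e2 : rho (TX.par y) = TX.par y := if_neg hpD
        rw [e1, e2]
        constructor
        · intro h
          exact h.tail (step y hyX _ hpX hyD hpD hyl')
        · intro h
          exact h.tail (step _ hpX y hyX hpD hyD hyl2)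
  have e1 : rho p1 = p1 := if_neg hp1D
  have e2 : rho p2 = p2 := if_neg hp2D
  have k1 : Relation.ReflTransGen R z1 (cel g (rho p1)) := by
    rw [e1, hpz1]
  have k2 : Relation.ReflTransGen R z1 (cel g (rho p2)) := key.1 k1
  rw [e2, hpz2] at k2
  exact k2

theorem og6_of_g6 {P X : Finset ℂ} (g r rho : ℝ) (hg0 : 0 < g) (hg : g ≤ r / 10 ^ 8) (c : ℂ)
    (hX : X ⊆ P) (h1 : r ≤ rho) (h2 : rho ≤ r + g) (hXc : ∀ p ∈ P, ‖p - c‖ ≤ rho → p ∈ X)
    (hG : G6 P c rho (998 / 100000) (1001 / 100000) (1002 / 100000) (49 / 100)) :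
    OG6 (OO g X) c r := by
  rintro ⟨o, ho, ho1, ho2⟩
  have hg' : 10 ^ 8 * g ≤ r := by
    rw [le_div_iff₀ (by positivity)] at hg; linarith
  have hr0 : 0 < r := by linarith
  have tri : ∀ a b e : ℂ, ‖a - e‖ ≤ ‖a - b‖ + ‖b - e‖ := fun a b e =>
    norm_sub_le_norm_sub_add_norm_sub a b e
  obtain ⟨p, hp, hpo⟩ := leaf_mem_OO.1 ho
  have d1 := leaf_cel_dist g hg0 p
  rw [hpo] at d1
  have e1 := tri o p c
  have e2 := tri p o c
  have e3 : ‖p - o‖ = ‖o - p‖ := norm_sub_rev _ _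
  obtain ⟨p', hp', h3, h4⟩ := hG ⟨p, hX hp, by linarith, by linarith⟩
  have hp'X : p' ∈ X := hXc p' hp' (by linarith)
  have d2 := leaf_cel_dist g hg0 p'
  have f1 := tri (cel g p') p' c
  have f2 := tri p' (cel g p') c
  have f3 : ‖p' - cel g p'‖ = ‖cel g p' - p'‖ := norm_sub_rev _ _
  exact ⟨cel g p', leaf_mem_OO.2 ⟨p', hp'X, rfl⟩, by linarith, by linarith⟩

end Pool.Agent.H49.Tsp
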