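import Pool.Agent.H49.Tsp.Defs3

/-!
Values of squares: general facts.
-/

set_option autoImplicit false

namespace Pool.Agent.H49.Tsp

open Classical

theorem val_cel_dist (g : ℝ) (hg : 0 < g) (p : ℂ) : ‖cel g p - p‖ ≤ g := by
  have h : ∀ x : ℝ, |((⌊x / g⌋ : ℝ) + 1 / 2) * g - x| ≤ g / 2 := by
    intro x
    have h1 := Int.floor_le (x / g)
    have h2 := Int.lt_floor_add_one (x / g)
    have h3 : x = x / g * g := by field_simp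
    rw [abs_le]
    constructor
    · nlinarith
    · nlinarith
  have h1 : (cel g p - p).re = ((⌊p.re / g⌋ : ℝ) + 1 / 2) * g - p.re := rfl
  have h2 : (cel g p - p).im = ((⌊p.im / g⌋ : ℝ) + 1 / 2) * g - p.im := rfl
  have h3 := Complex.norm_le_abs_re_add_abs_im (cel g p - p)
  rw [h1, h2] at h3
  linarith [h p.re, h p.im]

theorem fam_sub {g D : ℝ} {k0 k1 : ℕ} {q : ℂ} {X : Finset ℂ} {F : Finset (ℂ × ℕ)}
    (hF : Fam g D k0 k1 q X F) :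
    F ⊆ ((OO g X) ×ˢ (Finset.range k1)).filter (fun a => k0 ≤ a.2 ∧ Adm g X a) := by
  intro a ha
  obtain ⟨h1, h2, h3, -⟩ := hF.1 a ha
  rw [Finset.mem_filter, Finset.mem_product, Finset.mem_range]
  exact ⟨⟨h3.1, h2⟩, h1, h3⟩

theorem fam_empty (g D : ℝ) (k0 k1 : ℕ) (q : ℂ) (X : Finset ℂ) : Fam g D k0 k1 q X ∅ :=
  ⟨fun a ha => absurd ha (Finset.notMem_empty a), fun a ha => absurd ha (Finset.notMem_empty a)⟩

theorem fam_finite (g D : ℝ) (k0 k1 : ℕ) (q : ℂ) (X : Finset ℂ) (γ : ℂ × ℕ → ℝ) :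
    {x : ℝ | ∃ F, Fam g D k0 k1 q X F ∧ x = ∑ a ∈ F, g * γ a}.Finite := by
  apply Set.Finite.subset ((((OO g X) ×ˢ (Finset.range k1)).filter
    (fun a => k0 ≤ a.2 ∧ Adm g X a)).powerset.image (fun F => ∑ a ∈ F, g * γ a)).finite_toSet
  rintro x ⟨F, hF, rfl⟩
  rw [Finset.mem_coe, Finset.mem_image]
  exact ⟨F, Finset.mem_powerset.2 (fam_sub hF), rfl⟩

theorem fam_nonempty (g D : ℝ) (k0 k1 : ℕ) (q : ℂ) (X : Finset ℂ) (γ : ℂ × ℕ → ℝ) :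
    {x : ℝ | ∃ F, Fam g D k0 k1 q X F ∧ x = ∑ a ∈ F, g * γ a}.Nonempty :=
  ⟨_, ∅, fam_empty g D k0 k1 q X, rfl⟩

theorem val_attained (g D : ℝ) (k0 k1 : ℕ) (q : ℂ) (X : Finset ℂ) (γ : ℂ × ℕ → ℝ) :
    ∃ F, Fam g D k0 k1 q X F ∧ Val g D k0 k1 q X γ = ∑ a ∈ F, g * γ a := by
  have h := (fam_nonempty g D k0 k1 q X γ).csSup_mem (fam_finite g D k0 k1 q X γ)
  obtain ⟨F, hF, h1⟩ := h
  exact ⟨F, hF, h1⟩

theorem le_val (g D : ℝ) (k0 k1 : ℕ) (q : ℂ) (X : Finset ℂ) (γ : ℂ × ℕ → ℝ)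
    (F : Finset (ℂ × ℕ)) (hF : Fam g D k0 k1 q X F) :
    ∑ a ∈ F, g * γ a ≤ Val g D k0 k1 q X γ :=
  le_csSup (fam_finite g D k0 k1 q X γ).bddAbove ⟨F, hF, rfl⟩

theorem val_nonneg (g D : ℝ) (hg : 0 ≤ g) (k0 k1 : ℕ) (q : ℂ) (X : Finset ℂ) (γ : ℂ × ℕ → ℝ) :
    0 ≤ Val g D k0 k1 q X γ := by
  have h := le_val g D k0 k1 q X γ ∅ (fam_empty g D k0 k1 q X)
  simpa using h

theorem val_le_add (g D : ℝ) (hg : 0 ≤ g) (k0 k1 : ℕ) (q : ℂ) (X : Finset ℂ)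
    (γ γ' : ℂ × ℕ → ℝ) :
    Val g D k0 k1 q X γ ≤ Val g D k0 k1 q X γ' +
      ∑ a ∈ ((OO g X) ×ˢ (Finset.range k1)).filter (fun a => k0 ≤ a.2 ∧ Adm g X a),
        g * |γ a - γ' a| := by
  obtain ⟨F, hF, h1⟩ := val_attained g D k0 k1 q X γ
  have h2 := le_val g D k0 k1 q X γ' F hF
  have h3 : ∑ a ∈ F, g * |γ a - γ' a| ≤
      ∑ a ∈ ((OO g X) ×ˢ (Finset.range k1)).filter (fun a => k0 ≤ a.2 ∧ Adm g X a),
        g * |γ a - γ' a| := by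
    apply Finset.sum_le_sum_of_subset_of_nonneg (fam_sub hF)
    intro a _ _
    exact mul_nonneg hg (abs_nonneg _)
  have h4 : ∑ a ∈ F, g * γ a ≤ ∑ a ∈ F, g * γ' a + ∑ a ∈ F, g * |γ a - γ' a| := by
    rw [← Finset.sum_add_distrib]
    apply Finset.sum_le_sum
    intro a _
    have h5 := le_abs_self (γ a - γ' a)
    nlinarith
  rw [h1]
  linarith

/-- No admissible annuli if the diameter is small. -/
theorem not_adm (g : ℝ) (hg : 0 < g) (X : Finset ℂ) (a : ℂ × ℕ) (M : ℝ)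
    (hM : ∀ p ∈ X, ∀ q ∈ X, ‖p - q‖ ≤ M) (ha : M < a.2 * g) : ¬ Adm g X a := by
  rintro ⟨h1, -, -, o, ho, h2⟩
  unfold OO at h1 ho
  rw [Finset.mem_image] at h1 ho
  obtain ⟨p, hp, hpa⟩ := h1
  obtain ⟨p', hp', rfl⟩ := ho
  rw [← hpa] at h2
  have e1 := val_cel_dist g hg p
  have e2 := val_cel_dist g hg p'
  have e3 := hM p' hp' p hp
  have e4 : ‖cel g p' - cel g p‖ ≤ ‖cel g p' - p'‖ + ‖p' - p‖ + ‖cel g p - p‖ := by
    have : cel g p' - cel g p = (cel g p' - p') + (p' - p) - (cel g p - p) := by ring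
    rw [this]
    exact (norm_sub_le _ _).trans (by gcongr; exact norm_add_le _ _)
  nlinarith

end Pool.Agent.H49.Tsp
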