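import Pool.Agent.H49.Tsp.Tips
import Pool.Agent.H49.Tsp.Leaf
import Pool.Agent.H49.Tsp.Val
import Pool.Agent.H49.Tsp.Cells

/-!
The value of a square is at least 3/4 times the total length of its untouched good tips.
-/

set_option autoImplicit false

namespace Pool.Agent.H49.Tsp

open Classical

theorem mem_win_of_near {P : Finset ℂ} {D : ℝ} {q w p : ℂ} (hw : Deep D q w) (hp : p ∈ P)
    (h : ‖p - w‖ ≤ D / 2) (hD : 0 < D) : p ∈ win P D q := by
  have h1 := Complex.abs_re_le_norm (p - w)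
  have h2 := Complex.abs_im_le_norm (p - w)
  rw [Complex.sub_re, abs_le] at h1
  rw [Complex.sub_im, abs_le] at h2
  obtain ⟨d1, d2, d3, d4⟩ := hw
  rw [win, Finset.mem_filter]
  refine ⟨hp, ?_, ?_, ?_, ?_⟩ <;> linarith [h1.1, h1.2, h2.1, h2.2]

theorem norm_tri (a b c : ℂ) : ‖a - c‖ ≤ ‖a - b‖ + ‖b - c‖ := by
  have := norm_add_le (a - b) (b - c)
  simpa using this

theorem sg_win {P : Finset ℂ} {D : ℝ} {q w c : ℂ} {r : ℝ} (hw : Deep D q w) (hD : 0 < D)
    (hr : r ≤ D / 4000) (hc : ‖c - w‖ ≤ D / 100) (h : SG P c r) : SG (win P D q) c r := by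
  obtain ⟨⟨e, he, hDC⟩, hNG⟩ := h
  refine ⟨⟨e, he, fun p hp hpr => hDC p (Finset.mem_of_mem_filter p hp) hpr⟩, ?_⟩
  intro s hs0 hs1 hs
  obtain ⟨p, hp, hps⟩ := hs
  obtain ⟨⟨p1, hp1, h11, h12⟩, ⟨p2, hp2, h21, h22⟩⟩ :=
    hNG s hs0 hs1 ⟨p, Finset.mem_of_mem_filter p hp, hps⟩
  have key : ∀ p' ∈ P, ‖p' - c‖ ≤ r + 220 * s → p' ∈ win P D q := by
    intro p' hp' h'
    apply mem_win_of_near hw hp' _ hD
    have := norm_tri p' c w
    linarith
  exact ⟨⟨p1, key p1 hp1 (by linarith), h11, h12⟩, ⟨p2, key p2 hp2 h22, h21, h22⟩⟩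

theorem card_grid_le (x : ℝ) (hx : 0 < x) (a b : ℝ) (hab : a ≤ b) (S : Finset ℕ)
    (hS : ∀ m ∈ S, a ≤ m * x ∧ m * x ≤ b) : (S.card : ℝ) ≤ (b - a) / x + 1 := by
  by_cases hne : S.Nonempty
  · have hmin := S.min'_mem hne
    have hmax := S.max'_mem hne
    have hsub : S ⊆ Finset.Icc (S.min' hne) (S.max' hne) := fun m hm =>
      Finset.mem_Icc.2 ⟨S.min'_le m hm, S.le_max' m hm⟩
    have hc := Finset.card_le_card hsub
    rw [Nat.card_Icc] at hc
    have hle : S.min' hne ≤ S.max' hne := S.min'_le _ hmax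
    have h1 := (hS _ hmin).1
    have h2 := (hS _ hmax).2
    have h4 : (S.card : ℝ) ≤ (S.max' hne : ℝ) + 1 - (S.min' hne : ℝ) := by
      have h5 : S.card + S.min' hne ≤ S.max' hne + 1 := by omega
      have := (Nat.cast_le (α := ℝ)).2 h5
      push_cast at this
      linarith
    have h3 : ((S.max' hne : ℝ) - (S.min' hne : ℝ)) ≤ (b - a) / x := by
      rw [le_div_iff₀ hx]
      linarith
    linarith
  · rw [Finset.not_nonempty_iff_eq_empty] at hne
    subst hne
    have : 0 ≤ (b - a) / x := div_nonneg (by linarith) hx.le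
    simp only [Finset.card_empty, Nat.cast_zero]
    linarith

theorem card_pairs_le (g : ℝ) (hg : 0 < g) (N : ℕ) (hN : 0 < N) (a b : ℝ) (hab : a ≤ b)
    (S : Finset (ℕ × ℕ))
    (hS : ∀ m ∈ S, m.2 < N ∧ a ≤ ((m.1 : ℝ) + m.2 / N) * g ∧ ((m.1 : ℝ) + m.2 / N) * g ≤ b) :
    (S.card : ℝ) ≤ (b - a) * N / g + 1 := by
  have hN' : (0 : ℝ) < N := by exact_mod_cast hN
  have hinj : Set.InjOn (fun m : ℕ × ℕ => m.1 * N + m.2) S := by
    intro x hx y hy hxy
    have h1 := (hS x hx).1
    have h2 := (hS y hy).1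
    simp only at hxy
    have e2 : x.2 = y.2 := by
      have h3 : (x.1 * N + x.2) % N = (y.1 * N + y.2) % N := by rw [hxy]
      rw [mul_comm x.1, mul_comm y.1, Nat.mul_add_mod, Nat.mul_add_mod] at h3
      rwa [Nat.mod_eq_of_lt h1, Nat.mod_eq_of_lt h2] at h3
    have e1 : x.1 = y.1 := by
      rw [e2] at hxy
      exact Nat.eq_of_mul_eq_mul_right hN (by omega)
    exact Prod.ext e1 e2
  rw [← Finset.card_image_of_injOn hinj]
  have h := card_grid_le (g / N) (by positivity) a b hab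
    (S.image (fun m : ℕ × ℕ => m.1 * N + m.2)) ?_
  · have e : (b - a) / (g / N) = (b - a) * N / g := by
      field_simp
    rwa [e] at h
  · intro m hm
    rw [Finset.mem_image] at hm
    obtain ⟨x, hx, rfl⟩ := hm
    have h3 := hS x hx
    have e : ((x.1 * N + x.2 : ℕ) : ℝ) * (g / N) = ((x.1 : ℝ) + x.2 / N) * g := by
      push_cast
      field_simp
    rw [e]
    exact h3.2

/-- Counting the good grid radii of one tip. -/
theorem count_radii (g h : ℝ) (hg : 0 < g) (hh : 10 ^ 6 * g ≤ h) (k1 N K C : ℕ) (hN : 2000 * C ≤ N)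
    (hC : 0 < C) (hk1 : 9 / 10 * h ≤ k1 * g) (a b : ℕ → ℝ) (hK : K ≤ 20 * C)
    (hab : ∀ i < K, a i ≤ b i) (hsum : ∑ i ∈ Finset.range K, (b i - a i) ≤ 7 / 100 * h)
    (p : ℕ → ℕ → Prop)
    (hp : ∀ k t : ℕ, t < N → h / 20 ≤ ((k : ℝ) + t / N) * g →
      ((k : ℝ) + t / N) * g ≤ 9 / 10 * h → ¬ p k t →
      ∃ i < K, a i ≤ ((k : ℝ) + t / N) * g ∧ ((k : ℝ) + t / N) * g ≤ b i)
    (S : Finset ℕ) (hS : S = (Finset.range k1).filter
      (fun k : ℕ => h / 20 ≤ k * g ∧ ((k : ℝ) + 1) * g ≤ 9 / 10 * h)) :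
    3 / 4 * h ≤ ∑ k ∈ S, g * frac N (fun t => p k t) := by
  have hN0 : 0 < N := by omega
  have hN' : (0 : ℝ) < N := by exact_mod_cast hN0
  have hh0 : 0 < h := by linarith [mul_pos (by norm_num : (0:ℝ) < 10 ^ 6) hg]
  -- the number of indices
  have hcard : 85 / 100 * (h / g) - 2 ≤ (S.card : ℝ) := by
    have hsub : Finset.Ico ⌈h / (20 * g)⌉₊ ⌊9 * h / (10 * g)⌋₊ ⊆ S := by
      intro k hk
      rw [Finset.mem_Ico] at hk
      have h1 : h / (20 * g) ≤ k := (Nat.ceil_le).1 hk.1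
      have h2 : ((k : ℝ) + 1) ≤ 9 * h / (10 * g) := by
        have h3 : k + 1 ≤ ⌊9 * h / (10 * g)⌋₊ := hk.2
        have h4 := (Nat.le_floor_iff (by positivity)).1 h3
        exact_mod_cast h4
      have h5 : h / 20 ≤ k * g := by
        rw [div_le_iff₀ (by positivity)] at h1
        linarith
      have h6 : ((k : ℝ) + 1) * g ≤ 9 / 10 * h := by
        rw [le_div_iff₀ (by positivity)] at h2
        linarith
      rw [hS, Finset.mem_filter, Finset.mem_range]
      refine ⟨?_, h5, h6⟩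
      have h7 : ((k : ℝ) + 1) * g ≤ k1 * g := h6.trans hk1
      have h8 : ((k : ℝ) + 1) ≤ k1 := le_of_mul_le_mul_right h7 hg
      exact_mod_cast h8
    have h9 := Finset.card_le_card hsub
    rw [Nat.card_Ico] at h9
    have h10 : (⌊9 * h / (10 * g)⌋₊ : ℝ) ≤ S.card + ⌈h / (20 * g)⌉₊ := by
      have : ⌊9 * h / (10 * g)⌋₊ ≤ S.card + ⌈h / (20 * g)⌉₊ := by omega
      exact_mod_cast this
    have h11 : 9 * h / (10 * g) < (⌊9 * h / (10 * g)⌋₊ : ℝ) + 1 := Nat.lt_floor_add_one _
    have h12 : (⌈h / (20 * g)⌉₊ : ℝ) < h / (20 * g) + 1 := Nat.ceil_lt_add_one (by positivity)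
    have e1 : 9 * h / (10 * g) = 9 / 10 * (h / g) := by field_simp
    have e2 : h / (20 * g) = 1 / 20 * (h / g) := by field_simp
    rw [e1] at h11
    rw [e2] at h12
    rw [e1, e2] at h10
    linarith
  -- the pairs
  set A : Finset (ℕ × ℕ) := S ×ˢ Finset.range N with hA
  have hAc : A.card = S.card * N := by rw [hA, Finset.card_product, Finset.card_range]
  have hbad : ((A.filter (fun m => ¬ p m.1 m.2)).card : ℝ) ≤ 7 / 100 * h * N / g + K := by
    have hsub : A.filter (fun m => ¬ p m.1 m.2) ⊆ (Finset.range K).biUnion (fun i =>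
        A.filter (fun m => a i ≤ ((m.1 : ℝ) + m.2 / N) * g ∧
          ((m.1 : ℝ) + m.2 / N) * g ≤ b i)) := by
      intro m hm
      rw [Finset.mem_filter] at hm
      obtain ⟨hm1, hm2⟩ := hm
      have hm3 := hm1
      rw [hA, Finset.mem_product, hS, Finset.mem_filter, Finset.mem_range, Finset.mem_range] at hm1
      obtain ⟨⟨_, h1, h2⟩, h3⟩ := hm1
      have h4 : (0 : ℝ) ≤ (m.2 : ℝ) / N := by positivity
      have h5 : (m.2 : ℝ) / N ≤ 1 := by
        rw [div_le_one hN']
        exact_mod_cast h3.le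
      obtain ⟨i, hi, h6⟩ := hp m.1 m.2 h3 (h1.trans (by nlinarith)) (le_trans (by nlinarith) h2) hm2
      rw [Finset.mem_biUnion]
      exact ⟨i, Finset.mem_range.2 hi, Finset.mem_filter.2 ⟨hm3, h6⟩⟩
    have h1 : ((A.filter (fun m => ¬ p m.1 m.2)).card : ℝ) ≤
        ∑ i ∈ Finset.range K, ((A.filter (fun m => a i ≤ ((m.1 : ℝ) + m.2 / N) * g ∧
          ((m.1 : ℝ) + m.2 / N) * g ≤ b i)).card : ℝ) := by
      have := (Finset.card_le_card hsub).trans Finset.card_biUnion_le
      exact_mod_cast this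
    refine h1.trans ?_
    have h2 : ∑ i ∈ Finset.range K, ((A.filter (fun m => a i ≤ ((m.1 : ℝ) + m.2 / N) * g ∧
          ((m.1 : ℝ) + m.2 / N) * g ≤ b i)).card : ℝ) ≤
        ∑ i ∈ Finset.range K, ((b i - a i) * N / g + 1) := by
      apply Finset.sum_le_sum
      intro i hi
      apply card_pairs_le g hg N hN0 _ _ (hab i (Finset.mem_range.1 hi))
      intro m hm
      rw [Finset.mem_filter, hA, Finset.mem_product, Finset.mem_range] at hm
      exact ⟨hm.1.2, hm.2⟩
    refine h2.trans ?_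
    rw [Finset.sum_add_distrib, Finset.sum_const, Finset.card_range, nsmul_eq_mul, mul_one]
    have h3 : ∑ i ∈ Finset.range K, (b i - a i) * N / g =
        (∑ i ∈ Finset.range K, (b i - a i)) * (N / g) := by
      rw [Finset.sum_mul]
      apply Finset.sum_congr rfl
      intro i _
      ring
    rw [h3]
    have h4 : (∑ i ∈ Finset.range K, (b i - a i)) * (N / g) ≤ 7 / 100 * h * (N / g) :=
      mul_le_mul_of_nonneg_right hsum (by positivity)
    have h5 : 7 / 100 * h * (N / g) = 7 / 100 * h * N / g := by ring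
    linarith
  -- the good pairs
  have hgood : ((A.filter (fun m => p m.1 m.2)).card : ℝ) + (A.filter (fun m => ¬ p m.1 m.2)).card =
      S.card * N := by
    have := Finset.card_filter_add_card_filter_not (s := A) (fun m : ℕ × ℕ => p m.1 m.2)
    rw [hAc] at this
    exact_mod_cast this
  have hsumc : ∑ k ∈ S, g * frac N (fun t => p k t) =
      g / N * ((A.filter (fun m => p m.1 m.2)).card : ℝ) := by
    have e : ((A.filter (fun m => p m.1 m.2)).card : ℝ) =
        ∑ k ∈ S, (((Finset.range N).filter (fun t => p k t)).card : ℝ) := by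
      rw [Finset.card_filter, hA, Finset.sum_product]
      push_cast
      apply Finset.sum_congr rfl
      intro k _
      rw [Finset.card_filter]
      push_cast
      rfl
    rw [e, Finset.mul_sum]
    apply Finset.sum_congr rfl
    intro k _
    rw [frac]
    ring
  rw [hsumc]
  have hK' : (K : ℝ) ≤ N / 100 := by
    have h1 : (K : ℝ) ≤ 20 * C := by exact_mod_cast hK
    have h2 : (2000 : ℝ) * C ≤ N := by exact_mod_cast hN
    linarith
  have hfin : (78 / 100 * h * N / g - 2 * N - N / 100) ≤ ((A.filter (fun m => p m.1 m.2)).card : ℝ) := by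
    have h1 : (85 / 100 * (h / g) - 2) * N ≤ S.card * N :=
      mul_le_mul_of_nonneg_right hcard hN'.le
    have h2 : (85 / 100 * (h / g) - 2) * N = 85 / 100 * h * N / g - 2 * N := by ring
    have h3 : 78 / 100 * h * N / g = 85 / 100 * h * N / g - 7 / 100 * h * N / g := by ring
    linarith
  have h1 : g / N * (78 / 100 * h * N / g - 2 * N - N / 100) ≤
      g / N * ((A.filter (fun m => p m.1 m.2)).card : ℝ) :=
    mul_le_mul_of_nonneg_left hfin (by positivity)
  have h2 : g / N * (78 / 100 * h * N / g - 2 * N - N / 100) = 78 / 100 * h - 201 / 100 * g := by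
    field_simp
    ring
  rw [h2] at h1
  linarith

theorem frac_mono {n : ℕ} {p q : ℕ → Prop} (h : ∀ t < n, p t → q t) : frac n p ≤ frac n q := by
  rw [frac, frac]
  apply div_le_div_of_nonneg_right _ (Nat.cast_nonneg n)
  have : (Finset.range n).filter p ⊆ (Finset.range n).filter q := by
    intro t ht
    rw [Finset.mem_filter, Finset.mem_range] at ht ⊢
    exact ⟨ht.1, h t ht.1 ht.2⟩
  exact_mod_cast Finset.card_le_card this

theorem frac_zero {n : ℕ} {p : ℕ → Prop} (h : ∀ t < n, ¬ p t) : frac n p = 0 := by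
  have : (Finset.range n).filter p = ∅ := by
    rw [Finset.filter_eq_empty_iff]
    intro t ht
    exact h t (Finset.mem_range.1 ht)
  rw [frac, this]
  simp

theorem block_value {P : Finset ℂ} {ω : ℂ → ℂ → ℕ} (hω : TieBreak P ω) (T : RTree P)
    (hT : T.IsMstW ω) (H : Heavy T) (W : Finset ℂ) (lam k4 del : ℝ) (hS : SGood lam k4 del)
    (hTi : T.Tight W lam) (g D : ℝ) (k0 k1 N : ℕ) (q : ℂ) (hg : 0 < g) (hk0 : 10 ^ 9 ≤ k0)
    (hdel : 1 ≤ del * k0) (hD : 4000 * (k1 * g) ≤ D) (hN : 2000 * (P.card + 1) ≤ N)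
    (TX : RTree (win P D q)) (hTX : TX.IsMstW ω) (A : Finset ℂ)
    (hA : ∀ w ∈ A, GoodTip H W k4 w ∧ 20 * (k0 * g) ≤ H.h w ∧ 9 / 10 * H.h w ≤ k1 * g ∧
      Deep D q w ∧ ¬ Touched H TX (301 * (k1 * g)) w) :
    3 / 4 * ∑ w ∈ A, H.h w ≤ Val g D k0 k1 q (win P D q) (gamS g N (win P D q)) := by
  have hN0 : 0 < N := by omega
  have hN' : (0 : ℝ) < N := by exact_mod_cast hN0
  obtain ⟨hl0, hk40, hdel0, hl, hk4, hdel6, -⟩ := id hS
  have hk0' : (10 : ℝ) ^ 9 ≤ k0 := by exact_mod_cast hk0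
  -- basic facts on one tip
  have hbas : ∀ w ∈ A, 20 * (k0 * g) ≤ H.h w ∧ 10 ^ 10 * g ≤ H.h w ∧ 9 / 10 * H.h w ≤ k1 * g ∧
      ‖cel g w - w‖ ≤ g ∧ ‖cel g w - w‖ ≤ del * H.h w ∧ k1 * g ≤ D / 4000 ∧ 0 < D := by
    intro w hw
    obtain ⟨-, h1, h2, -, -⟩ := hA w hw
    have h3 : (10 : ℝ) ^ 9 * g ≤ k0 * g := mul_le_mul_of_nonneg_right hk0' hg.le
    have h4 : (10 : ℝ) ^ 10 * g ≤ H.h w := by nlinarith
    have h5 := cel_dist g hg w
    have h6 : g ≤ del * H.h w := by
      have h7 : del * (20 * (k0 * g)) ≤ del * H.h w := mul_le_mul_of_nonneg_left h1 hdel0.le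
      have h8 : 1 * g ≤ del * k0 * g := mul_le_mul_of_nonneg_right hdel hg.le
      nlinarith
    have h9 : k1 * g ≤ D / 4000 := by linarith
    exact ⟨h1, h4, h2, h5, h5.trans h6, h9, by nlinarith⟩
  have hXP : win P D q ⊆ P := Finset.filter_subset _ _
  set Ks : ℂ → Finset ℕ := fun w => (Finset.range k1).filter
    (fun k : ℕ => H.h w / 20 ≤ k * g ∧ ((k : ℝ) + 1) * g ≤ 9 / 10 * H.h w) with hKs
  set Gw : ℂ → Finset ℕ := fun w => (Ks w).filter
    (fun k : ℕ => ∃ t < N, TipRad H w (cel g w) (((k : ℝ) + (t : ℕ) / N) * g)) with hGw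
  have hGmem : ∀ w k, k ∈ Gw w → k < k1 ∧ H.h w / 20 ≤ k * g ∧ ((k : ℝ) + 1) * g ≤ 9 / 10 * H.h w ∧
      ∃ r : ℝ, k * g ≤ r ∧ r ≤ ((k : ℝ) + 1) * g ∧ TipRad H w (cel g w) r := by
    intro w k hk
    rw [hGw, Finset.mem_filter, hKs, Finset.mem_filter, Finset.mem_range] at hk
    obtain ⟨⟨h1, h2, h3⟩, t, ht, h4⟩ := hk
    refine ⟨h1, h2, h3, _, ?_, ?_, h4⟩
    · have : (0 : ℝ) ≤ (t : ℝ) / N := by positivity
      nlinarith
    · have : (t : ℝ) / N ≤ 1 := by
        rw [div_le_one hN']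
        exact_mod_cast ht.le
      nlinarith
  -- disjointness of the annuli of different tips
  have hsep : ∀ w ∈ A, ∀ w' ∈ A, w ≠ w' → ∀ k ∈ Gw w, ∀ k' ∈ Gw w',
      DisjAnn g (cel g w, k) (cel g w', k') := by
    intro w hw w' hw' hne k hk k' hk' y h1 h2 h3 h4
    obtain ⟨-, a1, a2, r, a3, a4, a5⟩ := hGmem w k hk
    obtain ⟨-, b1, b2, r', b3, b4, b5⟩ := hGmem w' k' hk'
    obtain ⟨c1, c2, c3, c4, c5, c6, c7⟩ := hbas w hw
    obtain ⟨d1, d2, d3, d4, d5, d6, d7⟩ := hbas w' hw'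
    simp only at h1 h2 h3 h4
    refine circles_disjoint H W lam k4 hl0.le hl hk4 hTi w w' (hA w hw).1 (hA w' hw').1 hne
      (cel g w) (cel g w') g hg.le ?_ ?_ c4 d4 r r' a5 b5 (a4.trans a2) (b4.trans b2) y ?_ ?_
    · rw [le_div_iff₀ (by positivity)]
      nlinarith
    · rw [le_div_iff₀ (by positivity)]
      nlinarith
    · rw [abs_le]
      constructor <;> linarith
    · rw [abs_le]
      constructor <;> linarith
  have hne' : ∀ w ∈ A, ∀ w' ∈ A, w ≠ w' → ∀ k ∈ Gw w, ∀ k' ∈ Gw w',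
      (cel g w, k) ≠ (cel g w', k') := by
    intro w hw w' hw' hne k hk k' hk' he
    have h1 := congrArg Prod.fst he
    have h2 := congrArg Prod.snd he
    simp only at h1 h2
    have h3 : ‖cel g w + ((k * g : ℝ) : ℂ) - cel g w‖ = k * g := by
      rw [add_sub_cancel_left, Complex.norm_real, Real.norm_eq_abs, abs_of_nonneg (by positivity)]
    refine hsep w hw w' hw' hne k hk k' hk' (cel g w + ((k * g : ℝ) : ℂ)) ?_ ?_ ?_ ?_
    · exact h3.ge
    · rw [h3]
      simp only
      nlinarith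
    · rw [← h1, ← h2, h3]
    · rw [← h1, ← h2, h3]
      nlinarith
  -- the family
  set F : Finset (ℂ × ℕ) := A.biUnion (fun w => (Gw w).image (fun k => (cel g w, k))) with hF
  have hFam : Fam g D k0 k1 q (win P D q) F := by
    refine ⟨?_, ?_⟩
    · intro a ha
      rw [hF, Finset.mem_biUnion] at ha
      obtain ⟨w, hw, ha⟩ := ha
      rw [Finset.mem_image] at ha
      obtain ⟨k, hk, rfl⟩ := ha
      obtain ⟨a0, a1, a2, r, a3, a4, a5⟩ := hGmem w k hk
      obtain ⟨c1, c2, c3, c4, c5, c6, c7⟩ := hbas w hw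
      obtain ⟨hgt, -, -, hdeep, hunt⟩ := hA w hw
      have hwP : w ∈ P := hgt.1
      have hwX : w ∈ win P D q := mem_win_of_near hdeep hwP (by simpa using by linarith) c7
      have hk0k : k0 ≤ k := by
        have h1 : (k0 : ℝ) * g ≤ k * g := by nlinarith
        have h2 : (k0 : ℝ) ≤ k := le_of_mul_le_mul_right h1 hg
        exact_mod_cast h2
      have hkbig : (10 : ℝ) ^ 9 ≤ k := hk0'.trans (by exact_mod_cast hk0k)
      have hkg : (10 : ℝ) ^ 9 * g ≤ k * g := mul_le_mul_of_nonneg_right hkbig hg.le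
      obtain ⟨hSG, hG6, ⟨r', hr'1, hr'2, v, hv, hvr, hvD⟩, -⟩ := id a5
      refine ⟨hk0k, a0, ⟨?_, ?_, ?_, ?_⟩, ?_⟩
      · exact Finset.mem_image_of_mem _ hwX
      · refine lt_of_untouched hω hXP T hT TX hTX g (k * g) r' hg ?_ (cel g w) w hwX ?_ ?_ ?_ v hv
          hvr hvD ?_
        · rw [le_div_iff₀ (by positivity)]
          nlinarith
        · rw [norm_sub_rev]
          exact c4
        · exact le_trans (mul_le_mul_of_nonneg_left a3 (by norm_num)) hr'1
        · nlinarith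
        · intro y hy hyr hye hyl
          have h1 : ¬ (‖y - w‖ ≤ 11 / 1000 * H.h w ∨ ‖TX.par y - w‖ ≤ 11 / 1000 * H.h w) := by
            intro hor
            apply hunt
            refine ⟨y, hy, hyr, hye, hyl.trans ?_, hor⟩
            have : (k : ℝ) ≤ k1 := by exact_mod_cast a0.le
            nlinarith
          rw [not_or, not_le, not_le] at h1
          have h2 := norm_tri y (cel g w) w
          have h3 := norm_tri (TX.par y) (cel g w) w
          constructor <;> nlinarith [h1.1, h1.2]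
      · refine og6_of_g6 g (k * g) r hg ?_ (cel g w) hXP a3 ?_ ?_ hG6
        · rw [le_div_iff₀ (by positivity)]
          nlinarith
        · linarith
        · intro p hp hpr
          apply mem_win_of_near hdeep hp _ c7
          have := norm_tri p (cel g w) w
          nlinarith
      · obtain ⟨p, hp, hp1, hp2⟩ := tip_far H W lam k4 hl0.le hl hk4 hTi w hgt
        have hpX : p ∈ win P D q := mem_win_of_near hdeep hp (by nlinarith) c7
        refine ⟨cel g p, Finset.mem_image_of_mem _ hpX, ?_⟩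
        have h1 := cel_dist g hg p
        rw [norm_sub_rev] at h1
        have h2 := norm_tri p (cel g p) w
        have h3 := norm_tri (cel g p) (cel g w) w
        simp only
        nlinarith
      · have h1 := Complex.abs_re_le_norm (cel g w - w)
        have h2 := Complex.abs_im_le_norm (cel g w - w)
        rw [Complex.sub_re, abs_le] at h1
        rw [Complex.sub_im, abs_le] at h2
        obtain ⟨e1, e2, e3, e4⟩ := hdeep
        refine ⟨?_, ?_, ?_, ?_⟩ <;> simp only <;> nlinarith [h1.1, h1.2, h2.1, h2.2]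
    · intro a ha b hb hab
      rw [hF, Finset.mem_biUnion] at ha hb
      obtain ⟨w, hw, ha⟩ := ha
      obtain ⟨w', hw', hb⟩ := hb
      rw [Finset.mem_image] at ha hb
      obtain ⟨k, hk, rfl⟩ := ha
      obtain ⟨k', hk', rfl⟩ := hb
      by_cases hww : w = w'
      · subst hww
        intro y h1 h2 h3 h4
        apply hab
        simp only at h1 h2 h3 h4
        have h5 : (k : ℝ) < (k' : ℝ) + 1 := lt_of_mul_lt_mul_right (h1.trans_lt h4) hg.le
        have h6 : (k' : ℝ) < (k : ℝ) + 1 := lt_of_mul_lt_mul_right (h3.trans_lt h2) hg.le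
        have h7 : k < k' + 1 := by exact_mod_cast h5
        have h8 : k' < k + 1 := by exact_mod_cast h6
        have h9 : k = k' := by omega
        rw [h9]
      · exact hsep w hw w' hw' hww k hk k' hk'
  refine le_trans ?_ (le_val g D k0 k1 q (win P D q) (gamS g N (win P D q)) F hFam)
  rw [hF, Finset.sum_biUnion]
  · rw [Finset.mul_sum]
    apply Finset.sum_le_sum
    intro w hw
    rw [Finset.sum_image (by intro x _ y _ hxy; exact congrArg Prod.snd hxy)]
    obtain ⟨c1, c2, c3, c4, c5, c6, c7⟩ := hbas w hw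
    obtain ⟨hgt, -, -, hdeep, hunt⟩ := hA w hw
    obtain ⟨K, a, b, hK, hab, hsum, hbad⟩ := tip_rad H W lam k4 del hS hTi w hgt (cel g w) c5
    have h1 := count_radii g (H.h w) hg (by linarith) k1 N K (P.card + 1) hN (by omega) c3 a b hK
      hab hsum (fun k t => TipRad H w (cel g w) (((k : ℝ) + t / N) * g))
      (fun k t _ h2 h3 h4 => hbad _ h2 h3 h4) (Ks w) rfl
    refine h1.trans ?_
    have h2 : ∑ k ∈ Ks w, g * frac N (fun t => TipRad H w (cel g w) (((k : ℝ) + t / N) * g)) =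
        ∑ k ∈ Gw w, g * frac N (fun t => TipRad H w (cel g w) (((k : ℝ) + t / N) * g)) := by
      symm
      apply Finset.sum_subset (Finset.filter_subset _ _)
      intro k hk hk'
      rw [frac_zero, mul_zero]
      intro t ht h3
      exact hk' (Finset.mem_filter.2 ⟨hk, t, ht, h3⟩)
    rw [h2]
    apply Finset.sum_le_sum
    intro k hk
    apply mul_le_mul_of_nonneg_left _ hg.le
    rw [gamS]
    apply frac_mono
    intro t ht h3
    obtain ⟨a0, a1, a2, -⟩ := hGmem w k hk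
    simp only
    refine sg_win hdeep c7 ?_ (by linarith) h3.1
    have : (t : ℝ) / N ≤ 1 := by
      rw [div_le_one hN']
      exact_mod_cast ht.le
    nlinarith
  · intro w hw w' hw' hne
    rw [Function.onFun, Finset.disjoint_left]
    intro x hx hx'
    rw [Finset.mem_image] at hx hx'
    obtain ⟨k, hk, rfl⟩ := hx
    obtain ⟨k', hk', he⟩ := hx'
    exact hne' w hw w' hw' hne k hk k' hk' he.symm

end Pool.Agent.H49.Tsp
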