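import Pool.Agent.H49.Tsp.Defs2

/-!
Third set of definitions for the streaming TSP problem: active squares, shifts, constants.
-/

set_option autoImplicit false

namespace Pool.Agent.H49.Tsp

open Classical

/-- The properties of a good radius `r` for the centre `c` (strand form). -/
def GoodRad {ι : Type} (S : Strand ι) (P : Finset ℂ) (pos : ℂ → ℕ) (c : ℂ) (r : ℝ) : Prop :=
  (∃ e, DC P c e r (1 / 10 ^ 6) (1 / 25) 0) ∧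
  NG P c r 220 (r / 100) 0 ∧
  G6 P c r (998 / 100000) (1001 / 100000) (1002 / 100000) (49 / 100) ∧
  (∃ r', 9992 / 1000000 * r ≤ r' ∧ r' ≤ 9998 / 1000000 * r ∧ ∃ j < S.n, ∀ p ∈ P,
    (pos p ≤ j → ‖p - c‖ < r') ∧ (j < pos p → r' < ‖p - c‖)) ∧
  (∀ x ∈ S.C, S.t (S.k x) < 19 / 20 * S.h → 4 * S.s x ≤ |‖S.v (S.k x) - c‖ - r|)

/-- The constants of the strand theorem. -/
def SGood (lam k4 del : ℝ) : Prop :=
  0 < lam ∧ 0 < k4 ∧ 0 < del ∧ lam ≤ 1 / 10 ^ 6 ∧ k4 ≤ 1 / 10 ^ 6 ∧ del ≤ 1 / 10 ^ 6 ∧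
    ∀ (ι : Type) (S : Strand ι) (P : Finset ℂ) (pos : ℂ → ℕ), S.IsTight lam k4 →
      S.Pts P pos lam → 0 < S.n → ∀ c : ℂ, ‖c - S.v 0‖ ≤ del * S.h →
      ∃ (K : ℕ) (a b : ℕ → ℝ), K ≤ 10 * (S.n + S.C.card + 1) ∧ (∀ i < K, a i ≤ b i) ∧
        ∑ i ∈ Finset.range K, (b i - a i) ≤ 7 / 100 * S.h ∧
        ∀ r : ℝ, S.h / 20 ≤ r → r ≤ 9 / 10 * S.h → ¬ GoodRad S P pos c r →
          ∃ i < K, a i ≤ r ∧ r ≤ b i

/-- The indices of the squares (shift `s`, side `D`) whose windows contain points of `P`. -/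
noncomputable def act (P : Finset ℂ) (s : ℂ) (D : ℝ) : Finset (ℤ × ℤ) :=
  P.biUnion fun p => ((Finset.Icc (-1 : ℤ) 1) ×ˢ (Finset.Icc (-1 : ℤ) 1)).image
    fun e => (⌊(p.re - s.re) / D⌋ + e.1, ⌊(p.im - s.im) / D⌋ + e.2)

/-- The point `w` lies deep inside the square with corner `q` and side `D`. -/
def Deep (D : ℝ) (q w : ℂ) : Prop :=
  q.re + D / 1000 ≤ w.re ∧ w.re ≤ q.re + D - D / 1000 ∧ q.im + D / 1000 ≤ w.im ∧
    w.im ≤ q.im + D - D / 1000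

/-- The shift with index `a, b < 1000`. -/
noncomputable def off (D : ℝ) (a b : ℕ) : ℂ := ⟨((a : ℝ) / 1000 - 2) * D, ((b : ℝ) / 1000 - 2) * D⟩

/-- The point `a` is near the square with corner `q` and side `D`. -/
def Near (D : ℝ) (q a : ℂ) : Prop :=
  q.re - D / 8 ≤ a.re ∧ a.re ≤ q.re + D + D / 8 ∧ q.im - D / 8 ≤ a.im ∧
    a.im ≤ q.im + D + D / 8

/-- `x` and `x'` (signed distances to a circle) lie in the same shell. -/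
def SameShell (tau0 : ℝ) (x x' : ℝ) : Prop :=
  (0 ≤ x ↔ 0 ≤ x') ∧ ((|x| < tau0 ∧ |x'| < tau0) ∨
    (|x| ≤ (1 + 1 / 10 ^ 6) * |x'| ∧ |x'| ≤ (1 + 1 / 10 ^ 6) * |x|))

/-- Every point of `X` (at distance at most `R` from `c`) lies in the bounding box of the points
of `X'` in the same shell. -/
def BoxDom (X X' : Finset ℂ) (c : ℂ) (r R tau0 : ℝ) : Prop :=
  ∀ p ∈ X, ‖p - c‖ ≤ R → ∃ p1 ∈ X', ∃ p2 ∈ X', ∃ p3 ∈ X', ∃ p4 ∈ X',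
    p1.re ≤ p.re ∧ p.re ≤ p2.re ∧ p3.im ≤ p.im ∧ p.im ≤ p4.im ∧
    SameShell tau0 (‖p - c‖ - r) (‖p1 - c‖ - r) ∧ SameShell tau0 (‖p - c‖ - r) (‖p2 - c‖ - r) ∧
    SameShell tau0 (‖p - c‖ - r) (‖p3 - c‖ - r) ∧ SameShell tau0 (‖p - c‖ - r) (‖p4 - c‖ - r)

end Pool.Agent.H49.Tsp
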