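import Pool.Agent.H49.Tsp.Mst
import Pool.Agent.H49.Tsp.Defs3

/-!
Counting the new edges in a window (job TSP2-E).
-/

set_option autoImplicit false

namespace Pool.Agent.H49.Tsp

open Classical

/-- `z` is the top of the component of `x` in the forest `T[X]`. -/
def IsTop {P : Finset ℂ} (T : RTree P) (X : Finset ℂ) (x z : ℂ) : Prop :=
  z ∈ X ∧ x ∈ T.D z ∧ (z = T.root ∨ T.par z ∉ X) ∧ ∀ u, x ∈ T.D u → u ∈ T.D z → u ∈ X

theorem isTop_exists {P X : Finset ℂ} (T : RTree P) (hX : X ⊆ P) (n : ℕ) :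
    ∀ x ∈ X, T.dep x ≤ n → ∃ z, IsTop T X x z := by
  induction n with
  | zero =>
    intro x hx hd
    have hxP := hX hx
    have hxr : x = T.root := by
      by_contra h
      have := T.dep_lt x hxP h
      omega
    refine ⟨x, hx, T.self_mem_D hxP, Or.inl hxr, fun u h1 h2 => ?_⟩
    rw [T.D_antisymm h2 h1]; exact hx
  | succ n ih =>
    intro x hx hd
    have hxP := hX hx
    by_cases hb : x = T.root ∨ T.par x ∉ X
    · refine ⟨x, hx, T.self_mem_D hxP, hb, fun u h1 h2 => ?_⟩
      rw [T.D_antisymm h2 h1]; exact hx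
    · push Not at hb
      have h1 := T.dep_lt x hxP hb.1
      obtain ⟨z, hz, hxz, h3, h4⟩ := ih (T.par x) hb.2 (by omega)
      have h5 : x ∈ T.D (T.par x) := T.mem_D_par (T.self_mem_D hxP)
      refine ⟨z, hz, T.D_trans h5 hxz, h3, fun u h6 h7 => ?_⟩
      by_cases hux : x = u
      · rw [← hux]; exact hx
      · exact h4 u (T.par_mem_D h6 hux) h7

theorem root_mem_D {P : Finset ℂ} (T : RTree P) {z : ℂ} (h : T.root ∈ T.D z) : z = T.root := by
  obtain ⟨_, k, hk⟩ := T.mem_D.1 h
  rw [T.iter_root] at hk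
  exact hk.symm

theorem isTop_unique {P X : Finset ℂ} (T : RTree P) {x z z' : ℂ}
    (h : IsTop T X x z) (h' : IsTop T X x z') : z = z' := by
  have key : ∀ a b : ℂ, IsTop T X x a → IsTop T X x b → a ∈ T.D b → a = b := by
    intro a b ha hb hab
    by_contra hne
    have h1 : T.par a ∈ T.D b := T.par_mem_D hab hne
    have h2 : T.par a ∈ X := hb.2.2.2 _ (T.mem_D_par ha.2.1) h1
    rcases ha.2.2.1 with h3 | h3
    · rw [h3] at hab
      exact hne (h3.trans (root_mem_D T hab).symm)
    · exact h3 h2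
  rcases T.D_laminar h.2.1 h'.2.1 with h1 | h1
  · exact key z z' h h' h1
  · exact (key z' z h' h h1).symm

theorem isTop_of_mem {P X : Finset ℂ} (T : RTree P) {x z u : ℂ} (h : IsTop T X x z)
    (hu : u ∈ T.sep x (T.par z)) : u ∈ X ∧ IsTop T X u z := by
  have hxz := h.2.1
  rw [T.mem_sep_of_mem_D (T.mem_D_par hxz)] at hu
  obtain ⟨h1, h2, h3⟩ := hu
  have huz : u ∈ T.D z := by
    rcases T.D_laminar h1 hxz with h4 | h4
    · exact h4
    · by_cases hzu : z = u
      · rw [← hzu]; exact T.self_mem_D (T.mem_of_mem_D hxz)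
      · exact absurd (T.D_antisymm h2 (T.par_mem_D h4 hzu)) h3
  exact ⟨h.2.2.2 u h1 huz, h.1, huz, h.2.2.1, fun v h4 h5 => h.2.2.2 v (T.D_trans h1 h4) h5⟩

/-- Edges of `T` inside `X` do not cross the cut of a new edge of `TX`. -/
theorem isTop_cut {P X : Finset ℂ} {ω : ℂ → ℂ → ℕ} (hω : TieBreak P ω) (hX : X ⊆ P)
    (T : RTree P) (hT : T.IsMstW ω) (TX : RTree X) (hTX : TX.IsMstW ω) {y : ℂ}
    (hy : ¬ T.Edge y (TX.par y)) {x z : ℂ} (h : IsTop T X x z) :
    x ∈ TX.D y ↔ z ∈ TX.D y := by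
  obtain ⟨hxP, k, hk⟩ := T.mem_D.1 h.2.1
  refine walk_up T (fun a => a ∈ TX.D y) z k x hxP hk ?_
  intro u hu
  rw [T.mem_sep_of_mem_D h.2.1] at hu
  obtain ⟨h1, h2, h3⟩ := hu
  have huX : u ∈ X := h.2.2.2 u h1 h2
  have hpX : T.par u ∈ X := h.2.2.2 _ (T.mem_D_par h1) (T.par_mem_D h2 h3)
  have hur : u ≠ T.root := by
    intro hr
    rw [hr] at h2
    exact h3 (hr.trans (root_mem_D T h2).symm)
  -- an edge of TX which crosses the cut is y
  have key : ∀ a ∈ X, a ≠ y → (a ∈ TX.D y ↔ TX.par a ∈ TX.D y) := by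
    intro a ha hay
    constructor
    · intro h4; exact TX.par_mem_D h4 hay
    · intro h4; exact TX.D_trans (TX.mem_D_par (TX.self_mem_D ha)) h4
  rcases mst_restrict hω hX T hT TX hTX u huX hur hpX with ⟨h4, h5⟩ | ⟨h4, h5⟩
  · have hne : u ≠ y := by
      intro he
      apply hy
      left
      rw [← he]
      exact ⟨hur, h5.symm⟩
    have := key u huX hne
    rw [h5] at this
    exact this
  · have hne : T.par u ≠ y := by
      intro he
      apply hy
      right
      rw [← he, h5]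
      exact ⟨hur, rfl⟩
    have := key (T.par u) hpX hne
    rw [h5] at this
    exact this.symm

theorem count_new_edges {P : Finset ℂ} {ω : ℂ → ℂ → ℕ} (hω : TieBreak P ω) (T : RTree P)
    (hT : T.IsMstW ω) (D : ℝ) (hD : 0 < D) (q : ℂ) (TX : RTree (win P D q)) (hTX : TX.IsMstW ω)
    (F : Finset ℂ) (hF : ∀ y ∈ F, y ∈ win P D q ∧ y ≠ TX.root ∧ ¬ T.Edge y (TX.par y) ∧
      TX.len y ≤ D / 8 ∧ (Near D q y ∨ Near D q (TX.par y))) :
    (F.card : ℝ) * D ≤ 4 * T.wt (win P D q) := by
  have hX : win P D q ⊆ P := Finset.filter_subset _ _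
  have hex : ∀ x : ℂ, ∃ z, x ∈ win P D q → IsTop T (win P D q) x z := by
    intro x
    by_cases hx : x ∈ win P D q
    · obtain ⟨z, hz⟩ := isTop_exists T hX (T.dep x) x hx le_rfl
      exact ⟨z, fun _ => hz⟩
    · exact ⟨0, fun h => absurd h hx⟩
  choose tau htau using hex
  -- injectivity
  have hinj : ∀ y ∈ F, ∀ x ∈ win P D q, tau y = tau x → x ∈ TX.D y := by
    intro y hy x hx hxy
    obtain ⟨h1, h2, h3, -, -⟩ := hF y hy
    have e1 := isTop_cut hω hX T hT TX hTX h3 (htau y h1)
    have e2 := isTop_cut hω hX T hT TX hTX h3 (htau x hx)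
    rw [hxy] at e1
    exact e2.2 (e1.1 (TX.self_mem_D h1))
  have hinj2 : ∀ y ∈ F, ∀ y' ∈ F, tau y = tau y' → y = y' := by
    intro y hy y' hy' h
    exact TX.D_antisymm (hinj y' hy' y (hF y hy).1 h.symm) (hinj y hy y' (hF y' hy').1 h)
  have hpar : ∀ y ∈ F, tau y ≠ tau (TX.par y) := by
    intro y hy h
    obtain ⟨h1, h2, -, -, -⟩ := hF y hy
    exact TX.par_not_mem_D h1 h2 (hinj y hy _ (TX.par_mem y h1) h)
  set phi : ℂ → ℂ := fun y => if tau y ≠ T.root then tau y else tau (TX.par y) with hphi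
  set G := F.image phi with hG
  have hcard : F.card ≤ 2 * G.card := by
    rcases F.eq_empty_or_nonempty with he | hne
    · rw [he]; simp
    · have h1 : 1 ≤ G.card := Finset.card_pos.2 (hne.image phi)
      have h2 : (F.filter (fun y => tau y ≠ T.root)).card ≤ G.card := by
        apply Finset.card_le_card_of_injOn tau
        · intro y hy
          rw [Finset.mem_coe, Finset.mem_filter] at hy
          rw [Finset.mem_coe, hG, Finset.mem_image]
          exact ⟨y, hy.1, by simp only [hphi]; rw [if_pos hy.2]⟩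
        · intro y hy y' hy' h
          rw [Finset.mem_coe, Finset.mem_filter] at hy hy'
          exact hinj2 y hy.1 y' hy'.1 h
      have h3 : (F.filter (fun y => ¬ tau y ≠ T.root)).card ≤ 1 := by
        rw [Finset.card_le_one]
        intro y hy y' hy'
        rw [Finset.mem_filter, not_not] at hy hy'
        exact hinj2 y hy.1 y' hy'.1 (hy.2.trans hy'.2.symm)
      have h4 := Finset.card_filter_add_card_filter_not (s := F) (fun y => tau y ≠ T.root)
      omega
  -- each top carries a long path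
  have hlong : ∀ z ∈ G, 3 / 4 * D ≤ ∑ u ∈ (win P D q).filter (fun u => tau u = z), T.len u := by
    intro z hz
    rw [hG, Finset.mem_image] at hz
    obtain ⟨y, hy, rfl⟩ := hz
    obtain ⟨h1, h2, h3, h4, h5⟩ := hF y hy
    -- the point x
    obtain ⟨x, hx, hxz, hxr, hxn⟩ : ∃ x ∈ win P D q, phi y = tau x ∧ tau x ≠ T.root ∧
        (q.re - D / 4 ≤ x.re ∧ x.re ≤ q.re + D + D / 4 ∧ q.im - D / 4 ≤ x.im ∧
          x.im ≤ q.im + D + D / 4) := by
      have hre := Complex.abs_re_le_norm (y - TX.par y)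
      have him := Complex.abs_im_le_norm (y - TX.par y)
      rw [Complex.sub_re, abs_le] at hre
      rw [Complex.sub_im, abs_le] at him
      have h4' : ‖y - TX.par y‖ ≤ D / 8 := h4
      unfold Near at h5
      by_cases hr : tau y ≠ T.root
      · refine ⟨y, h1, by simp only [hphi]; rw [if_pos hr], hr, ?_⟩
        rcases h5 with h5 | h5
        · refine ⟨?_, ?_, ?_, ?_⟩ <;> linarith
        · refine ⟨?_, ?_, ?_, ?_⟩ <;> linarith
      · refine ⟨TX.par y, TX.par_mem y h1, by simp only [hphi]; rw [if_neg hr], ?_, ?_⟩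
        · rw [not_not] at hr
          rw [← hr]
          exact (hpar y hy).symm
        · rcases h5 with h5 | h5
          · refine ⟨?_, ?_, ?_, ?_⟩ <;> linarith
          · refine ⟨?_, ?_, ?_, ?_⟩ <;> linarith
    rw [hxz]
    have htop := htau x hx
    have hpn : T.par (tau x) ∉ win P D q := by
      rcases htop.2.2.1 with h6 | h6
      · exact absurd h6 hxr
      · exact h6
    have hpP : T.par (tau x) ∈ P := T.par_mem _ (hX htop.1)
    have hdist : 3 / 4 * D ≤ ‖x - T.par (tau x)‖ := by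
      have hre := Complex.abs_re_le_norm (x - T.par (tau x))
      have him := Complex.abs_im_le_norm (x - T.par (tau x))
      rw [Complex.sub_re, abs_le] at hre
      rw [Complex.sub_im, abs_le] at him
      by_contra hcon
      push Not at hcon
      apply hpn
      unfold win
      rw [Finset.mem_filter]
      refine ⟨hpP, ?_, ?_, ?_, ?_⟩ <;> linarith
    have hmem : x ∈ T.D (T.par (tau x)) := T.mem_D_par htop.2.1
    refine hdist.trans ((T.norm_le_of_mem_D hmem).trans ?_)
    apply Finset.sum_le_sum_of_subset_of_nonneg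
    · intro u hu
      obtain ⟨h6, h7⟩ := isTop_of_mem T htop hu
      rw [Finset.mem_filter]
      exact ⟨h6, isTop_unique T (htau u h6) h7⟩
    · intro u _ _
      exact T.len_nonneg u
  have hsum : (G.card : ℝ) * (3 / 4 * D) ≤ T.wt (win P D q) := by
    have h1 : (G.card : ℝ) * (3 / 4 * D) ≤
        ∑ z ∈ G, ∑ u ∈ (win P D q).filter (fun u => tau u = z), T.len u := by
      rw [← nsmul_eq_mul]
      exact Finset.card_nsmul_le_sum _ _ _ hlong
    refine h1.trans ?_
    rw [Finset.sum_fiberwise_eq_sum_filter]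
    exact Finset.sum_le_sum_of_subset_of_nonneg (Finset.filter_subset _ _)
      (fun u _ _ => T.len_nonneg u)
  have hc : (F.card : ℝ) ≤ 2 * G.card := by exact_mod_cast hcard
  have hw : 0 ≤ T.wt (win P D q) := T.wt_nonneg _
  have h1 : (F.card : ℝ) * D ≤ 2 * G.card * D := mul_le_mul_of_nonneg_right hc hD.le
  linarith

end Pool.Agent.H49.Tsp
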