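import Pool.Agent.H49.Tsp.Basic

/-!
From the tree to strands: heavy paths with the branches hanging at them.
-/

set_option autoImplicit false

namespace Pool.Agent.H49.Tsp

open Classical

namespace TS

variable {P : Finset ℂ} {T : RTree P} {H : Heavy T}

theorem tip_mem_P {v : ℂ} (hv : v ∈ P) : H.tip v ∈ P := T.D_sub _ (H.tip_mem v hv)

theorem tip_tip {v : ℂ} (hv : v ∈ P) : H.tip (H.tip v) = H.tip v :=
  H.cons v hv _ (H.tip_mem v hv) (T.self_mem_D (tip_mem_P hv))

theorem mem_path {w v : ℂ} : v ∈ H.path w ↔ v ∈ P ∧ v ≠ T.root ∧ H.tip v = w := by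
  simp [Heavy.path]

theorem mem_children {w x : ℂ} :
    x ∈ H.children w ↔ x ∈ P ∧ x ≠ T.root ∧ H.tip x ≠ w ∧ H.tip (T.par x) = w := by
  simp [Heavy.children]

theorem root_of_mem {v : ℂ} (hr : T.root ∈ T.D v) : v = T.root :=
  (T.D_antisymm hr (T.mem_D_root (T.mem_of_mem_D hr))).symm

/-- the tip of the path is not below a child -/
theorem not_mem_child {w x : ℂ} (hx : x ∈ H.children w) : w ∉ T.D x := by
  rw [mem_children] at hx
  intro h
  have h1 : x ∈ T.D (T.par x) := T.mem_D_par (T.self_mem_D hx.1)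
  have h2 := H.cons (T.par x) (T.par_mem x hx.1) x h1 (by rw [hx.2.2.2]; exact h)
  exact hx.2.2.1 (h2.trans hx.2.2.2)

/-- the path which contains a child ends at the child -/
theorem path_child_D {w x u : ℂ} (hx : x ∈ H.children w) {z : ℂ} (hz : z ∈ T.D x)
    (hu : u ∈ H.path z) : u ∈ T.D x := by
  rw [mem_children] at hx
  rw [mem_path] at hu
  have hzu : z ∈ T.D u := by rw [← hu.2.2]; exact H.tip_mem u hu.1
  rcases T.D_laminar hzu hz with h | h
  · exact h
  · by_contra hne
    have hxu : x ≠ u := fun e => hne (by rw [← e]; exact T.self_mem_D hx.1)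
    have h1 : T.par x ∈ T.D u := T.par_mem_D h hxu
    have h2 : H.tip x = H.tip u := H.cons u hu.1 x h (by rw [hu.2.2]; exact hz)
    have h3 : H.tip (T.par x) = H.tip u := H.cons u hu.1 _ h1 (by
      rw [hu.2.2]; exact T.mem_D_par hz)
    exact hx.2.2.1 (h2.trans (h3.symm.trans hx.2.2.2))

theorem path_child {w x : ℂ} (hx : x ∈ H.children w) :
    H.path (H.tip x) = T.sep (H.tip x) (T.par x) := by
  have hx' := mem_children.1 hx
  have ht := H.tip_mem x hx'.1
  ext u
  rw [T.mem_sep_of_mem_D (T.mem_D_par ht)]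
  constructor
  · intro hu
    have h1 := path_child_D hx ht hu
    rw [mem_path] at hu
    refine ⟨by rw [← hu.2.2]; exact H.tip_mem u hu.1, T.mem_D_par h1, ?_⟩
    rintro rfl
    exact T.par_not_mem_D hx'.1 hx'.2.1 h1
  · rintro ⟨h1, h2, h3⟩
    have h4 : u ∈ T.D x := by
      rcases T.D_laminar h1 ht with h | h
      · exact h
      · by_contra hne
        have hxu : x ≠ u := fun e => hne (by rw [← e]; exact T.self_mem_D hx'.1)
        exact h3 (T.D_antisymm h2 (T.par_mem_D h hxu))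
    rw [mem_path]
    refine ⟨T.mem_of_mem_D h1, ?_, H.cons x hx'.1 u h4 h1⟩
    rintro rfl
    exact hx'.2.1 (root_of_mem h4)

theorem wt_sep_child {w x q : ℂ} (hx : x ∈ H.children w) (hq : q ∈ T.D x) :
    T.wt (T.sep q (T.par x)) ≤ H.h (H.tip x) := by
  have hx' := mem_children.1 hx
  rw [Heavy.h, path_child hx]
  have h0 : x ∈ T.D (T.par x) := T.mem_D_par (T.self_mem_D hx'.1)
  rw [T.wt_sep_trans hq h0, T.wt_sep_trans (H.tip_mem x hx'.1) h0]
  have := H.far x hx'.1 q hq
  linarith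

theorem norm_child {w x q : ℂ} (hx : x ∈ H.children w) (hq : q ∈ T.D x) :
    ‖q - T.par x‖ ≤ H.h (H.tip x) :=
  (T.norm_le_of_mem_D (T.mem_D_par hq)).trans (wt_sep_child hx hq)

/-- below a vertex with tip `w` everything is below a child or has the tip `w` itself -/
theorem exists_child {w u q : ℂ} (hu : u ∈ P) (htu : H.tip u = w) (hq : q ∈ T.D u)
    (hqw : H.tip q ≠ w) : ∃ x ∈ H.children w, q ∈ T.D x ∧ x ∈ T.D u := by
  obtain ⟨hqP, k, hk⟩ := T.mem_D.1 hq
  have hex : ∃ k, H.tip (T.par^[k] q) = w := ⟨k, by rw [hk, htu]⟩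
  set i := Nat.find hex with hi
  have hi1 := Nat.find_spec hex
  have hik : i ≤ k := Nat.find_min' hex (by rw [hk, htu])
  rw [← hi] at hi1
  obtain ⟨j, hj⟩ : ∃ j, i = j + 1 := by
    rcases Nat.eq_zero_or_pos i with h | h
    · rw [h] at hi1
      exact absurd hi1 hqw
    · exact ⟨i - 1, by omega⟩
  have hj1 : H.tip (T.par^[j] q) ≠ w := Nat.find_min hex (by omega)
  rw [hj, Function.iterate_succ_apply'] at hi1
  have hxP := T.iter_mem hqP j
  refine ⟨T.par^[j] q, mem_children.2 ⟨hxP, ?_, hj1, hi1⟩, T.mem_D.2 ⟨hqP, j, rfl⟩,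
    T.mem_D.2 ⟨hxP, k - j, ?_⟩⟩
  · intro h
    rw [h, T.par_root] at hi1
    rw [h] at hj1
    exact hj1 hi1
  · rw [← Function.iterate_add_apply, Nat.sub_add_cancel (by omega), hk]

end TS

open TS

/-- Two heavy paths with different tips: either none hangs below the other ... -/
theorem pair_unrelated {P : Finset ℂ} (T : RTree P) (H : Heavy T) (w q : ℂ) (hw : w ∈ P)
    (hq : q ∈ P) (htw : H.tip w = w) (htq : H.tip q = q) (hne : w ≠ q)
    (h1 : ∀ x ∈ H.children w, q ∉ T.D x) (h2 : ∀ x ∈ H.children q, w ∉ T.D x) :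
    H.path w ⊆ T.sep w q ∧ H.path q ⊆ T.sep w q ∧ Disjoint (H.path w) (H.path q) := by
  refine ⟨?_, ?_, ?_⟩
  · intro u hu
    rw [mem_path] at hu
    have hwu : w ∈ T.D u := by
      have := H.tip_mem u hu.1
      rwa [hu.2.2] at this
    rw [T.mem_sep]
    refine ⟨hu.1, fun h => ?_⟩
    obtain ⟨x, hx, hqx, -⟩ := exists_child hu.1 hu.2.2 (h.1 hwu) (by rw [htq]; exact hne.symm)
    exact h1 x hx hqx
  · intro u hu
    rw [mem_path] at hu
    have hqu : q ∈ T.D u := by
      have := H.tip_mem u hu.1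
      rwa [hu.2.2] at this
    rw [T.mem_sep]
    refine ⟨hu.1, fun h => ?_⟩
    obtain ⟨x, hx, hwx, -⟩ := exists_child hu.1 hu.2.2 (h.2 hqu) (by rw [htw]; exact hne)
    exact h2 x hx hwx
  · rw [Finset.disjoint_left]
    intro u hu hu'
    rw [mem_path] at hu hu'
    exact hne (hu.2.2.symm.trans hu'.2.2)

/-- ... or `q` lies below a child `x` of the path of `w`. -/
theorem pair_related {P : Finset ℂ} (T : RTree P) (H : Heavy T) (w q x : ℂ) (hw : w ∈ P)
    (hq : q ∈ P) (htw : H.tip w = w) (htq : H.tip q = q) (hx : x ∈ H.children w)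
    (hqx : q ∈ T.D x) :
    H.h q ≤ H.h (H.tip x) ∧ ‖q - T.par x‖ ≤ H.h (H.tip x) ∧ H.path q ⊆ T.sep w q ∧
      T.sep w (T.par x) ⊆ T.sep w q ∧ Disjoint (T.sep w (T.par x)) (H.path q) ∧
      T.sep w (T.par x) ⊆ H.path w := by
  have hx' := mem_children.1 hx
  have hnw := not_mem_child hx
  have hpar : w ∈ T.D (T.par x) := by
    have := H.tip_mem _ (T.par_mem x hx'.1)
    rwa [hx'.2.2.2] at this
  have hpq : ∀ u ∈ H.path q, q ∈ T.D u ∧ u ∈ T.D x := by
    intro u hu
    refine ⟨?_, path_child_D hx hqx hu⟩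
    rw [mem_path] at hu
    have := H.tip_mem u hu.1
    rwa [hu.2.2] at this
  have hsep : ∀ u ∈ T.sep w (T.par x), w ∈ T.D u ∧ u ∈ T.D (T.par x) ∧ u ≠ T.par x := by
    intro u hu
    rwa [T.mem_sep_of_mem_D hpar] at hu
  refine ⟨?_, norm_child hx hqx, ?_, ?_, ?_, ?_⟩
  · refine le_trans (T.wt_mono ?_) (wt_sep_child hx hqx)
    intro u hu
    obtain ⟨h1, h2⟩ := hpq u hu
    rw [T.mem_sep_of_mem_D (T.mem_D_par hqx)]
    refine ⟨h1, T.mem_D_par h2, ?_⟩
    rintro rfl
    exact T.par_not_mem_D hx'.1 hx'.2.1 h2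
  · intro u hu
    obtain ⟨h1, h2⟩ := hpq u hu
    rw [T.mem_sep]
    exact ⟨T.mem_of_mem_D h1, fun h => hnw (T.D_trans (h.2 h1) h2)⟩
  · intro u hu
    obtain ⟨h1, h2, h3⟩ := hsep u hu
    rw [T.mem_sep]
    refine ⟨T.mem_of_mem_D h1, fun h => ?_⟩
    rcases T.D_laminar (h.1 h1) hqx with h4 | h4
    · exact hnw (T.D_trans h1 h4)
    · by_cases hxu : x = u
      · exact hnw (by rw [hxu]; exact h1)
      · exact h3 (T.D_antisymm h2 (T.par_mem_D h4 hxu))
  · rw [Finset.disjoint_left]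
    intro u hu hu'
    exact hnw (T.D_trans (hsep u hu).1 (hpq u hu').2)
  · intro u hu
    obtain ⟨h1, h2, h3⟩ := hsep u hu
    rw [mem_path]
    refine ⟨T.mem_of_mem_D h1, ?_, ?_⟩
    · rintro rfl
      exact h3 (root_of_mem h2).symm
    · rw [H.cons _ (T.par_mem x hx'.1) u h2 (by rw [hx'.2.2.2]; exact h1), hx'.2.2.2]

namespace TS

variable {P : Finset ℂ} {T : RTree P} {H : Heavy T}

/-- the vertices on the way from `w` to the root -/
def vv (T : RTree P) (w : ℂ) (k : ℕ) : ℂ := T.par^[k] w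

theorem vv_zero (w : ℂ) : vv T w 0 = w := rfl

theorem vv_succ (w : ℂ) (k : ℕ) : vv T w (k + 1) = T.par (vv T w k) :=
  Function.iterate_succ_apply' _ _ _

/-- the vertices `0, ..., n - 1` form the heavy path of `w` -/
structure Chain (H : Heavy T) (w : ℂ) (n : ℕ) : Prop where
  wP : w ∈ P
  tip : H.tip w = w
  lt : ∀ k < n, vv T w k ∈ H.path w
  nn : vv T w n ∉ H.path w

theorem exists_chain {w : ℂ} (hw : w ∈ P) (htip : H.tip w = w) : ∃ n, Chain H w n := by
  have hex : ∃ k, vv T w k ∉ H.path w := by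
    obtain ⟨_, k, hk⟩ := T.mem_D.1 (T.mem_D_root hw)
    refine ⟨k, fun h => ?_⟩
    rw [vv, hk, mem_path] at h
    exact h.2.1 rfl
  exact ⟨Nat.find hex, hw, htip, fun k hk => by
    have := Nat.find_min hex hk
    rwa [not_not] at this, Nat.find_spec hex⟩

namespace Chain

variable {w : ℂ} {n : ℕ} (C : Chain H w n)

include C

theorem mem (k : ℕ) : vv T w k ∈ P := T.iter_mem C.wP k

theorem D_le {i j : ℕ} (h : i ≤ j) : vv T w i ∈ T.D (vv T w j) :=
  T.mem_D.2 ⟨C.mem i, j - i, by rw [vv, vv, ← Function.iterate_add_apply, Nat.sub_add_cancel h]⟩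

theorem ne_root {k : ℕ} (hk : k < n) : vv T w k ≠ T.root := (mem_path.1 (C.lt k hk)).2.1

theorem tip_eq {k : ℕ} (hk : k < n) : H.tip (vv T w k) = w := (mem_path.1 (C.lt k hk)).2.2

theorem not_D {i j : ℕ} (h : i < j) (hi : i < n) : vv T w j ∉ T.D (vv T w i) := by
  intro h1
  have h2 := T.D_trans (C.D_le (show i + 1 ≤ j from h)) h1
  rw [vv_succ] at h2
  exact T.par_not_mem_D (C.mem i) (C.ne_root hi) h2

theorem inj {i j : ℕ} (hi : i ≤ n) (hj : j ≤ n) (h : vv T w i = vv T w j) : i = j := by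
  rcases lt_trichotomy i j with h1 | h1 | h1
  · exact absurd (by rw [h]; exact T.self_mem_D (C.mem j)) (C.not_D h1 (by omega))
  · exact h1
  · exact absurd (by rw [← h]; exact T.self_mem_D (C.mem i)) (C.not_D h1 (by omega))

/-- if the end of the chain is not on another path, it is the root -/
theorem end_root (h : H.tip (vv T w n) = w) : vv T w n = T.root := by
  by_contra hne
  exact C.nn (mem_path.2 ⟨C.mem n, hne, h⟩)

theorem tip_end {u : ℂ} (hu : u ∈ P) (htu : H.tip u = w) (h : vv T w n ∈ T.D u) :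
    H.tip (vv T w n) = w := by
  rw [H.cons u hu _ h (by rw [htu]; exact C.D_le (Nat.zero_le n)), htu]

theorem path_eq : H.path w = (Finset.range n).image (vv T w) := by
  ext u
  rw [Finset.mem_image]
  constructor
  · intro hu
    have hu' := mem_path.1 hu
    have h1 : w ∈ T.D u := by
      have := H.tip_mem u hu'.1
      rwa [hu'.2.2] at this
    obtain ⟨_, k, hk⟩ := T.mem_D.1 h1
    refine ⟨k, ?_, hk⟩
    rw [Finset.mem_range]
    by_contra hkn
    have h2 : vv T w n ∈ T.D u := by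
      rw [← hk]; exact C.D_le (not_lt.1 hkn)
    have h3 := C.end_root (C.tip_end hu'.1 hu'.2.2 h2)
    rw [h3] at h2
    exact hu'.2.1 (root_of_mem h2)
  · rintro ⟨k, hk, rfl⟩
    exact C.lt k (Finset.mem_range.1 hk)

theorem sep_eq {i j : ℕ} (hij : i ≤ j) (hj : j ≤ n) :
    T.sep (vv T w i) (vv T w j) = (Finset.Ico i j).image (vv T w) := by
  ext u
  rw [T.mem_sep_of_mem_D (C.D_le hij), Finset.mem_image]
  constructor
  · rintro ⟨h1, h2, h3⟩
    obtain ⟨_, k, hk⟩ := T.mem_D.1 h1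
    have hk' : vv T w (k + i) = u := by
      rw [← hk, vv, vv, Function.iterate_add_apply]
    refine ⟨k + i, ?_, hk'⟩
    rw [Finset.mem_Ico]
    refine ⟨by omega, ?_⟩
    by_contra hcon
    refine h3 (T.D_antisymm h2 ?_)
    rw [← hk']
    exact C.D_le (not_lt.1 hcon)
  · rintro ⟨k, hk, rfl⟩
    rw [Finset.mem_Ico] at hk
    refine ⟨C.D_le hk.1, C.D_le hk.2.le, fun h => ?_⟩
    have := C.inj (by omega) hj h
    omega

theorem par_child {x : ℂ} (hx : x ∈ H.children w) : ∃ k, k ≤ n ∧ vv T w k = T.par x := by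
  have hx' := mem_children.1 hx
  have hpP := T.par_mem x hx'.1
  by_cases hr : T.par x = T.root
  · refine ⟨n, le_rfl, ?_⟩
    rw [hr]
    refine C.end_root (C.tip_end T.root_mem ?_ (T.mem_D_root (C.mem n)))
    rw [← hr]
    exact hx'.2.2.2
  · have h1 : T.par x ∈ H.path w := mem_path.2 ⟨hpP, hr, hx'.2.2.2⟩
    rw [C.path_eq, Finset.mem_image] at h1
    obtain ⟨k, hk, h2⟩ := h1
    exact ⟨k, (Finset.mem_range.1 hk).le, h2⟩

/-- the tip is a leaf -/
theorem leaf {p : ℂ} (hp : p ∈ T.D w) : p = w := by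
  by_contra hne
  have h1 := H.far w C.wP p hp
  rw [C.tip, T.sep_self] at h1
  have h2 : p ∈ T.sep p w := by
    rw [T.mem_sep_of_mem_D hp]
    exact ⟨T.self_mem_D (T.D_sub _ hp), hp, hne⟩
  have hr : p ≠ T.root := by
    rintro rfl
    exact hne (root_of_mem hp).symm
  have h3 : T.len p ≤ T.wt (T.sep p w) :=
    Finset.single_le_sum (f := T.len) (fun _ _ => T.len_nonneg _) h2
  have h4 := T.len_pos (T.D_sub _ hp) hr
  simp only [RTree.wt, Finset.sum_empty] at h1 h3
  linarith

/-- a point below `v_k` which is not below `v_(k-1)` is `v_k` or below a child -/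
theorem near {k : ℕ} (hk : k ≤ n) (htip : H.tip (vv T w k) = w) {p : ℂ}
    (hp : p ∈ T.D (vv T w k)) (hlt : ∀ i < k, p ∉ T.D (vv T w i)) (hne : p ≠ vv T w k) :
    ∃ x ∈ H.children w, T.par x = vv T w k ∧ p ∈ T.D x := by
  obtain ⟨hpP, l, hl⟩ := T.mem_D.1 hp
  have hex : ∃ l, T.par^[l] p = vv T w k := ⟨l, hl⟩
  set i := Nat.find hex with hi
  have hi1 := Nat.find_spec hex
  rw [← hi] at hi1
  obtain ⟨j, hj⟩ : ∃ j, i = j + 1 := by
    rcases Nat.eq_zero_or_pos i with h | h
    · rw [h] at hi1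
      exact absurd hi1 hne
    · exact ⟨i - 1, by omega⟩
  have hj1 : T.par^[j] p ≠ vv T w k := Nat.find_min hex (by omega)
  rw [hj, Function.iterate_succ_apply'] at hi1
  set x := T.par^[j] p with hx
  have hxP : x ∈ P := T.iter_mem hpP j
  have hpx : p ∈ T.D x := T.mem_D.2 ⟨hpP, j, rfl⟩
  refine ⟨x, mem_children.2 ⟨hxP, ?_, ?_, ?_⟩, hi1, hpx⟩
  · intro h
    rw [h, T.par_root] at hi1
    exact hj1 (h.trans hi1)
  · intro hxw
    have h1 : w ∈ T.D x := by
      have := H.tip_mem x hxP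
      rwa [hxw] at this
    rcases Nat.eq_zero_or_pos k with hk0 | hk0
    · rw [hk0, vv_zero] at hp hne
      exact hne (C.leaf hp)
    · have h2 : vv T w (k - 1 + 1) = T.par (vv T w (k - 1)) := vv_succ _ _
      rw [Nat.sub_add_cancel hk0] at h2
      have h3 : w ∈ T.D (vv T w (k - 1)) := C.D_le (Nat.zero_le _)
      rcases T.D_laminar h1 h3 with h4 | h4
      · exact hlt (k - 1) (by omega) (T.D_trans hpx h4)
      · by_cases h5 : vv T w (k - 1) = x
        · exact hlt (k - 1) (by omega) (by rw [h5]; exact hpx)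
        · have h6 := T.par_mem_D h4 h5
          rw [← h2, ← hi1] at h6
          refine T.par_not_mem_D hxP ?_ h6
          intro h
          rw [h, T.par_root] at hi1
          exact hj1 (h.trans hi1)
  · rw [hi1, htip]

end Chain

end TS


namespace TS

variable {P : Finset ℂ} {T : RTree P} {H : Heavy T}

theorem wt_sdiff (W A : Finset ℂ) :
    T.wt (A \ W) = ∑ v ∈ A, (T.len v - if v ∈ W then T.len v else 0) := by
  rw [RTree.wt, Finset.sdiff_eq_filter, Finset.sum_filter]
  refine Finset.sum_congr rfl fun v _ => ?_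
  by_cases h : v ∈ W <;> simp [h]

theorem wt_inter (W A : Finset ℂ) :
    T.wt (W ∩ A) = ∑ v ∈ A, if v ∈ W then T.len v else 0 := by
  rw [RTree.wt, Finset.inter_comm, ← Finset.filter_mem_eq_inter, Finset.sum_filter]

/-- the index of the parent of a child -/
noncomputable def kx (T : RTree P) (w : ℂ) (x : ℂ) : ℕ :=
  if h : ∃ k, vv T w k = T.par x then Nat.find h else 0

/-- the position of a point -/
noncomputable def ps (H : Heavy T) (w : ℂ) (n : ℕ) (p : ℂ) : ℕ :=
  if h : ∃ k, k < n ∧ p ∈ T.D (vv T w k) then Nat.find h else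
    if p = vv T w n ∨ H.tip (vv T w n) = w then n else n + 1

/-- the strand of a heavy path -/
noncomputable def str (H : Heavy T) (W : Finset ℂ) (w : ℂ) (n : ℕ) : Strand ℂ where
  n := n
  v := vv T w
  m k := if vv T w k ∈ W then T.len (vv T w k) else 0
  C := H.children w
  k := kx T w
  s x := H.h (H.tip x)
  q x := H.tip x
  mC x := T.wt (W ∩ H.path (H.tip x))

theorem str_ell (W : Finset ℂ) (w : ℂ) (n k : ℕ) : (str H W w n).ell k = T.len (vv T w k) := by
  change ‖vv T w (k + 1) - vv T w k‖ = _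
  rw [vv_succ, RTree.len, norm_sub_rev]

namespace Chain

variable {w : ℂ} {n : ℕ} (C : Chain H w n)

include C

theorem kx_spec {x : ℂ} (hx : x ∈ H.children w) :
    kx T w x ≤ n ∧ vv T w (kx T w x) = T.par x := by
  obtain ⟨k, hk, h⟩ := C.par_child hx
  have hex : ∃ k, vv T w k = T.par x := ⟨k, h⟩
  rw [kx, dif_pos hex]
  exact ⟨(Nat.find_min' hex h).trans hk, Nat.find_spec hex⟩

theorem ps_lt {p : ℂ} {j : ℕ} (hj : j < n) : p ∈ T.D (vv T w j) ↔ ps H w n p ≤ j := by
  unfold ps
  constructor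
  · intro h
    have hex : ∃ k, k < n ∧ p ∈ T.D (vv T w k) := ⟨j, hj, h⟩
    rw [dif_pos hex]
    exact Nat.find_min' hex ⟨hj, h⟩
  · intro h
    split_ifs at h with h1 h2
    · exact T.D_trans (Nat.find_spec h1).2 (C.D_le h)
    · omega
    · omega

theorem ps_v {k : ℕ} (hk : k ≤ n) : ps H w n (vv T w k) = k := by
  rcases eq_or_lt_of_le hk with rfl | hk
  · unfold ps
    rw [dif_neg, if_pos (Or.inl rfl)]
    rintro ⟨i, hi, h⟩
    exact C.not_D hi hi h
  · have h1 := (C.ps_lt (p := vv T w k) hk).1 (T.self_mem_D (C.mem k))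
    by_contra hne
    have h2 : ps H w n (vv T w k) < k := by omega
    have h3 := (C.ps_lt (p := vv T w k) (h2.trans hk)).2 le_rfl
    exact C.not_D h2 (h2.trans hk) h3

theorem near_ps {p : ℂ} (hp : p ∈ P) (hpn : ps H w n p ≤ n) :
    p = vv T w (ps H w n p) ∨
      ∃ x ∈ H.children w, kx T w x = ps H w n p ∧ ‖p - vv T w (kx T w x)‖ ≤ H.h (H.tip x) := by
  by_cases hne : p = vv T w (ps H w n p)
  · exact Or.inl hne
  right
  set k := ps H w n p with hk
  have hlt : ∀ i < k, p ∉ T.D (vv T w i) := by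
    intro i hi h
    have := (C.ps_lt (by omega)).1 h
    omega
  have key : H.tip (vv T w k) = w ∧ p ∈ T.D (vv T w k) := by
    rcases eq_or_lt_of_le hpn with h | h
    · have h1 : H.tip (vv T w n) = w := by
        by_contra hcon
        have h2 : ¬ ∃ k, k < n ∧ p ∈ T.D (vv T w k) := by
          rintro ⟨i, hi, h2⟩
          exact hlt i (by omega) h2
        have h3 : ps H w n p = n + 1 := by
          unfold ps
          rw [dif_neg h2, if_neg]
          rintro (h3 | h3)
          · exact hne (by rw [h]; exact h3)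
          · exact hcon h3
        omega
      rw [h]
      refine ⟨h1, ?_⟩
      rw [C.end_root h1]
      exact T.mem_D_root hp
    · exact ⟨C.tip_eq h, (C.ps_lt h).2 le_rfl⟩
  obtain ⟨x, hx, hpar, hpx⟩ := C.near hpn key.1 key.2 hlt hne
  obtain ⟨h1, h2⟩ := C.kx_spec hx
  refine ⟨x, hx, C.inj h1 hpn (h2.trans hpar), ?_⟩
  rw [h2]
  exact norm_child hx hpx

theorem sum_image {s : Finset ℕ} (hs : ∀ i ∈ s, i ≤ n) (f : ℂ → ℝ) :
    ∑ v ∈ s.image (vv T w), f v = ∑ i ∈ s, f (vv T w i) :=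
  Finset.sum_image fun _ hi _ hj h => C.inj (hs _ hi) (hs _ hj) h

theorem free_eq (W : Finset ℂ) {i j : ℕ} (hi : i ≤ n) (hj : j ≤ n) :
    (str H W w n).free i j =
      T.wt ((Finset.Ico (min i j) (max i j)).image (vv T w) \ W) := by
  rw [wt_sdiff, C.sum_image (fun k hk => by rw [Finset.mem_Ico] at hk; omega), Strand.free]
  refine Finset.sum_congr rfl fun k _ => ?_
  rw [str_ell]
  rfl

/-- edges of the strand between `v_i` and the parent of the child `x` separate `v_i` and `tip x` -/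
theorem sub_sep_child {x : ℂ} (hx : x ∈ H.children w) {i : ℕ} (hi : i ≤ n) :
    (Finset.Ico (min i (kx T w x)) (max i (kx T w x))).image (vv T w) ∪ H.path (H.tip x) ⊆
      T.sep (vv T w i) (H.tip x) := by
  have hx' := mem_children.1 hx
  have hnw := not_mem_child hx
  obtain ⟨hk1, hk2⟩ := C.kx_spec hx
  set k := kx T w x with hk
  have htx := H.tip_mem x hx'.1
  have htk : H.tip x ∈ T.D (vv T w k) := by rw [hk2]; exact T.mem_D_par htx
  have hviD : ∀ {j : ℕ}, vv T w j ∉ T.D x := fun {j} h =>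
    hnw (T.D_trans (C.D_le (Nat.zero_le j)) h)
  intro u hu
  rw [Finset.mem_union, Finset.mem_image] at hu
  rw [T.mem_sep]
  rcases hu with ⟨l, hl, rfl⟩ | hu
  · rw [Finset.mem_Ico] at hl
    refine ⟨C.mem l, fun h => ?_⟩
    rcases le_total i k with hik | hik
    · rw [min_eq_left hik, max_eq_right hik] at hl
      have h1 : H.tip x ∈ T.D (vv T w l) := h.1 (C.D_le hl.1)
      rcases T.D_laminar h1 htx with h2 | h2
      · exact hviD h2
      · by_cases h3 : x = vv T w l
        · exact hviD (j := l) (by rw [← h3]; exact T.self_mem_D hx'.1)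
        · have h4 := T.par_mem_D h2 h3
          rw [← hk2] at h4
          exact C.not_D hl.2 (by omega) h4
    · rw [min_eq_right hik, max_eq_left hik] at hl
      exact C.not_D hl.2 (by omega) (h.2 (T.D_trans htk (C.D_le hl.1)))
  · have h1 := path_child_D hx htx hu
    refine ⟨(mem_path.1 hu).1, fun h => ?_⟩
    have h2 : H.tip x ∈ T.D u := by
      have hu' := mem_path.1 hu
      rw [← hu'.2.2]; exact H.tip_mem u hu'.1
    exact hviD (T.D_trans (h.2 h2) h1)

theorem disj_child {x : ℂ} (hx : x ∈ H.children w) {i j : ℕ} (hj : j ≤ n) :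
    Disjoint ((Finset.Ico i j).image (vv T w)) (H.path (H.tip x)) := by
  rw [Finset.disjoint_left]
  intro u hu hu'
  rw [Finset.mem_image] at hu
  obtain ⟨l, hl, rfl⟩ := hu
  rw [Finset.mem_Ico] at hl
  exact (mem_children.1 hx).2.2.1 ((mem_path.1 hu').2.2.symm.trans (C.tip_eq (by omega)))

end Chain

end TS

theorem tree_strand {P : Finset ℂ} (T : RTree P) (H : Heavy T) (W : Finset ℂ) (lam : ℝ)
    (hl : 0 ≤ lam) (hT : T.Tight W lam) (w : ℂ) (hw : w ∈ P) (htip : H.tip w = w)
    (hne : (H.path w).Nonempty) :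
    ∃ (S : Strand ℂ) (pos : ℂ → ℕ), S.v 0 = w ∧ 0 < S.n ∧ S.h = H.h w ∧ S.C = H.children w ∧
      (∀ x ∈ S.C, S.v (S.k x) = T.par x ∧ S.s x = H.h (H.tip x) ∧ S.q x = H.tip x ∧
        S.mC x = T.wt (W ∩ H.path (H.tip x)) ∧ S.t (S.k x) = T.wt (T.sep w (T.par x))) ∧
      (∀ k < S.n, S.v k ∈ H.path w ∧ T.par (S.v k) = S.v (k + 1)) ∧
      (∀ j < S.n, ∀ p ∈ P, p ∈ T.D (S.v j) ↔ pos p ≤ j) ∧
      (∀ k4 : ℝ, T.wt (W ∩ H.path w) + ∑ x ∈ H.children w, T.wt (W ∩ H.path (H.tip x))
        ≤ k4 * H.h w → S.IsTight lam k4) ∧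
      S.Pts P pos lam := by
  obtain ⟨n, C⟩ := exists_chain hw htip
  have hn : 0 < n := by
    rcases Nat.eq_zero_or_pos n with h | h
    · have := C.path_eq
      rw [h] at this
      rw [this] at hne
      simp at hne
    · exact h
  have ht : ∀ j ≤ n, (str H W w n).t j = T.wt (T.sep w (vv T w j)) := by
    intro j hj
    have h1 := C.sep_eq (Nat.zero_le j) hj
    rw [vv_zero] at h1
    rw [h1, RTree.wt, C.sum_image (fun k hk => by rw [Finset.mem_Ico] at hk; omega), Strand.t,
      Finset.range_eq_Ico]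
    exact Finset.sum_congr rfl fun k _ => str_ell W w n k
  have hh : (str H W w n).h = H.h w := by
    change (str H W w n).t n = _
    rw [Heavy.h, C.path_eq, RTree.wt,
      C.sum_image (fun k hk => by rw [Finset.mem_range] at hk; omega), Strand.t]
    exact Finset.sum_congr rfl fun k _ => str_ell W w n k
  have htk : ∀ x ∈ H.children w, (str H W w n).t (kx T w x) = T.wt (T.sep w (T.par x)) := by
    intro x hx
    obtain ⟨h1, h2⟩ := C.kx_spec hx
    rw [ht _ h1, h2]
  refine ⟨str H W w n, ps H w n, rfl, hn, hh, rfl, ?_, ?_, ?_, ?_, ?_⟩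
  · intro x hx
    exact ⟨(C.kx_spec hx).2, rfl, rfl, rfl, htk x hx⟩
  · intro k hk
    exact ⟨C.lt k hk, (vv_succ w k).symm⟩
  · intro j hj p _
    exact C.ps_lt hj
  · intro k4 hk4
    refine ⟨?_, ?_, ?_, ?_, ?_, ?_, ?_, ?_, ?_, ?_, ?_⟩
    · intro k hk
      rw [str_ell]
      exact T.len_pos (C.mem k) (C.ne_root hk)
    · intro k
      change 0 ≤ if vv T w k ∈ W then T.len (vv T w k) else 0
      split_ifs
      · exact T.len_nonneg _
      · exact le_rfl
    · intro k
      rw [str_ell]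
      change (if vv T w k ∈ W then T.len (vv T w k) else 0) ≤ T.len (vv T w k)
      split_ifs
      · exact le_rfl
      · exact T.len_nonneg _
    · intro x hx
      exact (C.kx_spec hx).1
    · intro x hx
      have hx' := mem_children.1 hx
      have h1 : x ∈ H.path (H.tip x) := mem_path.2 ⟨hx'.1, hx'.2.1, rfl⟩
      exact lt_of_lt_of_le (T.len_pos hx'.1 hx'.2.1)
        (Finset.single_le_sum (f := T.len) (fun _ _ => T.len_nonneg _) h1)
    · intro x hx
      have hx' := mem_children.1 hx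
      change H.h (H.tip x) ≤ (str H W w n).t (kx T w x)
      rw [htk x hx, Heavy.h, path_child hx]
      have h1 := H.far (T.par x) (T.par_mem x hx'.1) (H.tip x) (T.mem_D_par (H.tip_mem x hx'.1))
      rwa [hx'.2.2.2] at h1
    · intro x _
      exact T.wt_nonneg _
    · intro x hx
      have hx' := mem_children.1 hx
      change ‖H.tip x - vv T w (kx T w x)‖ ≤ H.h (H.tip x)
      rw [(C.kx_spec hx).2]
      exact norm_child hx (H.tip_mem x hx'.1)
    · intro i j hi hj
      rw [C.free_eq W hi hj]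
      refine le_trans (T.wt_mono ?_) (hT _ (C.mem i) _ (C.mem j))
      refine Finset.sdiff_subset_sdiff ?_ (Finset.Subset.refl _)
      change _ ⊆ T.sep (vv T w i) (vv T w j)
      rcases le_total i j with h | h
      · rw [min_eq_left h, max_eq_right h, C.sep_eq h hj]
      · rw [min_eq_right h, max_eq_left h, T.sep_comm, C.sep_eq h hi]
    · intro x hx i hi
      have hx' := mem_children.1 hx
      obtain ⟨hk1, hk2⟩ := C.kx_spec hx
      change (str H W w n).free i (kx T w x) + (H.h (H.tip x) - T.wt (W ∩ H.path (H.tip x))) ≤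
        (1 + lam) * ‖vv T w i - H.tip x‖
      rw [C.free_eq W hi hk1]
      have h1 : H.h (H.tip x) - T.wt (W ∩ H.path (H.tip x)) = T.wt (H.path (H.tip x) \ W) := by
        rw [wt_sdiff, wt_inter, Heavy.h, RTree.wt, Finset.sum_sub_distrib]
      rw [h1, ← T.wt_union, ← Finset.union_sdiff_distrib]
      · refine le_trans (T.wt_mono (Finset.sdiff_subset_sdiff (C.sub_sep_child hx hi)
          (Finset.Subset.refl _))) (hT _ (C.mem i) _ (tip_mem_P hx'.1))
      · exact (C.disj_child hx (max_le hi hk1)).mono Finset.sdiff_subset Finset.sdiff_subset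
    · rw [hh]
      refine le_trans (le_of_eq ?_) hk4
      congr 1
      rw [wt_inter, C.path_eq, C.sum_image (fun k hk => by rw [Finset.mem_range] at hk; omega)]
      rfl
  · refine ⟨fun k _ => C.mem k, fun k hk => C.ps_v hk, fun p hp hpn => C.near_ps hp hpn, ?_⟩
    intro p hp
    have hmin : min (ps H w n p) n ≤ n := min_le_right _ _
    have h0 : (str H W w n).free 0 (min (ps H w n p) n) = T.wt ((Finset.Ico 0
        (min (ps H w n p) n)).image (vv T w) \ W) := by
      rw [C.free_eq W (Nat.zero_le _) hmin, min_eq_left (Nat.zero_le _),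
        max_eq_right (Nat.zero_le _)]
    change (str H W w n).free 0 (min (ps H w n p) n) ≤ (1 + lam) * ‖p - w‖
    rw [h0]
    refine le_trans (T.wt_mono (Finset.sdiff_subset_sdiff ?_ (Finset.Subset.refl _)))
      (hT _ hp _ hw)
    intro u hu
    rw [Finset.mem_image] at hu
    obtain ⟨l, hl, rfl⟩ := hu
    rw [Finset.mem_Ico, lt_min_iff] at hl
    rw [T.mem_sep]
    refine ⟨C.mem l, fun h => ?_⟩
    have h1 := (C.ps_lt hl.2.2).1 (h.2 (C.D_le (Nat.zero_le l)))
    omega

end Pool.Agent.H49.Tsp
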