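import Pool.Agent.H49.Tsp.Defs3
import Pool.Agent.H49.Tsp.TreeStrand

/-!
Good tips: consequences of the strand theorem, disjointness of the circles around different tips.
-/

set_option autoImplicit false

namespace Pool.Agent.H49.Tsp

open Classical

namespace Tip

variable {P : Finset ℂ} {T : RTree P}

theorem h_pos (H : Heavy T) {w : ℂ} (hne : (H.path w).Nonempty) : 0 < H.h w := by
  obtain ⟨u, hu⟩ := hne
  have hu' := TS.mem_path.1 hu
  exact lt_of_lt_of_le (T.len_pos hu'.1 hu'.2.1)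
    (Finset.single_le_sum (f := T.len) (fun _ _ => T.len_nonneg _) hu)

theorem wt_W_le (H : Heavy T) (W : Finset ℂ) (k4 : ℝ) {w : ℂ} (hw : GoodTip H W k4 w) :
    T.wt (W ∩ H.path w) ≤ k4 * H.h w := by
  have h1 : 0 ≤ ∑ x ∈ H.children w, T.wt (W ∩ H.path (H.tip x)) :=
    Finset.sum_nonneg fun _ _ => T.wt_nonneg _
  have := hw.2.2.2
  linarith

theorem wt_sdiff_ge (T : RTree P) (W A B : Finset ℂ) (hAB : A ⊆ B) :
    T.wt A - T.wt (W ∩ B) ≤ T.wt (A \ W) := by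
  have h1 : T.wt A - T.wt (W ∩ A) = T.wt (A \ W) := by
    rw [TS.wt_sdiff, TS.wt_inter, RTree.wt, Finset.sum_sub_distrib]
  have h2 : T.wt (W ∩ A) ≤ T.wt (W ∩ B) := T.wt_mono (Finset.inter_subset_inter_left hAB)
  linarith

theorem path_sdiff (H : Heavy T) (W : Finset ℂ) (k4 : ℝ) {w : ℂ} (hw : GoodTip H W k4 w) :
    (1 - k4) * H.h w ≤ T.wt (H.path w \ W) := by
  have h1 := wt_sdiff_ge T W (H.path w) (H.path w) (Finset.Subset.refl _)
  have h2 := wt_W_le H W k4 hw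
  have h3 : H.h w = T.wt (H.path w) := rfl
  rw [← h3] at h1
  linarith

/-- distance of unrelated tips -/
theorem dist_unrelated (H : Heavy T) (W : Finset ℂ) (lam k4 : ℝ) (hT : T.Tight W lam)
    {w w2 : ℂ} (hw : GoodTip H W k4 w) (hw2 : GoodTip H W k4 w2) (hne : w ≠ w2)
    (h1 : ∀ x ∈ H.children w, w2 ∉ T.D x) (h2 : ∀ x ∈ H.children w2, w ∉ T.D x) :
    (1 - k4) * H.h w + (1 - k4) * H.h w2 ≤ (1 + lam) * ‖w - w2‖ := by
  obtain ⟨s1, s2, s3⟩ := pair_unrelated T H w w2 hw.1 hw2.1 hw.2.1 hw2.2.1 hne h1 h2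
  have t1 := hT w hw.1 w2 hw2.1
  have t2 : T.wt ((H.path w \ W) ∪ (H.path w2 \ W)) ≤ T.wt (T.sep w w2 \ W) := by
    apply T.wt_mono
    rw [← Finset.union_sdiff_distrib]
    exact Finset.sdiff_subset_sdiff (Finset.union_subset s1 s2) (Finset.Subset.refl _)
  rw [T.wt_union (s3.mono Finset.sdiff_subset Finset.sdiff_subset)] at t2
  have t3 := path_sdiff H W k4 hw
  have t4 := path_sdiff H W k4 hw2
  linarith

/-- distance of related tips -/
theorem dist_related (H : Heavy T) (W : Finset ℂ) (lam k4 : ℝ) (hT : T.Tight W lam)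
    {w w2 x : ℂ} (hw : GoodTip H W k4 w) (hw2 : GoodTip H W k4 w2)
    (hx : x ∈ H.children w) (hx2 : w2 ∈ T.D x) :
    T.wt (T.sep w (T.par x)) - k4 * H.h w + (1 - k4) * H.h w2 ≤ (1 + lam) * ‖w - w2‖ := by
  obtain ⟨-, -, s1, s2, s3, s4⟩ := pair_related T H w w2 x hw.1 hw2.1 hw.2.1 hw2.2.1 hx hx2
  have t1 := hT w hw.1 w2 hw2.1
  have t2 : T.wt ((T.sep w (T.par x) \ W) ∪ (H.path w2 \ W)) ≤ T.wt (T.sep w w2 \ W) := by
    apply T.wt_mono
    rw [← Finset.union_sdiff_distrib]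
    exact Finset.sdiff_subset_sdiff (Finset.union_subset s2 s1) (Finset.Subset.refl _)
  rw [T.wt_union (s3.mono Finset.sdiff_subset Finset.sdiff_subset)] at t2
  have t3 := wt_sdiff_ge T W (T.sep w (T.par x)) (H.path w) s4
  have t4 := path_sdiff H W k4 hw2
  have t5 := wt_W_le H W k4 hw
  linarith

theorem circ_rel (H : Heavy T) (W : Finset ℂ) (lam k4 : ℝ)
    (hl0 : 0 ≤ lam) (hl : lam ≤ 1 / 10 ^ 6) (hk : k4 ≤ 1 / 10 ^ 6) (hT : T.Tight W lam)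
    (w w2 x : ℂ) (hw : GoodTip H W k4 w) (hw2 : GoodTip H W k4 w2)
    (hx : x ∈ H.children w) (hx2 : w2 ∈ T.D x)
    (c c2 : ℂ) (g : ℝ) (hg : g ≤ H.h w / 10 ^ 6) (hg2 : g ≤ H.h w2 / 10 ^ 6)
    (hc : ‖c - w‖ ≤ g) (hc2 : ‖c2 - w2‖ ≤ g) (r r2 : ℝ) (hr : TipRad H w c r)
    (hr9 : r ≤ 9 / 10 * H.h w) (hr29 : r2 ≤ 9 / 10 * H.h w2)
    (y : ℂ) (hy : |‖y - c‖ - r| ≤ g) (hy2 : |‖y - c2‖ - r2| ≤ g) : False := by
  have hp := h_pos H hw.2.2.1
  have hp2 := h_pos H hw2.2.2.1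
  obtain ⟨s1, s2, -⟩ := pair_related T H w w2 x hw.1 hw2.1 hw.2.1 hw2.2.1 hx hx2
  have hy' := abs_le.mp hy
  have hy2' := abs_le.mp hy2
  have e0 : ‖c2 - w2‖ = ‖w2 - c2‖ := norm_sub_rev _ _
  by_cases hlt : T.wt (T.sep w (T.par x)) < 19 / 20 * H.h w
  · have h4 := hr.2.2.2 x hx hlt
    have e1 : ‖y - T.par x‖ ≤ ‖y - c2‖ + ‖c2 - w2‖ + ‖w2 - T.par x‖ := by
      have : y - T.par x = (y - c2) + (c2 - w2) + (w2 - T.par x) := by ring
      rw [this]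
      exact norm_add₃_le
    have e2 : |‖T.par x - c‖ - r| ≤ |‖y - c‖ - r| + ‖y - T.par x‖ := by
      have e3 : ‖T.par x - c‖ - r = (‖y - c‖ - r) + (‖T.par x - c‖ - ‖y - c‖) := by ring
      rw [e3]
      refine (abs_add_le _ _).trans ?_
      have e4 : |‖T.par x - c‖ - ‖y - c‖| ≤ ‖(T.par x - c) - (y - c)‖ :=
        abs_norm_sub_norm_le _ _
      have e5 : (T.par x - c) - (y - c) = T.par x - y := by ring
      rw [e5, norm_sub_rev (T.par x) y] at e4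
      linarith
    linarith
  · push Not at hlt
    have h1 := dist_related H W lam k4 hT hw hw2 hx hx2
    have e1 : ‖w - w2‖ ≤ ‖y - c‖ + ‖c - w‖ + (‖y - c2‖ + ‖c2 - w2‖) := by
      have : w - w2 = ((y - c2) + (c2 - w2)) - ((y - c) + (c - w)) := by ring
      rw [this]
      refine (norm_sub_le _ _).trans ?_
      have e2 := norm_add_le (y - c2) (c2 - w2)
      have e3 := norm_add_le (y - c) (c - w)
      linarith
    have e4 : ‖w - w2‖ ≤ 9 / 10 * (H.h w + H.h w2) + 2 / 10 ^ 6 * (H.h w + H.h w2) := by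
      linarith
    nlinarith [norm_nonneg (w - w2)]

end Tip

open Tip

theorem tip_rad {P : Finset ℂ} {T : RTree P} (H : Heavy T) (W : Finset ℂ) (lam k4 del : ℝ)
    (hS : SGood lam k4 del) (hT : T.Tight W lam) (w : ℂ) (hw : GoodTip H W k4 w) (c : ℂ)
    (hc : ‖c - w‖ ≤ del * H.h w) :
    ∃ (K : ℕ) (a b : ℕ → ℝ), K ≤ 20 * (P.card + 1) ∧ (∀ i < K, a i ≤ b i) ∧
      ∑ i ∈ Finset.range K, (b i - a i) ≤ 7 / 100 * H.h w ∧
      ∀ r : ℝ, H.h w / 20 ≤ r → r ≤ 9 / 10 * H.h w → ¬ TipRad H w c r →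
        ∃ i < K, a i ≤ r ∧ r ≤ b i := by
  obtain ⟨hl0, -, -, -, -, -, hS⟩ := hS
  obtain ⟨S, pos, hv0, hn, hh, hC, hx, hv, hD, hti, hP⟩ :=
    tree_strand T H W lam hl0.le hT w hw.1 hw.2.1 hw.2.2.1
  have hI := hti k4 hw.2.2.2
  obtain ⟨K, a, b, hK, hab, hsum, hr⟩ := hS ℂ S P pos hI hP hn c (by rw [hv0, hh]; exact hc)
  refine ⟨K, a, b, ?_, hab, by rw [← hh]; exact hsum, ?_⟩
  · have h1 : S.n ≤ P.card := by
      have h2 : ((Finset.range S.n).image S.v).card = S.n := by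
        rw [Finset.card_image_of_injOn, Finset.card_range]
        intro i hi j hj hij
        rw [Finset.coe_range, Set.mem_Iio] at hi hj
        have e1 := hP.v_pos i hi.le
        have e2 := hP.v_pos j hj.le
        have hij' : S.v i = S.v j := hij
        rw [← e1, ← e2, hij']
      rw [← h2]
      apply Finset.card_le_card
      intro u hu
      rw [Finset.mem_image] at hu
      obtain ⟨i, hi, rfl⟩ := hu
      exact hP.v_mem i (Finset.mem_range.1 hi).le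
    have h2 : S.C.card ≤ P.card := by
      rw [hC]
      exact Finset.card_le_card (Finset.filter_subset _ _)
    omega
  · intro r hr1 hr2 hnot
    apply hr r (by rw [hh]; exact hr1) (by rw [hh]; exact hr2)
    rintro ⟨g1, g2, g3, ⟨r', g4, g5, j, hj, g6⟩, g7⟩
    apply hnot
    refine ⟨⟨g1, g2⟩, g3, ⟨r', g4, g5, S.v j, ?_, ?_, ?_⟩, ?_⟩
    · exact hP.v_mem j hj.le
    · exact (TS.mem_path.1 (hv j hj).1).2.1
    · intro p hp
      rw [hD j hj p hp]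
      refine ⟨(g6 p hp).1, fun h => (g6 p hp).2 (not_le.1 h)⟩
    · intro x hxc hlt
      have hxC : x ∈ S.C := by rw [hC]; exact hxc
      obtain ⟨i1, i2, -, -, i5⟩ := hx x hxC
      have := g7 x hxC (by rw [i5, hh]; exact hlt)
      rwa [i1, i2] at this

/-- A point of the set far from the tip. -/
theorem tip_far {P : Finset ℂ} {T : RTree P} (H : Heavy T) (W : Finset ℂ) (lam k4 : ℝ)
    (hl0 : 0 ≤ lam) (hl : lam ≤ 1 / 10 ^ 6) (hk : k4 ≤ 1 / 10 ^ 6) (hT : T.Tight W lam) (w : ℂ)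
    (hw : GoodTip H W k4 w) : ∃ p ∈ P, 999 / 1000 * H.h w ≤ ‖p - w‖ ∧ ‖p - w‖ ≤ H.h w := by
  obtain ⟨S, pos, hv0, hn, hh, hC, hx, hv, hD, hti, hP⟩ :=
    tree_strand T H W lam hl0 hT w hw.1 hw.2.1 hw.2.2.1
  have hI := hti k4 hw.2.2.2
  have hpos := h_pos H hw.2.2.1
  refine ⟨S.v S.n, hP.v_mem _ le_rfl, ?_, ?_⟩
  · have h1 := hI.tight_vv 0 S.n (Nat.zero_le _) le_rfl
    have h2 : S.free 0 S.n = H.h w - ∑ k ∈ Finset.range S.n, S.m k := by
      rw [Strand.free, min_eq_left (Nat.zero_le _), max_eq_right (Nat.zero_le _),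
        Finset.sum_sub_distrib, ← hh, Strand.h, Strand.t, Finset.range_eq_Ico]
    have h3 := hI.small
    have h4 : 0 ≤ ∑ x ∈ S.C, S.mC x := Finset.sum_nonneg hI.mC_nonneg
    rw [hh] at h3
    rw [h2, hv0, norm_sub_rev] at h1
    have h5 : k4 * H.h w ≤ 1 / 10 ^ 6 * H.h w := mul_le_mul_of_nonneg_right hk hpos.le
    nlinarith [norm_nonneg (S.v S.n - w)]
  · have h1 : ∀ k : ℕ, ‖S.v k - w‖ ≤ S.t k := by
      intro k
      induction k with
      | zero => rw [hv0]; simp [Strand.t]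
      | succ k ih =>
        have : S.v (k + 1) - w = (S.v (k + 1) - S.v k) + (S.v k - w) := by ring
        rw [this, Strand.t, Finset.sum_range_succ]
        refine (norm_add_le _ _).trans ?_
        rw [Strand.t] at ih
        have e : ‖S.v (k + 1) - S.v k‖ = S.ell k := rfl
        rw [e]
        linarith
    have := h1 S.n
    rwa [← Strand.h, hh] at this

theorem circles_disjoint {P : Finset ℂ} {T : RTree P} (H : Heavy T) (W : Finset ℂ) (lam k4 : ℝ)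
    (hl0 : 0 ≤ lam) (hl : lam ≤ 1 / 10 ^ 6) (hk : k4 ≤ 1 / 10 ^ 6) (hT : T.Tight W lam)
    (w w2 : ℂ) (hw : GoodTip H W k4 w) (hw2 : GoodTip H W k4 w2) (hne : w ≠ w2)
    (c c2 : ℂ) (g : ℝ) (hg0 : 0 ≤ g) (hg : g ≤ H.h w / 10 ^ 6) (hg2 : g ≤ H.h w2 / 10 ^ 6)
    (hc : ‖c - w‖ ≤ g) (hc2 : ‖c2 - w2‖ ≤ g) (r r2 : ℝ) (hr : TipRad H w c r)
    (hr2 : TipRad H w2 c2 r2) (hr9 : r ≤ 9 / 10 * H.h w) (hr29 : r2 ≤ 9 / 10 * H.h w2)
    (y : ℂ) (hy : |‖y - c‖ - r| ≤ g) (hy2 : |‖y - c2‖ - r2| ≤ g) : False := by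
  by_cases h1 : ∃ x ∈ H.children w, w2 ∈ T.D x
  · obtain ⟨x, hx, hx2⟩ := h1
    exact circ_rel H W lam k4 hl0 hl hk hT w w2 x hw hw2 hx hx2 c c2 g hg hg2 hc hc2 r r2 hr
      hr9 hr29 y hy hy2
  by_cases h2 : ∃ x ∈ H.children w2, w ∈ T.D x
  · obtain ⟨x, hx, hx2⟩ := h2
    exact circ_rel H W lam k4 hl0 hl hk hT w2 w x hw2 hw hx hx2 c2 c g hg2 hg hc2 hc r2 r hr2
      hr29 hr9 y hy2 hy
  push Not at h1 h2
  have hp := h_pos H hw.2.2.1
  have hp2 := h_pos H hw2.2.2.1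
  have h3 := dist_unrelated H W lam k4 hT hw hw2 hne h1 h2
  have hy' := abs_le.mp hy
  have hy2' := abs_le.mp hy2
  have e1 : ‖w - w2‖ ≤ ‖y - c‖ + ‖c - w‖ + (‖y - c2‖ + ‖c2 - w2‖) := by
    have : w - w2 = ((y - c2) + (c2 - w2)) - ((y - c) + (c - w)) := by ring
    rw [this]
    refine (norm_sub_le _ _).trans ?_
    have e2 := norm_add_le (y - c2) (c2 - w2)
    have e3 := norm_add_le (y - c) (c - w)
    linarith
  have e4 : ‖w - w2‖ ≤ 9 / 10 * (H.h w + H.h w2) + 2 / 10 ^ 6 * (H.h w + H.h w2) := by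
    linarith
  nlinarith [norm_nonneg (w - w2)]

theorem tips_near_point {P : Finset ℂ} {T : RTree P} (H : Heavy T) (W : Finset ℂ) (lam k4 : ℝ)
    (hl0 : 0 ≤ lam) (hl : lam ≤ 1 / 10 ^ 6) (hk : k4 ≤ 1 / 10 ^ 6) (hT : T.Tight W lam)
    (w w2 : ℂ) (hw : GoodTip H W k4 w) (hw2 : GoodTip H W k4 w2) (hne : w ≠ w2) (a : ℂ)
    (h1 : ‖a - w‖ ≤ 11 / 1000 * H.h w) (h2 : ‖a - w2‖ ≤ 11 / 1000 * H.h w2) :
    H.h w ≤ H.h w2 / 2 ∨ H.h w2 ≤ H.h w / 2 := by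
  have hp := h_pos H hw.2.2.1
  have hp2 := h_pos H hw2.2.2.1
  have e1 : ‖w - w2‖ ≤ 11 / 1000 * (H.h w + H.h w2) := by
    have : w - w2 = (a - w2) - (a - w) := by ring
    rw [this]
    refine (norm_sub_le _ _).trans ?_
    linarith
  by_cases h3 : ∃ x ∈ H.children w, w2 ∈ T.D x
  · obtain ⟨x, hx, hx2⟩ := h3
    right
    have h4 := dist_related H W lam k4 hT hw hw2 hx hx2
    have h5 := T.wt_nonneg (T.sep w (T.par x))
    nlinarith [norm_nonneg (w - w2)]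
  by_cases h4 : ∃ x ∈ H.children w2, w ∈ T.D x
  · obtain ⟨x, hx, hx2⟩ := h4
    left
    have h4 := dist_related H W lam k4 hT hw2 hw hx hx2
    have h5 := T.wt_nonneg (T.sep w2 (T.par x))
    rw [norm_sub_rev w2 w] at h4
    nlinarith [norm_nonneg (w - w2)]
  push Not at h3 h4
  have h5 := dist_unrelated H W lam k4 hT hw hw2 hne h3 h4
  exfalso
  nlinarith [norm_nonneg (w - w2)]

end Pool.Agent.H49.Tsp
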