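import Pool.Agent.H49.Tsp.Mst
import Pool.Agent.H49.Tsp.Tips
import Pool.Agent.H49.Tsp.NewEdges
import Pool.Agent.H49.Tsp.Cells

/-!
The total length of the touched tips of a square (job TSP2-TM).
-/

set_option autoImplicit false

namespace Pool.Agent.H49.Tsp

open Classical

theorem near_of_deep {D U : ℝ} {q w a : ℂ} (hU : 0 < U) (hD : 4000 * U ≤ D) (h : Deep D q w)
    (ha : ‖a - w‖ ≤ U / 50) : Near D q a := by
  obtain ⟨h1, h2, h3, h4⟩ := h
  have hre := (Complex.abs_re_le_norm (a - w)).trans ha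
  have him := (Complex.abs_im_le_norm (a - w)).trans ha
  rw [Complex.sub_re, abs_le] at hre
  rw [Complex.sub_im, abs_le] at him
  refine ⟨?_, ?_, ?_, ?_⟩ <;> linarith [hre.1, hre.2, him.1, him.2]

/-- The tips near one point. -/
theorem near_sum {P : Finset ℂ} {T : RTree P} (H : Heavy T) (W : Finset ℂ) (lam k4 : ℝ)
    (hl0 : 0 ≤ lam) (hl : lam ≤ 1 / 10 ^ 6) (hk : k4 ≤ 1 / 10 ^ 6) (hTi : T.Tight W lam)
    (U : ℝ) (hU : 0 < U) (A : Finset ℂ) (hA : ∀ w ∈ A, GoodTip H W k4 w ∧ 9 / 10 * H.h w ≤ U)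
    (a : ℂ) :
    ∑ w ∈ A, (if ‖a - w‖ ≤ 11 / 1000 * H.h w then H.h w else 0) ≤ 2 * (10 / 9 * U) := by
  rw [← Finset.sum_filter]
  refine sum_le_two_max _ _ _ (by positivity) (fun w _ => T.wt_nonneg _) ?_ ?_
  · intro w hw
    have := (hA w (Finset.mem_filter.1 hw).1).2
    linarith
  · intro w hw w2 hw2 hne
    rw [Finset.mem_filter] at hw hw2
    exact tips_near_point H W lam k4 hl0 hl hk hTi w w2 (hA w hw.1).1 (hA w2 hw2.1).1 hne a
      hw.2 hw2.2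

/-- The total length of the touched tips of a square. -/
theorem touched_mass {P : Finset ℂ} {ω : ℂ → ℂ → ℕ} (hω : TieBreak P ω) (T : RTree P)
    (hT : T.IsMstW ω) (H : Heavy T) (W : Finset ℂ) (lam k4 : ℝ)
    (hl0 : 0 ≤ lam) (hl : lam ≤ 1 / 10 ^ 6) (hk : k4 ≤ 1 / 10 ^ 6) (hTi : T.Tight W lam)
    (D U : ℝ) (hU : 0 < U) (hD : 4000 * U ≤ D) (q : ℂ) (TX : RTree (win P D q))
    (hTX : TX.IsMstW ω) (A : Finset ℂ)
    (hA : ∀ w ∈ A, GoodTip H W k4 w ∧ 9 / 10 * H.h w ≤ U ∧ Deep D q w ∧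
      Touched H TX (301 * U) w) :
    ∑ w ∈ A, H.h w ≤ 20 * (U / D) * T.wt (win P D q) := by
  have hD0 : 0 < D := by linarith
  have hh : ∀ w, 0 ≤ H.h w := fun w => T.wt_nonneg _
  obtain ⟨F, hF⟩ : ∃ F : Finset ℂ, F = (win P D q).filter (fun y => y ≠ TX.root ∧
      ¬ T.Edge y (TX.par y) ∧ TX.len y ≤ 301 * U ∧ (Near D q y ∨ Near D q (TX.par y))) :=
    ⟨_, rfl⟩
  have hcount := count_new_edges hω T hT D hD0 q TX hTX F (by
    intro y hy
    rw [hF, Finset.mem_filter] at hy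
    exact ⟨hy.1, hy.2.1, hy.2.2.1, by linarith [hy.2.2.2.1], hy.2.2.2.2⟩)
  have hA2 : ∀ w ∈ A, GoodTip H W k4 w ∧ 9 / 10 * H.h w ≤ U := fun w hw =>
    ⟨(hA w hw).1, (hA w hw).2.1⟩
  have h1 : ∑ w ∈ A, H.h w ≤ ∑ y ∈ F,
      ((∑ w ∈ A, (if ‖y - w‖ ≤ 11 / 1000 * H.h w then H.h w else 0)) +
       (∑ w ∈ A, (if ‖TX.par y - w‖ ≤ 11 / 1000 * H.h w then H.h w else 0))) := by
    have e : ∑ y ∈ F,
      ((∑ w ∈ A, (if ‖y - w‖ ≤ 11 / 1000 * H.h w then H.h w else 0)) +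
       (∑ w ∈ A, (if ‖TX.par y - w‖ ≤ 11 / 1000 * H.h w then H.h w else 0))) =
      ∑ w ∈ A, ∑ y ∈ F, ((if ‖y - w‖ ≤ 11 / 1000 * H.h w then H.h w else 0) +
        (if ‖TX.par y - w‖ ≤ 11 / 1000 * H.h w then H.h w else 0)) := by
      rw [Finset.sum_comm]
      refine Finset.sum_congr rfl fun y _ => ?_
      rw [Finset.sum_add_distrib]
    rw [e]
    refine Finset.sum_le_sum fun w hw => ?_
    obtain ⟨hgt, hhU, hdeep, y, hyX, hyr, hyE, hyl, hyn⟩ := hA w hw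
    have hnn : ∀ a : ℂ, 0 ≤ (if ‖a - w‖ ≤ 11 / 1000 * H.h w then H.h w else 0) := by
      intro a
      split_ifs
      · exact hh w
      · exact le_rfl
    have hyF : y ∈ F := by
      rw [hF, Finset.mem_filter]
      refine ⟨hyX, hyr, hyE, hyl, ?_⟩
      rcases hyn with hy1 | hy1
      · exact Or.inl (near_of_deep hU hD hdeep (by linarith))
      · exact Or.inr (near_of_deep hU hD hdeep (by linarith))
    have h2 := Finset.single_le_sum
      (f := fun y => ((if ‖y - w‖ ≤ 11 / 1000 * H.h w then H.h w else 0) +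
        (if ‖TX.par y - w‖ ≤ 11 / 1000 * H.h w then H.h w else 0)))
      (fun y _ => add_nonneg (hnn y) (hnn (TX.par y))) hyF
    refine le_trans ?_ h2
    rcases hyn with hy1 | hy1
    · have := hnn (TX.par y)
      simp only [hy1, if_true]
      linarith
    · have := hnn y
      simp only [hy1, if_true]
      linarith
  have h2 : ∑ y ∈ F,
      ((∑ w ∈ A, (if ‖y - w‖ ≤ 11 / 1000 * H.h w then H.h w else 0)) +
       (∑ w ∈ A, (if ‖TX.par y - w‖ ≤ 11 / 1000 * H.h w then H.h w else 0))) ≤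
      ∑ _y ∈ F, (2 * (10 / 9 * U) + 2 * (10 / 9 * U)) :=
    Finset.sum_le_sum fun y _ => add_le_add
      (near_sum H W lam k4 hl0 hl hk hTi U hU A hA2 y)
      (near_sum H W lam k4 hl0 hl hk hTi U hU A hA2 (TX.par y))
  rw [Finset.sum_const, nsmul_eq_mul] at h2
  have h3 : (F.card : ℝ) ≤ 4 * T.wt (win P D q) / D := by
    rw [le_div_iff₀ hD0]; exact hcount
  have h4 : 0 ≤ T.wt (win P D q) := T.wt_nonneg _
  have h5 : (F.card : ℝ) * (2 * (10 / 9 * U) + 2 * (10 / 9 * U)) ≤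
      4 * T.wt (win P D q) / D * (2 * (10 / 9 * U) + 2 * (10 / 9 * U)) :=
    mul_le_mul_of_nonneg_right h3 (by positivity)
  have h6 : 4 * T.wt (win P D q) / D * (2 * (10 / 9 * U) + 2 * (10 / 9 * U)) =
      160 / 9 * (U / D * T.wt (win P D q)) := by
    field_simp
    ring
  have h7 : 0 ≤ U / D * T.wt (win P D q) := mul_nonneg (div_nonneg hU.le hD0.le) h4
  have h8 : 20 * (U / D) * T.wt (win P D q) = 20 * (U / D * T.wt (win P D q)) := by ring
  rw [h8]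
  linarith

end Pool.Agent.H49.Tsp
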