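import Pool.Agent.H49.Tsp.Mst
import Pool.Agent.H49.Tsp.TouchedMass
import Pool.Agent.H49.Tsp.BlockValue

/-!
One block, one shift (job TSP2-A1).
-/

set_option autoImplicit false

namespace Pool.Agent.H49.Tsp

open Classical

theorem deep_mem_win {P : Finset ℂ} {D : ℝ} (hD : 0 < D) {q w : ℂ} (hw : w ∈ P)
    (h : Deep D q w) : w ∈ win P D q := by
  obtain ⟨h1, h2, h3, h4⟩ := h
  unfold win
  rw [Finset.mem_filter]
  refine ⟨hw, ?_, ?_, ?_, ?_⟩ <;> linarith

theorem block_square {P : Finset ℂ} {ω : ℂ → ℂ → ℕ} (hω : TieBreak P ω) (T : RTree P)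
    (hT : T.IsMstW ω) (H : Heavy T) (W : Finset ℂ) (lam k4 del : ℝ) (hS : SGood lam k4 del)
    (hTi : T.Tight W lam) (g D : ℝ) (k0 k1 N : ℕ) (q : ℂ) (hg : 0 < g) (hk0 : 10 ^ 9 ≤ k0)
    (hk1 : 0 < k1) (hdel : 1 ≤ del * k0) (hD : 4000 * (k1 * g) ≤ D)
    (hN : 2000 * (P.card + 1) ≤ N) (hne : (win P D q).Nonempty) (B : Finset ℂ)
    (hB : ∀ w ∈ B, GoodTip H W k4 w ∧ 20 * (k0 * g) ≤ H.h w ∧ 9 / 10 * H.h w ≤ k1 * g) :
    3 / 4 * ∑ w ∈ B.filter (fun w => Deep D q w), H.h w ≤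
      Val g D k0 k1 q (win P D q) (gamS g N (win P D q)) +
        20 * (k1 * g / D) * T.wt (win P D q) := by
  have hU : 0 < (k1 : ℝ) * g := mul_pos (by exact_mod_cast hk1) hg
  have hD0 : 0 < D := by linarith
  obtain ⟨TX, hTX⟩ := exists_mst hω (win P D q) (Finset.filter_subset _ _) hne
  have h1 := block_value hω T hT H W lam k4 del hS hTi g D k0 k1 N q hg hk0 hdel hD hN TX hTX
    ((B.filter (fun w => Deep D q w)).filter (fun w => ¬ Touched H TX (301 * (k1 * g)) w))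
    (by
      intro w hw
      rw [Finset.mem_filter, Finset.mem_filter] at hw
      obtain ⟨⟨hwB, hwD⟩, hwT⟩ := hw
      obtain ⟨a, b, c⟩ := hB w hwB
      exact ⟨a, b, c, hwD, hwT⟩)
  have h2 := touched_mass hω T hT H W lam k4 hS.1.le hS.2.2.2.1 hS.2.2.2.2.1 hTi D (k1 * g) hU hD
    q TX hTX
    ((B.filter (fun w => Deep D q w)).filter (fun w => Touched H TX (301 * (k1 * g)) w))
    (by
      intro w hw
      rw [Finset.mem_filter, Finset.mem_filter] at hw
      obtain ⟨⟨hwB, hwD⟩, hwT⟩ := hw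
      obtain ⟨a, b, c⟩ := hB w hwB
      exact ⟨a, c, hwD, hwT⟩)
  have h3 := Finset.sum_filter_add_sum_filter_not (B.filter (fun w => Deep D q w))
    (fun w => Touched H TX (301 * (k1 * g)) w) (fun w => H.h w)
  have h4 : 0 ≤ ∑ w ∈ (B.filter (fun w => Deep D q w)).filter
      (fun w => Touched H TX (301 * (k1 * g)) w), H.h w :=
    Finset.sum_nonneg fun w _ => T.wt_nonneg _
  linarith

theorem block_offset_value {P : Finset ℂ} {ω : ℂ → ℂ → ℕ} (hω : TieBreak P ω) (T : RTree P)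
    (hT : T.IsMstW ω) (H : Heavy T) (W : Finset ℂ) (lam k4 del : ℝ) (hS : SGood lam k4 del)
    (hTi : T.Tight W lam) (g D : ℝ) (k0 k1 N : ℕ) (s : ℂ) (hg : 0 < g) (hk0 : 10 ^ 9 ≤ k0)
    (hk1 : 0 < k1) (hdel : 1 ≤ del * k0) (hD : 4000 * (k1 * g) ≤ D)
    (hN : 2000 * (P.card + 1) ≤ N) (B : Finset ℂ)
    (hB : ∀ w ∈ B, GoodTip H W k4 w ∧ 20 * (k0 * g) ≤ H.h w ∧ 9 / 10 * H.h w ≤ k1 * g) :
    3 / 4 * ∑ w ∈ B.filter (fun w => ∃ Q, Deep D (cor s D Q) w), H.h w ≤
      ∑ Q ∈ act P s D, Val g D k0 k1 (cor s D Q) (win P D (cor s D Q))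
        (gamS g N (win P D (cor s D Q))) + 180 * (k1 * g / D) * T.total := by
  have hU : 0 < (k1 : ℝ) * g := mul_pos (by exact_mod_cast hk1) hg
  have hD0 : 0 < D := by linarith
  have hh : ∀ w, 0 ≤ H.h w := fun w => T.wt_nonneg _
  -- every deep tip is counted in an active square
  have h1 : ∑ w ∈ B.filter (fun w => ∃ Q, Deep D (cor s D Q) w), H.h w ≤
      ∑ Q ∈ act P s D, ∑ w ∈ B.filter (fun w => Deep D (cor s D Q) w), H.h w := by
    have e : ∀ Q ∈ act P s D, ∑ w ∈ B.filter (fun w => Deep D (cor s D Q) w), H.h w =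
        ∑ w ∈ B, if Deep D (cor s D Q) w then H.h w else 0 := fun Q _ => Finset.sum_filter _ _
    rw [Finset.sum_congr rfl e, Finset.sum_comm, Finset.sum_filter]
    refine Finset.sum_le_sum fun w hw => ?_
    split_ifs with hd
    · obtain ⟨Q, hQ⟩ := hd
      have hQa : Q ∈ act P s D := by
        rw [mem_act P s D hD0 Q]
        exact ⟨w, deep_mem_win hD0 (hB w hw).1.1 hQ⟩
      have := Finset.single_le_sum
        (f := fun Q => if Deep D (cor s D Q) w then H.h w else 0)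
        (fun Q _ => by
          show 0 ≤ if Deep D (cor s D Q) w then H.h w else 0
          split_ifs
          · exact hh w
          · exact le_rfl) hQa
      simp only [hQ, if_true] at this
      exact this
    · refine Finset.sum_nonneg fun Q _ => ?_
      split_ifs
      · exact hh w
      · exact le_rfl
  have h2 : ∀ Q ∈ act P s D, 3 / 4 * ∑ w ∈ B.filter (fun w => Deep D (cor s D Q) w), H.h w ≤
      Val g D k0 k1 (cor s D Q) (win P D (cor s D Q)) (gamS g N (win P D (cor s D Q))) +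
        20 * (k1 * g / D) * T.wt (win P D (cor s D Q)) := fun Q hQ =>
    block_square hω T hT H W lam k4 del hS hTi g D k0 k1 N (cor s D Q) hg hk0 hk1 hdel hD hN
      ((mem_act P s D hD0 Q).1 hQ) B hB
  have h3 := Finset.sum_le_sum h2
  rw [← Finset.mul_sum, Finset.sum_add_distrib, ← Finset.mul_sum] at h3
  have h4 := sum_win T s D hD0 (act P s D)
  have h5 : 20 * (k1 * g / D) * ∑ Q ∈ act P s D, T.wt (win P D (cor s D Q)) ≤
      20 * (k1 * g / D) * (9 * T.total) :=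
    mul_le_mul_of_nonneg_left h4 (by positivity)
  linarith

end Pool.Agent.H49.Tsp
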