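import Pool.Agent.H49.Tsp.Defs

/-!
Bridge from the frozen statement of the streaming TSP problem to `tsp`.
-/

set_option autoImplicit false

namespace Pool.Agent.H49.Tsp

open Classical

noncomputable def pts (l : List (ℕ × ℕ)) : Finset ℂ := l.toFinset.image (fun p => (⟨p.1, p.2⟩ : ℂ))

private noncomputable def pt (p : ℕ × ℕ) : ℂ := ⟨p.1, p.2⟩

private theorem pt_inj : Function.Injective pt := by
  intro x y h
  have h1 := congrArg Complex.re h
  have h2 := congrArg Complex.im h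
  simp only [pt] at h1 h2
  exact Prod.ext (by exact_mod_cast h1) (by exact_mod_cast h2)

private theorem pt_zero : pt (0, 0) = 0 := by
  apply Complex.ext <;> simp [pt]

private theorem norm_pt (p q : ℕ × ℕ) :
    ‖pt p - pt q‖ = Real.sqrt (((p.1 : ℝ) - (q.1 : ℝ)) ^ 2 + ((p.2 : ℝ) - (q.2 : ℝ)) ^ 2) := by
  rw [Complex.norm_eq_sqrt_sq_add_sq]
  simp [pt]

private theorem tour_map (l : List (ℕ × ℕ)) :
    tour (l.map pt) = ∑ i : Fin l.length,
      Real.sqrt ((((l.get i).1 : ℝ) - ((l.getD ((i.val + 1) % l.length) (0, 0)).1 : ℝ)) ^ 2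
        + (((l.get i).2 : ℝ) - ((l.getD ((i.val + 1) % l.length) (0, 0)).2 : ℝ)) ^ 2) := by
  unfold tour
  refine Fintype.sum_equiv (finCongr (List.length_map (f := pt) (as := l))) _ _ fun i => ?_
  rw [← norm_pt]
  congr 2
  · simp
  · rw [← pt_zero, List.getD_map]
    simp

/-- The frozen optimum is the length of a shortest tour through the points of the stream. -/
theorem frozen_tsp (l : List (ℕ × ℕ)) (hl : l.Nodup) :
    sInf {x : ℝ | ∃ l' : List (ℕ × ℕ), l'.Perm l ∧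
      x = ∑ i : Fin l'.length,
        Real.sqrt ((((l'.get i).1 : ℝ) - ((l'.getD ((i.val + 1) % l'.length) (0, 0)).1 : ℝ)) ^ 2
          + (((l'.get i).2 : ℝ) - ((l'.getD ((i.val + 1) % l'.length) (0, 0)).2 : ℝ)) ^ 2)}
      = tsp (pts l) := by
  unfold tsp
  congr 1
  ext x
  simp only [Set.mem_setOf_eq]
  constructor
  · rintro ⟨l', hp, rfl⟩
    refine ⟨l'.map pt, ?_, ?_, (tour_map l').symm⟩
    · exact (List.nodup_map_iff pt_inj).2 (hp.nodup_iff.2 hl)
    · ext z
      simp only [pts, List.mem_toFinset, List.mem_map, Finset.mem_image]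
      constructor
      · rintro ⟨a, ha, rfl⟩; exact ⟨a, hp.mem_iff.1 ha, rfl⟩
      · rintro ⟨a, ha, rfl⟩; exact ⟨a, hp.mem_iff.2 ha, rfl⟩
  · rintro ⟨l2, hn, hf, rfl⟩
    have hmem : ∀ z, z ∈ l2 ↔ ∃ a ∈ l, pt a = z := by
      intro z
      rw [← List.mem_toFinset, hf]
      simp only [pts, List.mem_toFinset, Finset.mem_image]
      rfl
    have hinv : ∀ a : ℕ × ℕ, (fun z : ℂ => (⌊z.re⌋₊, ⌊z.im⌋₊)) (pt a) = a := by
      intro a; simp [pt]
    have hmap : (l2.map (fun z : ℂ => (⌊z.re⌋₊, ⌊z.im⌋₊))).map pt = l2 := by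
      rw [List.map_map]
      conv_rhs => rw [← List.map_id l2]
      refine List.map_congr_left fun z hz => ?_
      obtain ⟨a, _, rfl⟩ := (hmem z).1 hz
      simp only [Function.comp_apply, id]
      rw [show ((⌊(pt a).re⌋₊, ⌊(pt a).im⌋₊) : ℕ × ℕ) = a from hinv a]
    refine ⟨l2.map (fun z : ℂ => (⌊z.re⌋₊, ⌊z.im⌋₊)), ?_, ?_⟩
    · have hn' : (l2.map (fun z : ℂ => (⌊z.re⌋₊, ⌊z.im⌋₊))).Nodup := by
        apply List.Nodup.of_map pt
        rw [hmap]; exact hn
      rw [List.perm_ext_iff_of_nodup hn' hl]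
      intro a
      rw [List.mem_map]
      constructor
      · rintro ⟨z, hz, rfl⟩
        obtain ⟨b, hb, rfl⟩ := (hmem z).1 hz
        rw [show ((⌊(pt b).re⌋₊, ⌊(pt b).im⌋₊) : ℕ × ℕ) = b from hinv b]
        exact hb
      · intro ha
        exact ⟨pt a, (hmem _).2 ⟨a, ha, rfl⟩, hinv a⟩
    · rw [← tour_map, hmap]

end Pool.Agent.H49.Tsp
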