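import Pool.Agent.H49.Tsp.Defs2

/-!
Cross-scale lemma: the circle of a tip and the circle of a far away centre do not meet.
-/

set_option autoImplicit false

namespace Pool.Agent.H49.Tsp

open Classical

theorem cross_inner (α β : ℝ) (e a b : ℂ) : inner ℝ (α • e + a) (-(β • e) + b)
    = -(α * β * ‖e‖ ^ 2) + α * inner ℝ e b - β * inner ℝ a e + inner ℝ a b := by
  rw [inner_add_left, inner_add_right, inner_add_right, inner_neg_right, inner_neg_right,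
    real_inner_smul_left, real_inner_smul_left, real_inner_smul_right, real_inner_smul_right,
    real_inner_self_eq_norm_sq]
  ring

theorem cross_aux (e u w : ℂ) (he : ‖e‖ = 1) (hu : ‖u - (‖u‖ : ℂ) * e‖ ≤ 6 / 1000 * ‖u‖)
    (hw : ‖w + (‖w‖ : ℂ) * e‖ ≤ 6 / 1000 * ‖w‖) :
    ‖u‖ ^ 2 + ‖w‖ ^ 2 + 194 / 100 * (‖u‖ * ‖w‖) ≤ ‖u - w‖ ^ 2 := by
  set a : ℂ := u - (‖u‖ : ℂ) * e with ha
  set b : ℂ := w + (‖w‖ : ℂ) * e with hb
  have hu' : u = ‖u‖ • e + a := by rw [ha, Complex.real_smul]; ring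
  have hw' : w = -(‖w‖ • e) + b := by rw [hb, Complex.real_smul]; ring
  have hin : inner ℝ u w = -(‖u‖ * ‖w‖) + ‖u‖ * inner ℝ e b - ‖w‖ * inner ℝ a e
      + inner ℝ a b := by
    have h1 : inner ℝ u w = inner ℝ (‖u‖ • e + a) (-(‖w‖ • e) + b) := by
      rw [← hu', ← hw']
    rw [h1]
    clear_value a b
    rw [cross_inner, he]
    ring
  have h1 := abs_le.1 (abs_real_inner_le_norm e b)
  have h2 := abs_le.1 (abs_real_inner_le_norm a e)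
  have h3 := abs_le.1 (abs_real_inner_le_norm a b)
  rw [he] at h1 h2
  have hun := norm_nonneg u
  have hwn := norm_nonneg w
  have han := norm_nonneg a
  have hbn := norm_nonneg b
  have e1 : ‖u‖ * inner ℝ e b ≤ ‖u‖ * (6 / 1000 * ‖w‖) :=
    mul_le_mul_of_nonneg_left (by linarith [h1.2]) hun
  have e2 : -(‖w‖ * inner ℝ a e) ≤ ‖w‖ * (6 / 1000 * ‖u‖) := by
    have : ‖w‖ * (-(6 / 1000 * ‖u‖)) ≤ ‖w‖ * inner ℝ a e :=
      mul_le_mul_of_nonneg_left (by linarith [h2.1]) hwn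
    linarith
  have e3 : inner ℝ a b ≤ (6 / 1000 * ‖u‖) * (6 / 1000 * ‖w‖) := by
    have : ‖a‖ * ‖b‖ ≤ (6 / 1000 * ‖u‖) * (6 / 1000 * ‖w‖) := by gcongr
    linarith [h3.2]
  rw [norm_sub_sq_real, hin]
  nlinarith [mul_nonneg hun hwn]

/-- The combinatorial part: two sides `A`, `B` of the outer points. -/
theorem cross_core (O : Finset ℂ) (c : ℂ) (r r0 : ℝ) (A B : ℂ → Prop) (h0 : 0 < r0)
    (h1 : r0 ≤ r)
    (hAB : ∀ o ∈ O, 999 / 100000 * r0 < ‖o - c‖ → A o ∨ B o)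
    (hcr : ∀ a ∈ O, ∀ b ∈ O, A a → B b → ‖a - c‖ ^ 2 + ‖b - c‖ ^ 2
      + 194 / 100 * (‖a - c‖ * ‖b - c‖) ≤ ‖a - b‖ ^ 2)
    (hA : ∀ o ∈ O, A o → 999 / 100000 * r0 < ‖o - c‖ → 103 / 100 * r < ‖o - c‖)
    (hAe : ∃ o ∈ O, A o ∧ r0 / 100 < ‖o - c‖ ∧ ‖o - c‖ ≤ 300 * r0)
    (hBe : ∃ o ∈ O, B o ∧ r0 / 100 < ‖o - c‖ ∧ ‖o - c‖ ≤ 300 * r0)
    (hLT : LT O c r0) (hG : OG6 O c r0) : False := by
  obtain ⟨zA, hzA, hminA⟩ := Finset.exists_min_image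
    (O.filter fun o => A o ∧ r0 / 100 < ‖o - c‖ ∧ ‖o - c‖ ≤ 300 * r0) (fun o => ‖o - c‖)
    (by obtain ⟨o, ho, h⟩ := hAe; exact ⟨o, Finset.mem_filter.2 ⟨ho, h⟩⟩)
  obtain ⟨zB, hzB, hminB⟩ := Finset.exists_min_image
    (O.filter fun o => B o ∧ r0 / 100 < ‖o - c‖ ∧ ‖o - c‖ ≤ 300 * r0) (fun o => ‖o - c‖)
    (by obtain ⟨o, ho, h⟩ := hBe; exact ⟨o, Finset.mem_filter.2 ⟨ho, h⟩⟩)
  obtain ⟨hzAO, hzAA, hzA1, hzA2⟩ := Finset.mem_filter.1 hzA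
  obtain ⟨hzBO, hzBB, hzB1, hzB2⟩ := Finset.mem_filter.1 hzB
  have hminA' : ∀ o ∈ O, A o → r0 / 100 < ‖o - c‖ → ‖zA - c‖ ≤ ‖o - c‖ := by
    intro o ho hoA ho1
    by_cases h : ‖o - c‖ ≤ 300 * r0
    · exact hminA o (Finset.mem_filter.2 ⟨ho, hoA, ho1, h⟩)
    · push Not at h; linarith
  have hminB' : ∀ o ∈ O, B o → r0 / 100 < ‖o - c‖ → ‖zB - c‖ ≤ ‖o - c‖ := by
    intro o ho hoB ho1
    by_cases h : ‖o - c‖ ≤ 300 * r0
    · exact hminB o (Finset.mem_filter.2 ⟨ho, hoB, ho1, h⟩)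
    · push Not at h; linarith
  set dA := ‖zA - c‖ with hdA
  set dB := ‖zB - c‖ with hdB
  have hdAr : 103 / 100 * r < dA := hA zA hzAO hzAA (by linarith)
  -- the main estimate for a crossing step
  have key : ∀ a ∈ O, ∀ b ∈ O, A a → B b → 999 / 100000 * r0 < ‖a - c‖ →
      999 / 100000 * r0 < ‖b - c‖ → (1 + 1 / 10 ^ 5) * max dA dB < ‖a - b‖ := by
    intro a ha b hb haA hbB ha1 hb1
    have hcr' := hcr a ha b hb haA hbB
    have haR := hA a ha haA ha1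
    have haA' : dA ≤ ‖a - c‖ := hminA' a ha haA (by linarith)
    have hM : ∀ M : ℝ, 0 ≤ M → M ^ 2 * (1 + 6 / 10 ^ 5) ≤ ‖a - b‖ ^ 2 → 0 < M →
        (1 + 1 / 10 ^ 5) * M < ‖a - b‖ := by
      intro M hM0 hM1 hM2
      apply lt_of_pow_lt_pow_left₀ 2 (norm_nonneg _)
      nlinarith [pow_pos hM2 2]
    have han := norm_nonneg (a - c)
    have hbn := norm_nonneg (b - c)
    by_cases hb2 : r0 / 100 < ‖b - c‖
    · have hbB' : dB ≤ ‖b - c‖ := hminB' b hb hbB hb2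
      have hdB0 : 0 < dB := by linarith
      have hdA0 : 0 < dA := by linarith
      have hprod : dA * dB ≤ ‖a - c‖ * ‖b - c‖ := by gcongr
      have hsqA : dA ^ 2 ≤ ‖a - c‖ ^ 2 := by gcongr
      have hsqB : dB ^ 2 ≤ ‖b - c‖ ^ 2 := by gcongr
      rcases le_total dA dB with h | h
      · rw [max_eq_right h]
        apply hM dB hdB0.le _ hdB0
        have : dB * (dB / 30000) ≤ dA * dB := by
          have : dB / 30000 ≤ dA := by linarith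
          nlinarith
        nlinarith [sq_nonneg dA]
      · rw [max_eq_left h]
        apply hM dA hdA0.le _ hdA0
        have : dA * (dA / 30000) ≤ dA * dB := by
          have : dA / 30000 ≤ dB := by linarith
          nlinarith
        nlinarith [sq_nonneg dB]
    · push Not at hb2
      obtain ⟨o3, ho3, ho31, ho32⟩ := hG ⟨b, hb, hb1, hb2⟩
      have ho3B : B o3 := by
        rcases hAB o3 ho3 (by linarith) with h | h
        · have := hA o3 ho3 h (by linarith)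
          linarith
        · exact h
      have hdB2 : dB ≤ r0 / 2 := (hminB' o3 ho3 ho3B ho31).trans ho32
      have hdA0 : 0 < dA := by linarith
      rw [max_eq_left (by linarith)]
      apply hM dA hdA0.le _ hdA0
      have hsqA : dA ^ 2 ≤ ‖a - c‖ ^ 2 := by gcongr
      have hprod : dA * (999 / 100000 * r0) ≤ ‖a - c‖ * ‖b - c‖ := by gcongr
      have : dA * (dA / 300) ≤ dA * r0 := by
        apply mul_le_mul_of_nonneg_left _ hdA0.le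
        linarith
      nlinarith [sq_nonneg ‖b - c‖]
  have hchain := hLT zA hzAO zB hzBO hzA1 hzA2 hzB1 hzB2
  have hA0 : A zA ∧ zA ∈ O ∧ 999 / 100000 * r0 < ‖zA - c‖ := ⟨hzAA, hzAO, by
    rw [← hdA]; linarith⟩
  have hall : ∀ b : ℂ, Relation.ReflTransGen (fun a b => b ∈ O ∧ 999 / 100000 * r0 < ‖b - c‖ ∧
      ‖a - b‖ ≤ (1 + 1 / 10 ^ 5) * max dA dB) zA b → A b ∧ b ∈ O ∧
      999 / 100000 * r0 < ‖b - c‖ := by
    intro b hb
    induction hb with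
    | refl => exact hA0
    | tail _ hstep ih =>
      rename_i x y
      obtain ⟨hbO, hb1, hb2⟩ := hstep
      obtain ⟨hxA, hxO, hx1⟩ := ih
      refine ⟨?_, hbO, hb1⟩
      rcases hAB _ hbO hb1 with h | h
      · exact h
      · exact absurd (key _ hxO _ hbO hxA h hx1 hb1) (not_lt.2 hb2)
  obtain ⟨hzBA, -, -⟩ := hall zB hchain
  have := hcr zB hzBO zB hzBO hzBA hzBB
  rw [sub_self, norm_zero] at this
  have hB0 : 0 < dB := by linarith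
  nlinarith [mul_pos hB0 hB0]

theorem side_of (u e : ℂ) (a X : ℝ) (he : ‖e‖ = 1) (hX : ‖u - (a : ℂ) * e‖ ≤ X)
    (hXd : X ≤ 3 / 1000 * ‖u‖) :
    (0 ≤ a → ‖u - (‖u‖ : ℂ) * e‖ ≤ 6 / 1000 * ‖u‖) ∧
      (a ≤ 0 → ‖u + (‖u‖ : ℂ) * e‖ ≤ 6 / 1000 * ‖u‖) := by
  have hae : ‖(a : ℂ) * e‖ = |a| := by rw [norm_mul, he, mul_one, Complex.norm_real,
    Real.norm_eq_abs]
  have h1 : abs (‖u‖ - |a|) ≤ X := by
    rw [← hae]
    exact (abs_norm_sub_norm_le _ _).trans hX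
  constructor
  · intro ha
    rw [abs_of_nonneg ha] at h1
    have e1 : u - (‖u‖ : ℂ) * e = (u - (a : ℂ) * e) + ((a - ‖u‖ : ℝ) : ℂ) * e := by
      push_cast; ring
    have e2 : ‖((a - ‖u‖ : ℝ) : ℂ) * e‖ ≤ X := by
      rw [norm_mul, he, mul_one, Complex.norm_real, Real.norm_eq_abs, abs_sub_comm]
      exact h1
    rw [e1]
    refine (norm_add_le _ _).trans ?_
    linarith
  · intro ha
    rw [abs_of_nonpos ha] at h1
    have e1 : u + (‖u‖ : ℂ) * e = (u - (a : ℂ) * e) + ((a + ‖u‖ : ℝ) : ℂ) * e := by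
      push_cast; ring
    have e2 : ‖((a + ‖u‖ : ℝ) : ℂ) * e‖ ≤ X := by
      rw [norm_mul, he, mul_one, Complex.norm_real, Real.norm_eq_abs]
      have : a + ‖u‖ = ‖u‖ - -a := by ring
      rw [this]
      exact h1
    rw [e1]
    refine (norm_add_le _ _).trans ?_
    linarith

theorem cross (P O : Finset ℂ) (c c' e e' : ℂ) (r r' r0 eps tau : ℝ) (h0 : 0 < r0)
    (h1 : r0 ≤ r') (h2 : r' ≤ (1 + 1 / 10 ^ 6) * r0) (h3 : 10000 * r' ≤ r)
    (heps0 : 0 ≤ eps) (heps : eps ≤ r0 / 10 ^ 8) (htau0 : 0 ≤ tau) (htau : tau ≤ r0 / 10 ^ 8)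
    (hDC : DC P c e r (1 / 10 ^ 5) (1 / 26) tau) (hNG : NG P c r 250 (r / 200) tau)
    (hO : ∀ o ∈ O, ∃ p ∈ P, ‖o - p‖ ≤ eps ∧ ‖p - c‖ ≤ (1 + 1 / 26) * r)
    (hO' : ∀ p ∈ P, ‖p - c'‖ ≤ 290 * r' → ∃ o ∈ O, ‖o - p‖ ≤ eps)
    (htip : ∃ o ∈ O, ‖o - c'‖ ≤ eps)
    (hDC' : DC P c' e' r' (1 / 10 ^ 5) (1 / 26) tau) (hLT : LT O c' r0) (hG : OG6 O c' r0)
    (y : ℂ) (hy : ‖y - c‖ = r) (hy' : ‖y - c'‖ = r') : False := by
  obtain ⟨he, hDC⟩ := hDC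
  obtain ⟨he', hDC'⟩ := hDC'
  obtain ⟨ot, hot, hot'⟩ := htip
  obtain ⟨pt, hpt, hpo, hptr⟩ := hO ot hot
  have hptc' : ‖pt - c'‖ ≤ 2 * eps := by
    have e1 : pt - c' = (ot - c') - (ot - pt) := by ring
    rw [e1]
    refine (norm_sub_le _ _).trans ?_
    linarith
  have hrho : |‖pt - c‖ - r| ≤ r' + 2 * eps := by
    have e1 : ‖pt - c‖ ≤ ‖pt - c'‖ + ‖y - c'‖ + ‖y - c‖ := by
      have : pt - c = (pt - c') - (y - c') + (y - c) := by ring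
      rw [this]
      exact (norm_add_le _ _).trans (by linarith [norm_sub_le (pt - c') (y - c')])
    have e2 : ‖y - c‖ ≤ ‖y - c'‖ + ‖pt - c'‖ + ‖pt - c‖ := by
      have : y - c = (y - c') - (pt - c') + (pt - c) := by ring
      rw [this]
      exact (norm_add_le _ _).trans (by linarith [norm_sub_le (y - c') (pt - c')])
    rw [hy, hy'] at e1 e2
    rw [abs_le]
    constructor <;> linarith
  have hrt := hDC pt hpt hptr
  -- position of a point relative to the tip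
  have pos : ∀ o p : ℂ, p ∈ P → ‖o - p‖ ≤ eps → ‖p - c‖ ≤ (1 + 1 / 26) * r →
      ‖(o - c') - ((‖p - c‖ - ‖pt - c‖ : ℝ) : ℂ) * e‖ ≤
        201 / 10 ^ 7 * r0 + 1 / 10 ^ 5 * |‖p - c‖ - ‖pt - c‖| := by
    intro o p hp hop hpr
    have hrp := hDC p hp hpr
    have e1 : (o - c') - ((‖p - c‖ - ‖pt - c‖ : ℝ) : ℂ) * e
        = (o - p) + (p - c - (‖p - c‖ : ℂ) * e) - (pt - c - (‖pt - c‖ : ℂ) * e) + (pt - c') := by
      push_cast; ring
    rw [e1]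
    have e2 : ‖(o - p) + (p - c - (‖p - c‖ : ℂ) * e) - (pt - c - (‖pt - c‖ : ℂ) * e)
        + (pt - c')‖ ≤ ‖o - p‖ + ‖p - c - (‖p - c‖ : ℂ) * e‖ +
          ‖pt - c - (‖pt - c‖ : ℂ) * e‖ + ‖pt - c'‖ := by
      refine (norm_add_le _ _).trans ?_
      gcongr
      refine (norm_sub_le _ _).trans ?_
      gcongr
      exact norm_add_le _ _
    have e3 : |‖p - c‖ - r| ≤ |‖p - c‖ - ‖pt - c‖| + |‖pt - c‖ - r| := by
      have : ‖p - c‖ - r = (‖p - c‖ - ‖pt - c‖) + (‖pt - c‖ - r) := by ring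
      rw [this]
      exact abs_add_le _ _
    refine e2.trans ?_
    nlinarith
  -- the sides
  have side : ∀ o p : ℂ, p ∈ P → ‖o - p‖ ≤ eps → ‖p - c‖ ≤ (1 + 1 / 26) * r →
      999 / 100000 * r0 < ‖o - c'‖ →
      (0 ≤ ‖p - c‖ - ‖pt - c‖ → ‖(o - c') - (‖o - c'‖ : ℂ) * e‖ ≤ 6 / 1000 * ‖o - c'‖) ∧
      (‖p - c‖ - ‖pt - c‖ ≤ 0 → ‖(o - c') + (‖o - c'‖ : ℂ) * e‖ ≤ 6 / 1000 * ‖o - c'‖) := by
    intro o p hp hop hpr hout
    have hX := pos o p hp hop hpr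
    set a := ‖p - c‖ - ‖pt - c‖ with ha
    have hae : ‖(a : ℂ) * e‖ = |a| := by rw [norm_mul, he, mul_one, Complex.norm_real,
      Real.norm_eq_abs]
    have h5 : |a| ≤ ‖o - c'‖ + ‖(o - c') - (a : ℂ) * e‖ := by
      rw [← hae]
      have : (a : ℂ) * e = (o - c') - ((o - c') - (a : ℂ) * e) := by ring
      calc ‖(a : ℂ) * e‖ = ‖(o - c') - ((o - c') - (a : ℂ) * e)‖ := by rw [← this]
        _ ≤ _ := norm_sub_le _ _
    apply side_of (o - c') e a _ he le_rfl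
    nlinarith
  set Pl : ℂ → Prop := fun o => ‖(o - c') - (‖o - c'‖ : ℂ) * e‖ ≤ 6 / 1000 * ‖o - c'‖ with hPl
  set Mi : ℂ → Prop := fun o => ‖(o - c') + (‖o - c'‖ : ℂ) * e‖ ≤ 6 / 1000 * ‖o - c'‖ with hMi
  have hAB : ∀ o ∈ O, 999 / 100000 * r0 < ‖o - c'‖ → Pl o ∨ Mi o := by
    intro o ho hout
    obtain ⟨p, hp, hop, hpr⟩ := hO o ho
    rcases le_total 0 (‖p - c‖ - ‖pt - c‖) with h | h
    · exact Or.inl ((side o p hp hop hpr hout).1 h)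
    · exact Or.inr ((side o p hp hop hpr hout).2 h)
  have hcr : ∀ a b : ℂ, Pl a → Mi b → ‖a - c'‖ ^ 2 + ‖b - c'‖ ^ 2
      + 194 / 100 * (‖a - c'‖ * ‖b - c'‖) ≤ ‖a - b‖ ^ 2 := by
    intro a b ha hb
    have := cross_aux e (a - c') (b - c') he ha hb
    rwa [sub_sub_sub_cancel_right] at this
  -- existence of points on both sides
  have hs1 : |‖pt - c‖ - r| ≤ 101 / 100 * r' := by
    refine hrho.trans ?_
    linarith
  obtain ⟨⟨pm, hpm, hpm1, hpm2⟩, ⟨pp, hpp, hpp1, hpp2⟩⟩ := hNG (101 / 100 * r') (by linarith)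
    (by linarith) ⟨pt, hpt, hs1⟩
  have hrho' := abs_le.1 hrho
  have exists_out : ∀ p : ℂ, p ∈ P → ‖p - c‖ ≤ (1 + 1 / 26) * r →
      |‖p - c‖ - ‖pt - c‖| ≤ 254 * r' → r' ≤ |‖p - c‖ - ‖pt - c‖| →
      ∃ o ∈ O, ‖o - p‖ ≤ eps ∧ r0 / 100 < ‖o - c'‖ ∧ ‖o - c'‖ ≤ 300 * r0 := by
    intro p hp hpr ha1 ha2
    have hq := pos p p hp (by simpa using heps0) hpr
    set a := ‖p - c‖ - ‖pt - c‖ with ha
    have hae : ‖(a : ℂ) * e‖ = |a| := by rw [norm_mul, he, mul_one, Complex.norm_real,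
      Real.norm_eq_abs]
    have h5 : ‖p - c'‖ ≤ |a| + ‖(p - c') - (a : ℂ) * e‖ := by
      rw [← hae]
      calc ‖p - c'‖ = ‖(a : ℂ) * e + ((p - c') - (a : ℂ) * e)‖ := by congr 1; ring
        _ ≤ _ := norm_add_le _ _
    have h6 : |a| ≤ ‖p - c'‖ + ‖(p - c') - (a : ℂ) * e‖ := by
      rw [← hae]
      calc ‖(a : ℂ) * e‖ = ‖(p - c') - ((p - c') - (a : ℂ) * e)‖ := by congr 1; ring
        _ ≤ _ := norm_sub_le _ _
    obtain ⟨o, ho, hop⟩ := hO' p hp (by nlinarith)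
    have h7 : ‖p - c'‖ ≤ ‖o - p‖ + ‖o - c'‖ := by
      calc ‖p - c'‖ = ‖(o - c') - (o - p)‖ := by congr 1; ring
        _ ≤ ‖o - c'‖ + ‖o - p‖ := norm_sub_le _ _
        _ = _ := add_comm _ _
    have h8 : ‖o - c'‖ ≤ ‖o - p‖ + ‖p - c'‖ := by
      calc ‖o - c'‖ = ‖(o - p) + (p - c')‖ := by congr 1; ring
        _ ≤ _ := norm_add_le _ _
    refine ⟨o, ho, hop, ?_, ?_⟩
    · nlinarith
    · nlinarith
  have hPe : ∃ o ∈ O, Pl o ∧ r0 / 100 < ‖o - c'‖ ∧ ‖o - c'‖ ≤ 300 * r0 := by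
    have hpos : 0 ≤ ‖pp - c‖ - ‖pt - c‖ := by linarith [hrho'.2]
    obtain ⟨o, ho, hop, ho1, ho2⟩ := exists_out pp hpp (by linarith)
      (by rw [abs_of_nonneg hpos]; linarith [hrho'.1])
      (by rw [abs_of_nonneg hpos]; linarith [hrho'.2])
    exact ⟨o, ho, (side o pp hpp hop (by linarith) (by linarith)).1 hpos, ho1, ho2⟩
  have hMe : ∃ o ∈ O, Mi o ∧ r0 / 100 < ‖o - c'‖ ∧ ‖o - c'‖ ≤ 300 * r0 := by
    have hneg : ‖pm - c‖ - ‖pt - c‖ ≤ 0 := by linarith [hrho'.1]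
    obtain ⟨o, ho, hop, ho1, ho2⟩ := exists_out pm hpm (by linarith)
      (by rw [abs_of_nonpos hneg]; linarith [hrho'.2])
      (by rw [abs_of_nonpos hneg]; linarith [hrho'.1])
    exact ⟨o, ho, (side o pm hpm hop (by linarith) (by linarith)).2 hneg, ho1, ho2⟩
  -- one of the sides has no point in the ring
  have hdir : ∀ o ∈ O, 999 / 100000 * r0 < ‖o - c'‖ → ‖o - c'‖ ≤ 103 / 100 * r' →
      ‖(o - c') - (‖o - c'‖ : ℂ) * e'‖ ≤ 2 / 1000 * ‖o - c'‖ := by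
    intro o ho ho1 ho2
    obtain ⟨p, hp, hop, -⟩ := hO o ho
    have h7 : |‖p - c'‖ - ‖o - c'‖| ≤ eps := by
      refine (abs_norm_sub_norm_le _ _).trans ?_
      rw [sub_sub_sub_cancel_right, norm_sub_rev]
      exact hop
    have h7' := abs_le.1 h7
    have hd := hDC' p hp (by linarith [h7'.2])
    have h8 : |‖p - c'‖ - r'| ≤ r' := by
      rw [abs_le]
      constructor
      · linarith [norm_nonneg (p - c')]
      · linarith [h7'.2]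
    have e1 : (o - c') - (‖o - c'‖ : ℂ) * e' = (o - p) + (p - c' - (‖p - c'‖ : ℂ) * e')
        + ((‖p - c'‖ - ‖o - c'‖ : ℝ) : ℂ) * e' := by push_cast; ring
    have e2 : ‖((‖p - c'‖ - ‖o - c'‖ : ℝ) : ℂ) * e'‖ ≤ eps := by
      rw [norm_mul, he', mul_one, Complex.norm_real, Real.norm_eq_abs]
      exact h7
    rw [e1]
    have e3 := norm_add_le ((o - p) + (p - c' - (‖p - c'‖ : ℂ) * e'))
      (((‖p - c'‖ - ‖o - c'‖ : ℝ) : ℂ) * e')
    have e4 := norm_add_le (o - p) (p - c' - (‖p - c'‖ : ℂ) * e')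
    nlinarith
  have hdir2 : (∀ o ∈ O, Pl o → 999 / 100000 * r0 < ‖o - c'‖ → 103 / 100 * r' < ‖o - c'‖) ∨
      (∀ o ∈ O, Mi o → 999 / 100000 * r0 < ‖o - c'‖ → 103 / 100 * r' < ‖o - c'‖) := by
    by_contra hcon
    push Not at hcon
    obtain ⟨⟨o1, ho1, hP1, hr1, hr1'⟩, ⟨o2, ho2, hP2, hr2, hr2'⟩⟩ := hcon
    have hd1 := hdir o1 ho1 hr1 hr1'
    have hd2 := hdir o2 ho2 hr2 hr2'
    have hn1 : 0 < ‖o1 - c'‖ := by linarith
    have hn2 : 0 < ‖o2 - c'‖ := by linarith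
    have e1 : ‖e - e'‖ ≤ 8 / 1000 := by
      have : ‖o1 - c'‖ * ‖e - e'‖ ≤ ‖o1 - c'‖ * (8 / 1000) := by
        calc ‖o1 - c'‖ * ‖e - e'‖ = ‖((o1 - c') - (‖o1 - c'‖ : ℂ) * e') -
              ((o1 - c') - (‖o1 - c'‖ : ℂ) * e)‖ := by
              have : ((o1 - c') - (‖o1 - c'‖ : ℂ) * e') - ((o1 - c') - (‖o1 - c'‖ : ℂ) * e)
                = (‖o1 - c'‖ : ℂ) * (e - e') := by ring
              rw [this, norm_mul, Complex.norm_real, Real.norm_eq_abs, abs_of_pos hn1]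
          _ ≤ _ := norm_sub_le _ _
          _ ≤ 2 / 1000 * ‖o1 - c'‖ + 6 / 1000 * ‖o1 - c'‖ := add_le_add hd1 hP1
          _ = _ := by ring
      exact le_of_mul_le_mul_left this hn1
    have e2 : ‖e + e'‖ ≤ 8 / 1000 := by
      have : ‖o2 - c'‖ * ‖e + e'‖ ≤ ‖o2 - c'‖ * (8 / 1000) := by
        calc ‖o2 - c'‖ * ‖e + e'‖ = ‖((o2 - c') + (‖o2 - c'‖ : ℂ) * e) -
              ((o2 - c') - (‖o2 - c'‖ : ℂ) * e')‖ := by
              have : ((o2 - c') + (‖o2 - c'‖ : ℂ) * e) - ((o2 - c') - (‖o2 - c'‖ : ℂ) * e')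
                = (‖o2 - c'‖ : ℂ) * (e + e') := by ring
              rw [this, norm_mul, Complex.norm_real, Real.norm_eq_abs, abs_of_pos hn2]
          _ ≤ _ := norm_sub_le _ _
          _ ≤ 6 / 1000 * ‖o2 - c'‖ + 2 / 1000 * ‖o2 - c'‖ := add_le_add hP2 hd2
          _ = _ := by ring
      exact le_of_mul_le_mul_left this hn2
    have e3 : ‖(2 : ℂ) * e‖ ≤ ‖e - e'‖ + ‖e + e'‖ := by
      calc ‖(2 : ℂ) * e‖ = ‖(e - e') + (e + e')‖ := by congr 1; ring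
        _ ≤ _ := norm_add_le _ _
    rw [norm_mul, he] at e3
    norm_num at e3
    linarith
  rcases hdir2 with h | h
  · exact cross_core O c' r' r0 Pl Mi h0 h1 hAB (fun a _ b _ ha hb => hcr a b ha hb) h hPe hMe
      hLT hG
  · refine cross_core O c' r' r0 Mi Pl h0 h1 (fun o ho h => (hAB o ho h).symm) ?_ h hMe hPe hLT hG
    intro a _ b _ ha hb
    have := hcr b a hb ha
    rw [norm_sub_rev a b]
    nlinarith

end Pool.Agent.H49.Tsp
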