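import Mathlib

/-!
Definitions for the streaming TSP problem: rooted trees on finite plane sets encoded by a parent
function, tours, clean rings.
-/

set_option autoImplicit false

namespace Pool.Agent.H49.Tsp

open Classical

/-- A rooted tree on the finite set `P` of points of the plane, encoded by its parent function. -/
structure RTree (P : Finset ℂ) where
  root : ℂ
  par : ℂ → ℂ
  dep : ℂ → ℕ
  root_mem : root ∈ P
  par_root : par root = root
  par_mem : ∀ v ∈ P, par v ∈ P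
  dep_lt : ∀ v ∈ P, v ≠ root → dep (par v) < dep v

namespace RTree

variable {P : Finset ℂ} (T : RTree P)

/-- The descendants of `v` (including `v`). -/
noncomputable def D (v : ℂ) : Finset ℂ := P.filter (fun q => ∃ k : ℕ, T.par^[k] q = v)

/-- The length of the edge from `v` to its parent (`0` for the root). -/
noncomputable def len (v : ℂ) : ℝ := ‖v - T.par v‖

/-- The weight of a set of edges; an edge is indexed by its lower endpoint. -/
noncomputable def wt (A : Finset ℂ) : ℝ := ∑ v ∈ A, T.len v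

/-- The edges of the tree path between `p` and `q`. -/
noncomputable def sep (p q : ℂ) : Finset ℂ := P.filter (fun v => ¬ (p ∈ T.D v ↔ q ∈ T.D v))

/-- The total length of the tree. -/
noncomputable def total : ℝ := T.wt P

/-- `W` is a set of edges such that outside of `W` all tree paths are nearly straight. -/
def Tight (W : Finset ℂ) (lam : ℝ) : Prop :=
  ∀ p ∈ P, ∀ q ∈ P, T.wt (T.sep p q \ W) ≤ (1 + lam) * ‖p - q‖

/-- Minimum spanning tree (each edge is shortest in its fundamental cut). -/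
def IsMst : Prop :=
  ∀ v ∈ P, v ≠ T.root → ∀ a ∈ T.D v, ∀ b ∈ P, b ∉ T.D v → T.len v ≤ ‖a - b‖

end RTree

/-- Length of a closed tour through a list of points. -/
noncomputable def tour (l : List ℂ) : ℝ :=
  ∑ i : Fin l.length, ‖l.get i - l.getD ((i.val + 1) % l.length) 0‖

/-- The length of a shortest closed tour through the points of `P`. -/
noncomputable def tsp (P : Finset ℂ) : ℝ :=
  sInf {x : ℝ | ∃ l : List ℂ, l.Nodup ∧ l.toFinset = P ∧ x = tour l}

/-- A weight function on pairs which refines the distance and has no ties. -/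
structure TieBreak (P : Finset ℂ) (w : ℂ → ℂ → ℕ) : Prop where
  symm : ∀ a b, w a b = w b a
  inj : ∀ a ∈ P, ∀ b ∈ P, ∀ c ∈ P, ∀ d ∈ P, a ≠ b → c ≠ d → w a b = w c d →
    (a = c ∧ b = d) ∨ (a = d ∧ b = c)
  mono : ∀ a ∈ P, ∀ b ∈ P, ∀ c ∈ P, ∀ d ∈ P, w a b ≤ w c d → ‖a - b‖ ≤ ‖c - d‖

/-- Minimum spanning tree for a weight without ties. -/
def RTree.IsMstW {X : Finset ℂ} (T : RTree X) (w : ℂ → ℂ → ℕ) : Prop :=
  ∀ v ∈ X, v ≠ T.root → ∀ a ∈ T.D v, ∀ b ∈ X, b ∉ T.D v → w v (T.par v) ≤ w a b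

/-- A consistent choice of a farthest descendant. -/
structure Heavy {P : Finset ℂ} (T : RTree P) where
  tip : ℂ → ℂ
  tip_mem : ∀ v ∈ P, tip v ∈ T.D v
  far : ∀ v ∈ P, ∀ q ∈ T.D v, T.wt (T.sep q v) ≤ T.wt (T.sep (tip v) v)
  cons : ∀ v ∈ P, ∀ u ∈ T.D v, tip v ∈ T.D u → tip u = tip v

namespace Heavy

variable {P : Finset ℂ} {T : RTree P} (H : Heavy T)

/-- The height of `v`. -/
noncomputable def ht (v : ℂ) : ℝ := T.wt (T.sep (H.tip v) v)

/-- The heavy path with tip `w` (the set of lower endpoints of its edges). -/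
noncomputable def path (w : ℂ) : Finset ℂ := P.filter (fun v => v ≠ T.root ∧ H.tip v = w)

/-- The length of the heavy path with tip `w`. -/
noncomputable def h (w : ℂ) : ℝ := T.wt (H.path w)

/-- The tops of the heavy paths hanging at the heavy path with tip `w`. -/
noncomputable def children (w : ℂ) : Finset ℂ :=
  P.filter (fun v => v ≠ T.root ∧ H.tip v ≠ w ∧ H.tip (T.par v) = w)

end Heavy

/-- Double cone: seen from the centre `c`, the points near the circle of radius `r` lie in the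
direction `e`, up to `kc` times their distance to the circle. -/
def DC (P : Finset ℂ) (c e : ℂ) (r kc k0 tau : ℝ) : Prop :=
  ‖e‖ = 1 ∧ ∀ p ∈ P, ‖p - c‖ ≤ (1 + k0) * r →
    ‖p - c - (‖p - c‖ : ℂ) * e‖ ≤ kc * |‖p - c‖ - r| + tau

/-- No long gap near the circle with centre `c` and radius `r`. -/
def NG (P : Finset ℂ) (c : ℂ) (r L smax tau : ℝ) : Prop :=
  ∀ s : ℝ, tau < s → s ≤ smax → (∃ p ∈ P, |‖p - c‖ - r| ≤ s) →
    (∃ p ∈ P, r - L * s ≤ ‖p - c‖ ∧ ‖p - c‖ ≤ r - 2 * s) ∧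
    (∃ p ∈ P, r + 2 * s ≤ ‖p - c‖ ∧ ‖p - c‖ ≤ r + L * s)

/-- If there is a point at distance about `k r` from `c` then the next ring contains a point. -/
def G6 (P : Finset ℂ) (c : ℂ) (r lo mid mid' hi : ℝ) : Prop :=
  (∃ p ∈ P, lo * r ≤ ‖p - c‖ ∧ ‖p - c‖ ≤ mid * r) →
    (∃ p ∈ P, mid' * r ≤ ‖p - c‖ ∧ ‖p - c‖ ≤ hi * r)

/-- A polygonal strand `v 0, ..., v n` with clusters (branches) hanging at its vertices. -/
structure Strand (ι : Type) where
  n : ℕ
  v : ℕ → ℂ
  m : ℕ → ℝ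
  C : Finset ι
  k : ι → ℕ
  s : ι → ℝ
  q : ι → ℂ
  mC : ι → ℝ

namespace Strand

variable {ι : Type} (S : Strand ι)

/-- length of the edge `k` -/
noncomputable def ell (k : ℕ) : ℝ := ‖S.v (k + 1) - S.v k‖

/-- position of the vertex `k` -/
noncomputable def t (k : ℕ) : ℝ := ∑ i ∈ Finset.range k, S.ell i

/-- length of the strand -/
noncomputable def h : ℝ := S.t S.n

/-- length of the edges between the vertices `i` and `j` outside of the bad set -/
noncomputable def free (i j : ℕ) : ℝ := ∑ l ∈ Finset.Ico (min i j) (max i j), (S.ell l - S.m l)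

/-- The strand is tight up to `lam` outside of a bad set of mass at most `k4` times its length. -/
structure IsTight (lam k4 : ℝ) : Prop where
  ell_pos : ∀ k < S.n, 0 < S.ell k
  m_nonneg : ∀ k, 0 ≤ S.m k
  m_le : ∀ k, S.m k ≤ S.ell k
  k_le : ∀ x ∈ S.C, S.k x ≤ S.n
  s_pos : ∀ x ∈ S.C, 0 < S.s x
  s_le : ∀ x ∈ S.C, S.s x ≤ S.t (S.k x)
  mC_nonneg : ∀ x ∈ S.C, 0 ≤ S.mC x
  q_near : ∀ x ∈ S.C, ‖S.q x - S.v (S.k x)‖ ≤ S.s x
  tight_vv : ∀ i j, i ≤ S.n → j ≤ S.n → S.free i j ≤ (1 + lam) * ‖S.v i - S.v j‖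
  tight_vq : ∀ x ∈ S.C, ∀ i, i ≤ S.n →
    S.free i (S.k x) + (S.s x - S.mC x) ≤ (1 + lam) * ‖S.v i - S.q x‖
  small : ∑ k ∈ Finset.range S.n, S.m k + ∑ x ∈ S.C, S.mC x ≤ k4 * S.h

/-- The points of `P` hang at the strand at the positions `pos`; the position `n + 1` means
outside. -/
structure Pts (P : Finset ℂ) (pos : ℂ → ℕ) (lam : ℝ) : Prop where
  v_mem : ∀ k, k ≤ S.n → S.v k ∈ P
  v_pos : ∀ k, k ≤ S.n → pos (S.v k) = k
  near : ∀ p ∈ P, pos p ≤ S.n →
    p = S.v (pos p) ∨ ∃ x ∈ S.C, S.k x = pos p ∧ ‖p - S.v (S.k x)‖ ≤ S.s x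
  tight : ∀ p ∈ P, S.free 0 (min (pos p) S.n) ≤ (1 + lam) * ‖p - S.v 0‖

end Strand

end Pool.Agent.H49.Tsp
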