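import Pool.Agent.H49.Tsp.Basic

/-!
Second set of definitions for the streaming TSP problem: cells, circles, annuli, values of squares.
-/

set_option autoImplicit false

namespace Pool.Agent.H49.Tsp

open Classical

/-- Leaf test at the centre `c` and radius `r` for the set `O` of centres of occupied cells. -/
def LT (O : Finset ℂ) (c : ℂ) (r : ℝ) : Prop :=
  ∀ z1 ∈ O, ∀ z2 ∈ O, r / 100 < ‖z1 - c‖ → ‖z1 - c‖ ≤ 300 * r → r / 100 < ‖z2 - c‖ →
    ‖z2 - c‖ ≤ 300 * r →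
    Relation.ReflTransGen (fun a b => b ∈ O ∧ 999 / 100000 * r < ‖b - c‖ ∧
      ‖a - b‖ ≤ (1 + 1 / 10 ^ 5) * max ‖z1 - c‖ ‖z2 - c‖) z1 z2

/-- If a cell is in the critical ring then there is a cell in the next ring. -/
def OG6 (O : Finset ℂ) (c : ℂ) (r : ℝ) : Prop :=
  (∃ o ∈ O, 999 / 100000 * r < ‖o - c‖ ∧ ‖o - c‖ ≤ r / 100) →
    ∃ o ∈ O, r / 100 < ‖o - c‖ ∧ ‖o - c‖ ≤ r / 2

/-- The centre of the cell (of the grid of side `g`) which contains `p`. -/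
noncomputable def cel (g : ℝ) (p : ℂ) : ℂ :=
  ⟨((⌊p.re / g⌋ : ℝ) + 1 / 2) * g, ((⌊p.im / g⌋ : ℝ) + 1 / 2) * g⟩

/-- The centres of the occupied cells. -/
noncomputable def OO (g : ℝ) (X : Finset ℂ) : Finset ℂ := X.image (cel g)

/-- The circle of radius `r` around `c` is clean (strong form). -/
def SG (X : Finset ℂ) (c : ℂ) (r : ℝ) : Prop :=
  (∃ e, DC X c e r (1 / 10 ^ 6) (1 / 25) 0) ∧ NG X c r 220 (r / 100) 0

/-- The circle of radius `r` around `c` is clean (relaxed form). -/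
def RG (X : Finset ℂ) (c : ℂ) (r tau : ℝ) : Prop :=
  (∃ e, DC X c e r (1 / 10 ^ 5) (1 / 26) tau) ∧ NG X c r 250 (r / 200) tau

/-- The annulus `a = (c, k)` around `c` with radii in `[k g, (k + 1) g)` is admissible. -/
def Adm (g : ℝ) (X : Finset ℂ) (a : ℂ × ℕ) : Prop :=
  a.1 ∈ OO g X ∧ LT (OO g X) a.1 (a.2 * g) ∧ OG6 (OO g X) a.1 (a.2 * g) ∧
    ∃ o ∈ OO g X, ((a.2 : ℝ) + 2) * g < ‖o - a.1‖

/-- The annulus `a` lies in the square with corner `q` and side `D`. -/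
def Inside (g D : ℝ) (q : ℂ) (a : ℂ × ℕ) : Prop :=
  q.re ≤ a.1.re - ((a.2 : ℝ) + 1) * g ∧ a.1.re + ((a.2 : ℝ) + 1) * g ≤ q.re + D ∧
  q.im ≤ a.1.im - ((a.2 : ℝ) + 1) * g ∧ a.1.im + ((a.2 : ℝ) + 1) * g ≤ q.im + D

/-- The annuli `a` and `b` are disjoint. -/
def DisjAnn (g : ℝ) (a b : ℂ × ℕ) : Prop :=
  ∀ y : ℂ, a.2 * g ≤ ‖y - a.1‖ → ‖y - a.1‖ < ((a.2 : ℝ) + 1) * g → b.2 * g ≤ ‖y - b.1‖ →
    ‖y - b.1‖ < ((b.2 : ℝ) + 1) * g → False

/-- The points of `P` in the 3 x 3 window around the square with corner `q` and side `D`. -/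
noncomputable def win (P : Finset ℂ) (D : ℝ) (q : ℂ) : Finset ℂ :=
  P.filter (fun p => q.re - D ≤ p.re ∧ p.re < q.re + 2 * D ∧ q.im - D ≤ p.im ∧
    p.im < q.im + 2 * D)

/-- The corner of the square with index `Q` of the grid of side `D` shifted by `s`. -/
noncomputable def cor (s : ℂ) (D : ℝ) (Q : ℤ × ℤ) : ℂ := ⟨s.re + Q.1 * D, s.im + Q.2 * D⟩

/-- Feasible families of annuli for the square with corner `q`. -/
def Fam (g D : ℝ) (k0 k1 : ℕ) (q : ℂ) (X : Finset ℂ) (F : Finset (ℂ × ℕ)) : Prop :=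
  (∀ a ∈ F, k0 ≤ a.2 ∧ a.2 < k1 ∧ Adm g X a ∧ Inside g D q a) ∧
  ∀ a ∈ F, ∀ b ∈ F, a ≠ b → DisjAnn g a b

/-- The value of the square with corner `q`: the annulus `a` has the weight `g * γ a`. -/
noncomputable def Val (g D : ℝ) (k0 k1 : ℕ) (q : ℂ) (X : Finset ℂ) (γ : ℂ × ℕ → ℝ) : ℝ :=
  sSup {x : ℝ | ∃ F, Fam g D k0 k1 q X F ∧ x = ∑ a ∈ F, g * γ a}

/-- The fraction of the numbers `t < n` with the property `p`. -/
noncomputable def frac (n : ℕ) (p : ℕ → Prop) : ℝ := ((Finset.range n).filter p).card / n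

/-- The fraction of the grid radii in the annulus `a` which are clean (strong form). -/
noncomputable def gamS (g : ℝ) (N : ℕ) (X : Finset ℂ) (a : ℂ × ℕ) : ℝ :=
  frac N (fun t => SG X a.1 (((a.2 : ℝ) + t / N) * g))

/-- All radii between the grid radius `t` and the next one are clean (relaxed form). -/
def RGs (g : ℝ) (N : ℕ) (tau : ℝ) (X : Finset ℂ) (a : ℂ × ℕ) (t : ℕ) : Prop :=
  ∀ r : ℝ, ((a.2 : ℝ) + t / N) * g ≤ r → r < ((a.2 : ℝ) + (t + 1) / N) * g → RG X a.1 r tau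

/-- The fraction of the grid radii in the annulus `a` which are clean (relaxed form). -/
noncomputable def gamR (g : ℝ) (N : ℕ) (tau : ℝ) (X : Finset ℂ) (a : ℂ × ℕ) : ℝ :=
  frac N (RGs g N tau X a)

/-- `a b` is an edge of `T`. -/
def RTree.Edge {P : Finset ℂ} (T : RTree P) (a b : ℂ) : Prop :=
  (a ≠ T.root ∧ T.par a = b) ∨ (b ≠ T.root ∧ T.par b = a)

/-- A good tip: its path and the paths of its children contain little of `W`. -/
def GoodTip {P : Finset ℂ} {T : RTree P} (H : Heavy T) (W : Finset ℂ) (k4 : ℝ) (w : ℂ) : Prop :=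
  w ∈ P ∧ H.tip w = w ∧ (H.path w).Nonempty ∧
    T.wt (W ∩ H.path w) + ∑ x ∈ H.children w, T.wt (W ∩ H.path (H.tip x)) ≤ k4 * H.h w

/-- The consequences of the strand theorem for the tip `w`, the centre `c` and the radius `r`. -/
def TipRad {P : Finset ℂ} {T : RTree P} (H : Heavy T) (w c : ℂ) (r : ℝ) : Prop :=
  SG P c r ∧ G6 P c r (998 / 100000) (1001 / 100000) (1002 / 100000) (49 / 100) ∧
  (∃ r', 9992 / 1000000 * r ≤ r' ∧ r' ≤ 9998 / 1000000 * r ∧ ∃ v ∈ P, v ≠ T.root ∧ ∀ p ∈ P,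
    (p ∈ T.D v → ‖p - c‖ < r') ∧ (p ∉ T.D v → r' < ‖p - c‖)) ∧
  (∀ x ∈ H.children w, T.wt (T.sep w (T.par x)) < 19 / 20 * H.h w →
    4 * H.h (H.tip x) ≤ |‖T.par x - c‖ - r|)

/-- `w` is touched in the window: a short edge of the tree `TX`, not an edge of `T`, ends
near `w`. -/
def Touched {P X : Finset ℂ} {T : RTree P} (H : Heavy T) (TX : RTree X) (len : ℝ) (w : ℂ) :
    Prop :=
  ∃ y ∈ X, y ≠ TX.root ∧ ¬ T.Edge y (TX.par y) ∧ TX.len y ≤ len ∧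
    (‖y - w‖ ≤ 11 / 1000 * H.h w ∨ ‖TX.par y - w‖ ≤ 11 / 1000 * H.h w)

end Pool.Agent.H49.Tsp
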