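import Pool.Agent.H49.Tsp.Defs3

/-!
Fourth set of definitions for the streaming TSP problem: sketches of the windows.
-/

set_option autoImplicit false

namespace Pool.Agent.H49.Tsp

open Classical

/-- The point of the plane given by a pair of coordinates. -/
noncomputable def pt (x : ℕ × ℕ) : ℂ := ⟨x.1, x.2⟩

/-- `p` lies in the 3 x 3 window around the square with corner `q` and side `D`. -/
def InWin (D : ℝ) (q p : ℂ) : Prop :=
  q.re - D ≤ p.re ∧ p.re < q.re + 2 * D ∧ q.im - D ≤ p.im ∧ p.im < q.im + 2 * D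

/-- The corner of the window around the square with corner `q`. -/
noncomputable def wc (D : ℝ) (q : ℂ) : ℂ := ⟨q.re - D, q.im - D⟩

/-- The index of the cell of `p` relative to the corner `q0`. -/
noncomputable def cellIdx (g : ℝ) (q0 p : ℂ) : ℕ × ℕ :=
  ((⌊p.re / g⌋ - ⌊q0.re / g⌋).toNat, (⌊p.im / g⌋ - ⌊q0.im / g⌋).toNat)

/-- The centre of the cell with relative index `a`. -/
noncomputable def cellCtr (g : ℝ) (q0 : ℂ) (a : ℕ × ℕ) : ℂ :=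
  ⟨((⌊q0.re / g⌋ : ℝ) + a.1 + 1 / 2) * g, ((⌊q0.im / g⌋ : ℝ) + a.2 + 1 / 2) * g⟩

/-- The shells around a circle (`x` is the signed distance). -/
def InShell (tau0 : ℝ) (b : Bool) (z : ℕ) (x : ℝ) : Prop :=
  (b = true ↔ 0 ≤ x) ∧
    (if z = 0 then |x| < tau0
      else tau0 * (1 + 1 / 10 ^ 6) ^ (z - 1) ≤ |x| ∧ |x| < tau0 * (1 + 1 / 10 ^ 6) ^ z)

/-- The four directions of a bounding box. -/
def dirv (Δ : ℕ) (e : Fin 4) (x : ℕ × ℕ) : ℕ :=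
  if e = 0 then x.1 else if e = 1 then Δ + 1 - x.1 else if e = 2 then x.2 else Δ + 1 - x.2

/-- The indices of a sketch. -/
abbrev Idx (n k1 ms Z : ℕ) : Type :=
  (Fin n × Fin n) ⊕ ((Fin n × Fin n) × Fin k1 × Fin ms × Bool × Fin Z × Fin 4)

/-- The contribution of the point `x` to the entry `κ` of the sketch. -/
noncomputable def skv (Δ : ℕ) (n k1 ms Z N : ℕ) (g D tau0 : ℝ) (θ : Fin ms → Fin N) (q : ℂ)
    (κ : Idx n k1 ms Z) (x : ℕ × ℕ) : ℕ :=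
  match κ with
  | Sum.inl a => if cellIdx g (wc D q) (pt x) = ((a.1 : ℕ), (a.2 : ℕ)) then 1 else 0
  | Sum.inr (a, k, j, b, z, e) =>
      if InShell tau0 b z (‖pt x - cellCtr g (wc D q) (a.1, a.2)‖
        - (((k : ℕ) : ℝ) + ((θ j : ℕ) : ℝ) / N) * g) then dirv Δ e x else 0

/-- The sketch of a finite set of points. -/
noncomputable def sk (Δ : ℕ) (n k1 ms Z N : ℕ) (g D tau0 : ℝ) (θ : Fin ms → Fin N) (q : ℂ)
    (Y : Finset (ℕ × ℕ)) (κ : Idx n k1 ms Z) : ℕ :=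
  Y.sup (skv Δ n k1 ms Z N g D tau0 θ q κ)

/-- The points of `Y` lie in the box `[1, Δ]²` and in the window. -/
def InYW (Δ : ℕ) (D : ℝ) (q : ℂ) (Y : Finset (ℕ × ℕ)) : Prop :=
  ∀ x ∈ Y, (1 ≤ x.1 ∧ x.1 ≤ Δ ∧ 1 ≤ x.2 ∧ x.2 ≤ Δ) ∧ InWin D q (pt x)

/-- The sampled fraction of clean grid radii (strong form). -/
noncomputable def gamSt (g : ℝ) (N ms : ℕ) (θ : Fin ms → Fin N) (X : Finset ℂ) (a : ℂ × ℕ) : ℝ :=
  frac ms (fun j => ∃ h : j < ms, SG X a.1 (((a.2 : ℝ) + ((θ ⟨j, h⟩ : ℕ) : ℝ) / N) * g))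

/-- The sampled fraction of clean grid radii (relaxed form). -/
noncomputable def gamRt (g : ℝ) (N : ℕ) (tau : ℝ) (ms : ℕ) (θ : Fin ms → Fin N) (X : Finset ℂ)
    (a : ℂ × ℕ) : ℝ :=
  frac ms (fun j => ∃ h : j < ms, RGs g N tau X a (θ ⟨j, h⟩))

/-- The value of a sketch. -/
noncomputable def phi0 (Δ : ℕ) (n k0 k1 ms Z N : ℕ) (g D tau0 : ℝ) (θ : Fin ms → Fin N) (q : ℂ)
    (S : Idx n k1 ms Z → ℕ) : ℝ :=
  sSup {v : ℝ | ∃ Y : Finset (ℕ × ℕ), InYW Δ D q Y ∧ sk Δ n k1 ms Z N g D tau0 θ q Y = S ∧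
    v = Val g D k0 k1 q (Y.image pt) (gamSt g N ms θ (Y.image pt))}

/-- The admissible annuli. -/
noncomputable def cand (g : ℝ) (k0 k1 : ℕ) (X : Finset ℂ) : Finset (ℂ × ℕ) :=
  ((OO g X) ×ˢ (Finset.range k1)).filter (fun a => k0 ≤ a.2 ∧ Adm g X a)

/-- The sampling error in the window `X`. -/
noncomputable def serr (g : ℝ) (k0 k1 N : ℕ) (tau : ℝ) (ms : ℕ) (θ : Fin ms → Fin N)
    (X : Finset ℂ) : ℝ :=
  ∑ a ∈ cand g k0 k1 X,
    g * (|gamSt g N ms θ X a - gamS g N X a| + |gamRt g N tau ms θ X a - gamR g N tau X a|)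

end Pool.Agent.H49.Tsp
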