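import Pool.Agent.H49.Tsp.StreamFinal
import Pool.Agent.H29.Stream.Final
import Pool.Agent.H29.Stream.Mst
import Pool.Agent.H29.Stream.MstLe

/-!
The streaming algorithm for the Euclidean TSP with approximation factor below 2.
-/

set_option autoImplicit false

namespace Pool.Agent.H49.Tsp

open Classical
open Pool.Agent.H29.Stream (SeedStr InBox)

theorem pts_same (l : List (ℕ × ℕ)) : H29.Stream.pts l = pts l := H29.Stream.pts_eq l

theorem tsp_le_two {P : Finset ℂ} (T : RTree P) : tsp P ≤ 2 * T.total := by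
  have h := union_trick T (∅ : Finset ℕ) (fun _ => 0) (fun _ => 0) (by simp) (by simp)
  simpa [RTree.wt] using h

theorem tsp_empty : tsp (∅ : Finset ℂ) = 0 := by
  apply le_antisymm _ (tsp_nonneg ∅)
  unfold tsp
  apply csInf_le
  · refine ⟨0, ?_⟩
    rintro x ⟨l, -, -, rfl⟩
    unfold tour
    exact Finset.sum_nonneg fun _ _ => norm_nonneg _
  · exact ⟨[], List.nodup_nil, rfl, by simp [tour]⟩

/-- The combination of the two estimates. -/
theorem combine_bounds (eps : ℝ) (he0 : 0 < eps) (he1 : eps < 1) (M t x y : ℝ) (hM : 0 ≤ M)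
    (h1 : M ≤ t) (h2 : t ≤ 2 * M) (hx : |x - M| ≤ eps / 100 * M)
    (hy1 : 2 * (y - 1 / 100 * M) ≤ t) (hy2 : (2 - eps) * M ≤ t → (3 / 5 - 1 / 100) * M ≤ y) :
    t ≤ (if 55 / 100 * x ≤ y then 2 * x / (1 - eps / 100) else (2 - eps) * x / (1 - eps / 100)) ∧
    (if 55 / 100 * x ≤ y then 2 * x / (1 - eps / 100) else (2 - eps) * x / (1 - eps / 100))
      ≤ max (195 / 100) ((2 - eps) * (1 + eps / 100) / (1 - eps / 100)) * t := by
  obtain ⟨hx1, hx2⟩ := abs_le.1 hx
  have hq : 0 < 1 - eps / 100 := by linarith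
  have hxl : (1 - eps / 100) * M ≤ x := by linarith
  have hxu : x ≤ (1 + eps / 100) * M := by linarith
  have ht0 : 0 ≤ t := hM.trans h1
  split_ifs with h
  · constructor
    · rw [le_div_iff₀ hq]
      nlinarith
    · refine le_trans ?_ (mul_le_mul_of_nonneg_right (le_max_left _ _) ht0)
      rw [div_le_iff₀ hq]
      -- t >= 1.069 M
      have h3 : 1069 / 1000 * M ≤ t := by nlinarith
      have h4 : 99 / 100 * t ≤ t * (1 - eps / 100) := by nlinarith
      have h5 : 2 * x ≤ 202 / 100 * M := by nlinarith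
      nlinarith
  · push Not at h
    have hnn : ¬ ((2 - eps) * M ≤ t) := by
      intro hcon
      have := hy2 hcon
      nlinarith
    push Not at hnn
    constructor
    · rw [le_div_iff₀ hq]
      nlinarith
    · refine le_trans ?_ (mul_le_mul_of_nonneg_right (le_max_right _ _) ht0)
      rw [div_mul_eq_mul_div]
      apply div_le_div_of_nonneg_right _ hq.le
      have h6 : (2 - eps) * x ≤ (2 - eps) * ((1 + eps / 100) * M) :=
        mul_le_mul_of_nonneg_left hxu (by linarith)
      have h7 : (2 - eps) * ((1 + eps / 100) * M) ≤ (2 - eps) * ((1 + eps / 100) * t) :=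
        mul_le_mul_of_nonneg_left (mul_le_mul_of_nonneg_left h1 (by linarith)) (by linarith)
      linarith

theorem seedStr_tsp : ∃ c : ℝ, c < 2 ∧
    SeedStr 3 (fun _ l => {y | tsp (H29.Stream.pts l) ≤ y ∧ y ≤ c * tsp (H29.Stream.pts l)}) := by
  obtain ⟨eps, he0, he1, hval⟩ := value_stream
  refine ⟨max (195 / 100) ((2 - eps) * (1 + eps / 100) / (1 - eps / 100)), ?_, ?_⟩
  · apply max_lt (by norm_num)
    rw [div_lt_iff₀ (by linarith)]
    nlinarith
  · have hX := H29.Stream.mst_stream (2 * 3) (eps / 100) (by positivity)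
    have hY : SeedStr (2 * 3) _ := hval (1 / 100) (by norm_num)
    refine hX.combine hY (fun _ x y => if 55 / 100 * x ≤ y then 2 * x / (1 - eps / 100)
      else (2 - eps) * x / (1 - eps / 100)) ?_
    rintro Δ l hΔ hl x ⟨hx0, hx⟩ y hy
    rw [Set.mem_ofPred_eq] at hy
    rcases hy with hnil | ⟨T, hT, hy1, hy2⟩
    · have h0 : x = 0 := hx0 hnil
      subst hnil
      have hP : H29.Stream.pts [] = ∅ := by rw [pts_same]; simp [pts]
      rw [Set.mem_ofPred_eq, hP, tsp_empty, h0]
      split_ifs <;> simp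
    · rw [Set.mem_ofPred_eq, pts_same]
      have hx' : |x - T.total| ≤ eps / 100 * T.total := by
        have key : ∀ (P Q : Finset ℂ) (hPQ : P = Q) (x : ℝ),
            (∀ T : RTree P, T.IsMst → |x - T.total| ≤ eps / 100 * T.total) →
            ∀ T : RTree Q, T.IsMst → |x - T.total| ≤ eps / 100 * T.total := by
          intro P Q hPQ x h
          subst hPQ
          exact h
        exact key _ _ (pts_same l) x hx T hT
      exact combine_bounds eps he0 he1 T.total (tsp (pts l)) x y (T.wt_nonneg _)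
        (H29.Stream.total_le_tsp T hT) (tsp_le_two T) hx' hy1 hy2

end Pool.Agent.H49.Tsp
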