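import Pool.Agent.H49.Tsp.Union

/-!
The greedy choice of the bad set.
-/

set_option autoImplicit false

namespace Pool.Agent.H49.Tsp

open Classical

theorem greedy {P : Finset ℂ} (T : RTree P) (lam : ℝ) (hl : 0 < lam) :
    ∃ W ⊆ P, T.Tight W lam ∧ tsp P ≤ 2 * T.total - lam / (2 * (1 + lam)) * T.wt W := by
  set U : Finset (ℂ × ℂ) → Finset ℂ := fun I => I.biUnion fun i => T.sep i.1 i.2 with hU
  set F : Finset (Finset (ℂ × ℂ)) := (P ×ˢ P).powerset.filter
    (fun I => (1 + lam) * ∑ i ∈ I, ‖i.1 - i.2‖ ≤ T.wt (U I)) with hF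
  have hne : F.Nonempty := by
    refine ⟨∅, ?_⟩
    rw [hF, Finset.mem_filter]
    refine ⟨Finset.empty_mem_powerset _, ?_⟩
    rw [Finset.sum_empty, mul_zero]
    exact T.wt_nonneg _
  obtain ⟨I, hI, hmax⟩ := Finset.exists_max_image F Finset.card hne
  rw [hF, Finset.mem_filter, Finset.mem_powerset] at hI
  obtain ⟨hIP, hIw⟩ := hI
  refine ⟨U I, ?_, ?_, ?_⟩
  · intro v hv
    rw [hU, Finset.mem_biUnion] at hv
    obtain ⟨i, _, hi⟩ := hv
    exact T.sep_sub _ _ hi
  · intro p hp q hq
    by_contra hcon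
    rw [not_le] at hcon
    have h0 : 0 ≤ (1 + lam) * ‖p - q‖ := mul_nonneg (by linarith) (norm_nonneg _)
    have hnot : (p, q) ∉ I := by
      intro h
      have h1 : T.sep p q \ U I = ∅ := by
        rw [Finset.sdiff_eq_empty_iff_subset]
        intro v hv
        rw [hU, Finset.mem_biUnion]
        exact ⟨(p, q), h, hv⟩
      rw [h1] at hcon
      simp only [RTree.wt, Finset.sum_empty] at hcon
      linarith
    have hins : insert (p, q) I ∈ F := by
      rw [hF, Finset.mem_filter, Finset.mem_powerset]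
      refine ⟨?_, ?_⟩
      · intro i hi
        rw [Finset.mem_insert] at hi
        rcases hi with rfl | hi
        · exact Finset.mem_product.2 ⟨hp, hq⟩
        · exact hIP hi
      · rw [Finset.sum_insert hnot]
        have h1 : U (insert (p, q) I) = U I ∪ (T.sep p q \ U I) := by
          rw [Finset.union_sdiff_self_eq_union, hU]
          simp only [Finset.biUnion_insert]
          rw [Finset.union_comm]
        rw [h1, T.wt_union Finset.disjoint_sdiff]
        simp only
        linarith
    have h2 := hmax _ hins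
    rw [Finset.card_insert_of_notMem hnot] at h2
    omega
  · have h1 := union_trick T I (fun i => i.1) (fun i => i.2)
      (fun i hi => (Finset.mem_product.1 (hIP hi)).1)
      (fun i hi => (Finset.mem_product.1 (hIP hi)).2)
    change tsp P ≤ 2 * T.total - 1 / 2 * (T.wt (U I) - ∑ i ∈ I, ‖i.1 - i.2‖) at h1
    have h2 : ∑ i ∈ I, ‖i.1 - i.2‖ ≤ T.wt (U I) / (1 + lam) := by
      rw [le_div_iff₀ (by linarith)]
      linarith
    have h3 : lam / (2 * (1 + lam)) * T.wt (U I)
        = 1 / 2 * (T.wt (U I) - T.wt (U I) / (1 + lam)) := by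
      have : (1 + lam) ≠ 0 := by linarith
      field_simp
      ring
    rw [h3]
    linarith

end Pool.Agent.H49.Tsp
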