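import Pool.Agent.H49.Tsp.Basic

/-!
Heavy paths (JOB TSP-H1).
-/

set_option autoImplicit false

namespace Pool.Agent.H49.Tsp

open Classical

theorem exists_heavy {P : Finset ℂ} (T : RTree P) : Nonempty (Heavy T) := by
  obtain ⟨rk, hrk⟩ : ∃ rk : ℂ → ℕ, ∀ a ∈ P, ∀ b ∈ P, rk a = rk b → a = b := by
    refine ⟨fun q => if h : q ∈ P then (P.equivFin ⟨q, h⟩ : ℕ) else 0, ?_⟩
    intro a ha b hb hab
    simp only [ha, hb, dif_pos] at hab
    have h1 := P.equivFin.injective (Fin.ext hab)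
    exact congrArg Subtype.val h1
  have key : ∀ v : ℂ, ∃ t : ℂ, v ∈ P → t ∈ T.D v ∧ ∀ q ∈ T.D v,
      (T.wt (T.sep q v) < T.wt (T.sep t v) ∨
        (T.wt (T.sep q v) = T.wt (T.sep t v) ∧ rk q ≤ rk t)) := by
    intro v
    by_cases hv : v ∈ P
    · obtain ⟨t, ht, hmax⟩ := Finset.exists_max_image (T.D v)
        (fun q => (toLex (T.wt (T.sep q v), rk q) : ℝ ×ₗ ℕ)) ⟨v, T.self_mem_D hv⟩
      refine ⟨t, fun _ => ⟨ht, fun q hq => ?_⟩⟩
      have h1 := hmax q hq
      rw [Prod.Lex.toLex_le_toLex] at h1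
      exact h1
    · exact ⟨v, fun h => absurd h hv⟩
  choose tip htip using key
  refine ⟨⟨tip, fun v hv => (htip v hv).1, fun v hv q hq => ?_, fun v hv u hu htu => ?_⟩⟩
  · rcases (htip v hv).2 q hq with h | h
    · exact h.le
    · exact h.1.le
  · have huP : u ∈ P := T.D_sub _ hu
    have ha := (htip u huP).1
    have h1 := (htip u huP).2 (tip v) htu
    have h2 := (htip v hv).2 (tip u) (T.D_trans ha hu)
    rw [T.wt_sep_trans ha hu, T.wt_sep_trans htu hu] at h2
    have h3 : rk (tip u) = rk (tip v) := by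
      rcases h1 with h1 | h1 <;> rcases h2 with h2 | h2
      · linarith
      · linarith [h2.1]
      · linarith [h1.1]
      · exact le_antisymm h2.2 h1.2
    exact hrk _ (T.D_sub _ ha) _ (T.D_sub _ htu) h3

namespace Heavy

variable {P : Finset ℂ} {T : RTree P} (H : Heavy T)

theorem tip_mem_P {v : ℂ} (hv : v ∈ P) : H.tip v ∈ P := T.D_sub _ (H.tip_mem v hv)

theorem tip_tip {v : ℂ} (hv : v ∈ P) : H.tip (H.tip v) = H.tip v :=
  H.cons v hv (H.tip v) (H.tip_mem v hv) (T.self_mem_D (H.tip_mem_P hv))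

theorem mem_path {w v : ℂ} : v ∈ H.path w ↔ v ∈ P ∧ v ≠ T.root ∧ H.tip v = w := by
  simp [path]

theorem mem_children {w v : ℂ} :
    v ∈ H.children w ↔ v ∈ P ∧ v ≠ T.root ∧ H.tip v ≠ w ∧ H.tip (T.par v) = w := by
  simp [children]

/-- A top of a heavy path is determined by the tip. -/
theorem top_unique_aux {x y : ℂ} (hx : x ∈ P) (hy : y ∈ P)
    (hx2 : H.tip (T.par x) ≠ H.tip x) (hxy : x ∈ T.D y) (ht : H.tip x = H.tip y) : x = y := by
  by_contra hne
  have h1 : T.par x ∈ T.D y := T.par_mem_D hxy hne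
  have h2 : H.tip y ∈ T.D (T.par x) := by
    rw [← ht]; exact T.mem_D_par (H.tip_mem x hx)
  exact hx2 (by rw [H.cons y hy _ h1 h2, ht])

theorem top_unique {x y : ℂ} (hx : x ∈ P) (hy : y ∈ P)
    (hx2 : H.tip (T.par x) ≠ H.tip x) (hy2 : H.tip (T.par y) ≠ H.tip y)
    (ht : H.tip x = H.tip y) : x = y := by
  have h1 := H.tip_mem x hx
  have h2 := H.tip_mem y hy
  rw [← ht] at h2
  rcases T.D_laminar h1 h2 with h | h
  · exact H.top_unique_aux hx hy hx2 h ht
  · exact (H.top_unique_aux hy hx hy2 h ht.symm).symm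

end Heavy

theorem sum_h {P : Finset ℂ} (T : RTree P) (H : Heavy T) :
    ∑ w ∈ P.filter (fun w => H.tip w = w), H.h w = T.total := by
  have h1 : T.total = ∑ v ∈ P.filter (fun v => v ≠ T.root), T.len v := by
    rw [RTree.total, RTree.wt, Finset.sum_filter]
    refine Finset.sum_congr rfl fun v _ => ?_
    by_cases hv : v = T.root
    · rw [hv, T.len_root]; simp
    · rw [if_pos hv]
  have h2 : ∀ v ∈ P.filter (fun v => v ≠ T.root),
      H.tip v ∈ P.filter (fun w => H.tip w = w) := by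
    intro v hv
    rw [Finset.mem_filter] at hv ⊢
    exact ⟨H.tip_mem_P hv.1, H.tip_tip hv.1⟩
  rw [h1, ← Finset.sum_fiberwise_of_maps_to h2]
  refine Finset.sum_congr rfl fun w _ => ?_
  rw [Heavy.h, RTree.wt, Heavy.path, Finset.filter_filter]

/-- Each heavy path hangs at most once: the sum over all paths of the sum over the children. -/
theorem sum_children {P : Finset ℂ} (T : RTree P) (H : Heavy T) (f : ℂ → ℝ) (hf : ∀ w, 0 ≤ f w) :
    ∑ w ∈ P.filter (fun w => H.tip w = w), ∑ x ∈ H.children w, f (H.tip x)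
      ≤ ∑ w ∈ P.filter (fun w => H.tip w = w), f w := by
  set A := P.filter (fun w => H.tip w = w) with hA
  have hdisj : (A : Set ℂ).PairwiseDisjoint H.children := by
    intro a _ b _ hab
    rw [Function.onFun, Finset.disjoint_left]
    intro x hx hx'
    rw [H.mem_children] at hx hx'
    exact hab (hx.2.2.2.symm.trans hx'.2.2.2)
  rw [← Finset.sum_biUnion hdisj]
  have hmem : ∀ x ∈ A.biUnion H.children, x ∈ P ∧ H.tip (T.par x) ≠ H.tip x := by
    intro x hx
    rw [Finset.mem_biUnion] at hx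
    obtain ⟨w, _, hx⟩ := hx
    rw [H.mem_children] at hx
    exact ⟨hx.1, fun h => hx.2.2.1 (by rw [← h, hx.2.2.2])⟩
  have hinj : Set.InjOn H.tip (A.biUnion H.children : Set ℂ) := by
    intro x hx y hy hxy
    obtain ⟨hx1, hx2⟩ := hmem x (Finset.mem_coe.1 hx)
    obtain ⟨hy1, hy2⟩ := hmem y (Finset.mem_coe.1 hy)
    exact H.top_unique hx1 hy1 hx2 hy2 hxy
  rw [← Finset.sum_image (f := f) hinj]
  refine Finset.sum_le_sum_of_subset_of_nonneg ?_ fun _ _ _ => hf _
  intro y hy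
  rw [Finset.mem_image] at hy
  obtain ⟨x, hx, rfl⟩ := hy
  obtain ⟨hx1, _⟩ := hmem x hx
  rw [hA, Finset.mem_filter]
  exact ⟨H.tip_mem_P hx1, H.tip_tip hx1⟩

end Pool.Agent.H49.Tsp
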