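import Pool.Agent.H49.Tsp.Defs3

/-!
The weight of a minimum spanning tree is at most the length of a shortest tour.
-/

set_option autoImplicit false

namespace Pool.Agent.H49.Tsp

open Classical

/-- The number of values of a sequence is at most one plus the number of its changes. -/
theorem card_image_le_changes (y : ℕ → Finset ℂ) (n : ℕ) :
    ((Finset.range (n + 1)).image y).card ≤
      1 + ((Finset.range n).filter (fun j => y j ≠ y (j + 1))).card := by
  induction n with
  | zero => simp
  | succ n ih =>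
    rw [Finset.range_add_one (n := n + 1), Finset.image_insert]
    by_cases h : y n = y (n + 1)
    · have h1 : y (n + 1) ∈ (Finset.range (n + 1)).image y :=
        Finset.mem_image.2 ⟨n, Finset.self_mem_range_succ n, h⟩
      rw [Finset.insert_eq_of_mem h1]
      refine ih.trans ?_
      gcongr
      omega
    · have h2 : ((Finset.range (n + 1)).filter (fun j => y j ≠ y (j + 1))) =
          insert n ((Finset.range n).filter (fun j => y j ≠ y (j + 1))) := by
        rw [Finset.range_add_one, Finset.filter_insert, if_pos h]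
      have h3 : (insert n ((Finset.range n).filter (fun j => y j ≠ y (j + 1)))).card =
          ((Finset.range n).filter (fun j => y j ≠ y (j + 1))).card + 1 :=
        Finset.card_insert_of_notMem (by simp)
      rw [h2, h3]
      have h4 := Finset.card_insert_le (y (n + 1)) ((Finset.range (n + 1)).image y)
      omega

/-- Hall's condition for the cuts of the tree and the steps of a path through all points. -/
theorem hall_cuts {P : Finset ℂ} (T : RTree P) (x : ℕ → ℂ) (n : ℕ)
    (hP : ∀ p ∈ P, ∃ i ≤ n, x i = p) (A : Finset ℂ)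
    (hA : ∀ v ∈ A, v ∈ P ∧ v ≠ T.root) :
    A.card ≤ (A.biUnion (fun v =>
      (Finset.range n).filter (fun j => v ∈ T.sep (x j) (x (j + 1))))).card := by
  set φ : ℂ → Finset ℂ := fun p => A.filter (fun v => p ∈ T.D v) with hφ
  set y : ℕ → Finset ℂ := fun i => φ (x i) with hy
  have h1 : (insert (φ T.root) (A.image φ)).card = A.card + 1 := by
    rw [Finset.card_insert_of_notMem, Finset.card_image_of_injOn]
    · intro v hv v' hv' he
      simp only [Finset.mem_coe] at hv hv'
      have e1 : v ∈ φ v := Finset.mem_filter.2 ⟨hv, T.self_mem_D (hA v hv).1⟩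
      have e2 : v' ∈ φ v' := Finset.mem_filter.2 ⟨hv', T.self_mem_D (hA v' hv').1⟩
      rw [he] at e1
      rw [← he] at e2
      exact T.D_antisymm (Finset.mem_filter.1 e2).2 (Finset.mem_filter.1 e1).2
    · intro h
      obtain ⟨v, hv, he⟩ := Finset.mem_image.1 h
      have e1 : v ∈ φ v := Finset.mem_filter.2 ⟨hv, T.self_mem_D (hA v hv).1⟩
      rw [he] at e1
      have e2 := (Finset.mem_filter.1 e1).2
      exact (hA v hv).2 (T.D_antisymm (T.mem_D_root (hA v hv).1) e2)
  have h2 : insert (φ T.root) (A.image φ) ⊆ (Finset.range (n + 1)).image y := by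
    intro s hs
    have : ∃ p ∈ P, φ p = s := by
      rcases Finset.mem_insert.1 hs with rfl | hs
      · exact ⟨_, T.root_mem, rfl⟩
      · obtain ⟨v, hv, rfl⟩ := Finset.mem_image.1 hs
        exact ⟨v, (hA v hv).1, rfl⟩
    obtain ⟨p, hp, rfl⟩ := this
    obtain ⟨i, hi, rfl⟩ := hP p hp
    exact Finset.mem_image.2 ⟨i, Finset.mem_range.2 (by omega), rfl⟩
  have h3 := Finset.card_le_card h2
  have h4 := card_image_le_changes y n
  have h5 : (Finset.range n).filter (fun j => y j ≠ y (j + 1)) ⊆
      A.biUnion (fun v => (Finset.range n).filter (fun j => v ∈ T.sep (x j) (x (j + 1)))) := by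
    intro j hj
    obtain ⟨hj1, hj2⟩ := Finset.mem_filter.1 hj
    rw [Finset.mem_biUnion]
    by_contra hcon
    push Not at hcon
    apply hj2
    simp only [hy, hφ]
    apply Finset.filter_congr
    intro v hv
    have h6 := hcon v hv
    rw [Finset.mem_filter, not_and] at h6
    have h7 := h6 hj1
    rw [T.mem_sep, not_and, not_not] at h7
    exact h7 (hA v hv).1
  have h8 := Finset.card_le_card h5
  omega

/-- The total length of a minimum spanning tree is at most the length of a path. -/
theorem total_le_path {P : Finset ℂ} (T : RTree P) (hT : T.IsMst) (x : ℕ → ℂ) (n : ℕ)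
    (hx : ∀ i ≤ n, x i ∈ P) (hP : ∀ p ∈ P, ∃ i ≤ n, x i = p) :
    T.total ≤ ∑ j ∈ Finset.range n, ‖x j - x (j + 1)‖ := by
  set I := P.erase T.root with hI
  have hI' : ∀ v : {v // v ∈ I}, v.1 ∈ P ∧ v.1 ≠ T.root := by
    intro v
    have := Finset.mem_erase.1 v.2
    exact ⟨this.2, this.1⟩
  set t : {v // v ∈ I} → Finset ℕ := fun v =>
    (Finset.range n).filter (fun j => v.1 ∈ T.sep (x j) (x (j + 1))) with ht
  have hall : ∀ s : Finset {v // v ∈ I}, s.card ≤ (s.biUnion t).card := by
    intro s
    have h1 := hall_cuts T x n hP (s.map (Function.Embedding.subtype _)) (by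
      intro v hv
      obtain ⟨u, _, rfl⟩ := Finset.mem_map.1 hv
      exact hI' u)
    rw [Finset.card_map] at h1
    refine h1.trans (Finset.card_le_card ?_)
    intro j hj
    obtain ⟨v, hv, hj⟩ := Finset.mem_biUnion.1 hj
    obtain ⟨u, hu, rfl⟩ := Finset.mem_map.1 hv
    exact Finset.mem_biUnion.2 ⟨u, hu, hj⟩
  obtain ⟨f, hf, hft⟩ := (Finset.all_card_le_biUnion_card_iff_exists_injective t).1 hall
  have h1 : T.total = ∑ v ∈ I, T.len v := by
    rw [RTree.total, RTree.wt, ← Finset.add_sum_erase P T.len T.root_mem, T.len_root, zero_add]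
  rw [h1, ← Finset.sum_coe_sort]
  calc ∑ v : {v // v ∈ I}, T.len v.1 ≤ ∑ v : {v // v ∈ I}, ‖x (f v) - x (f v + 1)‖ := by
        refine Finset.sum_le_sum fun v _ => ?_
        obtain ⟨hj, hs⟩ := Finset.mem_filter.1 (hft v)
        have hj := Finset.mem_range.1 hj
        rw [T.mem_sep] at hs
        have h2 := hT v.1 (hI' v).1 (hI' v).2
        by_cases h3 : x (f v) ∈ T.D v.1
        · have h4 : x (f v + 1) ∉ T.D v.1 := fun h4 => hs.2 ⟨fun _ => h4, fun _ => h3⟩
          exact h2 _ h3 _ (hx _ (by omega)) h4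
        · have h4 : x (f v + 1) ∈ T.D v.1 := by
            by_contra h4
            exact hs.2 ⟨fun h => absurd h h3, fun h => absurd h h4⟩
          rw [norm_sub_rev]
          exact h2 _ h4 _ (hx _ (by omega)) h3
    _ = ∑ j ∈ Finset.univ.map ⟨f, hf⟩, ‖x j - x (j + 1)‖ := by
        rw [Finset.sum_map]
        rfl
    _ ≤ ∑ j ∈ Finset.range n, ‖x j - x (j + 1)‖ := by
        refine Finset.sum_le_sum_of_subset_of_nonneg ?_ (fun _ _ _ => norm_nonneg _)
        intro j hj
        obtain ⟨v, _, rfl⟩ := Finset.mem_map.1 hj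
        exact (Finset.mem_filter.1 (hft v)).1

theorem mst_le_tsp {P : Finset ℂ} (T : RTree P) (hT : T.IsMst) : T.total ≤ tsp P := by
  refine le_csInf ⟨tour P.toList, P.toList, P.nodup_toList, P.toList_toFinset, rfl⟩ ?_
  rintro _ ⟨l, hl, hlP, rfl⟩
  have hpos : 0 < l.length := by
    rw [List.length_pos_iff]
    rintro rfl
    have h0 : T.root ∈ ([] : List ℂ).toFinset := by
      convert T.root_mem
    simp at h0
  set n := l.length with hn
  set x : ℕ → ℂ := fun i => l.getD (i % n) 0 with hx
  have htour : tour l = ∑ i ∈ Finset.range n, ‖x i - x (i + 1)‖ := by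
    rw [tour, Finset.sum_range]
    refine Finset.sum_congr rfl fun i _ => ?_
    have h1 : l.get i = x i.val := by
      simp only [hx]
      rw [Nat.mod_eq_of_lt i.isLt, List.getD_eq_getElem _ _ i.isLt]
      rfl
    rw [h1]
  have hmem : ∀ p ∈ P, ∃ i ≤ n - 1, x i = p := by
    intro p hp
    rw [← hlP, List.mem_toFinset] at hp
    obtain ⟨i, hi, hip⟩ := List.mem_iff_getElem.1 hp
    refine ⟨i, by omega, ?_⟩
    simp only [hx]
    rw [Nat.mod_eq_of_lt hi, List.getD_eq_getElem _ _ hi, hip]
  have hxP : ∀ i ≤ n - 1, x i ∈ P := by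
    intro i hi
    have hi' : i < n := by omega
    simp only [hx]
    rw [Nat.mod_eq_of_lt hi', List.getD_eq_getElem _ _ hi', ← hlP, List.mem_toFinset]
    exact List.getElem_mem _
  rw [htour]
  refine (total_le_path T hT x (n - 1) hxP hmem).trans ?_
  refine Finset.sum_le_sum_of_subset_of_nonneg ?_ (fun _ _ _ => norm_nonneg _)
  intro j hj
  rw [Finset.mem_range] at hj ⊢
  omega

end Pool.Agent.H49.Tsp
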