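import Pool.Agent.H49.Tsp.Defs3

/-!
Transfer of clean circles between two point sets with the same record.
-/

set_option autoImplicit false

namespace Pool.Agent.H49.Tsp

open Classical

/-- Points in the same shell are close to the corresponding point of the ray. -/
theorem shell_near (c e p q : ℂ) (r tau0 : ℝ) (he : ‖e‖ = 1) (htau0 : 0 < tau0)
    (hs : SameShell tau0 (‖p - c‖ - r) (‖q - c‖ - r))
    (hq : ‖q - c - (‖q - c‖ : ℂ) * e‖ ≤ 1 / 10 ^ 6 * |‖q - c‖ - r| + 0) :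
    ‖q - (c + (‖p - c‖ : ℂ) * e)‖ ≤ 22 / 10 ^ 7 * |‖p - c‖ - r| + 101 / 100 * tau0 := by
  have e1 : q - (c + (‖p - c‖ : ℂ) * e) =
      (q - c - (‖q - c‖ : ℂ) * e) + (((‖q - c‖ - ‖p - c‖ : ℝ)) : ℂ) * e := by
    push_cast; ring
  have e2 : ‖q - (c + (‖p - c‖ : ℂ) * e)‖ ≤
      1 / 10 ^ 6 * |‖q - c‖ - r| + |‖q - c‖ - ‖p - c‖| := by
    rw [e1]
    refine (norm_add_le _ _).trans ?_
    rw [norm_mul, he, mul_one, Complex.norm_real, Real.norm_eq_abs]
    linarith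
  refine e2.trans ?_
  obtain ⟨hsg, hsh⟩ := hs
  set x := ‖p - c‖ - r with hx
  set y := ‖q - c‖ - r with hy
  have e3 : ‖q - c‖ - ‖p - c‖ = y - x := by rw [hx, hy]; ring
  rw [e3]
  by_cases h0 : 0 ≤ x
  · have h0' := hsg.mp h0
    rw [abs_of_nonneg h0, abs_of_nonneg h0'] at *
    rcases hsh with ⟨ha, hb⟩ | ⟨ha, hb⟩
    · have : |y - x| ≤ tau0 := by rw [abs_le]; constructor <;> linarith
      linarith
    · have : |y - x| ≤ 1 / 10 ^ 6 * (1 + 1 / 10 ^ 6) * x := by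
        rw [abs_le]; constructor <;> nlinarith
      nlinarith
  · have h0' : ¬ 0 ≤ y := fun h => h0 (hsg.mpr h)
    push Not at h0 h0'
    rw [abs_of_neg h0, abs_of_neg h0'] at *
    rcases hsh with ⟨ha, hb⟩ | ⟨ha, hb⟩
    · have : |y - x| ≤ tau0 := by rw [abs_le]; constructor <;> linarith
      linarith
    · have : |y - x| ≤ 1 / 10 ^ 6 * (1 + 1 / 10 ^ 6) * (-x) := by
        rw [abs_le]; constructor <;> nlinarith
      nlinarith

theorem sg_transfer (X X' : Finset ℂ) (c : ℂ) (r r2 g' tau0 tau : ℝ) (h0 : 0 < r)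
    (htau0 : 0 < tau0) (htau : 10 * tau0 ≤ tau) (htr : tau ≤ r / 10 ^ 8) (hg0 : 0 ≤ g')
    (hg : 1000 * g' ≤ tau0) (hr1 : r ≤ r2) (hr2 : r2 ≤ r + g')
    (h1 : BoxDom X X' c r (4 * r) tau0) (h2 : BoxDom X' X c r (4 * r) tau0)
    (hS : SG X' c r) : RG X c r2 tau := by
  obtain ⟨⟨e, he, hDC⟩, hNG⟩ := hS
  refine ⟨⟨e, he, ?_⟩, ?_⟩
  · intro p hp hpr
    have hp4 : ‖p - c‖ ≤ 4 * r := by linarith
    obtain ⟨p1, m1, p2, m2, p3, m3, p4, m4, b1, b2, b3, b4, s1, s2, s3, s4⟩ := h1 p hp hp4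
    have key : ∀ q ∈ X', SameShell tau0 (‖p - c‖ - r) (‖q - c‖ - r) →
        ‖q - (c + (‖p - c‖ : ℂ) * e)‖ ≤ 22 / 10 ^ 7 * |‖p - c‖ - r| + 101 / 100 * tau0 := by
      intro q hq hs
      apply shell_near c e p q r tau0 he htau0 hs
      apply hDC q hq
      obtain ⟨hsg, hsh⟩ := hs
      by_cases hx : 0 ≤ ‖p - c‖ - r
      · have hy := hsg.mp hx
        rw [abs_of_nonneg hx, abs_of_nonneg hy] at hsh
        rcases hsh with ⟨ha, hb⟩ | ⟨ha, hb⟩
        · linarith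
        · nlinarith
      · have hy : ¬ 0 ≤ ‖q - c‖ - r := fun h => hx (hsg.mpr h)
        push Not at hy
        linarith
    have k1 := key p1 m1 s1
    have k2 := key p2 m2 s2
    have k3 := key p3 m3 s3
    have k4 := key p4 m4 s4
    set y0 := c + (‖p - c‖ : ℂ) * e with hy0
    set om := 22 / 10 ^ 7 * |‖p - c‖ - r| + 101 / 100 * tau0 with hom
    have r1 := (abs_le.mp (Complex.abs_re_le_norm (p1 - y0))).1
    have r2' := (abs_le.mp (Complex.abs_re_le_norm (p2 - y0))).2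
    have r3 := (abs_le.mp (Complex.abs_im_le_norm (p3 - y0))).1
    have r4 := (abs_le.mp (Complex.abs_im_le_norm (p4 - y0))).2
    rw [Complex.sub_re] at r1 r2'
    rw [Complex.sub_im] at r3 r4
    have q1 : |(p - y0).re| ≤ om := by
      rw [Complex.sub_re, abs_le]; constructor <;> linarith
    have q2 : |(p - y0).im| ≤ om := by
      rw [Complex.sub_im, abs_le]; constructor <;> linarith
    have q3 : ‖p - y0‖ ≤ 2 * om := by
      have := Complex.norm_le_abs_re_add_abs_im (p - y0)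
      linarith
    have q4 : p - c - (‖p - c‖ : ℂ) * e = p - y0 := by rw [hy0]; ring
    rw [q4]
    have q5 : |‖p - c‖ - r| ≤ |‖p - c‖ - r2| + g' := by
      have : ‖p - c‖ - r = (‖p - c‖ - r2) + (r2 - r) := by ring
      rw [this]
      refine (abs_add_le _ _).trans ?_
      rw [abs_of_nonneg (by linarith : (0:ℝ) ≤ r2 - r)]
      linarith
    have q6 : 0 ≤ |‖p - c‖ - r2| := abs_nonneg _
    rw [hom] at q3
    linarith
  · intro s hs hs' ⟨p, hp, hps⟩
    have hps' := abs_le.mp hps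
    have hp4 : ‖p - c‖ ≤ 4 * r := by linarith
    obtain ⟨p1, m1, -, -, -, -, -, -, -, -, -, -, sh, -⟩ := h1 p hp hp4
    set s1 : ℝ := (1 + 1 / 10 ^ 6) * (s + g') with hs1
    have hx : |‖p - c‖ - r| ≤ s + g' := by
      rw [abs_le]; constructor <;> linarith
    have hx1 : |‖p1 - c‖ - r| ≤ s1 := by
      rcases sh.2 with ⟨ha, hb⟩ | ⟨ha, hb⟩
      · rw [hs1]; linarith
      · rw [hs1]; linarith
    have hs1pos : 0 < s1 := by rw [hs1]; linarith
    have hs1r : s1 ≤ r / 100 := by rw [hs1]; linarith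
    obtain ⟨⟨pi, mi, i1, i2⟩, ⟨po, mo, o1, o2⟩⟩ := hNG s1 hs1pos hs1r ⟨p1, m1, hx1⟩
    constructor
    · obtain ⟨q, mq, -, -, -, -, -, -, -, -, -, -, ⟨hsg, hsh⟩, -⟩ :=
        h2 pi mi (by linarith)
      have hneg : ¬ 0 ≤ ‖pi - c‖ - r := by push Not; linarith
      have hneg' : ¬ 0 ≤ ‖q - c‖ - r := fun h => hneg (hsg.mpr h)
      push Not at hneg hneg'
      rw [abs_of_neg hneg, abs_of_neg hneg'] at hsh
      refine ⟨q, mq, ?_⟩
      rcases hsh with ⟨ha, hb⟩ | ⟨ha, hb⟩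
      · exfalso; rw [hs1] at i2; linarith
      · rw [hs1] at i1 i2; constructor <;> linarith
    · obtain ⟨q, mq, -, -, -, -, -, -, -, -, -, -, ⟨hsg, hsh⟩, -⟩ :=
        h2 po mo (by linarith)
      have hpos : 0 ≤ ‖po - c‖ - r := by linarith
      have hpos' := hsg.mp hpos
      rw [abs_of_nonneg hpos, abs_of_nonneg hpos'] at hsh
      refine ⟨q, mq, ?_⟩
      rcases hsh with ⟨ha, hb⟩ | ⟨ha, hb⟩
      · exfalso; rw [hs1] at o1; linarith
      · rw [hs1] at o1 o2; constructor <;> linarith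

end Pool.Agent.H49.Tsp
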