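import Pool.Agent.H49.Tsp.Sketch
import Pool.Agent.H49.Tsp.Val
import Pool.Agent.H49.Tsp.Transfer

/-!
The value of a sketch lies between the strong and the relaxed value of the square.
-/

set_option autoImplicit false

namespace Pool.Agent.H49.Tsp

open Classical

theorem frac_mono' (n : ℕ) (p q : ℕ → Prop) (h : ∀ j, p j → q j) : frac n p ≤ frac n q := by
  unfold frac
  apply div_le_div_of_nonneg_right _ (Nat.cast_nonneg n)
  exact_mod_cast Finset.card_le_card (Finset.monotone_filter_right _ (fun j _ => h j))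

theorem frac_le_one' (n : ℕ) (p : ℕ → Prop) : frac n p ≤ 1 := by
  unfold frac
  apply div_le_one_of_le₀ _ (Nat.cast_nonneg n)
  have := Finset.card_filter_le (Finset.range n) p
  rw [Finset.card_range] at this
  exact_mod_cast this

theorem val_le_card (n k0 k1 ms N : ℕ) (g D : ℝ) (hg : 0 < g) (θ : Fin ms → Fin N) (q : ℂ)
    (hn : 3 * D / g + 2 ≤ n) (X : Finset ℂ) (hX : ∀ p ∈ X, InWin D q p) :
    Val g D k0 k1 q X (gamSt g N ms θ X) ≤ (n : ℝ) ^ 2 * k1 * g := by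
  obtain ⟨F, hF, h⟩ := val_attained g D k0 k1 q X (gamSt g N ms θ X)
  rw [h]
  have h1 : ∑ a ∈ F, g * gamSt g N ms θ X a ≤ ∑ _a ∈ F, g := by
    apply Finset.sum_le_sum
    intro a _
    have := frac_le_one' ms (fun j => ∃ h : j < ms,
      SG X a.1 (((a.2 : ℝ) + ((θ ⟨j, h⟩ : ℕ) : ℝ) / N) * g))
    unfold gamSt
    nlinarith
  have h2 : F ⊆ (OO g X) ×ˢ (Finset.range k1) := by
    intro a ha
    obtain ⟨-, h3, h4, -⟩ := hF.1 a ha
    rw [Finset.mem_product, Finset.mem_range]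
    exact ⟨h4.1, h3⟩
  have h3 := Finset.card_le_card h2
  rw [Finset.card_product, Finset.card_range] at h3
  have h4 := OO_card g D hg q X hX n hn
  have h5 : F.card ≤ n ^ 2 * k1 := h3.trans (Nat.mul_le_mul_right _ h4)
  have h6 : (F.card : ℝ) ≤ (n : ℝ) ^ 2 * k1 := by exact_mod_cast h5
  rw [Finset.sum_const, nsmul_eq_mul] at h1
  exact h1.trans (mul_le_mul_of_nonneg_right h6 hg.le)

theorem inWin_image {Δ : ℕ} {D : ℝ} {q : ℂ} {Y : Finset (ℕ × ℕ)} (hY : InYW Δ D q Y) :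
    ∀ p ∈ Y.image pt, InWin D q p := by
  intro p hp
  rw [Finset.mem_image] at hp
  obtain ⟨x, hx, rfl⟩ := hp
  exact (hY x hx).2

theorem phi0_bounds (Δ n k0 k1 ms Z N : ℕ) (g D tau0 : ℝ) (hg : 0 < g) (θ : Fin ms → Fin N)
    (q : ℂ) (hn : 3 * D / g + 2 ≤ n) (S : Idx n k1 ms Z → ℕ) :
    0 ≤ phi0 Δ n k0 k1 ms Z N g D tau0 θ q S ∧
      phi0 Δ n k0 k1 ms Z N g D tau0 θ q S ≤ (n : ℝ) ^ 2 * k1 * g := by
  constructor
  · apply Real.sSup_nonneg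
    rintro v ⟨Y, -, -, rfl⟩
    exact val_nonneg g D hg.le k0 k1 q _ _
  · apply Real.sSup_le
    · rintro v ⟨Y, hY, -, rfl⟩
      exact val_le_card n k0 k1 ms N g D hg θ q hn _ (inWin_image hY)
    · positivity

theorem phi0_lower (Δ n k0 k1 ms Z N : ℕ) (g D tau0 : ℝ) (hg : 0 < g) (θ : Fin ms → Fin N) (q : ℂ)
    (hn : 3 * D / g + 2 ≤ n) (Y : Finset (ℕ × ℕ)) (hY : InYW Δ D q Y) :
    Val g D k0 k1 q (Y.image pt) (gamSt g N ms θ (Y.image pt)) ≤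
      phi0 Δ n k0 k1 ms Z N g D tau0 θ q (sk Δ n k1 ms Z N g D tau0 θ q Y) := by
  apply le_csSup
  · refine ⟨(n : ℝ) ^ 2 * k1 * g, ?_⟩
    rintro v ⟨Y', hY', -, rfl⟩
    exact val_le_card n k0 k1 ms N g D hg θ q hn _ (inWin_image hY')
  · exact ⟨Y, hY, rfl, rfl⟩

theorem phi0_upper (Δ n k0 k1 ms Z N : ℕ) (g D tau0 tau : ℝ) (hg : 0 < g) (hN : 0 < N)
    (hk0 : 0 < k0) (θ : Fin ms → Fin N) (q : ℂ) (hn : 3 * D / g + 2 ≤ n)
    (hZ : 4 * (k1 * g) < tau0 * (1 + 1 / 10 ^ 6) ^ (Z - 1)) (hZ0 : 0 < Z)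
    (htau0 : 0 < tau0) (htau : 10 * tau0 ≤ tau) (htr : tau ≤ k0 * g / 10 ^ 8)
    (hgN : 1000 * (g / N) ≤ tau0) (Y : Finset (ℕ × ℕ)) (hY : InYW Δ D q Y) :
    phi0 Δ n k0 k1 ms Z N g D tau0 θ q (sk Δ n k1 ms Z N g D tau0 θ q Y) ≤
      Val g D k0 k1 q (Y.image pt) (gamRt g N tau ms θ (Y.image pt)) := by
  apply csSup_le
  · exact ⟨_, Y, hY, rfl, rfl⟩
  rintro v ⟨Y', hY', hsk, rfl⟩
  have hOO := OO_eq_of_sk Δ n k1 ms Z N g D tau0 hg θ q hn Y Y' hY hY' hsk.symm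
  obtain ⟨F, hF, h⟩ := val_attained g D k0 k1 q (Y'.image pt) (gamSt g N ms θ (Y'.image pt))
  rw [h]
  have hF' : Fam g D k0 k1 q (Y.image pt) F := by
    refine ⟨fun a ha => ?_, hF.2⟩
    obtain ⟨h1, h2, h3, h4⟩ := hF.1 a ha
    refine ⟨h1, h2, ?_, h4⟩
    unfold Adm at h3 ⊢
    rw [hOO]
    exact h3
  refine le_trans ?_ (le_val g D k0 k1 q (Y.image pt) (gamRt g N tau ms θ (Y.image pt)) F hF')
  apply Finset.sum_le_sum
  intro a ha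
  apply mul_le_mul_of_nonneg_left _ hg.le
  apply frac_mono'
  rintro j ⟨hj, hSG⟩
  refine ⟨hj, ?_⟩
  obtain ⟨h1, h2, h3, h4⟩ := hF.1 a ha
  intro r hr1 hr2
  set t : ℕ := (θ ⟨j, hj⟩ : ℕ) with ht
  have hNr : (0 : ℝ) < N := by exact_mod_cast hN
  have hk0r : (0 : ℝ) < k0 := by exact_mod_cast hk0
  have hka : (k0 : ℝ) ≤ a.2 := by exact_mod_cast h1
  have ht0 : (0 : ℝ) ≤ (t : ℝ) / N := by positivity
  have hrj : (k0 : ℝ) * g ≤ ((a.2 : ℝ) + (t : ℝ) / N) * g :=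
    mul_le_mul_of_nonneg_right (by linarith) hg.le
  have hpos : 0 < (k0 : ℝ) * g := mul_pos hk0r hg
  have e1 : ((a.2 : ℝ) + ((t : ℝ) + 1) / N) * g = ((a.2 : ℝ) + (t : ℝ) / N) * g + g / N := by
    field_simp
    ring
  rw [e1] at hr2
  refine sg_transfer (Y.image pt) (Y'.image pt) a.1 (((a.2 : ℝ) + (t : ℝ) / N) * g) r (g / N)
    tau0 tau (by linarith) htau0 htau (by linarith) (by positivity) hgN hr1 hr2.le ?_ ?_ hSG
  · exact boxDom_of_sk Δ n k1 ms Z N g D tau0 hg htau0 θ q hn hZ hZ0 Y Y' hY hY' hsk.symm a.1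
      (by rw [hOO]; exact h3.1) a.2 h2 ⟨j, hj⟩
  · exact boxDom_of_sk Δ n k1 ms Z N g D tau0 hg htau0 θ q hn hZ hZ0 Y' Y hY' hY hsk a.1
      h3.1 a.2 h2 ⟨j, hj⟩

end Pool.Agent.H49.Tsp
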