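import Pool.Agent.H49.Tsp.Defs4
import Pool.Agent.H29.Stream.SubMain

/-!
The automaton computes the sketch (job TSP3-R).
-/

set_option autoImplicit false

namespace Pool.Agent.H49.Tsp

open Classical

theorem run_sk_aux (V : ℕ) {ι : Type} (hit : ℕ × ℕ → ℕ × ℕ → Prop) (F : ℕ × ℕ → ι → ℕ × ℕ → ℕ)
    (hF : ∀ Q κ x, F Q κ x ≤ V) (Q : ℕ × ℕ) (κ : ι) (l : List (ℕ × ℕ)) :
    ∀ σ : ι → Fin (V + 1),
    ((l.foldl (fun (σ : ι → Fin (V + 1)) x => if hit Q x then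
        (fun κ => max (σ κ) (Fin.ofNat (V + 1) (F Q κ x))) else σ) σ) κ : ℕ)
      = max (σ κ : ℕ) ((l.toFinset.filter (hit Q)).sup (F Q κ)) := by
  induction l with
  | nil => intro σ; simp
  | cons x l ih =>
    intro σ
    rw [List.foldl_cons, ih]
    by_cases hx : hit Q x
    · rw [if_pos hx, List.toFinset_cons, Finset.filter_insert, if_pos hx, Finset.sup_insert]
      have h1 : ((max (σ κ) (Fin.ofNat (V + 1) (F Q κ x)) : Fin (V + 1)) : ℕ) =
          max (σ κ : ℕ) (F Q κ x) := by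
        have h2 : ((Fin.ofNat (V + 1) (F Q κ x) : Fin (V + 1)) : ℕ) = F Q κ x :=
          Nat.mod_eq_of_lt (Nat.lt_succ_of_le (hF Q κ x))
        generalize Fin.ofNat (V + 1) (F Q κ x) = y at h2 ⊢
        rw [← h2]
        rcases le_total (σ κ) y with h | h
        · rw [max_eq_right h, max_eq_right (show ((σ κ : Fin (V + 1)) : ℕ) ≤ _ from h)]
        · rw [max_eq_left h, max_eq_left (show (y : ℕ) ≤ (σ κ : ℕ) from h)]
      rw [h1, max_assoc]
    · rw [if_neg hx, List.toFinset_cons, Finset.filter_insert, if_neg hx]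

theorem run_sk (V : ℕ) {ι : Type} (hit : ℕ × ℕ → ℕ × ℕ → Prop) (F : ℕ × ℕ → ι → ℕ × ℕ → ℕ)
    (hF : ∀ Q κ x, F Q κ x ≤ V) (l : List (ℕ × ℕ)) (Q : ℕ × ℕ) (κ : ι) :
    (H29.Stream.run hit (fun _ => fun _ : ι => (0 : Fin (V + 1)))
      (fun Q σ x => fun κ => max (σ κ) (Fin.ofNat (V + 1) (F Q κ x))) Q l κ : ℕ)
      = (l.toFinset.filter (hit Q)).sup (F Q κ) := by
  unfold H29.Stream.run
  rw [run_sk_aux V hit F hF Q κ l]
  simp

end Pool.Agent.H49.Tsp
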