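import Pool.Agent.H49.Tsp.Defs3

/-!
Sampling (job TSP-SA).
-/

set_option autoImplicit false

namespace Pool.Agent.H49.Tsp

open Classical

theorem sampling_cross {N m : ℕ} (f : Fin N → ℝ) (hf : ∑ x, f x = 0) (j j' : Fin m)
    (hjj : j ≠ j') : ∑ θ : Fin m → Fin N, f (θ j) * f (θ j') = 0 := by
  have h := Fintype.prod_sum (fun (i : Fin m) (x : Fin N) =>
    (if i = j then f x else 1) * (if i = j' then f x else 1))
  have h2 : ∀ θ : Fin m → Fin N, ∏ i, ((if i = j then f (θ i) else 1) *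
      (if i = j' then f (θ i) else 1)) = f (θ j) * f (θ j') := by
    intro θ
    rw [Finset.prod_mul_distrib, Finset.prod_ite_eq', Finset.prod_ite_eq', if_pos (Finset.mem_univ _),
      if_pos (Finset.mem_univ _)]
  rw [← Finset.sum_congr rfl (fun θ _ => h2 θ), ← h]
  apply Finset.prod_eq_zero (Finset.mem_univ j)
  rw [← hf]
  refine Finset.sum_congr rfl fun x _ => ?_
  rw [if_pos rfl, if_neg hjj, mul_one]

theorem sampling_diag {N m : ℕ} (f : Fin N → ℝ) (hf : ∀ x, |f x| ≤ 1) (j : Fin m) :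
    ∑ θ : Fin m → Fin N, f (θ j) * f (θ j) ≤ (N : ℝ) ^ m := by
  calc ∑ θ : Fin m → Fin N, f (θ j) * f (θ j) ≤ ∑ θ : Fin m → Fin N, 1 := by
        refine Finset.sum_le_sum fun θ _ => ?_
        have := hf (θ j)
        rw [abs_le] at this
        nlinarith
    _ = (N : ℝ) ^ m := by
        simp

theorem sampling (N m : ℕ) (hN : 0 < N) (hm : 0 < m) (p : ℕ → Prop) :
    ∑ θ : Fin m → Fin N, |frac m (fun j => ∃ h : j < m, p (θ ⟨j, h⟩)) - frac N p|
      ≤ (N : ℝ) ^ m / Real.sqrt m := by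
  have hN' : (0 : ℝ) < N := by exact_mod_cast hN
  have hm' : (0 : ℝ) < m := by exact_mod_cast hm
  set μ := frac N p with hμ
  have hμ0 : 0 ≤ μ := by rw [hμ, frac]; positivity
  have hμ1 : μ ≤ 1 := by
    rw [hμ, frac, div_le_one hN']
    have := Finset.card_filter_le (Finset.range N) p
    rw [Finset.card_range] at this
    exact_mod_cast this
  let f : Fin N → ℝ := fun x => (if p x then 1 else 0) - μ
  have hf1 : ∀ x, |f x| ≤ 1 := by
    intro x
    simp only [f]
    rw [abs_le]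
    split_ifs <;> constructor <;> linarith
  have hfN : ∀ n (q : ℕ → Prop), (((Finset.range n).filter q).card : ℝ) =
      ∑ x : Fin n, if q x then (1 : ℝ) else 0 := by
    intro n q
    rw [Finset.card_filter, Finset.sum_range, Nat.cast_sum]
    refine Finset.sum_congr rfl fun x _ => ?_
    split_ifs <;> simp
  have hf0 : ∑ x, f x = 0 := by
    simp only [f]
    rw [Finset.sum_sub_distrib, ← hfN N p, Finset.sum_const, Finset.card_univ, Fintype.card_fin,
      nsmul_eq_mul, hμ, frac, mul_div_cancel₀ _ hN'.ne', sub_self]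
  have hfr : ∀ θ : Fin m → Fin N, frac m (fun j => ∃ h : j < m, p (θ ⟨j, h⟩)) - μ =
      (∑ j, f (θ j)) / m := by
    intro θ
    rw [frac, hfN m]
    simp only [f]
    rw [Finset.sum_sub_distrib, Finset.sum_const, Finset.card_univ, Fintype.card_fin,
      nsmul_eq_mul, sub_div, mul_div_cancel_left₀ _ hm'.ne']
    congr 2
    refine Finset.sum_congr rfl fun j _ => ?_
    have : (∃ h : (j : ℕ) < m, p (θ ⟨j, h⟩)) ↔ p (θ j) :=
      ⟨fun ⟨_, h⟩ => h, fun h => ⟨j.2, h⟩⟩
    simp only [this]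
  have hsq : ∑ θ : Fin m → Fin N, (∑ j, f (θ j)) ^ 2 ≤ m * (N : ℝ) ^ m := by
    have e : ∀ θ : Fin m → Fin N, (∑ j, f (θ j)) ^ 2 = ∑ j, ∑ j', f (θ j) * f (θ j') := by
      intro θ
      rw [sq, Finset.sum_mul_sum]
    simp_rw [e]
    rw [Finset.sum_comm]
    calc ∑ j, ∑ θ : Fin m → Fin N, ∑ j', f (θ j) * f (θ j')
        ≤ ∑ _j : Fin m, (N : ℝ) ^ m := by
          refine Finset.sum_le_sum fun j _ => ?_
          rw [Finset.sum_comm, Finset.sum_eq_single j]
          · exact sampling_diag f hf1 j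
          · intro j' _ hj'
            exact sampling_cross f hf0 j j' (Ne.symm hj')
          · intro h
            exact absurd (Finset.mem_univ _) h
      _ = m * (N : ℝ) ^ m := by simp
  have hcs : (∑ θ : Fin m → Fin N, |∑ j, f (θ j)|) ^ 2 ≤ (N : ℝ) ^ m * (m * (N : ℝ) ^ m) := by
    have h2 := sq_sum_le_card_mul_sum_sq (s := (Finset.univ : Finset (Fin m → Fin N)))
      (f := fun θ => |∑ j, f (θ j)|)
    have h3 : ((Finset.univ : Finset (Fin m → Fin N)).card : ℝ) = (N : ℝ) ^ m := by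
      simp
    rw [h3] at h2
    refine h2.trans (mul_le_mul_of_nonneg_left ?_ (by positivity))
    simpa only [sq_abs] using hsq
  have hmain : ∑ θ : Fin m → Fin N, |∑ j, f (θ j)| ≤ (N : ℝ) ^ m * Real.sqrt m := by
    apply le_of_sq_le_sq _ (by positivity)
    rw [mul_pow, Real.sq_sqrt hm'.le]
    calc _ ≤ (N : ℝ) ^ m * (m * (N : ℝ) ^ m) := hcs
      _ = ((N : ℝ) ^ m) ^ 2 * m := by ring
  calc ∑ θ : Fin m → Fin N, |frac m (fun j => ∃ h : j < m, p (θ ⟨j, h⟩)) - μ|
      = (∑ θ : Fin m → Fin N, |∑ j, f (θ j)|) / m := by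
        rw [Finset.sum_div]
        refine Finset.sum_congr rfl fun θ _ => ?_
        rw [hfr θ, abs_div, abs_of_pos hm']
    _ ≤ ((N : ℝ) ^ m * Real.sqrt m) / m := by gcongr
    _ = (N : ℝ) ^ m / Real.sqrt m := by
        have h4 : Real.sqrt m ≠ 0 := (Real.sqrt_pos.2 hm').ne'
        field_simp
        rw [Real.sq_sqrt hm'.le]

end Pool.Agent.H49.Tsp
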