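import Pool.Agent.H49.Tsp.Defs3

/-!
Scale shift (job TSP-SC).
-/

set_option autoImplicit false

namespace Pool.Agent.H49.Tsp

open Classical

/-- For most `σ` the window of scales of the tip lies in one block. -/
theorem scale_shift (m0 m1 K L : ℕ) (h0 : 10 ≤ m0) (h1 : 20 * m0 ≤ m1) (hK : m1 + 8 ≤ K)
    (h : ℝ) (hh : 1 ≤ h) (hh' : h ≤ 2 * 2 ^ L) :
    m1 - 6 ≤ ((Finset.range (m0 + m1)).filter (fun σ => ∃ i < L + K + 8,
      20 * ((2 : ℝ) ^ (σ + (m0 + m1) * i) / 2 ^ K) ≤ h ∧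
      9 / 10 * h ≤ 2 ^ m1 * ((2 : ℝ) ^ (σ + (m0 + m1) * i) / 2 ^ K))).card := by
  have hex : ∃ n : ℕ, 2 ^ K * h < 20 * (2 : ℝ) ^ n := by
    obtain ⟨n, hn⟩ := pow_unbounded_of_one_lt (2 ^ K * h) (by norm_num : (1 : ℝ) < 2)
    exact ⟨n, by nlinarith [pow_pos (by norm_num : (0 : ℝ) < 2) n]⟩
  set n1 := Nat.find hex with hn1
  have hn1s : 2 ^ K * h < 20 * (2 : ℝ) ^ n1 := Nat.find_spec hex
  have hn1m : ∀ n < n1, 20 * (2 : ℝ) ^ n ≤ 2 ^ K * h := fun n hn => not_lt.1 (Nat.find_min hex hn)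
  have hm1 : m1 < n1 := by
    by_contra hcon
    push Not at hcon
    have e1 : (2 : ℝ) ^ n1 ≤ 2 ^ m1 := pow_le_pow_right₀ (by norm_num) hcon
    have e2 : (2 : ℝ) ^ (m1 + 8) ≤ 2 ^ K := pow_le_pow_right₀ (by norm_num) hK
    have e3 : (2 : ℝ) ^ (m1 + 8) = 2 ^ m1 * 256 := by rw [pow_add]; norm_num
    have e4 : (0 : ℝ) < 2 ^ m1 := by positivity
    have e5 : (2 : ℝ) ^ K ≤ 2 ^ K * h := le_mul_of_one_le_right (by positivity) hh
    linarith
  obtain ⟨n0, hn0⟩ : ∃ n0, n1 = n0 + 1 := ⟨n1 - 1, by omega⟩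
  have hup : 2 ^ K * h < 20 * (2 : ℝ) ^ (n0 + 1) := by rw [← hn0]; exact hn1s
  have hlo : 20 * (2 : ℝ) ^ n0 ≤ 2 ^ K * h := hn1m n0 (by omega)
  have hn0L : n0 < L + K + 8 := by
    by_contra hcon
    push Not at hcon
    have e1 : (2 : ℝ) ^ (L + K + 8) ≤ 2 ^ n0 := pow_le_pow_right₀ (by norm_num) hcon
    have e2 : (2 : ℝ) ^ (L + K + 8) = 2 ^ L * 2 ^ K * 256 := by rw [pow_add, pow_add]; norm_num
    have e3 : (2 : ℝ) ^ K * h ≤ 2 ^ K * (2 * 2 ^ L) := mul_le_mul_of_nonneg_left hh' (by positivity)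
    have e4 : (0 : ℝ) < 2 ^ L * 2 ^ K := by positivity
    nlinarith
  have h2K : (0 : ℝ) < 2 ^ K := by positivity
  -- the injection
  rw [← Finset.card_range (m1 - 6)]
  refine Finset.card_le_card_of_injOn (fun k => (n0 - k) % (m0 + m1)) ?_ ?_
  · intro k hk
    rw [Finset.coe_range, Set.mem_Iio] at hk
    simp only [Finset.coe_filter, Finset.mem_range, Set.mem_ofPred_eq]
    refine ⟨Nat.mod_lt _ (by omega), (n0 - k) / (m0 + m1), ?_, ?_, ?_⟩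
    · exact lt_of_le_of_lt (Nat.div_le_self _ _) (by omega)
    · rw [Nat.mod_add_div]
      have e1 : (2 : ℝ) ^ (n0 - k) ≤ 2 ^ n0 := pow_le_pow_right₀ (by norm_num) (Nat.sub_le _ _)
      rw [← mul_div_assoc, div_le_iff₀ h2K]
      linarith
    · rw [Nat.mod_add_div]
      have e1 : (2 : ℝ) ^ (n0 - k) * 2 ^ m1 = 2 ^ n0 * 2 ^ (m1 - k) := by
        rw [← pow_add, ← pow_add]
        congr 1
        omega
      have e2 : (2 : ℝ) ^ 6 ≤ 2 ^ (m1 - k) := pow_le_pow_right₀ (by norm_num) (by omega)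
      have e3 : (0 : ℝ) < 2 ^ n0 := by positivity
      have e4 : (2 : ℝ) ^ (n0 + 1) = 2 ^ n0 * 2 := pow_succ _ _
      rw [← mul_div_assoc, le_div_iff₀ h2K]
      nlinarith
  · intro k hk k' hk' hkk
    rw [Finset.coe_range, Set.mem_Iio] at hk hk'
    simp only at hkk
    have h3 : (n0 - k) ≡ (n0 - k') [MOD (m0 + m1)] := hkk
    by_contra hne
    rcases Nat.lt_or_ge k k' with hlt | hge
    · have h4 : (m0 + m1) ∣ (n0 - k) - (n0 - k') := (Nat.modEq_iff_dvd' (by omega)).1 h3.symm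
      have h5 := Nat.le_of_dvd (by omega) h4
      omega
    · have h4 : (m0 + m1) ∣ (n0 - k') - (n0 - k) := (Nat.modEq_iff_dvd' (by omega)).1 h3
      have h5 := Nat.le_of_dvd (by omega) h4
      omega

end Pool.Agent.H49.Tsp
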