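import Pool.Agent.H49.Tsp.Defs4
import Pool.Agent.H49.Tsp.Val
import Pool.Agent.H49.Tsp.Sampling

/-!
Sampling errors of the values of squares.
-/

set_option autoImplicit false

namespace Pool.Agent.H49.Tsp

open Classical

theorem val_serr (g D : ℝ) (hg : 0 < g) (k0 k1 N : ℕ) (tau : ℝ) (ms : ℕ) (θ : Fin ms → Fin N)
    (q : ℂ) (X : Finset ℂ) :
    Val g D k0 k1 q X (gamS g N X) ≤ Val g D k0 k1 q X (gamSt g N ms θ X)
      + serr g k0 k1 N tau ms θ X ∧
    Val g D k0 k1 q X (gamRt g N tau ms θ X) ≤ Val g D k0 k1 q X (gamR g N tau X)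
      + serr g k0 k1 N tau ms θ X := by
  constructor
  · refine (val_le_add g D hg.le k0 k1 q X (gamS g N X) (gamSt g N ms θ X)).trans ?_
    refine add_le_add le_rfl ?_
    unfold serr cand
    refine Finset.sum_le_sum fun a _ => mul_le_mul_of_nonneg_left ?_ hg.le
    rw [abs_sub_comm]
    exact le_add_of_nonneg_right (abs_nonneg _)
  · refine (val_le_add g D hg.le k0 k1 q X (gamRt g N tau ms θ X) (gamR g N tau X)).trans ?_
    refine add_le_add le_rfl ?_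
    unfold serr cand
    refine Finset.sum_le_sum fun a _ => mul_le_mul_of_nonneg_left ?_ hg.le
    exact le_add_of_nonneg_left (abs_nonneg _)

theorem serr_floor {g D x y : ℝ} (hg : 0 < g) (h1 : y ≤ x) (h2 : x < y + 3 * D) {n : ℕ}
    (hn : 3 * D / g + 2 ≤ n) : ∃ a : ℕ, a < n ∧ ((⌊x / g⌋ : ℤ) : ℝ) = (⌊y / g⌋ : ℝ) + a := by
  have h3 : ⌊y / g⌋ ≤ ⌊x / g⌋ := Int.floor_le_floor (by gcongr)
  refine ⟨(⌊x / g⌋ - ⌊y / g⌋).toNat, ?_, ?_⟩
  · have h4 : ((⌊x / g⌋ - ⌊y / g⌋ : ℤ) : ℝ) < n := by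
      have h5 := Int.floor_le (x / g)
      have h6 := Int.lt_floor_add_one (y / g)
      have h7 : x / g < y / g + 3 * D / g := by
        rw [← add_div]; gcongr
      push_cast
      linarith
    have h5 : ⌊x / g⌋ - ⌊y / g⌋ < (n : ℤ) := by exact_mod_cast h4
    omega
  · have h4 : (((⌊x / g⌋ - ⌊y / g⌋).toNat : ℕ) : ℤ) = ⌊x / g⌋ - ⌊y / g⌋ :=
      Int.toNat_of_nonneg (by omega)
    have h5 : (((⌊x / g⌋ - ⌊y / g⌋).toNat : ℕ) : ℝ) = ((⌊x / g⌋ - ⌊y / g⌋ : ℤ) : ℝ) := by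
      exact_mod_cast h4
    rw [h5]
    push_cast
    ring

theorem serr_OO_card (g D : ℝ) (hg : 0 < g) (q : ℂ) (X : Finset ℂ) (hX : ∀ p ∈ X, InWin D q p)
    (n : ℕ) (hn : 3 * D / g + 2 ≤ n) : (OO g X).card ≤ n ^ 2 := by
  have h1 : OO g X ⊆ ((Finset.range n) ×ˢ (Finset.range n)).image (cellCtr g (wc D q)) := by
    intro c hc
    unfold OO at hc
    obtain ⟨p, hp, rfl⟩ := Finset.mem_image.1 hc
    obtain ⟨h2, h3, h4, h5⟩ := hX p hp
    obtain ⟨a, ha, ha'⟩ := serr_floor (g := g) (D := D) (x := p.re) (y := (wc D q).re) hg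
      h2 (by unfold wc; simp only; linarith) hn
    obtain ⟨b, hb, hb'⟩ := serr_floor (g := g) (D := D) (x := p.im) (y := (wc D q).im) hg
      h4 (by unfold wc; simp only; linarith) hn
    rw [Finset.mem_image]
    refine ⟨(a, b), ?_, ?_⟩
    · rw [Finset.mem_product, Finset.mem_range, Finset.mem_range]
      exact ⟨ha, hb⟩
    · unfold cellCtr cel
      rw [ha', hb']
  refine (Finset.card_le_card h1).trans (Finset.card_image_le.trans ?_)
  rw [Finset.card_product, Finset.card_range, sq]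

theorem sum_serr (g D : ℝ) (hg : 0 < g) (k0 k1 N : ℕ) (hN : 0 < N) (tau : ℝ) (ms : ℕ)
    (hms : 0 < ms) (q : ℂ) (X : Finset ℂ) (hX : ∀ p ∈ X, InWin D q p) (n : ℕ)
    (hn : 3 * D / g + 2 ≤ n) :
    ∑ θ : Fin ms → Fin N, serr g k0 k1 N tau ms θ X
      ≤ (N : ℝ) ^ ms * (2 * ((n : ℝ) ^ 2 * k1 * g) / Real.sqrt ms) := by
  unfold serr
  rw [Finset.sum_comm]
  have h1 : ∀ a ∈ cand g k0 k1 X, ∑ θ : Fin ms → Fin N,
      g * (|gamSt g N ms θ X a - gamS g N X a| + |gamRt g N tau ms θ X a - gamR g N tau X a|)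
      ≤ g * (2 * ((N : ℝ) ^ ms / Real.sqrt ms)) := by
    intro a _
    rw [← Finset.mul_sum, Finset.sum_add_distrib]
    refine mul_le_mul_of_nonneg_left ?_ hg.le
    have h2 := sampling N ms hN hms (fun t => SG X a.1 (((a.2 : ℝ) + t / N) * g))
    have h3 := sampling N ms hN hms (fun t => RGs g N tau X a t)
    unfold gamSt gamS gamRt gamR
    have e3 : frac N (RGs g N tau X a) = frac N (fun t => RGs g N tau X a t) := rfl
    rw [e3]
    linarith
  refine (Finset.sum_le_sum h1).trans ?_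
  rw [Finset.sum_const, nsmul_eq_mul]
  have h2 : ((cand g k0 k1 X).card : ℝ) ≤ (n : ℝ) ^ 2 * k1 := by
    have h3 : (cand g k0 k1 X).card ≤ n ^ 2 * k1 := by
      unfold cand
      refine (Finset.card_filter_le _ _).trans ?_
      rw [Finset.card_product, Finset.card_range]
      exact Nat.mul_le_mul_right _ (serr_OO_card g D hg q X hX n hn)
    exact_mod_cast h3
  have h3 : 0 ≤ g * (2 * ((N : ℝ) ^ ms / Real.sqrt ms)) := by positivity
  refine (mul_le_mul_of_nonneg_right h2 h3).trans (le_of_eq ?_)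
  ring

theorem serr_zero (g : ℝ) (hg : 0 < g) (k0 k1 N : ℕ) (tau : ℝ) (ms : ℕ) (θ : Fin ms → Fin N)
    (X : Finset ℂ) (M : ℝ) (hM : ∀ p ∈ X, ∀ q ∈ X, ‖p - q‖ ≤ M) (h : M < k0 * g) :
    serr g k0 k1 N tau ms θ X = 0 := by
  have h1 : cand g k0 k1 X = ∅ := by
    rw [Finset.eq_empty_iff_forall_notMem]
    intro a ha
    unfold cand at ha
    obtain ⟨-, h2, h3⟩ := Finset.mem_filter.1 ha
    refine not_adm g hg X a M hM (h.trans_le ?_) h3
    have : (k0 : ℝ) ≤ (a.2 : ℝ) := by exact_mod_cast h2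
    exact mul_le_mul_of_nonneg_right this hg.le
  unfold serr
  rw [h1, Finset.sum_empty]

end Pool.Agent.H49.Tsp
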