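import Pool.Agent.H49.Tsp.Defs4

/-!
Sketches determine cells and boxes (job TSP3-K).
-/

set_option autoImplicit false

namespace Pool.Agent.H49.Tsp

open Classical

theorem win_image (P : Finset (ℕ × ℕ)) (D : ℝ) (q : ℂ) :
    win (P.image pt) D q = (P.filter (fun x => InWin D q (pt x))).image pt := by
  ext y
  simp only [win, InWin, Finset.mem_image, Finset.mem_filter]
  constructor
  · rintro ⟨⟨x, hx, rfl⟩, h⟩
    exact ⟨x, ⟨hx, h⟩, rfl⟩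
  · rintro ⟨x, ⟨hx, h⟩, rfl⟩
    exact ⟨⟨x, hx, rfl⟩, h⟩

theorem cellCtr_cellIdx (g : ℝ) (hg : 0 < g) (q0 p : ℂ) (h1 : q0.re ≤ p.re) (h2 : q0.im ≤ p.im) :
    cellCtr g q0 (cellIdx g q0 p) = cel g p := by
  have e1 : ((⌊p.re / g⌋ - ⌊q0.re / g⌋).toNat : ℤ) = ⌊p.re / g⌋ - ⌊q0.re / g⌋ := by
    apply Int.toNat_of_nonneg
    have : ⌊q0.re / g⌋ ≤ ⌊p.re / g⌋ := Int.floor_le_floor (div_le_div_of_nonneg_right h1 hg.le)
    omega
  have e2 : ((⌊p.im / g⌋ - ⌊q0.im / g⌋).toNat : ℤ) = ⌊p.im / g⌋ - ⌊q0.im / g⌋ := by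
    apply Int.toNat_of_nonneg
    have : ⌊q0.im / g⌋ ≤ ⌊p.im / g⌋ := Int.floor_le_floor (div_le_div_of_nonneg_right h2 hg.le)
    omega
  have f1 : (((⌊p.re / g⌋ - ⌊q0.re / g⌋).toNat : ℕ) : ℝ) = ⌊p.re / g⌋ - ⌊q0.re / g⌋ := by
    exact_mod_cast congrArg (fun z : ℤ => (z : ℝ)) e1
  have f2 : (((⌊p.im / g⌋ - ⌊q0.im / g⌋).toNat : ℕ) : ℝ) = ⌊p.im / g⌋ - ⌊q0.im / g⌋ := by
    exact_mod_cast congrArg (fun z : ℤ => (z : ℝ)) e2
  unfold cellCtr cellIdx cel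
  simp only [f1, f2]
  congr 1 <;> ring

theorem InWin.wc_le {D : ℝ} {q p : ℂ} (h : InWin D q p) : (wc D q).re ≤ p.re ∧ (wc D q).im ≤ p.im :=
  ⟨h.1, h.2.2.1⟩

theorem InWin.pos {D : ℝ} {q p : ℂ} (h : InWin D q p) : 0 < 3 * D := by
  obtain ⟨h1, h2, h3, h4⟩ := h
  linarith

theorem floor_diff_lt {g a b L : ℝ} (hg : 0 < g) (hL : 0 < L) (hab : a < b + L) (n : ℕ)
    (hn : L / g + 2 ≤ n) : (⌊a / g⌋ - ⌊b / g⌋).toNat < n := by
  have h1 := Int.floor_le (a / g)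
  have h2 := Int.lt_floor_add_one (b / g)
  have h3 : a / g < b / g + L / g := by
    rw [← add_div]; exact div_lt_div_of_pos_right hab hg
  have h4 : ((⌊a / g⌋ - ⌊b / g⌋ : ℤ) : ℝ) < n := by
    push_cast
    linarith
  have h5 : ⌊a / g⌋ - ⌊b / g⌋ < (n : ℤ) := by exact_mod_cast h4
  have h6 : (0 : ℝ) < n := by
    have := div_pos hL hg
    linarith
  have h7 : 0 < n := by exact_mod_cast h6
  omega

theorem cellIdx_lt (g D : ℝ) (hg : 0 < g) (q p : ℂ) (h : InWin D q p) (n : ℕ)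
    (hn : 3 * D / g + 2 ≤ n) :
    (cellIdx g (wc D q) p).1 < n ∧ (cellIdx g (wc D q) p).2 < n := by
  have hp := h.pos
  obtain ⟨h1, h2, h3, h4⟩ := h
  constructor
  · exact floor_diff_lt hg (b := q.re - D) (L := 3 * D) hp (by linarith) n hn
  · exact floor_diff_lt hg (b := q.im - D) (L := 3 * D) hp (by linarith) n hn

theorem OO_card (g D : ℝ) (hg : 0 < g) (q : ℂ) (X : Finset ℂ) (hX : ∀ p ∈ X, InWin D q p) (n : ℕ)
    (hn : 3 * D / g + 2 ≤ n) : (OO g X).card ≤ n ^ 2 := by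
  have h1 : OO g X ⊆ ((Finset.range n) ×ˢ (Finset.range n)).image (cellCtr g (wc D q)) := by
    intro c hc
    unfold OO at hc
    obtain ⟨p, hp, rfl⟩ := Finset.mem_image.1 hc
    have h2 := cellIdx_lt g D hg q p (hX p hp) n hn
    refine Finset.mem_image.2 ⟨cellIdx g (wc D q) p, ?_, ?_⟩
    · exact Finset.mem_product.2 ⟨Finset.mem_range.2 h2.1, Finset.mem_range.2 h2.2⟩
    · exact cellCtr_cellIdx g hg _ _ (hX p hp).wc_le.1 (hX p hp).wc_le.2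
  refine (Finset.card_le_card h1).trans (Finset.card_image_le.trans ?_)
  rw [Finset.card_product, Finset.card_range, sq]

theorem exists_of_sk {Δ n k1 ms Z N : ℕ} {g D tau0 : ℝ} {θ : Fin ms → Fin N} {q : ℂ}
    {Y Y' : Finset (ℕ × ℕ)} (h : sk Δ n k1 ms Z N g D tau0 θ q Y = sk Δ n k1 ms Z N g D tau0 θ q Y')
    (κ : Idx n k1 ms Z) (x : ℕ × ℕ) (hx : x ∈ Y) (h1 : 1 ≤ skv Δ n k1 ms Z N g D tau0 θ q κ x) :
    ∃ x' ∈ Y', skv Δ n k1 ms Z N g D tau0 θ q κ x ≤ skv Δ n k1 ms Z N g D tau0 θ q κ x' := by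
  have h2 : skv Δ n k1 ms Z N g D tau0 θ q κ x ≤ sk Δ n k1 ms Z N g D tau0 θ q Y κ :=
    Finset.le_sup (f := skv Δ n k1 ms Z N g D tau0 θ q κ) hx
  rw [h] at h2
  unfold sk at h2
  rcases Y'.eq_empty_or_nonempty with h3 | h3
  · rw [h3, Finset.sup_empty] at h2
    have : skv Δ n k1 ms Z N g D tau0 θ q κ x ≤ 0 := h2
    omega
  · obtain ⟨x', hx', h4⟩ := Finset.exists_mem_eq_sup Y' h3 (skv Δ n k1 ms Z N g D tau0 θ q κ)
    exact ⟨x', hx', h4 ▸ h2⟩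

theorem OO_sub_of_sk (Δ n k1 ms Z N : ℕ) (g D tau0 : ℝ) (hg : 0 < g) (θ : Fin ms → Fin N) (q : ℂ)
    (hn : 3 * D / g + 2 ≤ n) (Y Y' : Finset (ℕ × ℕ)) (hY : InYW Δ D q Y) (hY' : InYW Δ D q Y')
    (h : sk Δ n k1 ms Z N g D tau0 θ q Y = sk Δ n k1 ms Z N g D tau0 θ q Y') :
    OO g (Y.image pt) ⊆ OO g (Y'.image pt) := by
  intro c hc
  unfold OO at hc ⊢
  obtain ⟨p, hp, rfl⟩ := Finset.mem_image.1 hc
  obtain ⟨x, hx, rfl⟩ := Finset.mem_image.1 hp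
  have hw := (hY x hx).2
  have h2 := cellIdx_lt g D hg q (pt x) hw n hn
  obtain ⟨x', hx', h3⟩ := exists_of_sk h
    (Sum.inl (⟨_, h2.1⟩, ⟨_, h2.2⟩)) x hx (by
      simp [skv])
  have h4 : cellIdx g (wc D q) (pt x') = cellIdx g (wc D q) (pt x) := by
    by_contra hne
    simp only [skv] at h3
    rw [if_pos trivial, if_neg (fun h5 => hne h5)] at h3
    omega
  have hw' := (hY' x' hx').2
  refine Finset.mem_image.2 ⟨pt x', Finset.mem_image.2 ⟨x', hx', rfl⟩, ?_⟩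
  rw [← cellCtr_cellIdx g hg _ _ hw'.wc_le.1 hw'.wc_le.2, h4,
    cellCtr_cellIdx g hg _ _ hw.wc_le.1 hw.wc_le.2]

theorem OO_eq_of_sk (Δ n k1 ms Z N : ℕ) (g D tau0 : ℝ) (hg : 0 < g) (θ : Fin ms → Fin N) (q : ℂ)
    (hn : 3 * D / g + 2 ≤ n) (Y Y' : Finset (ℕ × ℕ)) (hY : InYW Δ D q Y) (hY' : InYW Δ D q Y')
    (h : sk Δ n k1 ms Z N g D tau0 θ q Y = sk Δ n k1 ms Z N g D tau0 θ q Y') :
    OO g (Y.image pt) = OO g (Y'.image pt) :=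
  Finset.Subset.antisymm (OO_sub_of_sk Δ n k1 ms Z N g D tau0 hg θ q hn Y Y' hY hY' h)
    (OO_sub_of_sk Δ n k1 ms Z N g D tau0 hg θ q hn Y' Y hY' hY h.symm)

theorem InShell.same {tau0 : ℝ} {b : Bool} {z : ℕ} {x y : ℝ} (_h0 : 0 < tau0)
    (hx : InShell tau0 b z x) (hy : InShell tau0 b z y) : SameShell tau0 x y := by
  refine ⟨hx.1.symm.trans hy.1, ?_⟩
  have h1 := hx.2
  have h2 := hy.2
  by_cases hz : z = 0
  · rw [if_pos hz] at h1 h2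
    exact Or.inl ⟨h1, h2⟩
  · rw [if_neg hz] at h1 h2
    have e : tau0 * (1 + 1 / 10 ^ 6) ^ z =
        (1 + 1 / 10 ^ 6) * (tau0 * (1 + 1 / 10 ^ 6) ^ (z - 1)) := by
      obtain ⟨w, rfl⟩ : ∃ w, z = w + 1 := ⟨z - 1, by omega⟩
      simp only [Nat.add_sub_cancel]
      rw [pow_succ]; ring
    rw [e] at h1 h2
    refine Or.inr ⟨?_, ?_⟩
    · exact h1.2.le.trans (mul_le_mul_of_nonneg_left h2.1 (by norm_num))
    · exact h2.2.le.trans (mul_le_mul_of_nonneg_left h1.1 (by norm_num))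

theorem exists_shell {tau0 : ℝ} (_h0 : 0 < tau0) {Z : ℕ} (hZ0 : 0 < Z) {x : ℝ}
    (hx : |x| < tau0 * (1 + 1 / 10 ^ 6) ^ (Z - 1)) : ∃ b : Bool, ∃ z < Z, InShell tau0 b z x := by
  have hex : ∃ z, |x| < tau0 * (1 + 1 / 10 ^ 6) ^ z := ⟨Z - 1, hx⟩
  have h1 : |x| < tau0 * (1 + 1 / 10 ^ 6) ^ (Nat.find hex) := Nat.find_spec hex
  have h2 : Nat.find hex ≤ Z - 1 := Nat.find_min' hex hx
  refine ⟨decide (0 ≤ x), Nat.find hex, by omega, by simp, ?_⟩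
  by_cases hz : Nat.find hex = 0
  · rw [if_pos hz]
    rw [hz] at h1
    simpa using h1
  · rw [if_neg hz]
    refine ⟨?_, h1⟩
    have h3 := Nat.find_min hex (m := Nat.find hex - 1) (by omega)
    exact not_lt.1 h3

theorem boxDom_of_sk (Δ n k1 ms Z N : ℕ) (g D tau0 : ℝ) (hg : 0 < g) (h0 : 0 < tau0)
    (θ : Fin ms → Fin N) (q : ℂ) (hn : 3 * D / g + 2 ≤ n)
    (hZ : 4 * (k1 * g) < tau0 * (1 + 1 / 10 ^ 6) ^ (Z - 1)) (hZ0 : 0 < Z)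
    (Y Y' : Finset (ℕ × ℕ)) (hY : InYW Δ D q Y) (hY' : InYW Δ D q Y')
    (h : sk Δ n k1 ms Z N g D tau0 θ q Y = sk Δ n k1 ms Z N g D tau0 θ q Y')
    (c : ℂ) (hc : c ∈ OO g (Y.image pt)) (k : ℕ) (hk : k < k1) (j : Fin ms) :
    BoxDom (Y.image pt) (Y'.image pt) c (((k : ℝ) + ((θ j : ℕ) : ℝ) / N) * g)
      (4 * (((k : ℝ) + ((θ j : ℕ) : ℝ) / N) * g)) tau0 := by
  -- the centre
  obtain ⟨a, ha1, ha2, hca⟩ : ∃ a : ℕ × ℕ, a.1 < n ∧ a.2 < n ∧ c = cellCtr g (wc D q) a := by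
    unfold OO at hc
    obtain ⟨p, hp, rfl⟩ := Finset.mem_image.1 hc
    obtain ⟨x, hx, rfl⟩ := Finset.mem_image.1 hp
    have hw := (hY x hx).2
    have h2 := cellIdx_lt g D hg q (pt x) hw n hn
    exact ⟨_, h2.1, h2.2, (cellCtr_cellIdx g hg _ _ hw.wc_le.1 hw.wc_le.2).symm⟩
  -- the radius
  have hN : 0 < N := Fin.pos (θ j)
  have hNr : (0 : ℝ) < N := by exact_mod_cast hN
  have hθ : (((θ j : ℕ) : ℝ) / N) < 1 := by
    rw [div_lt_one hNr]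
    exact_mod_cast (θ j).2
  have hθ0 : 0 ≤ (((θ j : ℕ) : ℝ) / N) := by positivity
  have hk' : (k : ℝ) + 1 ≤ k1 := by exact_mod_cast hk
  obtain ⟨r, hr⟩ : ∃ r, r = ((k : ℝ) + ((θ j : ℕ) : ℝ) / N) * g := ⟨_, rfl⟩
  have hr0 : 0 ≤ r := by rw [hr]; positivity
  have hr1 : r ≤ k1 * g := by
    rw [hr]; exact mul_le_mul_of_nonneg_right (by linarith) hg.le
  intro p hp hpr
  obtain ⟨x, hx, rfl⟩ := Finset.mem_image.1 hp
  rw [← hr] at hpr ⊢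
  have hnn := norm_nonneg (pt x - c)
  have hxs : |‖pt x - c‖ - r| < tau0 * (1 + 1 / 10 ^ 6) ^ (Z - 1) := by
    refine lt_of_le_of_lt ?_ hZ
    rw [abs_le]
    constructor <;> nlinarith
  obtain ⟨b, z, hz, hsh⟩ := exists_shell h0 hZ0 hxs
  have key : ∀ e : Fin 4, 1 ≤ dirv Δ e x → ∃ x' ∈ Y', dirv Δ e x ≤ dirv Δ e x' ∧
      SameShell tau0 (‖pt x - c‖ - r) (‖pt x' - c‖ - r) := by
    intro e he
    have hs : skv Δ n k1 ms Z N g D tau0 θ q (Sum.inr ((⟨a.1, ha1⟩, ⟨a.2, ha2⟩), ⟨k, hk⟩, j, b,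
        ⟨z, hz⟩, e)) x = dirv Δ e x := by
      simp only [skv]
      rw [if_pos]
      rw [← hr, ← hca]
      exact hsh
    obtain ⟨x', hx', h3⟩ := exists_of_sk h (Sum.inr ((⟨a.1, ha1⟩, ⟨a.2, ha2⟩), ⟨k, hk⟩, j, b,
        ⟨z, hz⟩, e)) x hx (by rw [hs]; exact he)
    rw [hs] at h3
    simp only [skv] at h3
    by_cases hsh' : InShell tau0 b z (‖pt x' - c‖ - r)
    · have hsh2 := hsh'
      rw [hca, hr] at hsh2
      rw [if_pos hsh2] at h3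
      exact ⟨x', hx', h3, hsh.same h0 hsh'⟩
    · have hsh2 := hsh'
      rw [hca, hr] at hsh2
      rw [if_neg hsh2] at h3
      omega
  obtain ⟨⟨b1, b2, b3, b4⟩, _⟩ := hY x hx
  obtain ⟨x2, hx2, l2, s2⟩ := key 0 (by simp [dirv]; omega)
  obtain ⟨x1, hx1, l1, s1⟩ := key 1 (by simp [dirv]; omega)
  obtain ⟨x4, hx4, l4, s4⟩ := key 2 (by simp [dirv]; omega)
  obtain ⟨x3, hx3, l3, s3⟩ := key 3 (by simp [dirv]; omega)
  obtain ⟨⟨c1, c2, c3, c4⟩, _⟩ := hY' x1 hx1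
  obtain ⟨⟨d1, d2, d3, d4⟩, _⟩ := hY' x3 hx3
  refine ⟨pt x1, Finset.mem_image.2 ⟨x1, hx1, rfl⟩, pt x2, Finset.mem_image.2 ⟨x2, hx2, rfl⟩,
    pt x3, Finset.mem_image.2 ⟨x3, hx3, rfl⟩, pt x4, Finset.mem_image.2 ⟨x4, hx4, rfl⟩,
    ?_, ?_, ?_, ?_, s1, s2, s3, s4⟩
  · have : x1.1 ≤ x.1 := by
      simp [dirv] at l1
      omega
    show (x1.1 : ℝ) ≤ x.1
    exact_mod_cast this
  · have : x.1 ≤ x2.1 := by
      simpa [dirv] using l2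
    show (x.1 : ℝ) ≤ x2.1
    exact_mod_cast this
  · have : x3.2 ≤ x.2 := by
      simp [dirv] at l3
      omega
    show (x3.2 : ℝ) ≤ x.2
    exact_mod_cast this
  · have : x.2 ≤ x4.2 := by
      simpa [dirv] using l4
    show (x.2 : ℝ) ≤ x4.2
    exact_mod_cast this

end Pool.Agent.H49.Tsp
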