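import Pool.Agent.H49.Tsp.Defs

/-!
Strand theorem, part A: the tripod lemma, the covering lemma on bad indices, elementary facts on
strands.
-/

set_option autoImplicit false

namespace Pool.Agent.H49.Tsp

open Classical

/-! ### The tripod lemma -/

theorem ip_lt {a b : ℂ} {al be e : ℝ} (hal : 0 < al) (hbe : 0 < be) (ha : ‖a‖ ≤ al) (hb : ‖b‖ ≤ be)
    (hab : (1 - e) * (al + be) ≤ ‖a - b‖) (_he0 : 0 ≤ e) (he1 : e ≤ 1)
    (h : e * (al + be) ^ 2 < al * be / 2) : a.re * b.re + a.im * b.im < -(al * be / 2) := by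
  have h1 : ‖a - b‖ ^ 2 = ‖a‖ ^ 2 + ‖b‖ ^ 2 - 2 * (a.re * b.re + a.im * b.im) := by
    rw [Complex.sq_norm, Complex.sq_norm, Complex.sq_norm, Complex.normSq_apply,
      Complex.normSq_apply, Complex.normSq_apply, Complex.sub_re, Complex.sub_im]
    ring
  have h2 : ‖a‖ ^ 2 ≤ al ^ 2 := pow_le_pow_left₀ (norm_nonneg _) ha 2
  have h3 : ‖b‖ ^ 2 ≤ be ^ 2 := pow_le_pow_left₀ (norm_nonneg _) hb 2
  have h4 : ((1 - e) * (al + be)) ^ 2 ≤ ‖a - b‖ ^ 2 :=
    pow_le_pow_left₀ (mul_nonneg (by linarith) (by positivity)) hab 2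
  have h5 : (1 - 2 * e) * (al + be) ^ 2 ≤ ((1 - e) * (al + be)) ^ 2 := by
    have : 0 ≤ e ^ 2 * (al + be) ^ 2 := by positivity
    nlinarith
  nlinarith

theorem tripod {O A B Q : ℂ} {al be s e : ℝ} (hal : 0 < al) (hbe : 0 < be) (hs : 0 < s)
    (hA : ‖A - O‖ ≤ al) (hB : ‖B - O‖ ≤ be) (hQ : ‖Q - O‖ ≤ s)
    (hAB : (1 - e) * (al + be) ≤ ‖A - B‖) (hAQ : (1 - e) * (al + s) ≤ ‖A - Q‖)
    (hBQ : (1 - e) * (be + s) ≤ ‖B - Q‖) (he0 : 0 ≤ e) (he1 : e ≤ 1)
    (h1 : e * (al + be) ^ 2 < al * be / 2) (h2 : e * (al + s) ^ 2 < al * s / 2)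
    (h3 : e * (be + s) ^ 2 < be * s / 2) : False := by
  set a := A - O
  set b := B - O
  set q := Q - O
  have e1 : A - B = a - b := by simp [a, b]
  have e2 : A - Q = a - q := by simp [a, q]
  have e3 : B - Q = b - q := by simp [b, q]
  rw [e1] at hAB
  rw [e2] at hAQ
  rw [e3] at hBQ
  have i1 := ip_lt hal hbe hA hB hAB he0 he1 h1
  have i2 := ip_lt hal hs hA hQ hAQ he0 he1 h2
  have i3 := ip_lt hbe hs hB hQ hBQ he0 he1 h3
  have n1 : a.re * a.re + a.im * a.im ≤ al ^ 2 := by
    rw [← Complex.normSq_apply, ← Complex.sq_norm]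
    exact pow_le_pow_left₀ (norm_nonneg _) hA 2
  have n2 : b.re * b.re + b.im * b.im ≤ be ^ 2 := by
    rw [← Complex.normSq_apply, ← Complex.sq_norm]
    exact pow_le_pow_left₀ (norm_nonneg _) hB 2
  have n3 : q.re * q.re + q.im * q.im ≤ s ^ 2 := by
    rw [← Complex.normSq_apply, ← Complex.sq_norm]
    exact pow_le_pow_left₀ (norm_nonneg _) hQ 2
  have key : 0 ≤ (be * s * a.re + al * s * b.re + al * be * q.re) ^ 2 +
      (be * s * a.im + al * s * b.im + al * be * q.im) ^ 2 := by positivity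
  have k1 : (be * s) ^ 2 * (a.re * a.re + a.im * a.im) ≤ (be * s) ^ 2 * al ^ 2 :=
    mul_le_mul_of_nonneg_left n1 (by positivity)
  have k2 : (al * s) ^ 2 * (b.re * b.re + b.im * b.im) ≤ (al * s) ^ 2 * be ^ 2 :=
    mul_le_mul_of_nonneg_left n2 (by positivity)
  have k3 : (al * be) ^ 2 * (q.re * q.re + q.im * q.im) ≤ (al * be) ^ 2 * s ^ 2 :=
    mul_le_mul_of_nonneg_left n3 (by positivity)
  have k4 : 2 * (al * be * s ^ 2) * (a.re * b.re + a.im * b.im) <
      2 * (al * be * s ^ 2) * -(al * be / 2) := mul_lt_mul_of_pos_left i1 (by positivity)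
  have k5 : 2 * (al * be ^ 2 * s) * (a.re * q.re + a.im * q.im) <
      2 * (al * be ^ 2 * s) * -(al * s / 2) := mul_lt_mul_of_pos_left i2 (by positivity)
  have k6 : 2 * (al ^ 2 * be * s) * (b.re * q.re + b.im * q.im) <
      2 * (al ^ 2 * be * s) * -(be * s / 2) := mul_lt_mul_of_pos_left i3 (by positivity)
  linarith

/-! ### Bad indices -/

/-- `k` is bad to the right. -/
def BadR (T W : ℕ → ℝ) (th : ℝ) (n k : ℕ) : Prop :=
  ∃ j, k < j ∧ j ≤ n ∧ th * (T j - T k) ≤ W j - W k

/-- `k` is bad to the left. -/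
def BadL (T W : ℕ → ℝ) (th : ℝ) (k : ℕ) : Prop :=
  ∃ j, j ≤ k ∧ th * (T (k + 1) - T j) ≤ W (k + 1) - W j

theorem sum_Ico_tel (T : ℕ → ℝ) {a b : ℕ} (h : a ≤ b) :
    ∑ k ∈ Finset.Ico a b, (T (k + 1) - T k) = T b - T a := Finset.sum_Ico_sub T h

theorem badR_sum {T W : ℕ → ℝ} {th : ℝ} {n : ℕ} (hth : 0 ≤ th) (hT : Monotone T)
    (hW : Monotone W) (a : ℕ) (ha : a ≤ n) :
    th * ∑ k ∈ (Finset.Ico a n).filter (fun k => BadR T W th n k), (T (k + 1) - T k) ≤
      W n - W a := by
  induction hm : n - a using Nat.strong_induction_on generalizing a with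
  | _ m ih =>
    rcases Nat.eq_or_lt_of_le ha with h | h
    · subst h
      simp
    · have hsplit : Finset.Ico a n = insert a (Finset.Ico (a + 1) n) := by
        rw [Finset.insert_Ico_add_one_left_eq_Ico h]
      by_cases hb : BadR T W th n a
      · obtain ⟨j, hj1, hj2, hj3⟩ := hb
        have h1 : ∑ k ∈ (Finset.Ico a n).filter (fun k => BadR T W th n k), (T (k + 1) - T k) ≤
            ∑ k ∈ Finset.Ico a j, (T (k + 1) - T k) +
            ∑ k ∈ (Finset.Ico j n).filter (fun k => BadR T W th n k), (T (k + 1) - T k) := by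
          rw [← Finset.Ico_union_Ico_eq_Ico hj1.le hj2, Finset.filter_union]
          rw [Finset.sum_union (Finset.disjoint_filter_filter
            (Finset.Ico_disjoint_Ico_consecutive a j n))]
          refine add_le_add ?_ le_rfl
          refine Finset.sum_le_sum_of_subset_of_nonneg
            (Finset.filter_subset (fun k => BadR T W th n k) _) ?_
          intro k _ _
          have := hT (Nat.le_succ k)
          simp only [Nat.succ_eq_add_one] at this
          linarith
        rw [sum_Ico_tel T hj1.le] at h1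
        have h2 := ih (n - j) (by omega) j hj2 rfl
        have h3 := mul_le_mul_of_nonneg_left h1 hth
        rw [mul_add] at h3
        linarith
      · rw [hsplit, Finset.filter_insert, if_neg hb]
        have h2 := ih (n - (a + 1)) (by omega) (a + 1) h rfl
        have := hW (Nat.le_succ a)
        simp only [Nat.succ_eq_add_one] at this
        linarith

theorem badL_sum {T W : ℕ → ℝ} {th : ℝ} (hth : 0 ≤ th) (hT : Monotone T)
    (hW : Monotone W) (b : ℕ) :
    th * ∑ k ∈ (Finset.range b).filter (fun k => BadL T W th k), (T (k + 1) - T k) ≤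
      W b - W 0 := by
  induction b using Nat.strong_induction_on with
  | _ b ih =>
    rcases Nat.eq_zero_or_pos b with h | h
    · subst h
      simp
    · obtain ⟨b, rfl⟩ : ∃ b', b = b' + 1 := ⟨b - 1, by omega⟩
      by_cases hb : BadL T W th b
      · obtain ⟨j, hj1, hj3⟩ := hb
        have h1 : ∑ k ∈ (Finset.range (b + 1)).filter (fun k => BadL T W th k),
            (T (k + 1) - T k) ≤
            ∑ k ∈ (Finset.range j).filter (fun k => BadL T W th k), (T (k + 1) - T k) +
            ∑ k ∈ Finset.Ico j (b + 1), (T (k + 1) - T k) := by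
          simp only [Finset.range_eq_Ico]
          rw [← Finset.Ico_union_Ico_eq_Ico (Nat.zero_le j)
            (by omega : j ≤ b + 1), Finset.filter_union]
          rw [Finset.sum_union (Finset.disjoint_filter_filter
            (Finset.Ico_disjoint_Ico_consecutive 0 j (b + 1)))]
          refine add_le_add le_rfl ?_
          refine Finset.sum_le_sum_of_subset_of_nonneg
            (Finset.filter_subset (fun k => BadL T W th k) _) ?_
          intro k _ _
          have := hT (Nat.le_succ k)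
          simp only [Nat.succ_eq_add_one] at this
          linarith
        rw [sum_Ico_tel T (by omega : j ≤ b + 1)] at h1
        have h2 := ih j (by omega)
        have h3 := mul_le_mul_of_nonneg_left h1 hth
        rw [mul_add] at h3
        linarith
      · rw [Finset.range_add_one, Finset.filter_insert, if_neg hb]
        have h2 := ih b (by omega)
        have := hW (Nat.le_succ b)
        simp only [Nat.succ_eq_add_one] at this
        linarith

/-! ### Strands -/

namespace Strand

variable {ι : Type} (S : Strand ι)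

/-- Accumulated bad mass. -/
noncomputable def M (k : ℕ) : ℝ := ∑ i ∈ Finset.range k, S.m i

/-- Accumulated excess seen from `c`. -/
noncomputable def E (c : ℂ) (k : ℕ) : ℝ := S.t k - ‖S.v k - c‖

theorem t_zero : S.t 0 = 0 := by simp [t]

theorem t_succ (k : ℕ) : S.t (k + 1) = S.t k + S.ell k := by
  simp [t, Finset.sum_range_succ]

theorem M_zero : S.M 0 = 0 := by simp [M]

theorem M_succ (k : ℕ) : S.M (k + 1) = S.M k + S.m k := by
  simp [M, Finset.sum_range_succ]

theorem ell_nonneg (k : ℕ) : 0 ≤ S.ell k := norm_nonneg _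

theorem t_mono : Monotone S.t := monotone_nat_of_le_succ fun k => by
  rw [t_succ]
  linarith [S.ell_nonneg k]

theorem t_nonneg (k : ℕ) : 0 ≤ S.t k := by
  rw [← S.t_zero]
  exact S.t_mono (Nat.zero_le k)

theorem E_mono (c : ℂ) : Monotone (S.E c) := monotone_nat_of_le_succ fun k => by
  have h : ‖S.v (k + 1) - c‖ ≤ ‖S.v (k + 1) - S.v k‖ + ‖S.v k - c‖ :=
    norm_sub_le_norm_sub_add_norm_sub _ _ _
  simp only [E, t_succ, ell]
  linarith

theorem M_mono (hm : ∀ k, 0 ≤ S.m k) : Monotone S.M := monotone_nat_of_le_succ fun k => by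
  rw [M_succ]
  linarith [hm k]

theorem norm_v_sub_le {i j : ℕ} (h : i ≤ j) : ‖S.v j - S.v i‖ ≤ S.t j - S.t i := by
  induction j, h using Nat.le_induction with
  | base => simp
  | succ j _ ih =>
    have h : ‖S.v (j + 1) - S.v i‖ ≤ ‖S.v (j + 1) - S.v j‖ + ‖S.v j - S.v i‖ :=
      norm_sub_le_norm_sub_add_norm_sub _ _ _
    rw [t_succ, ell]
    linarith

theorem free_eq {i j : ℕ} (h : i ≤ j) : S.free i j = (S.t j - S.t i) - (S.M j - S.M i) := by
  unfold free
  rw [min_eq_left h, max_eq_right h, Finset.sum_sub_distrib]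
  congr 1
  · rw [← Finset.sum_Ico_sub S.t h]
    exact Finset.sum_congr rfl fun k _ => by rw [t_succ]; ring
  · rw [← Finset.sum_Ico_sub S.M h]
    exact Finset.sum_congr rfl fun k _ => by rw [M_succ]; ring

theorem free_comm (i j : ℕ) : S.free i j = S.free j i := by
  unfold free
  rw [min_comm, max_comm]

end Strand

end Pool.Agent.H49.Tsp
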