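import Pool.Agent.H49.Tsp.StrandA

/-!
Strand theorem, part B: global rigidity and the local theorem at a good radius.
-/

set_option autoImplicit false

namespace Pool.Agent.H49.Tsp

open Classical

set_option linter.unusedSectionVars false

theorem low {lam e L mu N : ℝ} (h1 : L - mu ≤ (1 + lam) * N) (h2 : mu ≤ (e - lam) * L)
    (hlam : 0 ≤ lam) (he : 0 ≤ e) (hL : 0 ≤ L) : (1 - e) * L ≤ N := by
  have h3 : (1 + lam) * ((1 - e) * L) ≤ (1 + lam) * N := by
    have : 0 ≤ e * lam * L := by positivity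
    nlinarith
  exact le_of_mul_le_mul_left h3 (by linarith)

/-- The standing assumptions. -/
structure Ctx {ι : Type} (S : Strand ι) (P : Finset ℂ) (pos : ℂ → ℕ) (lam k4 del : ℝ) (c : ℂ) :
    Prop where
  tight : S.IsTight lam k4
  pts : S.Pts P pos lam
  npos : 0 < S.n
  cen : ‖c - S.v 0‖ ≤ del * S.h
  lam0 : 0 < lam
  lam1 : lam ≤ 1 / 100
  k40 : 0 < k4
  del0 : 0 < del
  del1 : del ≤ 1 / 100

namespace Ctx

variable {ι : Type} {S : Strand ι} {P : Finset ℂ} {pos : ℂ → ℕ} {lam k4 del : ℝ} {c : ℂ}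
  (H : Ctx S P pos lam k4 del c)
include H

theorem h_pos : 0 < S.h := by
  have h1 := S.t_mono (show 1 ≤ S.n from H.npos)
  have h2 := S.t_succ 0
  have h3 := H.tight.ell_pos 0 H.npos
  rw [S.t_zero] at h2
  unfold Strand.h
  simp only [zero_add] at h2
  linarith

theorem t_le {j : ℕ} (hj : j ≤ S.n) : S.t j ≤ S.h := S.t_mono hj

theorem M_mono : Monotone S.M := S.M_mono H.tight.m_nonneg

theorem M_nonneg (j : ℕ) : 0 ≤ S.M j := by
  rw [← S.M_zero]
  exact H.M_mono (Nat.zero_le j)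

theorem sum_mC_nonneg : 0 ≤ ∑ x ∈ S.C, S.mC x := Finset.sum_nonneg H.tight.mC_nonneg

theorem small' : S.M S.n + ∑ x ∈ S.C, S.mC x ≤ k4 * S.h := H.tight.small

theorem M_le {j : ℕ} (hj : j ≤ S.n) : S.M j ≤ k4 * S.h := by
  have h1 := H.M_mono hj
  have h2 := H.small'
  have h3 := H.sum_mC_nonneg
  linarith

theorem mC_le {x : ι} (hx : x ∈ S.C) : S.mC x ≤ ∑ x ∈ S.C, S.mC x :=
  Finset.single_le_sum (f := S.mC) H.tight.mC_nonneg hx

theorem M_add_mC {j : ℕ} (hj : j ≤ S.n) {x : ι} (hx : x ∈ S.C) :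
    S.M j + S.mC x ≤ k4 * S.h := by
  have h1 := H.M_mono hj
  have h2 := H.small'
  have h3 := H.mC_le hx
  linarith

theorem d0 : ‖S.v 0 - c‖ ≤ del * S.h := by
  rw [norm_sub_rev]
  exact H.cen

theorem d_le {j : ℕ} : ‖S.v j - c‖ ≤ S.t j + del * S.h := by
  have h1 : ‖S.v j - c‖ ≤ ‖S.v j - S.v 0‖ + ‖S.v 0 - c‖ := norm_sub_le_norm_sub_add_norm_sub _ _ _
  have h2 := S.norm_v_sub_le (Nat.zero_le j)
  rw [S.t_zero] at h2
  linarith [H.d0]

theorem E_le {j : ℕ} (hj : j ≤ S.n) :
    S.E c j - S.E c 0 ≤ (k4 + 2 * lam + 2 * del) * S.h := by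
  have h1 := H.tight.tight_vv 0 j (Nat.zero_le _) hj
  rw [S.free_eq (Nat.zero_le j), S.t_zero, S.M_zero] at h1
  have h2 := H.M_le hj
  have h3 : ‖S.v 0 - S.v j‖ ≤ ‖S.v 0 - c‖ + ‖S.v j - c‖ := by
    rw [norm_sub_rev (S.v j) c]
    exact norm_sub_le_norm_sub_add_norm_sub _ _ _
  have h4 := H.d0
  have h5 := H.d_le (j := j)
  have h6 := H.t_le hj
  have hh := H.h_pos
  have hl := H.lam0
  have hd := H.del1
  have h7 : ‖S.v 0 - S.v j‖ ≤ 2 * S.h := by nlinarith
  have h8 : lam * ‖S.v 0 - S.v j‖ ≤ lam * (2 * S.h) := mul_le_mul_of_nonneg_left h7 hl.le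
  simp only [Strand.E, S.t_zero]
  nlinarith

theorem le_d {j : ℕ} (hj : j ≤ S.n) :
    S.t j - (k4 + 2 * lam + 2 * del) * S.h ≤ ‖S.v j - c‖ := by
  have h1 := H.E_le hj
  simp only [Strand.E, S.t_zero] at h1
  linarith [norm_nonneg (S.v 0 - c)]

theorem top {p : ℂ} (hp : p ∈ P) :
    S.t (min (pos p) S.n) - (k4 + 2 * lam + 2 * del) * S.h ≤ ‖p - c‖ := by
  have h1 := H.pts.tight p hp
  rw [S.free_eq (Nat.zero_le _), S.t_zero, S.M_zero] at h1
  have h2 := H.M_le (min_le_right (pos p) S.n)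
  have h3 : ‖p - S.v 0‖ ≤ ‖p - c‖ + ‖S.v 0 - c‖ := by
    rw [norm_sub_rev (S.v 0) c]
    exact norm_sub_le_norm_sub_add_norm_sub _ _ _
  have h4 := H.d0
  have h6 := H.t_le (min_le_right (pos p) S.n)
  have hh := H.h_pos
  have hl := H.lam0
  have hd := H.del1
  have hk := H.k40
  by_cases h7 : S.h ≤ ‖p - c‖
  · nlinarith [H.del0, mul_pos hl hh, mul_pos hk hh, mul_pos H.del0 hh]
  · push Not at h7
    have h8 : ‖p - S.v 0‖ ≤ 2 * S.h := by nlinarith
    have h9 : lam * ‖p - S.v 0‖ ≤ lam * (2 * S.h) := mul_le_mul_of_nonneg_left h8 hl.le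
    nlinarith [mul_pos H.del0 hh]

/-- Global rigidity: the branches are tiny. -/
theorem rigid {eps : ℝ} (heps : 0 < eps) (heps1 : eps ≤ 1)
    (hnum : lam + 2 * k4 / eps < eps / 40) {x : ι} (hx : x ∈ S.C)
    (hxt : S.t (S.k x) < 19 / 20 * S.h) : S.s x < eps * S.h := by
  by_contra hcon
  push Not at hcon
  have hh := H.h_pos
  have hl := H.lam0
  have hk := H.k40
  have hkn := H.tight.k_le x hx
  have hsl := H.tight.s_le x hx
  have hs0 := H.tight.s_pos x hx
  set s := S.s x with hs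
  set al := S.t (S.k x) with hal
  set be := S.h - al with hbe
  set e := lam + 2 * k4 / eps with he
  have hq : 0 < 2 * k4 / eps := by positivity
  have he0 : 0 ≤ e := by positivity
  have hq1 : 2 * k4 / eps * eps = 2 * k4 := by field_simp
  have hal0 : 0 < al := lt_of_lt_of_le hs0 hsl
  have hbe0 : S.h / 20 < be := by rw [hbe]; linarith
  have hbepos : 0 < be := by linarith
  have halh : al ≤ S.h := H.t_le hkn
  have heh : 0 < eps * S.h := by positivity
  refine tripod (O := S.v (S.k x)) (A := S.v 0) (B := S.v S.n) (Q := S.q x) (al := al)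
    (be := be) (s := s) (e := e) hal0 (by linarith) hs0 ?_ ?_ (H.tight.q_near x hx) ?_ ?_ ?_
    he0 (by linarith) ?_ ?_ ?_
  · have := S.norm_v_sub_le (Nat.zero_le (S.k x))
    rw [S.t_zero] at this
    rw [norm_sub_rev]
    linarith
  · exact S.norm_v_sub_le hkn
  · have h1 := H.tight.tight_vv 0 S.n (Nat.zero_le _) le_rfl
    rw [S.free_eq (Nat.zero_le _), S.t_zero, S.M_zero] at h1
    have h2 := H.M_le (le_refl S.n)
    refine low (mu := k4 * S.h) ?_ ?_ hl.le he0 (by linarith)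
    · have h3 : al + be = S.t S.n := by rw [hbe]; unfold Strand.h; ring
      rw [h3]
      linarith
    · have h3 : al + be = S.h := by rw [hbe]; ring
      rw [h3, he]
      have h4 : k4 ≤ 2 * k4 / eps := by
        rw [le_div_iff₀ heps]
        nlinarith
      nlinarith
  · have h1 := H.tight.tight_vq x hx 0 (Nat.zero_le _)
    rw [S.free_eq (Nat.zero_le _), S.t_zero, S.M_zero] at h1
    have h2 := H.M_add_mC hkn hx
    refine low (mu := k4 * S.h) ?_ ?_ hl.le he0 (by linarith)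
    · linarith
    · have h3 : (e - lam) * (al + s) = 2 * k4 / eps * (al + s) := by rw [he]; ring
      rw [h3]
      have h4 : eps * S.h ≤ al + s := by linarith
      have h5 := mul_le_mul_of_nonneg_left h4 hq.le
      have h6 : 2 * k4 / eps * (eps * S.h) = 2 * k4 * S.h := by rw [← mul_assoc, hq1]
      nlinarith
  · have h1 := H.tight.tight_vq x hx S.n le_rfl
    rw [S.free_comm, S.free_eq hkn] at h1
    have h2 := H.small'
    have h2' := H.mC_le hx
    have h2'' := H.M_nonneg (S.k x)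
    refine low (mu := k4 * S.h) ?_ ?_ hl.le he0 (by linarith)
    · have : S.t S.n = S.h := rfl
      linarith
    · have h3 : (e - lam) * (be + s) = 2 * k4 / eps * (be + s) := by rw [he]; ring
      rw [h3]
      have h4 : eps * S.h ≤ be + s := by linarith
      have h5 := mul_le_mul_of_nonneg_left h4 hq.le
      have h6 : 2 * k4 / eps * (eps * S.h) = 2 * k4 * S.h := by rw [← mul_assoc, hq1]
      nlinarith
  · have h3 : al + be = S.h := by rw [hbe]; ring
    rw [h3]
    have h4 : eps * S.h * (S.h / 20) ≤ al * be :=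
      mul_le_mul (by linarith) hbe0.le (by positivity) hal0.le
    have h5 : e * S.h ^ 2 < eps / 40 * S.h ^ 2 := mul_lt_mul_of_pos_right hnum (by positivity)
    nlinarith
  · have h4 : e * (al + s) ^ 2 ≤ e * (4 * al ^ 2) := by
      apply mul_le_mul_of_nonneg_left _ he0
      nlinarith
    have h5 : e * al < s / 8 := by
      have h6 : e * al ≤ e * S.h := mul_le_mul_of_nonneg_left halh he0
      have h7 : e * S.h < eps / 40 * S.h := mul_lt_mul_of_pos_right hnum hh
      linarith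
    have h6 : e * al * al < s / 8 * al := mul_lt_mul_of_pos_right h5 hal0
    nlinarith
  · have h3 : be + s ≤ S.h := by rw [hbe]; linarith
    have h4 : e * (be + s) ^ 2 ≤ e * S.h ^ 2 := by
      apply mul_le_mul_of_nonneg_left _ he0
      exact pow_le_pow_left₀ (by linarith) h3 2
    have h5 : (S.h / 20) * (eps * S.h) ≤ be * s :=
      mul_le_mul hbe0.le hcon (by positivity) hbepos.le
    have h6 : e * S.h ^ 2 < eps / 40 * S.h ^ 2 := mul_lt_mul_of_pos_right hnum (by positivity)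
    nlinarith

end Ctx

end Pool.Agent.H49.Tsp
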