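import Pool.Agent.H49.Tsp.StrandB

/-!
Strand theorem, part C: the local theorem at a good radius.
-/

set_option autoImplicit false

namespace Pool.Agent.H49.Tsp

open Classical

set_option linter.unusedSectionVars false

/-- Discrete intermediate value. -/
theorem exists_le_lt (f : ℕ → ℝ) (y : ℝ) {a m : ℕ} (ham : a ≤ m) (h0 : f a ≤ y) (hm : y < f m) :
    ∃ k, a ≤ k ∧ k < m ∧ f k ≤ y ∧ y < f (k + 1) := by
  by_contra hcon
  push Not at hcon
  have : ∀ j, a ≤ j → j ≤ m → f j ≤ y := by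
    intro j hj
    induction j, hj using Nat.le_induction with
    | base => exact fun _ => h0
    | succ j hj ih => exact fun hjm => hcon j hj (by omega) (ih (by omega))
  exact absurd (this m ham le_rfl) (not_le.mpr hm)

/-- Discrete intermediate value. -/
theorem exists_lt_le (f : ℕ → ℝ) (y : ℝ) {a m : ℕ} (ham : a ≤ m) (h0 : f a < y) (hm : y ≤ f m) :
    ∃ k, a ≤ k ∧ k < m ∧ f k < y ∧ y ≤ f (k + 1) := by
  by_contra hcon
  push Not at hcon
  have : ∀ j, a ≤ j → j ≤ m → f j < y := by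
    intro j hj
    induction j, hj using Nat.le_induction with
    | base => exact fun _ => h0
    | succ j hj ih => exact fun hjm => hcon j hj (by omega) (ih (by omega))
  exact absurd (this m ham le_rfl) (not_lt.mpr hm)

/-- A point of a segment at a prescribed distance. -/
theorem exists_seg (u w c : ℂ) (r : ℝ) (h0 : ‖u - c‖ ≤ r) (h1 : r ≤ ‖w - c‖) :
    ∃ x : ℂ, ∃ s : ℝ, 0 ≤ s ∧ s ≤ 1 ∧ ‖x - c‖ = r ∧ ‖x - u‖ = s * ‖w - u‖ ∧
      ‖x - w‖ = (1 - s) * ‖w - u‖ := by
  have hc : ContinuousOn (fun s : ℝ => ‖u + (s : ℂ) * (w - u) - c‖) (Set.Icc 0 1) := by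
    fun_prop
  obtain ⟨s, ⟨hs0, hs1⟩, hs⟩ := intermediate_value_Icc (zero_le_one) hc
    (show r ∈ Set.Icc _ _ from ⟨by simpa using h0, by simpa using h1⟩)
  refine ⟨u + (s : ℂ) * (w - u), s, hs0, hs1, hs, ?_, ?_⟩
  · have : u + (s : ℂ) * (w - u) - u = (s : ℂ) * (w - u) := by ring
    rw [this, norm_mul, Complex.norm_real, Real.norm_of_nonneg hs0]
  · have : u + (s : ℂ) * (w - u) - w = -(((1 - s : ℝ) : ℂ) * (w - u)) := by push_cast; ring
    rw [this, norm_neg, norm_mul, Complex.norm_real, Real.norm_of_nonneg (by linarith)]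

/-- Good radii. -/
structure Good {ι : Type} (S : Strand ι) (c : ℂ) (C eta kap r : ℝ) : Prop where
  g1 : ∀ j < S.n, S.ell j < C * |r - ‖S.v j - c‖|
  g1' : ∀ j < S.n, S.ell j < C * |r - ‖S.v (j + 1) - c‖|
  g2 : ∀ k < S.n, (BadR S.t (S.E c) (eta / (1 + C)) S.n k ∨ BadL S.t (S.E c) (eta / (1 + C)) k ∨
    BadR S.t S.M (kap ^ 5 / 100) S.n k ∨ BadL S.t S.M (kap ^ 5 / 100) k) →
    ¬ (‖S.v k - c‖ ≤ r ∧ r ≤ ‖S.v (k + 1) - c‖)
  g3 : ∀ x ∈ S.C, S.t (S.k x) < 19 / 20 * S.h → kap ^ 3 / 100 * S.s x ≤ S.mC x →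
    S.s x < eta * |r - ‖S.v (S.k x) - c‖|

/-- The local picture near a good radius, without the branches. -/
structure Loc0 {ι : Type} (S : Strand ι) (c : ℂ) (C eta kap r : ℝ) (k : ℕ) (x0 : ℂ) (t : ℝ) :
    Prop where
  kn : k < S.n
  x0r : ‖x0 - c‖ = r
  tk : S.t k < t
  tk1 : t < S.t (k + 1)
  near : ∀ j ≤ S.n, ‖x0 - S.v j‖ ≤ |t - S.t j|
  l1 : ∀ j < S.n, S.ell j < C * |t - S.t j|
  l2 : ∀ j < S.n, S.ell j < C * |t - S.t (j + 1)|
  up : ∀ j, k < j → j ≤ S.n → (1 - eta) * (S.t j - t) ≤ ‖S.v j - c‖ - r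
  up' : ∀ j, k < j → j ≤ S.n → ‖S.v j - c‖ - r ≤ S.t j - t
  dn : ∀ j, j ≤ k → (1 - eta) * (t - S.t j) ≤ r - ‖S.v j - c‖
  dn' : ∀ j, j ≤ k → r - ‖S.v j - c‖ ≤ t - S.t j
  nbR : ∀ j, k < j → j ≤ S.n → S.M j - S.M k ≤ kap ^ 5 / 100 * (S.t j - S.t k)
  nbL : ∀ j, j ≤ k → S.M (k + 1) - S.M j ≤ kap ^ 5 / 100 * (S.t (k + 1) - S.t j)

section

variable {ι : Type} {S : Strand ι} {P : Finset ℂ} {pos : ℂ → ℕ} {lam k4 del : ℝ} {c : ℂ}

theorem exists_loc0 (H : Ctx S P pos lam k4 del c) {C eta kap r : ℝ} (hC : 0 < C)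
    (heta : 0 < eta) (G : Good S c C eta kap r) (h0 : ‖S.v 0 - c‖ ≤ r) (hn : r < ‖S.v S.n - c‖) :
    ∃ k x0 t, Loc0 S c C eta kap r k x0 t := by
  obtain ⟨k, -, hkn, hk0, hk1⟩ := exists_le_lt (fun j => ‖S.v j - c‖) r (Nat.zero_le _) h0 hn
  obtain ⟨x0, s, hs0, hs1, hx0, hxk, hxk1⟩ := exists_seg (S.v k) (S.v (k + 1)) c r hk0 hk1.le
  have hell : ‖S.v (k + 1) - S.v k‖ = S.ell k := rfl
  rw [hell] at hxk hxk1
  set t := S.t k + s * S.ell k with ht
  have hl0 := H.tight.ell_pos k hkn
  have htk : S.t k ≤ t := by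
    have := mul_nonneg hs0 hl0.le
    linarith
  have htk1 : t ≤ S.t (k + 1) := by
    rw [S.t_succ]
    nlinarith
  have e1 : ∀ j ≤ k, ‖x0 - S.v j‖ ≤ t - S.t j := by
    intro j hj
    have h1 : ‖x0 - S.v j‖ ≤ ‖x0 - S.v k‖ + ‖S.v k - S.v j‖ :=
      norm_sub_le_norm_sub_add_norm_sub _ _ _
    have h2 := S.norm_v_sub_le hj
    rw [hxk] at h1
    linarith
  have e2 : ∀ j, k < j → ‖x0 - S.v j‖ ≤ S.t j - t := by
    intro j hj
    have h1 : ‖x0 - S.v j‖ ≤ ‖x0 - S.v (k + 1)‖ + ‖S.v j - S.v (k + 1)‖ := by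
      rw [norm_sub_rev (S.v j)]
      exact norm_sub_le_norm_sub_add_norm_sub _ _ _
    have h2 := S.norm_v_sub_le (show k + 1 ≤ j from hj)
    rw [hxk1] at h1
    have h3 := S.t_succ k
    linarith
  have near : ∀ j ≤ S.n, ‖x0 - S.v j‖ ≤ |t - S.t j| := by
    intro j _
    rcases Nat.lt_or_ge k j with hj | hj
    · exact (e2 j hj).trans (by rw [abs_sub_comm]; exact le_abs_self _)
    · exact (e1 j hj).trans (le_abs_self _)
  have rd : ∀ j, |r - ‖S.v j - c‖| ≤ ‖x0 - S.v j‖ := by
    intro j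
    rw [← hx0]
    refine (abs_norm_sub_norm_le _ _).trans (le_of_eq ?_)
    congr 1
    ring
  have l1 : ∀ j < S.n, S.ell j < C * |t - S.t j| := fun j hj =>
    (G.g1 j hj).trans_le (mul_le_mul_of_nonneg_left ((rd j).trans (near j hj.le)) hC.le)
  have l2 : ∀ j < S.n, S.ell j < C * |t - S.t (j + 1)| := fun j hj =>
    (G.g1' j hj).trans_le (mul_le_mul_of_nonneg_left ((rd _).trans (near _ hj)) hC.le)
  have nz : ∀ {a : ℝ}, S.ell k < C * |a| → a ≠ 0 := by
    rintro a ha rfl
    rw [abs_zero, mul_zero] at ha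
    linarith
  have htk' : S.t k < t := lt_of_le_of_ne htk fun h => nz (l1 k hkn) (by rw [h]; ring)
  have htk1' : t < S.t (k + 1) := lt_of_le_of_ne htk1 fun h => nz (l2 k hkn) (by rw [h]; ring)
  have hlk1 : S.ell k < C * (t - S.t k) := by
    have := l1 k hkn
    rwa [abs_of_pos (by linarith)] at this
  have hlk2 : S.ell k < C * (S.t (k + 1) - t) := by
    have := l2 k hkn
    rwa [abs_sub_comm, abs_of_pos (by linarith)] at this
  have hnb : ¬ (BadR S.t (S.E c) (eta / (1 + C)) S.n k ∨ BadL S.t (S.E c) (eta / (1 + C)) k ∨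
    BadR S.t S.M (kap ^ 5 / 100) S.n k ∨ BadL S.t S.M (kap ^ 5 / 100) k) :=
    fun h => G.g2 k hkn h ⟨hk0, hk1.le⟩
  push Not at hnb
  obtain ⟨nb1, nb2, nb3, nb4⟩ := hnb
  unfold BadR at nb1 nb3
  unfold BadL at nb2 nb4
  push Not at nb1 nb2 nb3 nb4
  have hth : eta / (1 + C) * (1 + C) = eta := by field_simp
  have hth0 : 0 < eta / (1 + C) := by positivity
  have hrdk : r - ‖S.v k - c‖ ≤ t - S.t k :=
    (le_abs_self _).trans ((rd k).trans (e1 k le_rfl))
  have hrdk1 : ‖S.v (k + 1) - c‖ - r ≤ S.t (k + 1) - t := by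
    have h1 := (rd (k + 1)).trans (e2 (k + 1) (Nat.lt_succ_self k))
    rw [abs_sub_comm] at h1
    exact (le_abs_self _).trans h1
  refine ⟨k, x0, t, hkn, hx0, htk', htk1', near, l1, l2, ?_, ?_, ?_, ?_, ?_, ?_⟩
  · intro j hj hjn
    have h1 := nb1 j hj hjn
    simp only [Strand.E] at h1
    have h2 : S.t (k + 1) ≤ S.t j := S.t_mono hj
    have h3 : S.t j - S.t k ≤ (1 + C) * (S.t j - t) := by
      have h4 : S.t k + S.ell k = S.t (k + 1) := (S.t_succ k).symm
      nlinarith
    have h4 : eta / (1 + C) * (S.t j - S.t k) ≤ eta * (S.t j - t) := by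
      calc eta / (1 + C) * (S.t j - S.t k) ≤ eta / (1 + C) * ((1 + C) * (S.t j - t)) :=
            mul_le_mul_of_nonneg_left h3 hth0.le
        _ = eta * (S.t j - t) := by rw [← mul_assoc, hth]
    nlinarith
  · intro j hj hjn
    have h1 := (rd j).trans (e2 j hj)
    rw [abs_sub_comm] at h1
    exact (le_abs_self _).trans h1
  · intro j hj
    have h1 := nb2 j hj
    simp only [Strand.E] at h1
    have h2 : S.t j ≤ S.t k := S.t_mono hj
    have h3 : S.t (k + 1) - S.t j ≤ (1 + C) * (t - S.t j) := by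
      have h4 : S.t k + S.ell k = S.t (k + 1) := (S.t_succ k).symm
      nlinarith
    have h4 : eta / (1 + C) * (S.t (k + 1) - S.t j) ≤ eta * (t - S.t j) := by
      calc eta / (1 + C) * (S.t (k + 1) - S.t j) ≤ eta / (1 + C) * ((1 + C) * (t - S.t j)) :=
            mul_le_mul_of_nonneg_left h3 hth0.le
        _ = eta * (t - S.t j) := by rw [← mul_assoc, hth]
    nlinarith
  · intro j hj
    exact (le_abs_self _).trans ((rd j).trans (e1 j hj))
  · intro j hj hjn
    exact (nb3 j hj hjn).le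
  · intro j hj
    exact (nb4 j hj).le

/-- The branches are small compared to their distance to the good radius. -/
theorem branch (H : Ctx S P pos lam k4 del c) {C eta kap r : ℝ} (hC : 100 ≤ C)
    (heta : 0 < eta) (heta1 : eta ≤ 1 / 4) (hkap : 0 < kap) (hCk : 10 * C * kap ≤ eta)
    (hlk : lam ≤ kap ^ 2 / 1000) (G : Good S c C eta kap r) {k : ℕ} {x0 : ℂ} {t : ℝ}
    (L : Loc0 S c C eta kap r k x0 t) {x : ι} (hx : x ∈ S.C)
    (hxt : S.t (S.k x) < 19 / 20 * S.h) : S.s x ≤ eta * |t - S.t (S.k x)| := by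
  by_contra hcon
  push Not at hcon
  have hh := H.h_pos
  have hl := H.lam0
  have hkn := H.tight.k_le x hx
  have hsl := H.tight.s_le x hx
  have hs0 := H.tight.s_pos x hx
  set kk := S.k x with hkk
  set s := S.s x with hs
  have hrd : |r - ‖S.v kk - c‖| ≤ |t - S.t kk| := by
    refine le_trans ?_ (L.near kk hkn)
    rw [← L.x0r]
    refine (abs_norm_sub_norm_le _ _).trans (le_of_eq ?_)
    congr 1
    ring
  -- mass of the branch
  have hmC : S.mC x < kap ^ 3 / 100 * s := by
    by_contra h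
    push Not at h
    have h1 := G.g3 x hx hxt h
    have h2 := mul_le_mul_of_nonneg_left hrd heta.le
    linarith
  -- auxiliary quantities
  obtain ⟨u, hu⟩ : ∃ u, eta * u = s := ⟨s / eta, by field_simp⟩
  obtain ⟨w, hw⟩ : ∃ w, kap * w = s := ⟨s / kap, by field_simp⟩
  have hu0 : 0 < u := (mul_pos_iff_of_pos_left heta).1 (by rw [hu]; exact hs0)
  have hw0 : 0 < w := (mul_pos_iff_of_pos_left hkap).1 (by rw [hw]; exact hs0)
  have htu : |t - S.t kk| < u := by
    by_contra h
    push Not at h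
    have := mul_le_mul_of_nonneg_left h heta.le
    linarith
  have hkap1 : kap ≤ 1 / 4000 := by
    have h1 := mul_le_mul_of_nonneg_right hC hkap.le
    linarith
  have hCu : C * u ≤ w / 10 := by
    have h1 : 10 * C * kap * u ≤ eta * u := mul_le_mul_of_nonneg_right hCk hu0.le
    rw [hu, ← hw] at h1
    have h2 : kap * (10 * C * u) ≤ kap * w := by linarith
    have h3 := le_of_mul_le_mul_left h2 hkap
    linarith
  have huw : u ≤ w / 1000 := by
    have h1 := mul_le_mul_of_nonneg_right hC hu0.le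
    linarith
  have hks : kap * s ≤ s / 4000 := by
    have h1 := mul_le_mul_of_nonneg_right hkap1 hs0.le
    linarith
  have hsw : s ≤ w / 4000 := by
    have h1 := mul_le_mul_of_nonneg_right hkap1 hw0.le
    linarith
  have hCks : C * (kap * s) ≤ s / 40 := by
    have h1 : 10 * C * kap * s ≤ eta * s := mul_le_mul_of_nonneg_right hCk hs0.le
    have h2 := mul_le_mul_of_nonneg_right heta1 hs0.le
    linarith
  have hks0 : 0 < kap * s := by positivity
  have hC0 : 0 < C := by linarith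
  -- the edge k
  have hlk' : S.ell k < C * u := by
    have ha := abs_lt.mp htu
    rcases Nat.lt_or_ge k kk with h | h
    · have h1 : S.t (k + 1) ≤ S.t kk := S.t_mono h
      have h2 := L.l2 k L.kn
      rw [abs_sub_comm, abs_of_pos (by linarith [L.tk1])] at h2
      have h3 : C * (S.t (k + 1) - t) ≤ C * u := mul_le_mul_of_nonneg_left (by linarith) hC0.le
      linarith
    · have h1 : S.t kk ≤ S.t k := S.t_mono h
      have h2 := L.l1 k L.kn
      rw [abs_of_pos (by linarith [L.tk])] at h2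
      have h3 : C * (t - S.t k) ≤ C * u := mul_le_mul_of_nonneg_left (by linarith) hC0.le
      linarith
  -- the point a
  obtain ⟨a, -, hakk, ha1, ha2⟩ := exists_le_lt S.t (S.t kk - kap * s) (Nat.zero_le kk)
    (by rw [S.t_zero]; linarith) (by linarith)
  -- the point b
  have hbt : S.t kk + kap * s ≤ S.t S.n := by
    have h1 : S.t kk ≤ S.h := H.t_le hkn
    have h2 : S.t S.n = S.h := rfl
    rw [h2]
    linarith
  obtain ⟨b, hbkk, hbn, hb1, hb2⟩ := exists_lt_le S.t (S.t kk + kap * s) hkn (by linarith) hbt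
  have habs := abs_lt.mp htu
  have hak : S.t (a + 1) ≤ S.t kk := S.t_mono hakk
  have hbk : S.t kk ≤ S.t b := S.t_mono hbkk
  have hla : S.ell a < C * (u + kap * s) := by
    refine (L.l2 a (by omega)).trans_le (mul_le_mul_of_nonneg_left ?_ hC0.le)
    rw [abs_le]
    constructor <;> linarith
  have hlb : S.ell b < C * (u + kap * s) := by
    refine (L.l1 b hbn).trans_le (mul_le_mul_of_nonneg_left ?_ hC0.le)
    rw [abs_le]
    constructor <;> linarith
  have hta := S.t_succ a
  have htb := S.t_succ b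
  set al := S.t kk - S.t a with hal
  set be := S.t (b + 1) - S.t kk with hbe
  have hal1 : kap * s ≤ al := by linarith
  have hbe1 : kap * s ≤ be := by linarith
  have hal2 : al ≤ w / 5 := by linarith
  have hbe2 : be ≤ w / 5 := by linarith
  have hal0 : 0 < al := by linarith
  have hbe0 : 0 < be := by linarith
  -- the mass between a and b
  have hmass : S.M (b + 1) - S.M a ≤ kap ^ 3 / 100 * s := by
    have h1 : S.M (b + 1) - S.M a ≤
        (S.M (max (b + 1) (k + 1)) - S.M k) + (S.M (k + 1) - S.M (min a k)) := by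
      have h2 := H.M_mono (le_max_left (b + 1) (k + 1))
      have h3 := H.M_mono (min_le_left a k)
      have h4 := H.M_mono (Nat.le_succ k)
      simp only [Nat.succ_eq_add_one] at h4
      linarith
    have hkn' := L.kn
    have h2 := L.nbR (max (b + 1) (k + 1)) (by omega) (by omega)
    have h3 := L.nbL (min a k) (min_le_right _ _)
    have htk1 := S.t_succ k
    have hE : 0 < kap ^ 5 / 100 := by positivity
    have h4 : S.t (max (b + 1) (k + 1)) - S.t k ≤ w / 2 := by
      rcases le_total (b + 1) (k + 1) with h | h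
      · rw [max_eq_right h]; linarith
      · rw [max_eq_left h]; linarith [L.tk, L.tk1]
    have h5 : S.t (k + 1) - S.t (min a k) ≤ w / 2 := by
      rcases le_total a k with h | h
      · rw [min_eq_left h]; linarith [L.tk, L.tk1]
      · rw [min_eq_right h]; linarith
    have h6 := mul_le_mul_of_nonneg_left h4 hE.le
    have h7 := mul_le_mul_of_nonneg_left h5 hE.le
    have h8 : kap ^ 5 / 100 * w ≤ kap ^ 3 / 100 * s := by
      have : kap ^ 5 / 100 * w = kap ^ 4 / 100 * s := by rw [← hw]; ring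
      rw [this]
      apply mul_le_mul_of_nonneg_right _ hs0.le
      have : kap ^ 4 ≤ kap ^ 3 := pow_le_pow_of_le_one hkap.le (by linarith) (by norm_num)
      linarith
    linarith
  have hMab : S.M a ≤ S.M kk := H.M_mono hakk.le
  have hMkb : S.M kk ≤ S.M (b + 1) := H.M_mono (by omega)
  have hmC0 := H.tight.mC_nonneg x hx
  have hkap2 : kap ^ 2 ≤ 1 / 10 := by
    have h1 := mul_le_mul hkap1 hkap1 hkap.le (by norm_num)
    rw [sq]
    linarith
  have hkap30 : 0 < kap ^ 3 := by positivity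
  have hkap20 : 0 < kap ^ 2 := by positivity
  set e := lam + kap ^ 2 / 50 with he
  have he0 : 0 ≤ e := by positivity
  have heK : e ≤ kap ^ 2 / 10 := by linarith
  have hkal : kap * al ≤ s / 5 := by
    have := mul_le_mul_of_nonneg_left hal2 hkap.le
    linarith
  have hkbe : kap * be ≤ s / 5 := by
    have := mul_le_mul_of_nonneg_left hbe2 hkap.le
    linarith
  have gen : ∀ p q : ℝ, 0 < p → 0 < q → kap ^ 2 * (p * p) ≤ p * q → kap ^ 2 * (q * q) ≤ p * q →
      e * (p + q) ^ 2 < p * q / 2 := by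
    intro p q hp hq h1 h2
    have hpq : 0 < p * q := mul_pos hp hq
    have h3 : e * (p + q) ^ 2 ≤ kap ^ 2 / 10 * (p + q) ^ 2 :=
      mul_le_mul_of_nonneg_right heK (by positivity)
    have h4 : kap ^ 2 * (p * q) ≤ 1 / 10 * (p * q) := mul_le_mul_of_nonneg_right hkap2 hpq.le
    have h5 : kap ^ 2 / 10 * (p + q) ^ 2 =
      (kap ^ 2 * (p * p) + 2 * (kap ^ 2 * (p * q)) + kap ^ 2 * (q * q)) / 10 := by ring
    rw [h5] at h3
    linarith
  refine tripod (O := S.v kk) (A := S.v a) (B := S.v (b + 1)) (Q := S.q x) (al := al)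
    (be := be) (s := s) (e := e) hal0 hbe0 hs0 ?_ ?_ (H.tight.q_near x hx) ?_ ?_ ?_
    he0 (by linarith) (gen _ _ hal0 hbe0 ?_ ?_) (gen _ _ hal0 hs0 ?_ ?_) (gen _ _ hbe0 hs0 ?_ ?_)
  · rw [norm_sub_rev]
    exact S.norm_v_sub_le hakk.le
  · exact S.norm_v_sub_le (by omega)
  · have h1 := H.tight.tight_vv a (b + 1) (by omega) hbn
    rw [S.free_eq (by omega : a ≤ b + 1)] at h1
    refine low (mu := kap ^ 3 / 100 * s) ?_ ?_ hl.le he0 (by linarith)
    · linarith
    · have h3 : (e - lam) * (al + be) = kap ^ 2 / 50 * (al + be) := by rw [he]; ring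
      rw [h3]
      have h4 : kap ^ 2 / 50 * (2 * (kap * s)) ≤ kap ^ 2 / 50 * (al + be) :=
        mul_le_mul_of_nonneg_left (by linarith) (by positivity)
      have h5 : 0 < kap ^ 3 * s := by positivity
      have h6 : kap ^ 2 / 50 * (2 * (kap * s)) = kap ^ 3 * s / 25 := by ring
      rw [h6] at h4
      linarith
  · have h1 := H.tight.tight_vq x hx a (by omega)
    rw [S.free_eq hakk.le] at h1
    refine low (mu := 2 * (kap ^ 3 / 100 * s)) ?_ ?_ hl.le he0 (by linarith)
    · linarith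
    · have h3 : (e - lam) * (al + s) = kap ^ 2 / 50 * (al + s) := by rw [he]; ring
      rw [h3]
      have h4 : kap ^ 2 / 50 * s ≤ kap ^ 2 / 50 * (al + s) :=
        mul_le_mul_of_nonneg_left (by linarith) (by positivity)
      have h5 : kap ^ 3 * s ≤ kap ^ 2 * s := by
        apply mul_le_mul_of_nonneg_right _ hs0.le
        exact pow_le_pow_of_le_one hkap.le (by linarith) (by norm_num)
      linarith
  · have h1 := H.tight.tight_vq x hx (b + 1) hbn
    rw [S.free_comm, S.free_eq (by omega : S.k x ≤ b + 1)] at h1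
    refine low (mu := 2 * (kap ^ 3 / 100 * s)) ?_ ?_ hl.le he0 (by linarith)
    · linarith
    · have h3 : (e - lam) * (be + s) = kap ^ 2 / 50 * (be + s) := by rw [he]; ring
      rw [h3]
      have h4 : kap ^ 2 / 50 * s ≤ kap ^ 2 / 50 * (be + s) :=
        mul_le_mul_of_nonneg_left (by linarith) (by positivity)
      have h5 : kap ^ 3 * s ≤ kap ^ 2 * s := by
        apply mul_le_mul_of_nonneg_right _ hs0.le
        exact pow_le_pow_of_le_one hkap.le (by linarith) (by norm_num)
      linarith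
  · calc kap ^ 2 * (al * al) = (kap * al) * (kap * al) := by ring
      _ ≤ s / 5 * (kap * al) := mul_le_mul_of_nonneg_right hkal (by positivity)
      _ = al * (kap * s) / 5 := by ring
      _ ≤ al * be / 5 := by
        have := mul_le_mul_of_nonneg_left hbe1 hal0.le
        linarith
      _ ≤ al * be := by
        have := mul_pos hal0 hbe0
        linarith
  · calc kap ^ 2 * (be * be) = (kap * be) * (kap * be) := by ring
      _ ≤ s / 5 * (kap * be) := mul_le_mul_of_nonneg_right hkbe (by positivity)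
      _ = be * (kap * s) / 5 := by ring
      _ ≤ be * al / 5 := by
        have := mul_le_mul_of_nonneg_left hal1 hbe0.le
        linarith
      _ ≤ al * be := by
        have := mul_pos hal0 hbe0
        linarith
  · calc kap ^ 2 * (al * al) = kap * al * (kap * al) := by ring
      _ ≤ s / 5 * (kap * al) := mul_le_mul_of_nonneg_right hkal (by positivity)
      _ = al * (kap * s) / 5 := by ring
      _ ≤ al * s := by
        have := mul_le_mul_of_nonneg_left hks hal0.le
        have := mul_pos hal0 hs0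
        linarith
  · calc kap ^ 2 * (s * s) = kap * s * (kap * s) := by ring
      _ ≤ al * (kap * s) := mul_le_mul_of_nonneg_right hal1 hks0.le
      _ ≤ al * s := by
        have := mul_le_mul_of_nonneg_left hks hal0.le
        have := mul_pos hal0 hs0
        linarith
  · calc kap ^ 2 * (be * be) = kap * be * (kap * be) := by ring
      _ ≤ s / 5 * (kap * be) := mul_le_mul_of_nonneg_right hkbe (by positivity)
      _ = be * (kap * s) / 5 := by ring
      _ ≤ be * s := by
        have := mul_le_mul_of_nonneg_left hks hbe0.le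
        have := mul_pos hbe0 hs0
        linarith
  · calc kap ^ 2 * (s * s) = kap * s * (kap * s) := by ring
      _ ≤ be * (kap * s) := mul_le_mul_of_nonneg_right hbe1 hks0.le
      _ ≤ be * s := by
        have := mul_le_mul_of_nonneg_left hks hbe0.le
        have := mul_pos hbe0 hs0
        linarith

end

end Pool.Agent.H49.Tsp
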