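import Pool.Agent.H49.Tsp.StrandC

/-!
Strand theorem, part D: covers of the bad radii by few short intervals.
-/

set_option autoImplicit false

namespace Pool.Agent.H49.Tsp

open Classical MeasureTheory

set_option linter.unusedSectionVars false

/-- `X` is covered by `K` intervals of total length at most `L`. -/
def Cov (X : Set ℝ) (K : ℕ) (L : ℝ) : Prop :=
  ∃ a b : ℕ → ℝ, (∀ i < K, a i ≤ b i) ∧ ∑ i ∈ Finset.range K, (b i - a i) ≤ L ∧
    ∀ r ∈ X, ∃ i < K, a i ≤ r ∧ r ≤ b i

theorem Cov.mono {X Y : Set ℝ} {K : ℕ} {L L' : ℝ} (h : Cov X K L) (hY : Y ⊆ X) (hL : L ≤ L') :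
    Cov Y K L' := by
  obtain ⟨a, b, h1, h2, h3⟩ := h
  exact ⟨a, b, h1, h2.trans hL, fun r hr => h3 r (hY hr)⟩

theorem Cov.union {X Y : Set ℝ} {K K' : ℕ} {L L' : ℝ} (h : Cov X K L) (h' : Cov Y K' L') :
    Cov (X ∪ Y) (K + K') (L + L') := by
  obtain ⟨a, b, h1, h2, h3⟩ := h
  obtain ⟨a', b', h1', h2', h3'⟩ := h'
  refine ⟨fun i => if i < K then a i else a' (i - K), fun i => if i < K then b i else b' (i - K),
    ?_, ?_, ?_⟩
  · intro i hi
    by_cases h : i < K
    · simp only [if_pos h]
      exact h1 i h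
    · simp only [if_neg h]
      exact h1' _ (by omega)
  · rw [Finset.sum_range_add]
    refine add_le_add (le_trans (le_of_eq ?_) h2) (le_trans (le_of_eq ?_) h2')
    · refine Finset.sum_congr rfl fun i hi => ?_
      rw [Finset.mem_range] at hi
      simp only [if_pos hi]
    · refine Finset.sum_congr rfl fun i _ => ?_
      have : ¬ (K + i < K) := by omega
      simp only [if_neg this, Nat.add_sub_cancel_left]
  · rintro r (hr | hr)
    · obtain ⟨i, hi, hr⟩ := h3 r hr
      exact ⟨i, by omega, by simpa only [if_pos hi] using hr⟩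
    · obtain ⟨i, hi, hr⟩ := h3' r hr
      refine ⟨K + i, by omega, ?_⟩
      have : ¬ (K + i < K) := by omega
      simpa only [if_neg this, Nat.add_sub_cancel_left] using hr

theorem Cov.single {a b : ℝ} (h : a ≤ b) : Cov (Set.Icc a b) 1 (b - a) :=
  ⟨fun _ => a, fun _ => b, fun _ _ => h, by simp, fun _ hr => ⟨0, one_pos, hr.1, hr.2⟩⟩

theorem Cov.empty : Cov ∅ 0 0 := ⟨fun _ => 0, fun _ => 0, by simp, by simp, by simp⟩

theorem Cov.family {β : Type} (s : Finset β) (a b : β → ℝ) (h : ∀ i ∈ s, a i ≤ b i) :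
    Cov {r | ∃ i ∈ s, a i ≤ r ∧ r ≤ b i} s.card (∑ i ∈ s, (b i - a i)) := by
  induction s using Finset.induction_on with
  | empty => simpa using Cov.empty
  | insert i s hi ih =>
    rw [Finset.card_insert_of_notMem hi, Finset.sum_insert hi, add_comm s.card 1]
    refine ((Cov.single (h i (Finset.mem_insert_self _ _))).union
      (ih fun j hj => h j (Finset.mem_insert_of_mem hj))).mono ?_ le_rfl
    rintro r ⟨j, hj, hr⟩
    rcases Finset.mem_insert.mp hj with rfl | hj
    · exact Or.inl hr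
    · exact Or.inr ⟨j, hj, hr⟩

/-- A long interval is not covered. -/
theorem Cov.exists_not_mem {X : Set ℝ} {K : ℕ} {L al be : ℝ} (h : Cov X K L) (hL : L < be - al) :
    ∃ r, al ≤ r ∧ r ≤ be ∧ r ∉ X := by
  by_contra hcon
  push Not at hcon
  obtain ⟨a, b, h1, h2, h3⟩ := h
  have hsub : Set.Icc al be ⊆ ⋃ i ∈ Finset.range K, Set.Icc (a i) (b i) := by
    intro r hr
    obtain ⟨i, hi, hr'⟩ := h3 r (hcon r hr.1 hr.2)
    simp only [Set.mem_iUnion]
    exact ⟨i, Finset.mem_range.mpr hi, hr'⟩
  have hm := (measure_mono hsub).trans (measure_biUnion_finset_le (μ := volume) _ _)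
  simp only [Real.volume_Icc] at hm
  rw [← ENNReal.ofReal_sum_of_nonneg (fun i hi => by
    have := h1 i (Finset.mem_range.mp hi)
    linarith)] at hm
  have h0 : 0 ≤ ∑ i ∈ Finset.range K, (b i - a i) := Finset.sum_nonneg fun i hi => by
    have := h1 i (Finset.mem_range.mp hi)
    linarith
  have := (ENNReal.ofReal_le_ofReal_iff h0).mp hm
  linarith

section

variable {ι : Type} {S : Strand ι} {P : Finset ℂ} {pos : ℂ → ℕ} {lam k4 del : ℝ} {c : ℂ}

theorem sum_ell : ∑ k ∈ Finset.range S.n, S.ell k = S.h := rfl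

/-- The intervals given by a set of bad edges. -/
theorem bad_cover (S : Strand ι) (c : ℂ) (B : ℕ → Prop) (L : ℝ)
    (hL : ∑ k ∈ (Finset.range S.n).filter (fun k => B k), (S.t (k + 1) - S.t k) ≤ L) :
    Cov {r | ∃ k < S.n, B k ∧ ‖S.v k - c‖ ≤ r ∧ r ≤ ‖S.v (k + 1) - c‖} S.n L := by
  have h := Cov.family (Finset.range S.n) (fun k => ‖S.v k - c‖)
    (fun k => if B k then max ‖S.v k - c‖ ‖S.v (k + 1) - c‖ else ‖S.v k - c‖)
    (fun k _ => by
      by_cases hB : B k
      · simp only [if_pos hB]; exact le_max_left _ _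
      · simp only [if_neg hB]; exact le_rfl)
  rw [Finset.card_range] at h
  refine h.mono ?_ (le_trans ?_ hL)
  · rintro r ⟨k, hk, hB, hr1, hr2⟩
    refine ⟨k, Finset.mem_range.mpr hk, hr1, ?_⟩
    simp only [if_pos hB]
    exact hr2.trans (le_max_right _ _)
  · rw [Finset.sum_filter]
    refine Finset.sum_le_sum fun k _ => ?_
    by_cases hB : B k
    · simp only [if_pos hB]
      have h1 : ‖S.v (k + 1) - c‖ ≤ ‖S.v (k + 1) - S.v k‖ + ‖S.v k - c‖ :=
        norm_sub_le_norm_sub_add_norm_sub _ _ _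
      have h2 := S.t_succ k
      have h3 := S.ell_nonneg k
      have h4 : ‖S.v (k + 1) - S.v k‖ = S.ell k := rfl
      rw [sub_le_iff_le_add]
      apply max_le <;> linarith
    · simp only [if_neg hB, sub_self]
      exact le_rfl

theorem good_cover (H : Ctx S P pos lam k4 del c) {C eta kap : ℝ} (hC : 0 < C)
    (heta : 0 < eta) (hkap : 0 < kap) :
    Cov {r | ¬ Good S c C eta kap r} (6 * S.n + S.C.card)
      (4 / C * S.h + 2 * ((k4 + 2 * lam + 2 * del) * ((1 + C) / eta) * S.h) +
        2 * (100 * k4 / kap ^ 5 * S.h) + 200 * k4 / (eta * kap ^ 3) * S.h) := by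
  have hEm := S.E_mono c
  have hMm := H.M_mono
  have hth : 0 < eta / (1 + C) := by positivity
  have hth' : 0 < kap ^ 5 / 100 := by positivity
  -- (i)
  have c1 : Cov {r | ∃ j ∈ Finset.range S.n, ‖S.v j - c‖ - S.ell j / C ≤ r ∧
      r ≤ ‖S.v j - c‖ + S.ell j / C} S.n (2 / C * S.h) := by
    have := Cov.family (Finset.range S.n) (fun j => ‖S.v j - c‖ - S.ell j / C)
      (fun j => ‖S.v j - c‖ + S.ell j / C) (fun j _ => by
        have := div_nonneg (S.ell_nonneg j) hC.le
        linarith)
    rw [Finset.card_range] at this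
    refine this.mono (fun _ h => h) (le_of_eq ?_)
    rw [← sum_ell, Finset.mul_sum]
    refine Finset.sum_congr rfl fun j _ => ?_
    ring
  have c2 : Cov {r | ∃ j ∈ Finset.range S.n, ‖S.v (j + 1) - c‖ - S.ell j / C ≤ r ∧
      r ≤ ‖S.v (j + 1) - c‖ + S.ell j / C} S.n (2 / C * S.h) := by
    have := Cov.family (Finset.range S.n) (fun j => ‖S.v (j + 1) - c‖ - S.ell j / C)
      (fun j => ‖S.v (j + 1) - c‖ + S.ell j / C) (fun j _ => by
        have := div_nonneg (S.ell_nonneg j) hC.le
        linarith)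
    rw [Finset.card_range] at this
    refine this.mono (fun _ h => h) (le_of_eq ?_)
    rw [← sum_ell, Finset.mul_sum]
    refine Finset.sum_congr rfl fun j _ => ?_
    ring
  -- (ii)
  have hE := H.E_le (le_refl S.n)
  have hM := H.M_le (le_refl S.n)
  have c3 := bad_cover S c (fun k => BadR S.t (S.E c) (eta / (1 + C)) S.n k)
    ((k4 + 2 * lam + 2 * del) * ((1 + C) / eta) * S.h) (by
      have := badR_sum hth.le S.t_mono hEm 0 (Nat.zero_le S.n)
      rw [← Finset.range_eq_Ico] at this
      have h2 := this.trans hE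
      rw [← le_div_iff₀' hth] at h2
      refine h2.trans (le_of_eq ?_)
      field_simp)
  have c4 := bad_cover S c (fun k => BadL S.t (S.E c) (eta / (1 + C)) k)
    ((k4 + 2 * lam + 2 * del) * ((1 + C) / eta) * S.h) (by
      have := badL_sum hth.le S.t_mono hEm S.n
      have h2 := this.trans hE
      rw [← le_div_iff₀' hth] at h2
      refine h2.trans (le_of_eq ?_)
      field_simp)
  have c5 := bad_cover S c (fun k => BadR S.t S.M (kap ^ 5 / 100) S.n k)
    (100 * k4 / kap ^ 5 * S.h) (by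
      have := badR_sum hth'.le S.t_mono hMm 0 (Nat.zero_le S.n)
      rw [← Finset.range_eq_Ico, S.M_zero, sub_zero] at this
      have h2 := this.trans hM
      rw [← le_div_iff₀' hth'] at h2
      refine h2.trans (le_of_eq ?_)
      field_simp)
  have c6 := bad_cover S c (fun k => BadL S.t S.M (kap ^ 5 / 100) k)
    (100 * k4 / kap ^ 5 * S.h) (by
      have := badL_sum hth'.le S.t_mono hMm S.n
      rw [S.M_zero, sub_zero] at this
      have h2 := this.trans hM
      rw [← le_div_iff₀' hth'] at h2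
      refine h2.trans (le_of_eq ?_)
      field_simp)
  -- (iii)
  have c7 : Cov {r | ∃ x ∈ S.C, kap ^ 3 / 100 * S.s x ≤ S.mC x ∧
      ‖S.v (S.k x) - c‖ - S.s x / eta ≤ r ∧ r ≤ ‖S.v (S.k x) - c‖ + S.s x / eta} S.C.card
      (200 * k4 / (eta * kap ^ 3) * S.h) := by
    have := Cov.family S.C (fun x => if kap ^ 3 / 100 * S.s x ≤ S.mC x then
        ‖S.v (S.k x) - c‖ - S.s x / eta else 0)
      (fun x => if kap ^ 3 / 100 * S.s x ≤ S.mC x then
        ‖S.v (S.k x) - c‖ + S.s x / eta else 0) (fun x hx => by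
        have := div_nonneg (H.tight.s_pos x hx).le heta.le
        by_cases h : kap ^ 3 / 100 * S.s x ≤ S.mC x
        · simp only [if_pos h]; linarith
        · simp only [if_neg h]; exact le_rfl)
    refine this.mono ?_ ?_
    · rintro r ⟨x, hx, h, hr⟩
      refine ⟨x, hx, ?_⟩
      simp only [if_pos h]
      exact hr
    · have h1 : ∑ x ∈ S.C, S.mC x ≤ k4 * S.h := by
        have h2 := H.small'
        have h3 := H.M_nonneg S.n
        linarith
      have h2 : ∀ x ∈ S.C, ((if kap ^ 3 / 100 * S.s x ≤ S.mC x then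
          ‖S.v (S.k x) - c‖ + S.s x / eta else 0) - (if kap ^ 3 / 100 * S.s x ≤ S.mC x then
          ‖S.v (S.k x) - c‖ - S.s x / eta else 0)) ≤ 200 / (eta * kap ^ 3) * S.mC x := by
        intro x hx
        have hm := H.tight.mC_nonneg x hx
        by_cases h : kap ^ 3 / 100 * S.s x ≤ S.mC x
        · simp only [if_pos h]
          have h3 : ‖S.v (S.k x) - c‖ + S.s x / eta - (‖S.v (S.k x) - c‖ - S.s x / eta) =
              200 / (eta * kap ^ 3) * (kap ^ 3 / 100 * S.s x) := by
            field_simp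
            ring
          rw [h3]
          exact mul_le_mul_of_nonneg_left h (by positivity)
        · simp only [if_neg h, sub_self]
          positivity
      refine (Finset.sum_le_sum h2).trans ?_
      rw [← Finset.mul_sum]
      refine (mul_le_mul_of_nonneg_left h1 (by positivity)).trans (le_of_eq ?_)
      field_simp
  have cc := (((((c1.union c2).union c3).union c4).union c5).union c6).union c7
  have hcard : S.n + S.n + S.n + S.n + S.n + S.n + S.C.card = 6 * S.n + S.C.card := by ring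
  rw [hcard] at cc
  refine cc.mono ?_ (le_of_eq (by ring))
  intro r hr
  simp only [Set.mem_ofPred_eq] at hr
  by_contra hcon
  simp only [Set.mem_union, not_or, Set.mem_ofPred_eq, not_exists, not_and] at hcon
  obtain ⟨⟨⟨⟨⟨⟨n1, n2⟩, n3⟩, n4⟩, n5⟩, n6⟩, n7⟩ := hcon
  apply hr
  refine ⟨?_, ?_, ?_, ?_⟩
  · intro j hj
    by_contra h
    push Not at h
    have h1 : |r - ‖S.v j - c‖| ≤ S.ell j / C := by rw [le_div_iff₀' hC]; exact h
    have h2 := abs_le.mp h1
    exact n1 j (Finset.mem_range.mpr hj) (by linarith) (by linarith)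
  · intro j hj
    by_contra h
    push Not at h
    have h1 : |r - ‖S.v (j + 1) - c‖| ≤ S.ell j / C := by rw [le_div_iff₀' hC]; exact h
    have h2 := abs_le.mp h1
    exact n2 j (Finset.mem_range.mpr hj) (by linarith) (by linarith)
  · rintro k hk (h | h | h | h) ⟨h1, h2⟩
    · exact n3 k hk h h1 h2
    · exact n4 k hk h h1 h2
    · exact n5 k hk h h1 h2
    · exact n6 k hk h h1 h2
  · intro x hx _ hm
    by_contra h
    push Not at h
    have h1 : |r - ‖S.v (S.k x) - c‖| ≤ S.s x / eta := by rw [le_div_iff₀' heta]; exact h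
    have h2 := abs_le.mp h1
    exact n7 x hx hm (by linarith) (by linarith)

end

end Pool.Agent.H49.Tsp
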