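import Pool.Agent.H49.Tsp.StrandD

/-!
Strand theorem, part E: consequences of the local theorem.
-/

set_option autoImplicit false

namespace Pool.Agent.H49.Tsp

open Classical

set_option linter.unusedSectionVars false

section

variable {ι : Type} {S : Strand ι} {P : Finset ℂ} {pos : ℂ → ℕ} {lam k4 del : ℝ} {c : ℂ}

theorem pos_lt (H : Ctx S P pos lam k4 del c) (hk5 : k4 + 2 * lam + 2 * del ≤ 1 / 1000) {p : ℂ}
    (hp : p ∈ P) (h : ‖p - c‖ ≤ 94 / 100 * S.h) : pos p < S.n ∧ S.t (pos p) < 19 / 20 * S.h := by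
  have h1 := H.top hp
  have hh := H.h_pos
  have h2 : (k4 + 2 * lam + 2 * del) * S.h ≤ 1 / 1000 * S.h :=
    mul_le_mul_of_nonneg_right hk5 hh.le
  have h3 : pos p < S.n := by
    by_contra hcon
    push Not at hcon
    rw [min_eq_right hcon] at h1
    have : S.t S.n = S.h := rfl
    linarith
  refine ⟨h3, ?_⟩
  rw [min_eq_left h3.le] at h1
  linarith

/-- The local picture with branches. -/
structure LocB (S : Strand ι) (eta t : ℝ) : Prop where
  br : ∀ x ∈ S.C, S.t (S.k x) < 19 / 20 * S.h → S.s x ≤ eta * |t - S.t (S.k x)|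

theorem pt_near (H : Ctx S P pos lam k4 del c) {eta t : ℝ} (heta : 0 ≤ eta)
    (B : LocB S eta t) {p : ℂ} (hp : p ∈ P) (hpn : pos p ≤ S.n)
    (hpt : S.t (pos p) < 19 / 20 * S.h) : ‖p - S.v (pos p)‖ ≤ eta * |t - S.t (pos p)| := by
  rcases H.pts.near p hp hpn with h | ⟨x, hx, hk, hs⟩
  · rw [← h, sub_self, norm_zero]
    positivity
  · rw [hk] at hs
    have h1 := B.br x hx (by rw [hk]; exact hpt)
    rw [hk] at h1
    exact hs.trans h1

theorem pt_x0 (H : Ctx S P pos lam k4 del c) {C eta kap r : ℝ} (heta : 0 ≤ eta) {k : ℕ} {x0 : ℂ}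
    {t : ℝ} (L : Loc0 S c C eta kap r k x0 t)
    (B : LocB S eta t) {p : ℂ} (hp : p ∈ P) (hpn : pos p ≤ S.n)
    (hpt : S.t (pos p) < 19 / 20 * S.h) : ‖p - x0‖ ≤ (1 + eta) * |t - S.t (pos p)| := by
  have h1 := pt_near H heta B hp hpn hpt
  have h2 := L.near (pos p) hpn
  have h3 : ‖p - x0‖ ≤ ‖p - S.v (pos p)‖ + ‖x0 - S.v (pos p)‖ := by
    rw [norm_sub_rev x0]
    exact norm_sub_le_norm_sub_add_norm_sub _ _ _
  linarith

theorem pt_up (H : Ctx S P pos lam k4 del c) {C eta kap r : ℝ} (heta : 0 ≤ eta) {k : ℕ} {x0 : ℂ}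
    {t : ℝ} (L : Loc0 S c C eta kap r k x0 t)
    (B : LocB S eta t) {p : ℂ} (hp : p ∈ P) (hpn : pos p ≤ S.n)
    (hpt : S.t (pos p) < 19 / 20 * S.h) (hkp : k < pos p) :
    (1 - 2 * eta) * (S.t (pos p) - t) ≤ ‖p - c‖ - r := by
  have h1 := pt_near H heta B hp hpn hpt
  have h2 := L.up (pos p) hkp hpn
  have h4 : S.t (k + 1) ≤ S.t (pos p) := S.t_mono hkp
  have h5 := L.tk1
  rw [abs_sub_comm, abs_of_nonneg (by linarith)] at h1
  have h3 : ‖S.v (pos p) - c‖ ≤ ‖p - S.v (pos p)‖ + ‖p - c‖ := by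
    rw [norm_sub_rev p]
    exact norm_sub_le_norm_sub_add_norm_sub _ _ _
  linarith

theorem pt_dn (H : Ctx S P pos lam k4 del c) {C eta kap r : ℝ} (heta : 0 ≤ eta) {k : ℕ} {x0 : ℂ}
    {t : ℝ} (L : Loc0 S c C eta kap r k x0 t)
    (B : LocB S eta t) {p : ℂ} (hp : p ∈ P) (hpn : pos p ≤ S.n)
    (hpt : S.t (pos p) < 19 / 20 * S.h) (hkp : pos p ≤ k) :
    (1 - 2 * eta) * (t - S.t (pos p)) ≤ r - ‖p - c‖ := by
  have h1 := pt_near H heta B hp hpn hpt
  have h2 := L.dn (pos p) hkp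
  have h4 : S.t (pos p) ≤ S.t k := S.t_mono hkp
  have h5 := L.tk
  rw [abs_of_nonneg (by linarith)] at h1
  have h3 : ‖p - c‖ ≤ ‖p - S.v (pos p)‖ + ‖S.v (pos p) - c‖ :=
    norm_sub_le_norm_sub_add_norm_sub _ _ _
  linarith

theorem pt_abs (H : Ctx S P pos lam k4 del c) {C eta kap r : ℝ} (heta : 0 ≤ eta)
    {k : ℕ} {x0 : ℂ} {t : ℝ} (L : Loc0 S c C eta kap r k x0 t)
    (B : LocB S eta t) {p : ℂ} (hp : p ∈ P) (hpn : pos p ≤ S.n)
    (hpt : S.t (pos p) < 19 / 20 * S.h) :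
    (1 - 2 * eta) * |t - S.t (pos p)| ≤ |‖p - c‖ - r| := by
  rcases Nat.lt_or_ge k (pos p) with h | h
  · have h1 := pt_up H heta L B hp hpn hpt h
    have h4 : S.t (k + 1) ≤ S.t (pos p) := S.t_mono h
    have h5 := L.tk1
    rw [abs_sub_comm t, abs_of_nonneg (a := S.t (pos p) - t) (by linarith)]
    exact h1.trans (le_abs_self _)
  · have h1 := pt_dn H heta L B hp hpn hpt h
    have h4 : S.t (pos p) ≤ S.t k := S.t_mono h
    have h5 := L.tk
    rw [abs_of_nonneg (a := t - S.t (pos p)) (by linarith), abs_sub_comm]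
    exact h1.trans (le_abs_self _)

/-- The cone identity. -/
theorem cone_id (w z : ℂ) (r : ℝ) (hr : 0 < r) (hz : ‖z‖ = r) :
    ‖w - (‖w‖ : ℂ) * (z / r)‖ ^ 2 = ‖w‖ / r * (‖w - z‖ ^ 2 - (‖w‖ - r) ^ 2) := by
  have hz2 : z.re * z.re + z.im * z.im = r ^ 2 := by
    rw [← Complex.normSq_apply, ← Complex.sq_norm, hz]
  have hw2 : w.re * w.re + w.im * w.im = ‖w‖ ^ 2 := by
    rw [← Complex.normSq_apply, ← Complex.sq_norm]
  have h1 : (‖w‖ : ℂ) * (z / r) = ((‖w‖ / r : ℝ) : ℂ) * z := by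
    push_cast
    ring
  rw [h1, Complex.sq_norm, Complex.sq_norm, Complex.normSq_apply, Complex.normSq_apply]
  simp only [Complex.sub_re, Complex.sub_im, Complex.re_ofReal_mul, Complex.im_ofReal_mul]
  set a := ‖w‖
  have hr' : r ≠ 0 := hr.ne'
  have h2 : (a / r) * r = a := by field_simp
  set q := a / r
  have e1 : (w.re - q * z.re) * (w.re - q * z.re) + (w.im - q * z.im) * (w.im - q * z.im) =
      (w.re * w.re + w.im * w.im) - 2 * q * (w.re * z.re + w.im * z.im) +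
        q ^ 2 * (z.re * z.re + z.im * z.im) := by ring
  have e2 : (w.re - z.re) * (w.re - z.re) + (w.im - z.im) * (w.im - z.im) =
      (w.re * w.re + w.im * w.im) - 2 * (w.re * z.re + w.im * z.im) +
        (z.re * z.re + z.im * z.im) := by ring
  rw [e1, e2, hz2, hw2, ← h2]
  ring

theorem dc_of (H : Ctx S P pos lam k4 del c) (hk5 : k4 + 2 * lam + 2 * del ≤ 1 / 1000)
    {C eta kap r : ℝ} (heta : 0 ≤ eta) (heta1 : eta ≤ 1 / 10 ^ 14) (hr : 0 < r)
    (hr1 : r ≤ 9 / 10 * S.h) {k : ℕ} {x0 : ℂ}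
    {t : ℝ} (L : Loc0 S c C eta kap r k x0 t) (B : LocB S eta t) :
    ∃ e, DC P c e r (1 / 10 ^ 6) (1 / 25) 0 := by
  refine ⟨(x0 - c) / r, ?_, ?_⟩
  · rw [norm_div, L.x0r, Complex.norm_real, Real.norm_of_nonneg hr.le]
    exact div_self hr.ne'
  · intro p hp hpr
    have hh := H.h_pos
    obtain ⟨hpn, hpt⟩ := pos_lt H hk5 hp (by linarith)
    have h1 := pt_x0 H heta L B hp hpn.le hpt
    have h2 := pt_abs H heta L B hp hpn.le hpt
    have hid := cone_id (p - c) (x0 - c) r hr L.x0r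
    have h3 : p - c - (x0 - c) = p - x0 := by ring
    rw [h3] at hid
    set D := |‖p - c‖ - r| with hD
    set T := |t - S.t (pos p)| with hT
    have hT0 : 0 ≤ T := abs_nonneg _
    have hD0 : 0 ≤ D := abs_nonneg _
    have h4 : ‖p - x0‖ ≤ (1 + 4 * eta) * D := by
      refine h1.trans ?_
      have h5 : (1 + 4 * eta) * ((1 - 2 * eta) * T) ≤ (1 + 4 * eta) * D :=
        mul_le_mul_of_nonneg_left h2 (by positivity)
      have h6 : (1 + eta) ≤ (1 + 4 * eta) * (1 - 2 * eta) := by nlinarith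
      have h7 := mul_le_mul_of_nonneg_right h6 hT0
      linarith
    have h5 : ‖p - x0‖ ^ 2 ≤ ((1 + 4 * eta) * D) ^ 2 := pow_le_pow_left₀ (norm_nonneg _) h4 2
    have h6 : (‖p - c‖ - r) ^ 2 = D ^ 2 := by rw [hD, sq_abs]
    have h7 : ‖p - x0‖ ^ 2 - (‖p - c‖ - r) ^ 2 ≤ 9 * eta * D ^ 2 := by
      rw [h6]
      have : (1 + 4 * eta) ^ 2 ≤ 1 + 9 * eta := by nlinarith
      have := mul_le_mul_of_nonneg_right this (sq_nonneg D)
      nlinarith
    have h8 : ‖p - c‖ / r ≤ 26 / 25 := by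
      rw [div_le_iff₀ hr]
      linarith
    have h9 : ‖p - c - (‖p - c‖ : ℂ) * ((x0 - c) / r)‖ ^ 2 ≤ (1 / 10 ^ 6 * D) ^ 2 := by
      rw [hid]
      have hq : 0 ≤ ‖p - c‖ / r := by positivity
      have h10 : ‖p - c‖ / r * (‖p - x0‖ ^ 2 - (‖p - c‖ - r) ^ 2) ≤
          ‖p - c‖ / r * (9 * eta * D ^ 2) := mul_le_mul_of_nonneg_left h7 hq
      have h11 : ‖p - c‖ / r * (9 * eta * D ^ 2) ≤ 26 / 25 * (9 * eta * D ^ 2) :=
        mul_le_mul_of_nonneg_right h8 (by positivity)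
      have h12 : eta * D ^ 2 ≤ 1 / 10 ^ 14 * D ^ 2 :=
        mul_le_mul_of_nonneg_right heta1 (sq_nonneg D)
      have h13 : 0 ≤ D ^ 2 := sq_nonneg D
      rw [mul_pow]
      norm_num at h12 ⊢
      linarith
    have := abs_le_of_sq_le_sq h9 (by positivity)
    have h14 := (le_abs_self _).trans this
    linarith

theorem ng_of (H : Ctx S P pos lam k4 del c) (hk5 : k4 + 2 * lam + 2 * del ≤ 1 / 1000)
    (hdel : del ≤ 1 / 1000) {eta kap r : ℝ} (heta : 0 ≤ eta) (heta1 : eta ≤ 1 / 10 ^ 14)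
    (hr : S.h / 20 ≤ r) (hr1 : r ≤ 9 / 10 * S.h) {k : ℕ} {x0 : ℂ}
    {t : ℝ} (L : Loc0 S c 100 eta kap r k x0 t) (B : LocB S eta t) :
    NG P c r 220 (r / 100) 0 := by
  intro s hs0 hs1 ⟨p, hp, hps⟩
  have hh := H.h_pos
  have habs := abs_le.mp hps
  obtain ⟨hpn, hpt⟩ := pos_lt H hk5 hp (by linarith)
  have h2 := pt_abs H heta L B hp hpn.le hpt
  have hT : |t - S.t (pos p)| ≤ 1002 / 1000 * s := by
    have h3 : (1 - 2 * eta) * |t - S.t (pos p)| ≤ s := h2.trans hps
    have h4 : 0 ≤ |t - S.t (pos p)| := abs_nonneg _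
    have h5 : 999 / 1000 * |t - S.t (pos p)| ≤ (1 - 2 * eta) * |t - S.t (pos p)| :=
      mul_le_mul_of_nonneg_right (by norm_num at heta1 ⊢; linarith) h4
    linarith
  have hTa := abs_le.mp hT
  have htk := L.tk
  have htk1 := L.tk1
  have hkn := L.kn
  -- the edge k
  have hlk : S.ell k ≤ 101 * s := by
    rcases Nat.lt_or_ge k (pos p) with h | h
    · have h1 := L.l2 k hkn
      rw [abs_sub_comm, abs_of_nonneg (by linarith)] at h1
      have h4 : S.t (k + 1) ≤ S.t (pos p) := S.t_mono h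
      linarith
    · have h1 := L.l1 k hkn
      rw [abs_of_nonneg (by linarith)] at h1
      have h4 : S.t (pos p) ≤ S.t k := S.t_mono h
      linarith
  have htk1' := S.t_succ k
  have hd0 := H.d0
  have ht1 : t ≤ 901 / 1000 * S.h := by
    have h1 := L.dn 0 (Nat.zero_le _)
    rw [S.t_zero, sub_zero] at h1
    have h3 : t ≤ S.h := htk1.le.trans (H.t_le hkn)
    have h4 : eta * t ≤ 1 / 10000 * S.h := by
      have h5 : eta * t ≤ eta * S.h := mul_le_mul_of_nonneg_left h3 heta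
      have h6 : eta * S.h ≤ 1 / 10000 * S.h :=
        mul_le_mul_of_nonneg_right (by norm_num at heta1 ⊢; linarith) hh.le
      linarith
    have h5 := norm_nonneg (S.v 0 - c)
    linarith
  have ht0 : 49 / 50 * r ≤ t := by
    have h1 := L.dn' 0 (Nat.zero_le _)
    rw [S.t_zero, sub_zero] at h1
    have h2 : del * S.h ≤ 1 / 1000 * S.h := mul_le_mul_of_nonneg_right hdel hh.le
    linarith
  have hlow : ∀ y : ℝ, 21 / 10 * s ≤ y → 2 * s ≤ (1 - eta) * y := by
    intro y hy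
    have h1 : 999 / 1000 * y ≤ (1 - eta) * y :=
      mul_le_mul_of_nonneg_right (by norm_num at heta1 ⊢; linarith) (by linarith)
    linarith
  constructor
  · obtain ⟨a, -, hak, ha1, ha2⟩ := exists_le_lt S.t (t - 21 / 10 * s) (Nat.zero_le (k + 1))
      (by rw [S.t_zero]; linarith) (by linarith)
    refine ⟨S.v a, H.pts.v_mem a (by omega), ?_, ?_⟩
    · have h1 := L.dn' a (by omega)
      have h2 : t - S.t a ≤ 220 * s := by
        rcases Nat.lt_or_ge a k with h | h
        · have h3 := L.l2 a (by omega)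
          have h4 : S.t (a + 1) ≤ S.t k := S.t_mono h
          rw [abs_of_nonneg (by linarith)] at h3
          have h5 := S.t_succ a
          linarith
        · have : a = k := by omega
          subst this
          linarith
      linarith
    · have h1 := L.dn a (by omega)
      have h2 := hlow (t - S.t a) (by linarith)
      linarith
  · obtain ⟨b, hkb, hbn, hb1, hb2⟩ := exists_lt_le S.t (t + 21 / 10 * s) hkn.le
      (by linarith) (by have : S.t S.n = S.h := rfl; rw [this]; linarith)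
    refine ⟨S.v (b + 1), H.pts.v_mem (b + 1) hbn, ?_, ?_⟩
    · have h1 := L.up (b + 1) (by omega) hbn
      have h2 := hlow (S.t (b + 1) - t) (by linarith)
      linarith
    · have h1 := L.up' (b + 1) (by omega) hbn
      have h2 : S.t (b + 1) - t ≤ 220 * s := by
        rcases Nat.lt_or_ge k b with h | h
        · have h3 := L.l1 b hbn
          have h4 : S.t (k + 1) ≤ S.t b := S.t_mono h
          rw [abs_sub_comm, abs_of_nonneg (by linarith)] at h3
          have h5 := S.t_succ b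
          linarith
        · have : b = k := by omega
          subst this
          linarith
      linarith

/-- The cover of the radii where `G6` fails. -/
theorem g6_cover (H : Ctx S P pos lam k4 del c)
    (hk5 : k4 + 2 * lam + 2 * del ≤ 1 / 10 ^ 9) {eps : ℝ} (heps : 0 < eps)
    (heps1 : eps ≤ 1 / 10 ^ 9) (hnum : lam + 2 * k4 / eps < eps / 40) :
    Cov {r | S.h / 20 ≤ r ∧ r ≤ 9 / 10 * S.h ∧
      ¬ G6 P c r (998 / 100000) (1001 / 100000) (1002 / 100000) (49 / 100)} S.n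
      (88 / 10000 * S.h) := by
  have hh := H.h_pos
  have h := Cov.family (Finset.range S.n)
    (fun k => (S.t k - 1 / 10 ^ 8 * S.h) / (1002 / 100000))
    (fun k => (S.t k - 1 / 10 ^ 8 * S.h) / (1002 / 100000) + 88 / 10000 * S.ell k)
    (fun k _ => by have := S.ell_nonneg k; linarith)
  rw [Finset.card_range] at h
  refine h.mono ?_ (le_of_eq ?_)
  · rintro r ⟨hr0, hr1, hG⟩
    unfold G6 at hG
    push Not at hG
    obtain ⟨⟨p, hp, hp1, hp2⟩, hno⟩ := hG
    have hk5' : (k4 + 2 * lam + 2 * del) * S.h ≤ 1 / 10 ^ 9 * S.h :=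
      mul_le_mul_of_nonneg_right hk5 hh.le
    have hdel' : del * S.h ≤ 1 / 10 ^ 9 * S.h :=
      mul_le_mul_of_nonneg_right (by linarith [H.lam0, H.k40, H.del0]) hh.le
    have hd0 := H.d0
    have hdn := H.le_d (le_refl S.n)
    have htn : S.t S.n = S.h := rfl
    rw [htn] at hdn
    norm_num at hk5' hdel'
    obtain ⟨k, -, hkn, hk0, hk1⟩ := exists_lt_le (fun j => ‖S.v j - c‖) (1002 / 100000 * r)
      (Nat.zero_le S.n) (by linarith) (by linarith)
    have hk2 := hno (S.v (k + 1)) (H.pts.v_mem _ hkn) hk1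
    have hdk := H.le_d hkn.le
    have hell : ‖S.v (k + 1) - c‖ ≤ S.ell k + ‖S.v k - c‖ :=
      norm_sub_le_norm_sub_add_norm_sub _ _ _
    have hposk : pos p ≤ k := by
      by_contra hcon
      push Not at hcon
      have h1 := H.top hp
      have h2 : S.t (k + 1) ≤ S.t (min (pos p) S.n) := S.t_mono (by omega)
      have h3 := H.d_le (j := k + 1)
      linarith
    have hpn : pos p ≤ S.n := by omega
    have htp : S.t (pos p) ≤ S.t k := S.t_mono hposk
    have hdp : ‖p - c‖ ≤ S.t k + 2 / 10 ^ 9 * S.h := by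
      have h3 := H.d_le (j := pos p)
      rcases H.pts.near p hp hpn with h | ⟨x, hx, hkx, hs⟩
      · rw [h]
        norm_num
        linarith
      · have h4 := H.rigid heps (by linarith) hnum hx (by rw [hkx]; linarith)
        have h5 : eps * S.h ≤ 1 / 10 ^ 9 * S.h := mul_le_mul_of_nonneg_right heps1 hh.le
        have h6 : ‖p - c‖ ≤ ‖p - S.v (S.k x)‖ + ‖S.v (S.k x) - c‖ :=
          norm_sub_le_norm_sub_add_norm_sub _ _ _
        rw [hkx] at h6 hs
        norm_num at h5 ⊢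
        linarith
    norm_num at hdp
    refine ⟨k, Finset.mem_range.mpr hkn, ?_, ?_⟩
    · rw [div_le_iff₀ (by norm_num)]
      norm_num
      linarith
    · rw [← sub_le_iff_le_add, le_div_iff₀ (by norm_num)]
      norm_num
      linarith
  · simp only [add_sub_cancel_left]
    rw [← Finset.mul_sum]
    rfl

end

end Pool.Agent.H49.Tsp
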