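import Pool.Agent.H49.Tsp.StrandE
import Pool.Agent.H49.Tsp.Defs3

/-!
The strand theorem.
-/

set_option autoImplicit false

namespace Pool.Agent.H49.Tsp

open Classical

theorem strand_good : ∃ lam k4 del : ℝ, SGood lam k4 del := by
  refine ⟨1 / 10 ^ 40, 1 / 10 ^ 100, 1 / 10 ^ 20, by positivity, by positivity, by positivity,
    by norm_num, by norm_num, by norm_num, ?_⟩
  intro ι S P pos hT hP hn c hc
  have H : Ctx S P pos (1 / 10 ^ 40) (1 / 10 ^ 100) (1 / 10 ^ 20) c :=
    ⟨hT, hP, hn, hc, by positivity, by norm_num, by positivity, by positivity, by norm_num⟩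
  have hh := H.h_pos
  have htn : S.t S.n = S.h := rfl
  -- the two covers of bad radii
  have A1 : Cov {r | ¬ Good S c 100 (1 / 10 ^ 14) (1 / 10 ^ 17) r} (6 * S.n + S.C.card)
      (41 / 1000 * S.h) := by
    refine (good_cover H (by norm_num) (by positivity) (by positivity)).mono
      (fun _ h => h) ?_
    norm_num
    linarith
  have A2 : Cov {r | ¬ Good S c (10 ^ 10) (1 / 4) (1 / 10 ^ 17) r} (6 * S.n + S.C.card)
      (1 / 10 ^ 8 * S.h) := by
    refine (good_cover H (by positivity) (by norm_num) (by positivity)).mono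
      (fun _ h => h) ?_
    norm_num
    linarith
  have A3 := g6_cover H (by norm_num) (eps := 1 / 10 ^ 30) (by positivity) (by norm_num)
    (by norm_num)
  have hk5 : (1 / 10 ^ 100 : ℝ) + 2 * (1 / 10 ^ 40) + 2 * (1 / 10 ^ 20) ≤ 1 / 1000 := by norm_num
  have hd0 := H.d0
  have hdn := H.le_d (le_refl S.n)
  rw [htn] at hdn
  have hd0' : ‖S.v 0 - c‖ ≤ 1 / 10000 * S.h := by
    refine hd0.trans (mul_le_mul_of_nonneg_right (by norm_num) hh.le)
  have hdn' : 999 / 1000 * S.h ≤ ‖S.v S.n - c‖ := by
    have := mul_le_mul_of_nonneg_right hk5 hh.le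
    linarith
  obtain ⟨a, b, h1, h2, h3⟩ := A1.union A3
  refine ⟨6 * S.n + S.C.card + S.n, a, b, by omega, h1, ?_, ?_⟩
  · refine h2.trans ?_
    linarith
  · intro r hr0 hr1 hbad
    apply h3
    by_contra hcon
    simp only [Set.mem_union, Set.mem_ofPred_eq, not_or, not_not, not_and] at hcon
    obtain ⟨hgood, hg6⟩ := hcon
    have hg6 := hg6 hr0 hr1
    apply hbad
    obtain ⟨k, x0, t, L⟩ := exists_loc0 H (by norm_num) (by positivity) hgood (by linarith)
      (by linarith)
    have B : LocB S (1 / 10 ^ 14) t := ⟨fun x hx hxt =>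
      branch H le_rfl (by positivity) (by norm_num) (by positivity) (by norm_num) (by norm_num)
        hgood L hx hxt⟩
    refine ⟨dc_of H hk5 (by positivity) le_rfl (by linarith) hr1 L B,
      ng_of H hk5 (by norm_num) (by positivity) le_rfl hr0 hr1 L B, hg6, ?_, ?_⟩
    · obtain ⟨r', hr'0, hr'1, hgood'⟩ := A2.exists_not_mem
        (al := 9992 / 1000000 * r) (be := 9998 / 1000000 * r) (by norm_num; linarith)
      simp only [Set.mem_ofPred_eq, not_not] at hgood'
      obtain ⟨k', x0', t', L'⟩ := exists_loc0 H (by positivity) (by positivity) hgood'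
        (by linarith) (by linarith)
      have B' : LocB S (1 / 4) t' := ⟨fun x hx hxt =>
        branch H (by norm_num) (by positivity) (by norm_num) (by positivity) (by norm_num)
          (by norm_num) hgood' L' hx hxt⟩
      refine ⟨r', hr'0, hr'1, k', L'.kn, ?_⟩
      intro p hp
      have htk' : S.t k' ≤ 19 / 1000 * S.h := by
        have h4 := L'.dn 0 (Nat.zero_le _)
        rw [S.t_zero, sub_zero] at h4
        have h5 := norm_nonneg (S.v 0 - c)
        have h6 := L'.tk
        linarith
      constructor
      · intro hpk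
        have h4 : S.t (pos p) ≤ S.t k' := S.t_mono hpk
        have h5 := pt_dn H (by positivity) L' B' hp (by have := L'.kn; omega) (by linarith) hpk
        have h6 := L'.tk
        linarith
      · intro hpk
        by_cases h7 : ‖p - c‖ ≤ 94 / 100 * S.h
        · obtain ⟨h8, h9⟩ := pos_lt H hk5 hp h7
          have h5 := pt_up H (by positivity) L' B' hp h8.le h9 hpk
          have h4 : S.t (k' + 1) ≤ S.t (pos p) := S.t_mono hpk
          have h6 := L'.tk1
          linarith
        · push Not at h7
          linarith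
    · intro x hx hxt
      have h4 := B.br x hx hxt
      have h5 : (1 - 1 / 10 ^ 14) * |t - S.t (S.k x)| ≤ |‖S.v (S.k x) - c‖ - r| := by
        rcases Nat.lt_or_ge k (S.k x) with h | h
        · have h6 := L.up (S.k x) h (H.tight.k_le x hx)
          have h7 : S.t (k + 1) ≤ S.t (S.k x) := S.t_mono h
          have h8 := L.tk1
          rw [abs_sub_comm t, abs_of_nonneg (a := S.t (S.k x) - t) (by linarith)]
          exact h6.trans (le_abs_self _)
        · have h6 := L.dn (S.k x) h
          have h7 : S.t (S.k x) ≤ S.t k := S.t_mono h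
          have h8 := L.tk
          rw [abs_of_nonneg (a := t - S.t (S.k x)) (by linarith), abs_sub_comm]
          exact h6.trans (le_abs_self _)
      have h6 := abs_nonneg (t - S.t (S.k x))
      norm_num at h4 h5
      linarith

end Pool.Agent.H49.Tsp
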