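import Pool.Agent.H49.Tsp.StreamPar
import Pool.Agent.H49.Tsp.Phi
import Pool.Agent.H49.Tsp.Serr
import Pool.Agent.H49.Tsp.RunSk
import Pool.Agent.H49.Tsp.Bridge
import Pool.Agent.H49.Tsp.Cells

/-!
The active cells of the streaming algorithm and the active squares of the point set.
-/

set_option autoImplicit false

namespace Pool.Agent.H49.Tsp

open Classical

theorem pts_eq (l : List (ℕ × ℕ)) : pts l = l.toFinset.image pt := rfl

/-- natural indices as integer indices -/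
def zc (c : ℕ × ℕ) : ℤ × ℤ := ((c.1 : ℤ), (c.2 : ℤ))

theorem zc_inj : Function.Injective zc := by
  intro a b h
  simp only [zc, Prod.mk.injEq, Nat.cast_inj] at h
  exact Prod.ext h.1 h.2

/-- The hitting relation of a scale. -/
def hitN (D : ℝ) (s : ℂ) (Q x : ℕ × ℕ) : Prop := InWin D (cor s D (zc Q)) (pt x)

theorem floor_range {D : ℝ} (hD : 1 ≤ D) {a : ℕ} (ha : a < 1000) {x Δ : ℕ} (h1 : 1 ≤ x)
    (h2 : x ≤ Δ) {z : ℤ} (hz1 : ((a : ℝ) / 1000 - 2) * D + z * D - D ≤ x)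
    (hz2 : (x : ℝ) < ((a : ℝ) / 1000 - 2) * D + z * D + 2 * D) : 0 ≤ z ∧ z < Δ + 5 := by
  have hD0 : 0 < D := by linarith
  have hx1 : (1 : ℝ) ≤ x := by exact_mod_cast h1
  have hx2 : (x : ℝ) ≤ Δ := by exact_mod_cast h2
  have ha' : (a : ℝ) < 1000 := by exact_mod_cast ha
  have ha0 : (0 : ℝ) ≤ a := Nat.cast_nonneg a
  constructor
  · by_contra hcon
    push Not at hcon
    have hz : (z : ℝ) ≤ -1 := by exact_mod_cast (by omega : z ≤ -1)
    have : (x : ℝ) < 0 := by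
      calc (x : ℝ) < ((a : ℝ) / 1000 - 2) * D + z * D + 2 * D := hz2
        _ = ((a : ℝ) / 1000 + z) * D := by ring
        _ ≤ 0 := by
          apply mul_nonpos_of_nonpos_of_nonneg _ hD0.le
          linarith
    linarith
  · by_contra hcon
    push Not at hcon
    have hz : (Δ : ℝ) + 5 ≤ z := by exact_mod_cast hcon
    have hΔ : (0 : ℝ) ≤ Δ := Nat.cast_nonneg Δ
    have : ((a : ℝ) / 1000 - 2) * D + z * D - D = ((a : ℝ) / 1000 - 3 + z) * D := by ring
    rw [this] at hz1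
    have h3 : (Δ : ℝ) + 2 ≤ (a : ℝ) / 1000 - 3 + z := by linarith [div_nonneg ha0 (by norm_num : (0:ℝ) ≤ 1000)]
    nlinarith

theorem act_eq_image {Δ : ℕ} {l : List (ℕ × ℕ)} (hl : H29.Stream.InBox Δ l) {D : ℝ} (hD : 1 ≤ D)
    {a b : ℕ} (ha : a < 1000) (hb : b < 1000) :
    act (pts l) (off D a b) D = (H29.Stream.act (hitN D (off D a b)) (Δ + 5) l).image zc := by
  have hD0 : 0 < D := by linarith
  ext Q
  rw [mem_act _ _ _ hD0, Finset.mem_image]
  constructor
  · rintro ⟨p, hp⟩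
    unfold win at hp
    rw [Finset.mem_filter] at hp
    obtain ⟨hp1, h1, h2, h3, h4⟩ := hp
    rw [pts_eq, Finset.mem_image] at hp1
    obtain ⟨x, hx, rfl⟩ := hp1
    rw [List.mem_toFinset] at hx
    obtain ⟨b1, b2, b3, b4⟩ := hl x hx
    have e1 := floor_range hD ha b1 b2 (z := Q.1) (by simpa [cor, off, pt] using h1)
      (by simpa [cor, off, pt] using h2)
    have e2 := floor_range hD hb b3 b4 (z := Q.2) (by simpa [cor, off, pt] using h3)
      (by simpa [cor, off, pt] using h4)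
    have hQ : zc (Q.1.toNat, Q.2.toNat) = Q := by
      unfold zc
      exact Prod.ext (Int.toNat_of_nonneg e1.1) (Int.toNat_of_nonneg e2.1)
    refine ⟨(Q.1.toNat, Q.2.toNat), ?_, hQ⟩
    unfold H29.Stream.act
    rw [Finset.mem_filter, Finset.mem_product, Finset.mem_range, Finset.mem_range]
    refine ⟨⟨?_, ?_⟩, x, hx, ?_⟩
    · have := e1.1; have := e1.2; simp only; omega
    · have := e2.1; have := e2.2; simp only; omega
    · unfold hitN
      rw [hQ]
      exact ⟨h1, h2, h3, h4⟩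
  · rintro ⟨c, hc, rfl⟩
    unfold H29.Stream.act at hc
    rw [Finset.mem_filter] at hc
    obtain ⟨-, x, hx, hh⟩ := hc
    refine ⟨pt x, ?_⟩
    unfold win
    rw [Finset.mem_filter]
    exact ⟨by rw [pts_eq]; exact Finset.mem_image_of_mem _ (List.mem_toFinset.2 hx), hh⟩

theorem act_sum {Δ : ℕ} {l : List (ℕ × ℕ)} (hl : H29.Stream.InBox Δ l) {D : ℝ} (hD : 1 ≤ D)
    {a b : ℕ} (ha : a < 1000) (hb : b < 1000) (f : ℤ × ℤ → ℝ) :
    ∑ Q ∈ act (pts l) (off D a b) D, f Q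
      = ∑ c ∈ H29.Stream.act (hitN D (off D a b)) (Δ + 5) l, f (zc c) := by
  rw [act_eq_image hl hD ha hb, Finset.sum_image (fun x _ y _ h => zc_inj h)]

theorem act_card_eq {Δ : ℕ} {l : List (ℕ × ℕ)} (hl : H29.Stream.InBox Δ l) {D : ℝ} (hD : 1 ≤ D)
    {a b : ℕ} (ha : a < 1000) (hb : b < 1000) :
    (act (pts l) (off D a b) D).card
      = (H29.Stream.act (hitN D (off D a b)) (Δ + 5) l).card := by
  rw [act_eq_image hl hD ha hb, Finset.card_image_of_injective _ zc_inj]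

/-- The points of the stream in the window. -/
noncomputable def wpts (l : List (ℕ × ℕ)) (D : ℝ) (q : ℂ) : Finset (ℕ × ℕ) :=
  l.toFinset.filter (fun x => InWin D q (pt x))

theorem win_pts (l : List (ℕ × ℕ)) (D : ℝ) (q : ℂ) : win (pts l) D q = (wpts l D q).image pt := by
  rw [pts_eq, win_image]
  rfl

theorem inYW_wpts {Δ : ℕ} {l : List (ℕ × ℕ)} (hl : H29.Stream.InBox Δ l) (D : ℝ) (q : ℂ) :
    InYW Δ D q (wpts l D q) := by
  intro x hx
  unfold wpts at hx
  rw [Finset.mem_filter, List.mem_toFinset] at hx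
  exact ⟨hl x hx.1, hx.2⟩

theorem skv_le (Δ n k1 ms Z N : ℕ) (g D tau0 : ℝ) (θ : Fin ms → Fin N) (q : ℂ)
    (κ : Idx n k1 ms Z) (x : ℕ × ℕ) (hx : x.1 ≤ Δ ∧ x.2 ≤ Δ) :
    skv Δ n k1 ms Z N g D tau0 θ q κ x ≤ Δ + 1 := by
  unfold skv
  obtain a | ⟨a, k, j, b, z, e⟩ := κ
  · simp only
    split_ifs <;> omega
  · simp only
    split_ifs
    · unfold dirv
      split_ifs <;> omega
    · omega

end Pool.Agent.H49.Tsp
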