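import Pool.Agent.H49.Tsp.StreamMain

/-!
The seeded streaming algorithm for the value: assembly.
-/

set_option autoImplicit false

namespace Pool.Agent.H49.Tsp

open Classical Par
open Pool.Agent.H29.Stream (PB PB.const PB.id PB.add PB.mul PB.pow SeedStr InBox seedStr_stat)

theorem card_Idx (n k1 ms Z : ℕ) :
    Fintype.card (Idx n k1 ms Z) = n * n + n * n * (k1 * (ms * (2 * (Z * 4)))) := by
  simp only [Idx, Fintype.card_sum, Fintype.card_prod, Fintype.card_fin, Fintype.card_bool]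

theorem lt_two_pow_L (Δ : ℕ) : Δ < 2 ^ (Nat.log 2 Δ + 1) :=
  Nat.lt_pow_succ_log_self (by norm_num) Δ

theorem pts_card {Δ : ℕ} {l : List (ℕ × ℕ)} (hl : InBox Δ l) :
    (pts l).card ≤ 2 ^ (2 * (Nat.log 2 Δ + 1)) := by
  have h1 : (pts l).card ≤ l.toFinset.card := Finset.card_image_le
  have h2 : l.toFinset ⊆ (Finset.Icc 1 Δ) ×ˢ (Finset.Icc 1 Δ) := by
    intro x hx
    rw [List.mem_toFinset] at hx
    obtain ⟨a1, a2, a3, a4⟩ := hl x hx
    rw [Finset.mem_product, Finset.mem_Icc, Finset.mem_Icc]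
    exact ⟨⟨a1, a2⟩, a3, a4⟩
  have h3 := Finset.card_le_card h2
  rw [Finset.card_product, Nat.card_Icc, Nat.add_sub_cancel] at h3
  have h4 := (lt_two_pow_L Δ).le
  calc (pts l).card ≤ Δ * Δ := h1.trans h3
    _ ≤ 2 ^ (Nat.log 2 Δ + 1) * 2 ^ (Nat.log 2 Δ + 1) := Nat.mul_le_mul h4 h4
    _ = 2 ^ (2 * (Nat.log 2 Δ + 1)) := by rw [← pow_add]; congr 1; ring

theorem pts_sep {l : List (ℕ × ℕ)} : ∀ p ∈ pts l, ∀ q ∈ pts l, p ≠ q → 1 ≤ ‖p - q‖ := by
  intro p hp q hq hne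
  rw [pts_eq, Finset.mem_image] at hp hq
  obtain ⟨x, -, rfl⟩ := hp
  obtain ⟨y, -, rfl⟩ := hq
  have key : ∀ a b : ℕ, a ≠ b → (1 : ℝ) ≤ |(a : ℝ) - b| := by
    intro a b hab
    have h1 : (1 : ℤ) ≤ |(a : ℤ) - b| := Int.one_le_abs (by omega)
    have h2 : ((1 : ℤ) : ℝ) ≤ ((|(a : ℤ) - b| : ℤ) : ℝ) := by exact_mod_cast h1
    push_cast at h2
    exact h2
  by_cases h1 : x.1 = y.1
  · have h2 : x.2 ≠ y.2 := fun h => hne (by unfold pt; rw [h1, h])
    refine (key _ _ h2).trans ?_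
    have := Complex.abs_im_le_norm (pt x - pt y)
    simpa [pt] using this
  · refine (key _ _ h1).trans ?_
    have := Complex.abs_re_le_norm (pt x - pt y)
    simpa [pt] using this

theorem pts_dist {Δ : ℕ} {l : List (ℕ × ℕ)} (hl : InBox Δ l) :
    ∀ p ∈ pts l, ∀ q ∈ pts l, ‖p - q‖ ≤ 2 ^ (Nat.log 2 Δ + 1 + 1) := by
  intro p hp q hq
  rw [pts_eq, Finset.mem_image] at hp hq
  obtain ⟨x, hx, rfl⟩ := hp
  obtain ⟨y, hy, rfl⟩ := hq
  rw [List.mem_toFinset] at hx hy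
  obtain ⟨a1, a2, a3, a4⟩ := hl x hx
  obtain ⟨b1, b2, b3, b4⟩ := hl y hy
  have key : ∀ a b : ℕ, a ≤ Δ → b ≤ Δ → |(a : ℝ) - b| ≤ Δ := by
    intro a b ha hb
    have ha' : (a : ℝ) ≤ Δ := by exact_mod_cast ha
    have hb' : (b : ℝ) ≤ Δ := by exact_mod_cast hb
    rw [abs_le]
    constructor <;> linarith [Nat.cast_nonneg (α := ℝ) a, Nat.cast_nonneg (α := ℝ) b]
  have h1 := Complex.norm_le_abs_re_add_abs_im (pt x - pt y)
  have h2 : |(pt x - pt y).re| ≤ Δ := by simpa [pt] using key _ _ a2 b2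
  have h3 : |(pt x - pt y).im| ≤ Δ := by simpa [pt] using key _ _ a4 b4
  have h4 : (Δ : ℝ) ≤ 2 ^ (Nat.log 2 Δ + 1) := by exact_mod_cast (lt_two_pow_L Δ).le
  rw [pow_succ]
  linarith

/-- The seeded streaming algorithm for the value. -/
theorem value_stream : ∃ eps : ℝ, 0 < eps ∧ eps < 1 ∧ ∀ eps0 : ℝ, 0 < eps0 →
    SeedStr 6 (fun _ l => {y | l = [] ∨ ∃ T : RTree (pts l), T.IsMst ∧
      2 * (y - eps0 * T.total) ≤ tsp (pts l) ∧
      ((2 - eps) * T.total ≤ tsp (pts l) → (3 / 5 - eps0) * T.total ≤ y)}) := by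
  obtain ⟨eps, d, he0, he1, hd, hV⟩ := value_ge'
  refine ⟨eps, he0, he1, fun eps0 h0 => ?_⟩
  obtain ⟨c, hc⟩ := exists_nat_ge (15552 / eps0)
  have hc0 : 0 < c := by
    have : (0 : ℝ) < c := lt_of_lt_of_le (by positivity) hc
    exact_mod_cast this
  -- the size of everything
  let Y : ℕ → ℕ := fun L => J L + (L + 3) + nN L * ms c d L
    + (L + 1) * (n d L * n d L + n d L * n d L * (k1 d L * (ms c d L * (2 * (Z L * 4)))))
    + (162 + c * (I L * (n d L ^ 2 * k1 d L))) + 1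
  have hn := pb_n d
  have hk := pb_k1 d
  have hms := pb_ms c d
  have hY : PB Y := by
    refine PB.add (PB.add (PB.add (PB.add (PB.add pb_J (PB.id.add (PB.const 3)))
      (pb_nN.mul hms)) ((PB.id.add (PB.const 1)).mul ((hn.mul hn).add ((hn.mul hn).mul
        (hk.mul (hms.mul ((PB.const 2).mul (pb_Z.mul (PB.const 4))))))))) ?_) (PB.const 1)
    exact (PB.const 162).add ((PB.const c).mul (pb_I.mul ((hn.pow 2).mul hk)))
  obtain ⟨A, a, hA⟩ := hY
  refine seedStr_stat 6 A a _ (fun Δ hΔ => ?_)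
  obtain ⟨L, hL⟩ : ∃ L, L = Nat.log 2 Δ + 1 := ⟨_, rfl⟩
  rw [← hL]
  have hL1 : 1 ≤ L := by omega
  have hΔL : Δ < 2 ^ L := by rw [hL]; exact lt_two_pow_L Δ
  have hAL := hA L hL1
  obtain ⟨E, hE⟩ : ∃ E, E = A * L ^ a := ⟨_, rfl⟩
  rw [← hE] at hAL ⊢
  have hB : ∀ j, 0 < Bn d L (dσ L j) (di L j) := fun j => Bn_pos d L _ _
  refine ⟨Δ + 5, J L, 1, Fin (ms c d L) → Fin (N L), inferInstance,
    ⟨fun _ => ⟨0, N_pos L⟩⟩, fun _ => Idx (n d L) (k1 d L) (ms c d L) (Z L) → Fin (Δ + 1 + 1),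
    fun _ => inferInstance,
    fun j _ => hitN (DD L (dσ L j) (di L j)) (off (DD L (dσ L j) (di L j)) (da j) (db j)),
    fun _ _ _ => fun _ => 0,
    fun j θ Q S x => fun κ => max (S κ) (Fin.ofNat (Δ + 1 + 1)
      (Fsk Δ c d L (dσ L j) (di L j) (da j) (db j) θ Q κ x)),
    fun _ j θ Q S => phi0 Δ (n d L) (2 ^ d) (k1 d L) (ms c d L) (Z L) (N L)
        (gg d L (dσ L j) (di L j)) (DD L (dσ L j) (di L j)) (tau0 L) θ
        (cor (off (DD L (dσ L j) (di L j)) (da j) (db j)) (DD L (dσ L j) (di L j)) (zc Q))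
        (fun κ => (S κ : ℕ)) / Bn d L (dσ L j) (di L j),
    fun _ T => outv d L (T 0), ?_, ?_, ?_, ?_, ?_, ?_, ?_⟩
  · -- M
    have h1 : Δ + 5 ≤ 2 ^ (L + 3) := by
      rw [pow_add]
      have : 1 ≤ 2 ^ L := Nat.one_le_two_pow
      omega
    refine h1.trans (Nat.pow_le_pow_right (by norm_num) ?_)
    have : L + 3 ≤ Y L := by simp only [Y]; omega
    exact this.trans hAL
  · -- J
    have : J L ≤ Y L := by simp only [Y]; omega
    exact this.trans hAL
  · -- R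
    have : 1 ≤ Y L := by simp only [Y]; omega
    exact this.trans hAL
  · -- seeds
    rw [Fintype.card_fun, Fintype.card_fin, Fintype.card_fin, N_eq, ← pow_mul]
    apply Nat.pow_le_pow_right (by norm_num)
    have : nN L * ms c d L ≤ Y L := by simp only [Y]; omega
    exact this.trans hAL
  · -- states
    intro j _
    rw [Fintype.card_fun, Fintype.card_fin, card_Idx]
    have h1 : Δ + 1 + 1 ≤ 2 ^ (L + 1) := by
      rw [pow_succ]
      have : 1 ≤ 2 ^ L := Nat.one_le_two_pow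
      omega
    refine (Nat.pow_le_pow_left h1 _).trans ?_
    rw [← pow_mul]
    apply Nat.pow_le_pow_right (by norm_num)
    refine le_trans ?_ hAL
    simp only [Y]
    omega
  · -- bounded
    intro r j θ Q S
    obtain ⟨b1, b2⟩ := phi0_bounds Δ (n d L) (2 ^ d) (k1 d L) (ms c d L) (Z L) (N L)
      (gg d L (dσ L j) (di L j)) (DD L (dσ L j) (di L j)) (tau0 L) (gg_pos d L _ _) θ
      (cor (off (DD L (dσ L j) (di L j)) (da j) (db j)) (DD L (dσ L j) (di L j)) (zc Q))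
      (n_ge d L _ _) (fun κ => (S κ : ℕ))
    rw [abs_of_nonneg (div_nonneg b1 (hB j).le), div_le_one (hB j)]
    exact b2
  · -- the guarantee
    intro l hl
    by_cases hnil : l = []
    · exact ⟨∅, by simp, fun θ _ T _ => Or.inl hnil⟩
    have hPne : (pts l).Nonempty := by
      obtain ⟨x, hx⟩ := List.exists_mem_of_ne_nil l hnil
      exact ⟨pt x, by rw [pts_eq]; exact Finset.mem_image_of_mem _ (List.mem_toFinset.2 hx)⟩
    obtain ⟨ω, hω⟩ := exists_tieBreak (pts l)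
    obtain ⟨T0, hT0⟩ := exists_mst hω (pts l) subset_rfl hPne
    have hmst : T0.IsMst := isMst_of_isMstW hω subset_rfl T0 hT0
    refine ⟨Finset.univ.filter (fun θ : Fin (ms c d L) → Fin (N L) =>
      eps0 / 4 * T0.total < SEtot c d L l θ), ?_, ?_⟩
    · have := bad_card c d L hc0 l T0 eps0 h0 hc
      exact this
    · intro θ hθ T hT
      right
      refine ⟨T0, hmst, ?_⟩
      rw [Finset.mem_filter, not_and] at hθ
      have hθ' := not_lt.1 (hθ (Finset.mem_univ _))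
      have hcard : (pts l).card ≤ 2 ^ (2 * L) := by rw [hL]; exact pts_card hl
      have hdist : ∀ p ∈ pts l, ∀ q ∈ pts l, ‖p - q‖ ≤ 2 ^ (L + 1) := by
        rw [hL]; exact pts_dist hl
      have hEY : 162 + c * (I L * (n d L ^ 2 * k1 d L)) ≤ E := by
        refine le_trans ?_ hAL
        simp only [Y]
        omega
      apply core eps c d hd hV eps0 h0 Δ L l hl ω hω T0 hT0 hcard pts_sep hdist θ hθ' E
        (by omega) ?_ (T 0) ?_
      · -- accuracy
        have h1 : ((162 + c * (I L * (n d L ^ 2 * k1 d L)) : ℕ) : ℝ) ≤ E := by exact_mod_cast hEY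
        push_cast at h1
        refine le_trans ?_ h1
        have h2 : (0 : ℝ) ≤ I L * ((n d L : ℝ) ^ 2 * k1 d L) := by positivity
        have h3 : 648 / eps0 ≤ (c : ℝ) := by
          refine le_trans ?_ hc
          exact div_le_div_of_nonneg_right (by norm_num) h0.le
        calc 648 * (I L * ((n d L : ℝ) ^ 2 * k1 d L)) / eps0
            = (648 / eps0) * (I L * ((n d L : ℝ) ^ 2 * k1 d L)) := by ring
          _ ≤ c * (I L * ((n d L : ℝ) ^ 2 * k1 d L)) := mul_le_mul_of_nonneg_right h3 h2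
          _ ≤ _ := by linarith
      · intro σ hσ i hi a' ha' b' hb'
        have hj := enc_lt L σ i a' b' hσ hi ha' hb'
        obtain ⟨e1, e2, e3, e4⟩ := dec_enc L σ i a' b' hi ha' hb'
        have h1 := hT 0 (enc L σ i a' b') hj
        simp only [e1, e2, e3, e4] at h1
        rw [sstat_eq hl c d L σ i ha' hb' θ] at h1
        exact h1

end Pool.Agent.H49.Tsp
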