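import Pool.Agent.H49.Tsp.Val
import Pool.Agent.H49.Tsp.Cross
import Pool.Agent.H49.Tsp.Rings

/-!
Values of squares from above: the clean circles of optimal families are disjoint and separate
points of `P`, so their total measure bounds the length of a tour.
-/

set_option autoImplicit false

namespace Pool.Agent.H49.Tsp

open Classical MeasureTheory

/-- The clean radii of the annulus `a`. -/
def vuR (g : ℝ) (N : ℕ) (tau : ℝ) (X : Finset ℂ) (a : ℂ × ℕ) : Set ℝ :=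
  ⋃ t ∈ (Finset.range N).filter (RGs g N tau X a),
    Set.Ico (((a.2 : ℝ) + t / N) * g) (((a.2 : ℝ) + (t + 1) / N) * g)

theorem vuR_mem {g : ℝ} {N : ℕ} {tau : ℝ} {X : Finset ℂ} {a : ℂ × ℕ} (hN : 0 < N) (hg : 0 < g)
    {r : ℝ} (hr : r ∈ vuR g N tau X a) :
    a.2 * g ≤ r ∧ r < ((a.2 : ℝ) + 1) * g ∧ RG X a.1 r tau := by
  unfold vuR at hr
  rw [Set.mem_iUnion₂] at hr
  obtain ⟨t, ht, hr⟩ := hr
  rw [Finset.mem_filter, Finset.mem_range] at ht
  obtain ⟨ht, hR⟩ := ht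
  have hN' : (0 : ℝ) < N := by exact_mod_cast hN
  have h0 : (0 : ℝ) ≤ (t : ℝ) / N := by positivity
  have h1 : ((t : ℝ) + 1) / N ≤ 1 := by
    rw [div_le_one hN']
    exact_mod_cast ht
  refine ⟨?_, ?_, hR r hr.1 hr.2⟩
  · refine le_trans ?_ hr.1
    nlinarith
  · refine lt_of_lt_of_le hr.2 ?_
    apply mul_le_mul_of_nonneg_right _ hg.le
    linarith

theorem vuR_meas (g : ℝ) (N : ℕ) (tau : ℝ) (X : Finset ℂ) (a : ℂ × ℕ) :
    MeasurableSet (vuR g N tau X a) :=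
  Finset.measurableSet_biUnion _ fun _ _ => measurableSet_Ico

theorem vuR_vol (g : ℝ) (N : ℕ) (tau : ℝ) (X : Finset ℂ) (a : ℂ × ℕ) (hN : 0 < N) (hg : 0 < g) :
    (volume (vuR g N tau X a)).toReal = g * gamR g N tau X a := by
  have hN' : (0 : ℝ) < N := by exact_mod_cast hN
  unfold vuR
  rw [measure_biUnion_finset]
  · have h1 : ∀ t ∈ (Finset.range N).filter (RGs g N tau X a),
        volume (Set.Ico (((a.2 : ℝ) + t / N) * g) (((a.2 : ℝ) + (t + 1) / N) * g))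
          = ENNReal.ofReal (g / N) := by
      intro t _
      rw [Real.volume_Ico]
      congr 1
      field_simp
      ring
    rw [Finset.sum_congr rfl h1, Finset.sum_const, nsmul_eq_mul, ENNReal.toReal_mul,
      ENNReal.toReal_natCast, ENNReal.toReal_ofReal (by positivity)]
    unfold gamR frac
    ring
  · intro t _ t' _ htt
    rw [Function.onFun, Set.disjoint_left]
    intro x hx hx'
    rcases lt_or_gt_of_ne htt with h | h
    · have h2 : ((t : ℝ) + 1) / N ≤ (t' : ℝ) / N := by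
        apply div_le_div_of_nonneg_right _ hN'.le
        exact_mod_cast h
      have h3 := hx.2
      have h4 := hx'.1
      nlinarith
    · have h2 : ((t' : ℝ) + 1) / N ≤ (t : ℝ) / N := by
        apply div_le_div_of_nonneg_right _ hN'.le
        exact_mod_cast h
      have h3 := hx'.2
      have h4 := hx.1
      nlinarith
  · intro t _
    exact measurableSet_Ico

theorem norm_sub_re (y c : ℂ) : |y.re - c.re| ≤ ‖y - c‖ := by
  have := Complex.abs_re_le_norm (y - c)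
  rwa [Complex.sub_re] at this

theorem norm_sub_im (y c : ℂ) : |y.im - c.im| ≤ ‖y - c‖ := by
  have := Complex.abs_im_le_norm (y - c)
  rwa [Complex.sub_im] at this

/-- Points near the centre of an annulus inside the square lie in the window. -/
theorem vu_win {P : Finset ℂ} {g D : ℝ} {q : ℂ} {a : ℂ × ℕ} {M : ℝ} (_hD : 0 < D)
    (hin : Inside g D q a) (hag : 0 ≤ ((a.2 : ℝ) + 1) * g) (hM : M < D) {p : ℂ} (hp : p ∈ P)
    (h : ‖p - a.1‖ ≤ M) : p ∈ win P D q := by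
  obtain ⟨h1, h2, h3, h4⟩ := hin
  have h5 := abs_le.1 ((norm_sub_re p a.1).trans h)
  have h6 := abs_le.1 ((norm_sub_im p a.1).trans h)
  unfold win
  rw [Finset.mem_filter]
  refine ⟨hp, ?_, ?_, ?_, ?_⟩ <;> linarith [h5.1, h5.2, h6.1, h6.2]

theorem vu_DC {P : Finset ℂ} {D : ℝ} {q c e : ℂ} {r kc tau : ℝ}
    (hw : ∀ p ∈ P, ‖p - c‖ ≤ (1 + 1 / 26) * r → p ∈ win P D q)
    (h : DC (win P D q) c e r kc (1 / 26) tau) : DC P c e r kc (1 / 26) tau :=
  ⟨h.1, fun p hp hpr => h.2 p (hw p hp hpr) hpr⟩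

theorem vu_NG {P : Finset ℂ} {D : ℝ} {q c : ℂ} {r tau : ℝ}
    (hr : 0 < r) (hw : ∀ p ∈ P, ‖p - c‖ ≤ (1 + 1 / 26) * r → p ∈ win P D q)
    (h : NG (win P D q) c r 250 (r / 200) tau) : NG P c r 250 (r / 200) tau := by
  have hsub : win P D q ⊆ P := Finset.filter_subset _ _
  intro s hs1 hs2 hs3
  obtain ⟨p, hp, hps⟩ := hs3
  have h1 := abs_le.1 hps
  obtain ⟨⟨p1, hp1, h2⟩, ⟨p2, hp2, h3⟩⟩ := h s hs1 hs2 ⟨p, hw p hp (by linarith [h1.2]), hps⟩
  exact ⟨⟨p1, hsub hp1, h2⟩, ⟨p2, hsub hp2, h3⟩⟩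

/-- The circles of two different scales do not meet. -/
theorem vu_cross {P : Finset ℂ} {g D g2 D2 : ℝ} {q q2 : ℂ} {k0 k1 N : ℕ} {tau : ℝ}
    (hN : 0 < N) (htau0 : 0 ≤ tau) (hk0 : 10 ^ 8 ≤ k0) (hg : 0 < g) (hg2 : 0 < g2)
    (hD : 4000 * (k1 * g) ≤ D) (hD2 : 4000 * (k1 * g2) ≤ D2) (hgap : 1000 * D ≤ k0 * g2)
    (htau : tau ≤ k0 * g / 10 ^ 8) {a b : ℂ × ℕ}
    (ha0 : k0 ≤ a.2) (ha1 : a.2 < k1) (haA : Adm g (win P D q) a) (hai : Inside g D q a)
    (hb0 : k0 ≤ b.2) (hb1 : b.2 < k1) (hbi : Inside g2 D2 q2 b)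
    {r s : ℝ} (hr : r ∈ vuR g N tau (win P D q) a) (hs : s ∈ vuR g2 N tau (win P D2 q2) b)
    (y : ℂ) (hy : ‖y - a.1‖ = r) (hy2 : ‖y - b.1‖ = s) : False := by
  obtain ⟨hr1, hr2, hrR⟩ := vuR_mem hN hg hr
  obtain ⟨hs1, hs2, hsR⟩ := vuR_mem hN hg2 hs
  have hk0' : (10 : ℝ) ^ 8 ≤ (k0 : ℝ) := by exact_mod_cast hk0
  have ha0' : (k0 : ℝ) ≤ a.2 := by exact_mod_cast ha0
  have ha1' : (a.2 : ℝ) + 1 ≤ k1 := by exact_mod_cast ha1
  have hb0' : (k0 : ℝ) ≤ b.2 := by exact_mod_cast hb0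
  have hb1' : (b.2 : ℝ) + 1 ≤ k1 := by exact_mod_cast hb1
  have hr3 : r < k1 * g := hr2.trans_le (by gcongr)
  have hs3 : s < k1 * g2 := hs2.trans_le (by gcongr)
  have e1 : (10 : ℝ) ^ 8 * g ≤ k0 * g := by gcongr
  have e2 : (k0 : ℝ) * g ≤ a.2 * g := by gcongr
  have e3 : (k0 : ℝ) * g2 ≤ b.2 * g2 := by gcongr
  have e4 : (10 : ℝ) ^ 8 * g2 ≤ k0 * g2 := by gcongr
  have hr0 : 0 < r := by nlinarith
  have hs0 : 0 < s := by nlinarith
  have hD0 : 0 < D := by nlinarith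
  have hD20 : 0 < D2 := by nlinarith
  have hwa : ∀ p ∈ P, ‖p - a.1‖ ≤ 290 * r → p ∈ win P D q := by
    intro p hp h
    exact vu_win (M := 290 * r) hD0 hai (by positivity) (by linarith) hp h
  have hwb : ∀ p ∈ P, ‖p - b.1‖ ≤ (1 + 1 / 26) * s → p ∈ win P D2 q2 := by
    intro p hp h
    exact vu_win (M := (1 + 1 / 26) * s) hD20 hbi (by positivity) (by linarith) hp h
  obtain ⟨⟨ea, hDCa⟩, hNGa⟩ := hrR
  obtain ⟨⟨eb, hDCb⟩, hNGb⟩ := hsR
  have hsub : win P D q ⊆ P := Finset.filter_subset _ _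
  refine cross P (OO g (win P D q)) b.1 a.1 eb ea s r (a.2 * g) g tau (by nlinarith) hr1
    (by nlinarith) (by nlinarith) hg.le (by linarith) htau0 (by linarith) (vu_DC hwb hDCb)
    (vu_NG hs0 hwb hNGb) ?_ ?_ ⟨a.1, haA.1, by simpa using hg.le⟩
    (vu_DC (fun p hp h => hwa p hp (by linarith)) hDCa) haA.2.1 haA.2.2.1 y hy2 hy
  · intro o ho
    unfold OO at ho
    rw [Finset.mem_image] at ho
    obtain ⟨p, hp, rfl⟩ := ho
    refine ⟨p, hsub hp, val_cel_dist g hg p, ?_⟩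
    unfold win at hp
    rw [Finset.mem_filter] at hp
    obtain ⟨-, w1, w2, w3, w4⟩ := hp
    obtain ⟨i1, i2, i3, i4⟩ := hai
    have hag : 0 ≤ ((a.2 : ℝ) + 1) * g := by positivity
    have h1 : ‖p - a.1‖ ≤ 4 * D := by
      have h2 := Complex.norm_le_abs_re_add_abs_im (p - a.1)
      have h3 : |(p - a.1).re| ≤ 2 * D := by
        rw [Complex.sub_re, abs_le]; constructor <;> linarith
      have h4 : |(p - a.1).im| ≤ 2 * D := by
        rw [Complex.sub_im, abs_le]; constructor <;> linarith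
      linarith
    have h5 : ‖p - b.1‖ ≤ ‖p - a.1‖ + ‖y - a.1‖ + ‖y - b.1‖ := by
      have : p - b.1 = (p - a.1) - (y - a.1) + (y - b.1) := by ring
      rw [this]
      exact (norm_add_le _ _).trans (by gcongr; exact norm_sub_le _ _)
    rw [hy, hy2] at h5
    linarith
  · intro p hp h
    refine ⟨cel g p, ?_, val_cel_dist g hg p⟩
    unfold OO
    exact Finset.mem_image_of_mem _ (hwa p hp h)

theorem vu_eq (D x y : ℝ) (hD : 0 < D) (m m' : ℤ) (h1 : x + m * D < y) (h2 : y < x + m * D + D)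
    (h1' : x + m' * D < y) (h2' : y < x + m' * D + D) : m = m' := by
  have h3 : (m : ℝ) < m' + 1 := by
    by_contra h
    push Not at h
    nlinarith
  have h4 : (m' : ℝ) < m + 1 := by
    by_contra h
    push Not at h
    nlinarith
  have h5 : m < m' + 1 := by exact_mod_cast h3
  have h6 : m' < m + 1 := by exact_mod_cast h4
  omega

theorem value_le_tsp (P : Finset ℂ) (n : ℕ) (g D : ℕ → ℝ) (s : ℕ → ℂ) (k0 k1 N : ℕ) (tau : ℝ)
    (A : ℕ → Finset (ℤ × ℤ)) (hN : 0 < N) (htau0 : 0 ≤ tau) (hk0 : 10 ^ 8 ≤ k0)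
    (hg : ∀ i < n, 0 < g i) (hD : ∀ i < n, 4000 * (k1 * g i) ≤ D i)
    (hgap : ∀ i j, i < j → j < n → 1000 * D i ≤ k0 * g j)
    (htau : ∀ i < n, tau ≤ k0 * g i / 10 ^ 8) :
    2 * ∑ i ∈ Finset.range n, ∑ Q ∈ A i, Val (g i) (D i) k0 k1 (cor (s i) (D i) Q)
      (win P (D i) (cor (s i) (D i) Q))
      (gamR (g i) N tau (win P (D i) (cor (s i) (D i) Q))) ≤ tsp P := by
  choose F hF hFv using fun (i : ℕ) (Q : ℤ × ℤ) => val_attained (g i) (D i) k0 k1
    (cor (s i) (D i) Q) (win P (D i) (cor (s i) (D i) Q))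
    (gamR (g i) N tau (win P (D i) (cor (s i) (D i) Q)))
  set B : Finset (Σ _ : ℕ, Σ _ : ℤ × ℤ, ℂ × ℕ) :=
    (Finset.range n).sigma (fun i => (A i).sigma (fun Q => F i Q)) with hB
  have hmem : ∀ x ∈ B, x.1 < n ∧ x.2.1 ∈ A x.1 ∧ x.2.2 ∈ F x.1 x.2.1 := by
    intro x hx
    rw [hB, Finset.mem_sigma, Finset.mem_sigma, Finset.mem_range] at hx
    exact hx
  have h := tsp_rings P B (fun x => x.2.2.1)
    (fun x => vuR (g x.1) N tau (win P (D x.1) (cor (s x.1) (D x.1) x.2.1)) x.2.2) ?_ ?_ ?_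
  · refine le_trans (le_of_eq ?_) h
    congr 1
    rw [hB, Finset.sum_sigma]
    apply Finset.sum_congr rfl
    intro i hi
    rw [Finset.mem_range] at hi
    rw [Finset.sum_sigma]
    apply Finset.sum_congr rfl
    intro Q _
    rw [hFv]
    apply Finset.sum_congr rfl
    intro a _
    exact (vuR_vol _ _ _ _ _ hN (hg i hi)).symm
  · intro x _
    exact vuR_meas _ _ _ _ _
  · intro x hx r hr
    obtain ⟨h1, -, h3⟩ := hmem x hx
    have hgi := hg x.1 h1
    obtain ⟨hr1, hr2, -⟩ := vuR_mem hN hgi hr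
    obtain ⟨f1, f2, f3, -⟩ := (hF x.1 x.2.1).1 _ h3
    have hk0' : (10 : ℝ) ^ 8 ≤ (k0 : ℝ) := by exact_mod_cast hk0
    have f1' : (k0 : ℝ) ≤ x.2.2.2 := by exact_mod_cast f1
    have hsub : win P (D x.1) (cor (s x.1) (D x.1) x.2.1) ⊆ P := Finset.filter_subset _ _
    obtain ⟨a1, -, -, o, ho, a2⟩ := f3
    unfold OO at a1 ho
    rw [Finset.mem_image] at a1 ho
    obtain ⟨p, hp, hpa⟩ := a1
    obtain ⟨p', hp', rfl⟩ := ho
    constructor
    · refine ⟨p, hsub hp, ?_⟩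
      have e1 := val_cel_dist (g x.1) hgi p
      rw [hpa, norm_sub_rev] at e1
      have e2 : (10 : ℝ) ^ 8 * g x.1 ≤ x.2.2.2 * g x.1 := by
        apply mul_le_mul_of_nonneg_right _ hgi.le
        linarith
      nlinarith
    · refine ⟨p', hsub hp', ?_⟩
      have e1 := val_cel_dist (g x.1) hgi p'
      have e2 : ‖cel (g x.1) p' - x.2.2.1‖ ≤ ‖cel (g x.1) p' - p'‖ + ‖p' - x.2.2.1‖ := by
        have : cel (g x.1) p' - x.2.2.1 = (cel (g x.1) p' - p') + (p' - x.2.2.1) := by ring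
        rw [this]
        exact norm_add_le _ _
      nlinarith
  · rintro ⟨i, Q, a⟩ hx ⟨j, Q', b⟩ hx' hne r hr t ht y hy hy'
    obtain ⟨hi, -, ha⟩ := hmem _ hx
    obtain ⟨hj, -, hb⟩ := hmem _ hx'
    simp only at hi ha hj hb hr ht hy hy'
    obtain ⟨a0, a1, aA, ain⟩ := (hF i Q).1 _ ha
    obtain ⟨b0, b1, bA, bin⟩ := (hF j Q').1 _ hb
    rcases lt_trichotomy i j with hij | hij | hij
    · exact vu_cross hN htau0 hk0 (hg i hi) (hg j hj) (hD i hi) (hD j hj) (hgap i j hij hj)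
        (htau i hi) a0 a1 aA ain b0 b1 bin hr ht y hy hy'
    · subst hij
      obtain ⟨hr1, hr2, -⟩ := vuR_mem hN (hg i hi) hr
      obtain ⟨ht1, ht2, -⟩ := vuR_mem hN (hg i hi) ht
      by_cases hQ : Q = Q'
      · subst hQ
        have hab : a ≠ b := by
          rintro rfl
          exact hne rfl
        exact (hF i Q).2 a ha b hb hab y (by rw [hy]; exact hr1) (by rw [hy]; exact hr2)
          (by rw [hy']; exact ht1) (by rw [hy']; exact ht2)
      · apply hQ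
        have hgi := hg i hi
        have hDi : 0 < D i := by
          have h1 : (1 : ℝ) ≤ k1 := by
            have : 1 ≤ k1 := by omega
            exact_mod_cast this
          have := hD i hi
          nlinarith
        have u1 := abs_le.1 (norm_sub_re y a.1)
        have u2 := abs_le.1 (norm_sub_im y a.1)
        have u3 := abs_le.1 (norm_sub_re y b.1)
        have u4 := abs_le.1 (norm_sub_im y b.1)
        rw [hy] at u1 u2
        rw [hy'] at u3 u4
        obtain ⟨v1, v2, v3, v4⟩ := ain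
        obtain ⟨w1, w2, w3, w4⟩ := bin
        simp only [cor] at v1 v2 v3 v4 w1 w2 w3 w4
        have c1 := vu_eq (D i) (s i).re y.re hDi Q.1 Q'.1 (by linarith) (by linarith)
          (by linarith) (by linarith)
        have c2 := vu_eq (D i) (s i).im y.im hDi Q.2 Q'.2 (by linarith) (by linarith)
          (by linarith) (by linarith)
        exact Prod.ext c1 c2
    · exact vu_cross hN htau0 hk0 (hg j hj) (hg i hi) (hD j hj) (hD i hi) (hgap j i hij hi)
        (htau j hj) b0 b1 bA bin a0 a1 ain ht hr y hy' hy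

end Pool.Agent.H49.Tsp
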