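import Pool.Agent.H49.Tsp.Greedy
import Pool.Agent.H49.Tsp.Heavy
import Pool.Agent.H49.Tsp.Tips
import Pool.Agent.H49.Tsp.Cells
import Pool.Agent.H49.Tsp.ScaleShift
import Pool.Agent.H49.Tsp.BlockOffset
import Pool.Agent.H49.Tsp.StrandThm

/-!
The lower bound for the total value of the squares of a near-2 instance.
-/

set_option autoImplicit false

namespace Pool.Agent.H49.Tsp

open Classical

theorem avg_exists {α : Type} (I : Finset α) (hI : I.Nonempty) (B : Finset ℂ) (h : ℂ → ℝ)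
    (h0 : ∀ w ∈ B, 0 ≤ h w) (r : α → ℂ → Prop) (M : ℕ)
    (hM : ∀ w ∈ B, M ≤ (I.filter (fun x => r x w)).card) :
    ∃ x ∈ I, (M : ℝ) / I.card * ∑ w ∈ B, h w ≤ ∑ w ∈ B.filter (fun w => r x w), h w := by
  have hI' : (0 : ℝ) < I.card := by exact_mod_cast hI.card_pos
  apply Finset.exists_le_of_sum_le hI
  rw [Finset.sum_const, nsmul_eq_mul]
  have h1 : ∑ x ∈ I, ∑ w ∈ B.filter (fun w => r x w), h w =
      ∑ w ∈ B, ((I.filter (fun x => r x w)).card : ℝ) * h w := by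
    simp only [Finset.sum_filter]
    rw [Finset.sum_comm]
    apply Finset.sum_congr rfl
    intro w _
    rw [Finset.card_filter]
    push_cast
    rw [Finset.sum_mul]
    apply Finset.sum_congr rfl
    intro x _
    split_ifs <;> simp
  rw [h1]
  have h2 : (I.card : ℝ) * ((M : ℝ) / I.card * ∑ w ∈ B, h w) = ∑ w ∈ B, (M : ℝ) * h w := by
    rw [← Finset.mul_sum]
    field_simp
  rw [h2]
  apply Finset.sum_le_sum
  intro w hw
  apply mul_le_mul_of_nonneg_right _ (h0 w hw)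
  exact_mod_cast hM w hw

theorem Heavy.h_nonneg {P : Finset ℂ} {T : RTree P} (H : Heavy T) (w : ℂ) : 0 ≤ H.h w :=
  T.wt_nonneg _

/-- Most of the mass belongs to good tips. -/
theorem sum_good {P : Finset ℂ} (T : RTree P) (H : Heavy T) (W : Finset ℂ)
    (k4 : ℝ) (hk4 : 0 < k4) :
    T.total - 2 / k4 * T.wt W ≤ ∑ w ∈ P.filter (fun w => GoodTip H W k4 w), H.h w := by
  set A := P.filter (fun w => H.tip w = w) with hA
  set f : ℂ → ℝ := fun w => T.wt (W ∩ H.path w) with hf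
  have hf0 : ∀ w, 0 ≤ f w := fun w => T.wt_nonneg _
  have h1 : ∑ w ∈ A, f w ≤ T.wt W := by
    have hdisj : (A : Set ℂ).PairwiseDisjoint (fun w => W ∩ H.path w) := by
      intro a _ b _ hab
      rw [Function.onFun, Finset.disjoint_left]
      intro x hx hx'
      rw [Finset.mem_inter, H.mem_path] at hx hx'
      exact hab (hx.2.2.2.symm.trans hx'.2.2.2)
    have h2 : ∑ w ∈ A, f w = T.wt (A.biUnion (fun w => W ∩ H.path w)) := by
      rw [RTree.wt, Finset.sum_biUnion hdisj]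
      rfl
    rw [h2]
    apply T.wt_mono
    intro x hx
    rw [Finset.mem_biUnion] at hx
    obtain ⟨w, _, hx⟩ := hx
    exact (Finset.mem_inter.1 hx).1
  have h2 := sum_children T H f hf0
  rw [← hA] at h2
  have h3 : ∀ w ∈ A, H.h w ≤ (if GoodTip H W k4 w then H.h w else 0) +
      1 / k4 * (f w + ∑ x ∈ H.children w, f (H.tip x)) := by
    intro w hw
    rw [hA, Finset.mem_filter] at hw
    have h4 : 0 ≤ f w + ∑ x ∈ H.children w, f (H.tip x) :=
      add_nonneg (hf0 w) (Finset.sum_nonneg fun _ _ => hf0 _)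
    have h4' : 0 ≤ 1 / k4 * (f w + ∑ x ∈ H.children w, f (H.tip x)) := by positivity
    by_cases hg : GoodTip H W k4 w
    · rw [if_pos hg]
      linarith
    · rw [if_neg hg, zero_add]
      by_cases hne : (H.path w).Nonempty
      · have h5 : ¬ (f w + ∑ x ∈ H.children w, f (H.tip x) ≤ k4 * H.h w) := fun h6 =>
          hg ⟨hw.1, hw.2, hne, h6⟩
        rw [not_le] at h5
        rw [one_div, inv_mul_eq_div, le_div_iff₀ hk4]
        linarith
      · rw [Finset.not_nonempty_iff_eq_empty] at hne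
        have : H.h w = 0 := by
          rw [Heavy.h, hne, RTree.wt, Finset.sum_empty]
        rw [this]
        exact h4'
  have h4 := Finset.sum_le_sum h3
  rw [sum_h T H, Finset.sum_add_distrib, ← Finset.mul_sum, Finset.sum_add_distrib,
    ← Finset.sum_filter] at h4
  have h5 : ∑ w ∈ A.filter (fun w => GoodTip H W k4 w), H.h w ≤
      ∑ w ∈ P.filter (fun w => GoodTip H W k4 w), H.h w := by
    apply Finset.sum_le_sum_of_subset_of_nonneg
    · intro w hw
      rw [Finset.mem_filter, hA, Finset.mem_filter] at hw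
      exact Finset.mem_filter.2 ⟨hw.1.1, hw.2⟩
    · intro w _ _
      exact H.h_nonneg w
  have h6 : 1 / k4 * (∑ w ∈ A, f w + ∑ w ∈ A, ∑ x ∈ H.children w, f (H.tip x)) ≤
      1 / k4 * (T.wt W + T.wt W) := by
    apply mul_le_mul_of_nonneg_left _ (by positivity)
    linarith
  have h7 : 1 / k4 * (T.wt W + T.wt W) = 2 / k4 * T.wt W := by ring
  linarith

theorem offset_avg (D : ℝ) (hD : 0 < D) (B : Finset ℂ) (h : ℂ → ℝ) (h0 : ∀ w ∈ B, 0 ≤ h w) :
    ∃ a < 1000, ∃ b < 1000, 994 / 1000 * ∑ w ∈ B, h w ≤ ∑ w ∈ B.filter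
        (fun w => ∃ Q : ℤ × ℤ, Deep D (cor (off D a b) D Q) w), h w := by
  obtain ⟨n, hn⟩ : ∃ n : ℕ, n = 1000 := ⟨_, rfl⟩
  have hoff := offset_good D hD
  rw [← hn] at hoff ⊢
  have e : ((994000 : ℕ) : ℝ) / (((Finset.range n) ×ˢ (Finset.range n)).card : ℝ) =
      994 / 1000 := by
    rw [Finset.card_product, Finset.card_range, hn]
    norm_num
  have hne : ((Finset.range n) ×ˢ (Finset.range n)).Nonempty := by
    have h1 : (Finset.range n).Nonempty := Finset.nonempty_range_iff.2 (by omega)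
    exact h1.product h1
  obtain ⟨ab, hab, h1⟩ := avg_exists ((Finset.range n) ×ˢ (Finset.range n)) hne B h h0
    (fun ab w => ∃ Q : ℤ × ℤ, Deep D (cor (off D ab.1 ab.2) D Q) w) 994000
    (fun w _ => hoff w)
  rw [e] at h1
  have h2 := Finset.mem_product.1 hab
  exact ⟨ab.1, Finset.mem_range.1 h2.1, ab.2, Finset.mem_range.1 h2.2, h1⟩

theorem value_ge : ∃ (eps : ℝ) (d : ℕ), 0 < eps ∧ eps < 1 ∧ 30 ≤ d ∧
    ∀ (la m0 m1 K L N : ℕ) (P : Finset ℂ) (ω : ℂ → ℂ → ℕ) (_ : TieBreak P ω) (T : RTree P)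
      (_ : T.IsMstW ω), 10 ≤ m0 → 20 * m0 ≤ m1 → m1 + 8 ≤ K → 10 ^ 6 * (L + K + 8) ≤ 2 ^ la →
      2000 * (P.card + 1) ≤ N → (∀ p ∈ P, ∀ q ∈ P, p ≠ q → 1 ≤ ‖p - q‖) →
      (∀ p ∈ P, ∀ q ∈ P, ‖p - q‖ ≤ 2 ^ L) → (2 - eps) * T.total ≤ tsp P →
      ∃ σ < m0 + m1, ∃ a b : ℕ → ℕ, (∀ i, a i < 1000) ∧ (∀ i, b i < 1000) ∧
        3 / 5 * T.total ≤ ∑ i ∈ Finset.range (L + K + 8),
          ∑ Q ∈ act P (off (2 ^ la * 2 ^ m1 * (2 ^ (σ + (m0 + m1) * i) / 2 ^ K)) (a i) (b i))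
              (2 ^ la * 2 ^ m1 * (2 ^ (σ + (m0 + m1) * i) / 2 ^ K)),
            Val (2 ^ (σ + (m0 + m1) * i) / 2 ^ K / 2 ^ d)
              (2 ^ la * 2 ^ m1 * (2 ^ (σ + (m0 + m1) * i) / 2 ^ K)) (2 ^ d) (2 ^ d * 2 ^ m1)
              (cor (off (2 ^ la * 2 ^ m1 * (2 ^ (σ + (m0 + m1) * i) / 2 ^ K)) (a i) (b i))
                (2 ^ la * 2 ^ m1 * (2 ^ (σ + (m0 + m1) * i) / 2 ^ K)) Q)
              (win P (2 ^ la * 2 ^ m1 * (2 ^ (σ + (m0 + m1) * i) / 2 ^ K))
                (cor (off (2 ^ la * 2 ^ m1 * (2 ^ (σ + (m0 + m1) * i) / 2 ^ K)) (a i) (b i))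
                  (2 ^ la * 2 ^ m1 * (2 ^ (σ + (m0 + m1) * i) / 2 ^ K)) Q))
              (gamS (2 ^ (σ + (m0 + m1) * i) / 2 ^ K / 2 ^ d) N
                (win P (2 ^ la * 2 ^ m1 * (2 ^ (σ + (m0 + m1) * i) / 2 ^ K))
                  (cor (off (2 ^ la * 2 ^ m1 * (2 ^ (σ + (m0 + m1) * i) / 2 ^ K)) (a i) (b i))
                    (2 ^ la * 2 ^ m1 * (2 ^ (σ + (m0 + m1) * i) / 2 ^ K)) Q))) := by
  obtain ⟨lam, k4, del, hS⟩ := strand_good
  obtain ⟨hl0, hk40, hdel0, hl, hk4, hdel6, -⟩ := id hS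
  -- the constant d
  obtain ⟨d0, hd0⟩ := exists_nat_gt (1 / del)
  obtain ⟨d, hd30, hdd⟩ : ∃ d : ℕ, 30 ≤ d ∧ 1 ≤ del * 2 ^ d := by
    refine ⟨max 30 d0, le_max_left _ _, ?_⟩
    have h1 : (d0 : ℝ) ≤ 2 ^ (max 30 d0) := by
      have h2 : d0 < 2 ^ d0 := Nat.lt_two_pow_self
      have h3 : 2 ^ d0 ≤ 2 ^ (max 30 d0) := Nat.pow_le_pow_right (by norm_num) (le_max_right _ _)
      exact_mod_cast (h2.le.trans h3)
    have h4 : 1 / del ≤ 2 ^ (max 30 d0) := hd0.le.trans h1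
    rw [div_le_iff₀ hdel0] at h4
    linarith
  refine ⟨lam * k4 / 1000, d, by positivity, by nlinarith, hd30, ?_⟩
  intro la m0 m1 K L N P ω hω T hT hm0 hm1 hK hla hN hsep hdiam htsp
  obtain ⟨H⟩ := exists_heavy T
  obtain ⟨W, hWP, hTi, hgreedy⟩ := greedy T lam hl0
  have htot : 0 ≤ T.total := T.wt_nonneg _
  -- the weight of W
  have hWw : T.wt W ≤ 3 / 1000 * k4 * T.total := by
    have h1 : lam / (2 * (1 + lam)) * T.wt W ≤ lam * k4 / 1000 * T.total := by linarith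
    have h2 : lam / (2 * (1 + lam)) * T.wt W = lam * (T.wt W / (2 * (1 + lam))) := by ring
    have h3 : lam * k4 / 1000 * T.total = lam * (k4 / 1000 * T.total) := by ring
    rw [h2, h3] at h1
    have h4 := le_of_mul_le_mul_left h1 hl0
    rw [div_le_iff₀ (by positivity)] at h4
    have h5 : 0 ≤ k4 * T.total := by positivity
    nlinarith
  set G : Finset ℂ := P.filter (fun w => GoodTip H W k4 w) with hG
  have hGsum : 99 / 100 * T.total ≤ ∑ w ∈ G, H.h w := by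
    have h1 := sum_good T H W k4 hk40
    have h2 : 2 / k4 * T.wt W ≤ 2 / k4 * (3 / 1000 * k4 * T.total) :=
      mul_le_mul_of_nonneg_left hWw (by positivity)
    have h3 : 2 / k4 * (3 / 1000 * k4 * T.total) = 6 / 1000 * T.total := by
      field_simp
      ring
    linarith
  have hGh : ∀ w ∈ G, 1 ≤ H.h w ∧ H.h w ≤ 2 * 2 ^ L := by
    intro w hw
    rw [hG, Finset.mem_filter] at hw
    obtain ⟨hwP, hgt⟩ := hw
    constructor
    · obtain ⟨v, hv⟩ := hgt.2.2.1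
      have hv' := H.mem_path.1 hv
      have h1 : 1 ≤ T.len v := hsep v hv'.1 (T.par v) (T.par_mem v hv'.1)
        (T.par_ne hv'.1 hv'.2.1).symm
      have h2 : T.len v ≤ T.wt (H.path w) :=
        Finset.single_le_sum (f := T.len) (fun _ _ => T.len_nonneg _) hv
      exact h1.trans h2
    · obtain ⟨p, hp, h1, h2⟩ := tip_far H W lam k4 hl0.le hl hk4 hTi w hgt
      have h3 := hdiam p hp w hwP
      linarith
  set n := L + K + 8 with hn
  set u : ℕ → ℕ → ℝ := fun σ i => 2 ^ (σ + (m0 + m1) * i) / 2 ^ K with hu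
  -- the shift of the scales
  obtain ⟨R, hR⟩ : ∃ R : ℕ → ℂ → Prop, ∀ σ w, R σ w ↔ ∃ i < n, 20 * u σ i ≤ H.h w ∧
    9 / 10 * H.h w ≤ 2 ^ m1 * u σ i := ⟨_, fun _ _ => Iff.rfl⟩
  obtain ⟨σ, hσ, hσs⟩ := avg_exists (Finset.range (m0 + m1)) ⟨0, by rw [Finset.mem_range]; omega⟩ G
    H.h (fun w _ => H.h_nonneg w) R (m1 - 6) (by
      intro w hw
      refine (scale_shift m0 m1 K L hm0 hm1 hK (H.h w) (hGh w hw).1 (hGh w hw).2).trans ?_
      apply Finset.card_le_card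
      intro σ hσ
      rw [Finset.mem_filter] at hσ ⊢
      exact ⟨hσ.1, (hR σ w).2 hσ.2⟩)
  rw [Finset.mem_range] at hσ
  rw [Finset.card_range] at hσs
  refine ⟨σ, hσ, ?_⟩
  set B : ℕ → Finset ℂ := fun i => G.filter
    (fun w => 20 * u σ i ≤ H.h w ∧ 9 / 10 * H.h w ≤ 2 ^ m1 * u σ i) with hB
  have hBsum : ∑ w ∈ G.filter (fun w => R σ w), H.h w ≤
      ∑ i ∈ Finset.range n, ∑ w ∈ B i, H.h w := by
    have h1 : G.filter (fun w => R σ w) ⊆ (Finset.range n).biUnion B := by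
      intro w hw
      rw [Finset.mem_filter, hR] at hw
      obtain ⟨hw1, i, hi, hw2⟩ := hw
      rw [Finset.mem_biUnion]
      exact ⟨i, Finset.mem_range.2 hi, Finset.mem_filter.2 ⟨hw1, hw2⟩⟩
    refine (Finset.sum_le_sum_of_subset_of_nonneg h1 (fun w _ _ => H.h_nonneg w)).trans ?_
    have : ∀ (S : Finset ℕ), ∑ w ∈ S.biUnion B, H.h w ≤ ∑ i ∈ S, ∑ w ∈ B i, H.h w := by
      intro S
      induction S using Finset.induction_on with
      | empty => simp
      | insert a S ha ih =>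
        rw [Finset.biUnion_insert, Finset.sum_insert ha]
        have h2 : ∑ w ∈ B a ∪ S.biUnion B, H.h w ≤ ∑ w ∈ B a, H.h w + ∑ w ∈ S.biUnion B, H.h w := by
          rw [← Finset.sum_union_inter]
          have : 0 ≤ ∑ w ∈ B a ∩ S.biUnion B, H.h w := Finset.sum_nonneg fun w _ => H.h_nonneg w
          linarith
        linarith
    exact this _
  have hu0 : ∀ i, 0 < u σ i := fun i => by rw [hu]; positivity
  set D : ℕ → ℝ := fun i => 2 ^ la * 2 ^ m1 * u σ i with hD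
  have hD0 : ∀ i, 0 < D i := fun i => by rw [hD]; have := hu0 i; positivity
  -- the offsets
  have hoff := fun i => offset_avg (D i) (hD0 i) (B i) H.h (fun w _ => H.h_nonneg w)
  choose a ha b hb hab2 using hoff
  refine ⟨a, b, ha, hb, ?_⟩
  have h2la : (4000 : ℝ) ≤ 2 ^ la := by
    have h1 : 4000 ≤ 2 ^ la := by
      refine le_trans ?_ hla
      omega
    exact_mod_cast h1
  have hblock : ∀ i, 3 / 4 * (994 / 1000 * ∑ w ∈ B i, H.h w) ≤
      ∑ Q ∈ act P (off (D i) (a i) (b i)) (D i),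
        Val (u σ i / 2 ^ d) (D i) (2 ^ d) (2 ^ d * 2 ^ m1)
          (cor (off (D i) (a i) (b i)) (D i) Q)
          (win P (D i) (cor (off (D i) (a i) (b i)) (D i) Q))
          (gamS (u σ i / 2 ^ d) N (win P (D i) (cor (off (D i) (a i) (b i)) (D i) Q))) +
        180 * (1 / 2 ^ la) * T.total := by
    intro i
    have hui := hu0 i
    have e1 : ((2 ^ d : ℕ) : ℝ) * (u σ i / 2 ^ d) = u σ i := by
      push_cast
      field_simp
    have e2 : ((2 ^ d * 2 ^ m1 : ℕ) : ℝ) * (u σ i / 2 ^ d) = 2 ^ m1 * u σ i := by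
      push_cast
      field_simp
    have e3 : 2 ^ m1 * u σ i / D i = 1 / 2 ^ la := by
      rw [hD]
      field_simp
    have h1 := block_offset_value hω T hT H W lam k4 del hS hTi (u σ i / 2 ^ d) (D i) (2 ^ d)
      (2 ^ d * 2 ^ m1) N (off (D i) (a i) (b i)) (by positivity) ?_ (by positivity) ?_ ?_ hN
      (B i) ?_
    · rw [e2, e3] at h1
      have h2 := hab2 i
      linarith
    · calc 10 ^ 9 ≤ 2 ^ 30 := by norm_num
        _ ≤ 2 ^ d := Nat.pow_le_pow_right (by norm_num) hd30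
    · push_cast
      exact hdd
    · rw [e2, hD]
      have h3 : 0 < 2 ^ m1 * u σ i := by positivity
      nlinarith
    · intro w hw
      rw [hB, Finset.mem_filter, hG, Finset.mem_filter] at hw
      rw [e1, e2]
      exact ⟨hw.1.2, hw.2.1, hw.2.2⟩
  have hsumb := Finset.sum_le_sum (fun i (_ : i ∈ Finset.range n) => hblock i)
  rw [Finset.sum_add_distrib, Finset.sum_const, Finset.card_range, nsmul_eq_mul] at hsumb
  have e4 : ∑ i ∈ Finset.range n, 3 / 4 * (994 / 1000 * ∑ w ∈ B i, H.h w) =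
      3 / 4 * (994 / 1000) * ∑ i ∈ Finset.range n, ∑ w ∈ B i, H.h w := by
    rw [Finset.mul_sum]
    apply Finset.sum_congr rfl
    intro i _
    ring
  rw [e4] at hsumb
  have herr : (n : ℝ) * (180 * (1 / 2 ^ la) * T.total) ≤ 180 / 10 ^ 6 * T.total := by
    have h1 : (10 : ℝ) ^ 6 * n ≤ 2 ^ la := by exact_mod_cast hla
    have h2 : (n : ℝ) * (1 / 2 ^ la) ≤ 1 / 10 ^ 6 := by
      rw [mul_one_div, div_le_div_iff₀ (by positivity) (by positivity)]
      linarith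
    have h3 : (n : ℝ) * (180 * (1 / 2 ^ la) * T.total) = 180 * T.total * (n * (1 / 2 ^ la)) := by
      ring
    rw [h3]
    have h4 : 180 * T.total * (n * (1 / 2 ^ la)) ≤ 180 * T.total * (1 / 10 ^ 6) :=
      mul_le_mul_of_nonneg_left h2 (by positivity)
    linarith
  have hfrac : 92 / 100 ≤ ((m1 - 6 : ℕ) : ℝ) / ((m0 + m1 : ℕ) : ℝ) := by
    have h1 : 200 ≤ m1 := by omega
    rw [le_div_iff₀ (by positivity)]
    have h2 : ((m1 - 6 : ℕ) : ℝ) = m1 - 6 := by
      rw [Nat.cast_sub (by omega)]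
      norm_num
    rw [h2]
    push_cast
    have h3 : (20 : ℝ) * m0 ≤ m1 := by exact_mod_cast hm1
    have h4 : (200 : ℝ) ≤ m1 := by exact_mod_cast h1
    linarith
  have hmain : 92 / 100 * (99 / 100 * T.total) ≤ ∑ i ∈ Finset.range n, ∑ w ∈ B i, H.h w := by
    refine le_trans ?_ (hσs.trans hBsum)
    apply mul_le_mul hfrac hGsum (by positivity) (by positivity)
  have hgoal : 3 / 5 * T.total ≤ ∑ i ∈ Finset.range n,
      ∑ Q ∈ act P (off (D i) (a i) (b i)) (D i),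
        Val (u σ i / 2 ^ d) (D i) (2 ^ d) (2 ^ d * 2 ^ m1)
          (cor (off (D i) (a i) (b i)) (D i) Q)
          (win P (D i) (cor (off (D i) (a i) (b i)) (D i) Q))
          (gamS (u σ i / 2 ^ d) N
            (win P (D i) (cor (off (D i) (a i) (b i)) (D i) Q))) := by
    linarith
  exact hgoal

end Pool.Agent.H49.Tsp
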