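import Pool.Agent.H49.Tsp.StreamStat
import Pool.Agent.H49.Tsp.ValUpper
import Pool.Agent.H49.Tsp.Mst
import Pool.Agent.H49.Tsp.ValueGe

/-!
The seeded streaming algorithm for the value.
-/

set_option autoImplicit false

namespace Pool.Agent.H49.Tsp

open Classical Par

theorem value_ge' : ∃ (eps : ℝ) (d : ℕ), 0 < eps ∧ eps < 1 ∧ 30 ≤ d ∧
    ∀ (L : ℕ) (P : Finset ℂ) (ω : ℂ → ℂ → ℕ) (_ : TieBreak P ω) (T : RTree P)
      (_ : T.IsMstW ω), P.card ≤ 2 ^ (2 * L) → (∀ p ∈ P, ∀ q ∈ P, p ≠ q → 1 ≤ ‖p - q‖) →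
      (∀ p ∈ P, ∀ q ∈ P, ‖p - q‖ ≤ 2 ^ (L + 1)) → (2 - eps) * T.total ≤ tsp P →
      ∃ σ < mm L, ∃ a b : ℕ → ℕ, (∀ i, a i < 1000) ∧ (∀ i, b i < 1000) ∧
        3 / 5 * T.total ≤ ∑ i ∈ Finset.range (I L), VS d L σ i (a i) (b i) P := by
  obtain ⟨eps, d, h0, h1, h2, hV⟩ := value_ge
  refine ⟨eps, d, h0, h1, h2, ?_⟩
  intro L P ω hω T hT hcard hsep hdist hnear
  have h := hV (la L) (m0 L) (m1 L) (K L) (L + 1) (N L) P ω hω T hT (m0_ge L) (m1_ge L) (K_ge L)
    (la_large L) (N_ge_card L _ hcard) hsep hdist hnear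
  simp only [VS, gg, DD, uu, mm_eq, k1_eq, I_eq]
  exact h

/-- The upper bound in terms of the parameters. -/
theorem value_le' (d L σ : ℕ) (hd : 30 ≤ d) (a b : ℕ → ℕ) (P : Finset ℂ) :
    2 * ∑ i ∈ Finset.range (I L), VR d L σ i (a i) (b i) P ≤ tsp P := by
  have hk0 : 10 ^ 8 ≤ 2 ^ d := by
    calc 10 ^ 8 ≤ 2 ^ 30 := by norm_num
      _ ≤ 2 ^ d := Nat.pow_le_pow_right (by norm_num) hd
  exact value_le_tsp P (I L) (fun i => gg d L σ i) (fun i => DD L σ i)
    (fun i => off (DD L σ i) (a i) (b i)) (2 ^ d) (k1 d L) (N L) (tau L)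
    (fun i => act P (off (DD L σ i) (a i) (b i)) (DD L σ i)) (N_pos L) (tau_pos L).le hk0
    (fun i _ => gg_pos d L σ i) (fun i _ => DD_ge d L σ i)
    (fun i j hij _ => gap_real d L σ i j hij) (fun i _ => tau_le d L σ i)

/-- The output of the algorithm. -/
noncomputable def outv (d L : ℕ) (T : ℕ → ℝ) : ℝ :=
  sSup {y : ℝ | ∃ σ < mm L, ∃ a b : ℕ → ℕ, (∀ i, a i < 1000) ∧ (∀ i, b i < 1000) ∧
    y = ∑ i ∈ Finset.range (I L), Bn d L σ i * T (enc L σ i (a i) (b i))}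

theorem outv_bdd (d L : ℕ) (T : ℕ → ℝ) :
    BddAbove {y : ℝ | ∃ σ < mm L, ∃ a b : ℕ → ℕ, (∀ i, a i < 1000) ∧ (∀ i, b i < 1000) ∧
      y = ∑ i ∈ Finset.range (I L), Bn d L σ i * T (enc L σ i (a i) (b i))} := by
  refine ⟨∑ σ ∈ Finset.range (mm L), ∑ i ∈ Finset.range (I L),
    Bn d L σ i * ∑ j ∈ Finset.range (J L), |T j|, ?_⟩
  rintro y ⟨σ, hσ, a, b, ha, hb, rfl⟩
  have h0 : ∀ j < J L, |T j| ≤ ∑ j ∈ Finset.range (J L), |T j| := fun j hj =>
    Finset.single_le_sum (f := fun j => |T j|) (fun _ _ => abs_nonneg _) (Finset.mem_range.2 hj)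
  have hs : 0 ≤ ∑ j ∈ Finset.range (J L), |T j| := Finset.sum_nonneg fun _ _ => abs_nonneg _
  refine le_trans ?_ (Finset.single_le_sum (f := fun σ => ∑ i ∈ Finset.range (I L),
    Bn d L σ i * ∑ j ∈ Finset.range (J L), |T j|) (fun σ _ => Finset.sum_nonneg fun i _ =>
      mul_nonneg (Bn_pos d L σ i).le hs) (Finset.mem_range.2 hσ))
  apply Finset.sum_le_sum
  intro i hi
  apply mul_le_mul_of_nonneg_left _ (Bn_pos d L σ i).le
  exact (le_abs_self _).trans (h0 _ (enc_lt L σ i _ _ hσ (Finset.mem_range.1 hi) (ha i) (hb i)))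

theorem outv_le (d L : ℕ) (T : ℕ → ℝ) (y : ℝ)
    (h : ∀ σ < mm L, ∀ a b : ℕ → ℕ, (∀ i, a i < 1000) → (∀ i, b i < 1000) →
      ∑ i ∈ Finset.range (I L), Bn d L σ i * T (enc L σ i (a i) (b i)) ≤ y) :
    outv d L T ≤ y := by
  apply csSup_le
  · exact ⟨_, 0, mm_pos L, fun _ => 0, fun _ => 0, fun _ => by norm_num, fun _ => by norm_num, rfl⟩
  · rintro z ⟨σ, hσ, a, b, ha, hb, rfl⟩
    exact h σ hσ a b ha hb

theorem le_outv (d L : ℕ) (T : ℕ → ℝ) (σ : ℕ) (hσ : σ < mm L) (a b : ℕ → ℕ)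
    (ha : ∀ i, a i < 1000) (hb : ∀ i, b i < 1000) :
    ∑ i ∈ Finset.range (I L), Bn d L σ i * T (enc L σ i (a i) (b i)) ≤ outv d L T :=
  le_csSup (outv_bdd d L T) ⟨σ, hσ, a, b, ha, hb, rfl⟩

/-- The total sampling error. -/
noncomputable def SEtot (c d L : ℕ) (l : List (ℕ × ℕ)) (θ : Fin (ms c d L) → Fin (N L)) : ℝ :=
  ∑ j ∈ Finset.range (J L), SE c d L (dσ L j) (di L j) (da j) (db j) l θ

/-- The scales of one output are different. -/
theorem sum_SE_le (c d L : ℕ) (l : List (ℕ × ℕ)) (θ : Fin (ms c d L) → Fin (N L)) (σ : ℕ)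
    (hσ : σ < mm L) (a b : ℕ → ℕ) (ha : ∀ i, a i < 1000) (hb : ∀ i, b i < 1000) :
    ∑ i ∈ Finset.range (I L), SE c d L σ i (a i) (b i) l θ ≤ SEtot c d L l θ := by
  unfold SEtot
  have h1 : ∀ i ∈ Finset.range (I L), SE c d L σ i (a i) (b i) l θ
      = (fun j => SE c d L (dσ L j) (di L j) (da j) (db j) l θ) (enc L σ i (a i) (b i)) := by
    intro i hi
    obtain ⟨e1, e2, e3, e4⟩ := dec_enc L σ i (a i) (b i) (Finset.mem_range.1 hi) (ha i) (hb i)
    simp only [e1, e2, e3, e4]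
  have hinj : Set.InjOn (fun i => enc L σ i (a i) (b i)) (Finset.range (I L) : Set ℕ) := by
    intro i hi j hj hij
    simp only [Finset.coe_range, Set.mem_Iio] at hi hj
    have e1 := (dec_enc L σ i (a i) (b i) hi (ha i) (hb i)).2.1
    have e2 := (dec_enc L σ j (a j) (b j) hj (ha j) (hb j)).2.1
    simp only at hij
    rw [← e1, hij, e2]
  rw [Finset.sum_congr rfl h1,
    ← Finset.sum_image (g := fun i => enc L σ i (a i) (b i))
      (f := fun j => SE c d L (dσ L j) (di L j) (da j) (db j) l θ) hinj]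
  apply Finset.sum_le_sum_of_subset_of_nonneg
  · intro j hj
    rw [Finset.mem_image] at hj
    obtain ⟨i, hi, rfl⟩ := hj
    exact Finset.mem_range.2 (enc_lt L σ i _ _ hσ (Finset.mem_range.1 hi) (ha i) (hb i))
  · intro j _ _
    exact SE_nonneg _ _ _ _ _ _ _ _ _

/-- Markov's inequality for the sampling error. -/
theorem bad_card (c d L : ℕ) (hc : 0 < c) (l : List (ℕ × ℕ)) (T : RTree (pts l)) (eps0 : ℝ)
    (h0 : 0 < eps0) (hce : 15552 / eps0 ≤ c) :
    12 * (Finset.univ.filter (fun θ : Fin (ms c d L) → Fin (N L) =>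
      eps0 / 4 * T.total < SEtot c d L l θ)).card
      ≤ Fintype.card (Fin (ms c d L) → Fin (N L)) := by
  have hM : 0 ≤ T.total := T.wt_nonneg _
  have hcR : (0 : ℝ) < c := by exact_mod_cast hc
  have hn : (0 : ℝ) < n d L := by exact_mod_cast n_pos d L
  have hk : (0 : ℝ) < k1 d L := by exact_mod_cast k1_pos d L
  have hJ : (0 : ℝ) < J L := by exact_mod_cast J_pos L
  have hNN : (0 : ℝ) < (N L : ℝ) ^ ms c d L := by
    have : (0 : ℝ) < N L := by exact_mod_cast N_pos L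
    positivity
  have hsqrt : Real.sqrt (ms c d L) = c * (J L * (n d L) ^ 2 * k1 d L) := by
    rw [ms_eq]
    push_cast
    exact Real.sqrt_sq (by positivity)
  have hsum : ∑ θ : Fin (ms c d L) → Fin (N L), SEtot c d L l θ
      ≤ (N L : ℝ) ^ ms c d L * (324 * T.total / c) := by
    unfold SEtot
    rw [Finset.sum_comm]
    calc ∑ j ∈ Finset.range (J L), ∑ θ : Fin (ms c d L) → Fin (N L),
          SE c d L (dσ L j) (di L j) (da j) (db j) l θ
        ≤ ∑ j ∈ Finset.range (J L), (N L : ℝ) ^ ms c d L *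
          (324 * ((n d L : ℝ) ^ 2 * k1 d L) * T.total / Real.sqrt (ms c d L)) :=
          Finset.sum_le_sum fun j _ => sum_SE c d L _ _ hc _ _ T
      _ = (N L : ℝ) ^ ms c d L * (324 * T.total / c) := by
          rw [Finset.sum_const, Finset.card_range, nsmul_eq_mul, hsqrt]
          field_simp
  have hcardΘ : (Fintype.card (Fin (ms c d L) → Fin (N L)) : ℝ) = (N L : ℝ) ^ ms c d L := by
    rw [Fintype.card_fun, Fintype.card_fin, Fintype.card_fin]
    push_cast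
    rfl
  rcases hM.eq_or_lt with hM0 | hM0
  · -- the total length is zero: no sampling error
    have hz : ∑ θ : Fin (ms c d L) → Fin (N L), SEtot c d L l θ ≤ 0 := by
      refine hsum.trans ?_
      rw [← hM0]
      simp
    have hnn : ∀ θ ∈ (Finset.univ : Finset (Fin (ms c d L) → Fin (N L))),
        0 ≤ SEtot c d L l θ := fun θ _ =>
      Finset.sum_nonneg fun j _ => SE_nonneg _ _ _ _ _ _ _ _ _
    have hall := (Finset.sum_eq_zero_iff_of_nonneg hnn).1 (le_antisymm hz (Finset.sum_nonneg hnn))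
    have : (Finset.univ.filter (fun θ : Fin (ms c d L) → Fin (N L) =>
        eps0 / 4 * T.total < SEtot c d L l θ)) = ∅ := by
      apply Finset.filter_eq_empty_iff.2
      intro θ hθ h
      rw [hall θ hθ, ← hM0, mul_zero] at h
      exact lt_irrefl _ h
    rw [this, Finset.card_empty, mul_zero]
    exact Nat.zero_le _
  · set Bad := Finset.univ.filter (fun θ : Fin (ms c d L) → Fin (N L) =>
      eps0 / 4 * T.total < SEtot c d L l θ) with hBad
    have h1 : (Bad.card : ℝ) * (eps0 / 4 * T.total) ≤ (N L : ℝ) ^ ms c d L * (324 * T.total / c) := by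
      refine le_trans ?_ hsum
      calc (Bad.card : ℝ) * (eps0 / 4 * T.total) = ∑ _θ ∈ Bad, eps0 / 4 * T.total := by
            rw [Finset.sum_const, nsmul_eq_mul]
        _ ≤ ∑ θ ∈ Bad, SEtot c d L l θ := by
            apply Finset.sum_le_sum
            intro θ hθ
            rw [hBad, Finset.mem_filter] at hθ
            exact hθ.2.le
        _ ≤ _ := Finset.sum_le_sum_of_subset_of_nonneg (Finset.subset_univ _) (fun θ _ _ =>
            Finset.sum_nonneg fun j _ => SE_nonneg _ _ _ _ _ _ _ _ _)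
    have h2 : (12 : ℝ) * Bad.card ≤ (N L : ℝ) ^ ms c d L := by
      have h3 : (324 : ℝ) * T.total / c ≤ eps0 / 4 * T.total / 12 := by
        rw [div_le_iff₀ hcR]
        rw [div_le_iff₀ h0] at hce
        have h4 := mul_le_mul_of_nonneg_right hce hM
        calc 324 * T.total = 15552 * T.total / 48 := by ring
          _ ≤ (c * eps0) * T.total / 48 := div_le_div_of_nonneg_right h4 (by norm_num)
          _ = eps0 / 4 * T.total / 12 * c := by ring
      have h4 : (Bad.card : ℝ) * (eps0 / 4 * T.total)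
          ≤ (N L : ℝ) ^ ms c d L * (eps0 / 4 * T.total / 12) :=
        h1.trans (mul_le_mul_of_nonneg_left h3 hNN.le)
      have h5 : 0 < eps0 / 4 * T.total := by positivity
      have h6 : (12 * (Bad.card : ℝ)) * (eps0 / 4 * T.total)
          ≤ (N L : ℝ) ^ ms c d L * (eps0 / 4 * T.total) := by linarith
      exact le_of_mul_le_mul_right h6 h5
    have h3 : ((12 * Bad.card : ℕ) : ℝ) ≤ (Fintype.card (Fin (ms c d L) → Fin (N L)) : ℝ) := by
      rw [hcardΘ]
      push_cast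
      exact h2
    exact_mod_cast h3

/-- The deterministic core. -/
theorem core (eps : ℝ) (c d : ℕ) (hd : 30 ≤ d)
    (hV : ∀ (L : ℕ) (P : Finset ℂ) (ω : ℂ → ℂ → ℕ) (_ : TieBreak P ω) (T : RTree P)
      (_ : T.IsMstW ω), P.card ≤ 2 ^ (2 * L) → (∀ p ∈ P, ∀ q ∈ P, p ≠ q → 1 ≤ ‖p - q‖) →
      (∀ p ∈ P, ∀ q ∈ P, ‖p - q‖ ≤ 2 ^ (L + 1)) → (2 - eps) * T.total ≤ tsp P →
      ∃ σ < mm L, ∃ a b : ℕ → ℕ, (∀ i, a i < 1000) ∧ (∀ i, b i < 1000) ∧
        3 / 5 * T.total ≤ ∑ i ∈ Finset.range (I L), VS d L σ i (a i) (b i) P)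
    (eps0 : ℝ) (h0 : 0 < eps0) (Δ L : ℕ) (l : List (ℕ × ℕ))
    (hl : H29.Stream.InBox Δ l) (ω : ℂ → ℂ → ℕ) (hω : TieBreak (pts l) ω)
    (T0 : RTree (pts l)) (hT0 : T0.IsMstW ω) (hcard : (pts l).card ≤ 2 ^ (2 * L))
    (hsep : ∀ p ∈ pts l, ∀ q ∈ pts l, p ≠ q → 1 ≤ ‖p - q‖)
    (hdist : ∀ p ∈ pts l, ∀ q ∈ pts l, ‖p - q‖ ≤ 2 ^ (L + 1))
    (θ : Fin (ms c d L) → Fin (N L)) (hθ : SEtot c d L l θ ≤ eps0 / 4 * T0.total)
    (E : ℕ) (hE : 162 ≤ E) (hE2 : 648 * (I L * ((n d L : ℝ) ^ 2 * k1 d L)) / eps0 ≤ E)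
    (T : ℕ → ℝ)
    (hT : ∀ σ < mm L, ∀ i < I L, ∀ a < 1000, ∀ b < 1000,
      |T (enc L σ i a b) - Ph Δ c d L σ i a b l θ / Bn d L σ i| * (E : ℝ)
        ≤ (H29.Stream.act (hitN (DD L σ i) (off (DD L σ i) a b)) (Δ + 5) l).card ∧
      ((H29.Stream.act (hitN (DD L σ i) (off (DD L σ i) a b)) (Δ + 5) l).card ≤ E →
        T (enc L σ i a b) = Ph Δ c d L σ i a b l θ / Bn d L σ i)) :
    2 * (outv d L T - eps0 * T0.total) ≤ tsp (pts l) ∧
      ((2 - eps) * T0.total ≤ tsp (pts l) → (3 / 5 - eps0) * T0.total ≤ outv d L T) := by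
  have hM : 0 ≤ T0.total := T0.wt_nonneg _
  have hE0 : (0 : ℝ) < E := by exact_mod_cast (by omega : 0 < E)
  have hI0 : (0 : ℝ) < I L := by exact_mod_cast I_pos L
  -- the error of one scale
  have herr : ∀ σ < mm L, ∀ i < I L, ∀ a < 1000, ∀ b < 1000,
      |Bn d L σ i * T (enc L σ i a b) - Ph Δ c d L σ i a b l θ|
        ≤ eps0 / 4 * T0.total / I L := by
    intro σ hσ i hi a ha b hb
    have h1 := stream_err hl c d L σ i ha hb θ T0 E hE (T (enc L σ i a b)) (hT σ hσ i hi a ha b hb).1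
      (hT σ hσ i hi a ha b hb).2
    refine h1.trans ?_
    rw [div_le_iff₀ h0] at hE2
    rw [div_le_div_iff₀ hE0 hI0]
    have h3 := mul_le_mul_of_nonneg_right hE2 hM
    calc 162 * ((n d L : ℝ) ^ 2 * k1 d L) * T0.total * I L
        = 648 * (I L * ((n d L : ℝ) ^ 2 * k1 d L)) * T0.total / 4 := by ring
      _ ≤ (E * eps0) * T0.total / 4 := by
          apply div_le_div_of_nonneg_right h3 (by norm_num)
      _ = eps0 / 4 * T0.total * E := by ring
  -- sums
  have hsum : ∀ σ < mm L, ∀ a b : ℕ → ℕ, (∀ i, a i < 1000) → (∀ i, b i < 1000) →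
      |∑ i ∈ Finset.range (I L), Bn d L σ i * T (enc L σ i (a i) (b i))
        - ∑ i ∈ Finset.range (I L), Ph Δ c d L σ i (a i) (b i) l θ|
        ≤ eps0 / 4 * T0.total := by
    intro σ hσ a b ha hb
    rw [← Finset.sum_sub_distrib]
    refine (Finset.abs_sum_le_sum_abs _ _).trans ?_
    calc ∑ i ∈ Finset.range (I L), |Bn d L σ i * T (enc L σ i (a i) (b i))
          - Ph Δ c d L σ i (a i) (b i) l θ|
        ≤ ∑ i ∈ Finset.range (I L), eps0 / 4 * T0.total / I L :=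
          Finset.sum_le_sum fun i hi => herr σ hσ i (Finset.mem_range.1 hi) _ (ha i) _ (hb i)
      _ = eps0 / 4 * T0.total := by
          rw [Finset.sum_const, Finset.card_range, nsmul_eq_mul]
          field_simp
  constructor
  · have h1 : outv d L T ≤ tsp (pts l) / 2 + eps0 / 2 * T0.total := by
      apply outv_le
      intro σ hσ a b ha hb
      have h2 := hsum σ hσ a b ha hb
      have h3 := sum_SE_le c d L l θ σ hσ a b ha hb
      have h4 : ∑ i ∈ Finset.range (I L), Ph Δ c d L σ i (a i) (b i) l θ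
          ≤ ∑ i ∈ Finset.range (I L), VR d L σ i (a i) (b i) (pts l)
            + ∑ i ∈ Finset.range (I L), SE c d L σ i (a i) (b i) l θ := by
        rw [← Finset.sum_add_distrib]
        exact Finset.sum_le_sum fun i hi => Ph_upper hl c d L σ i (a i) (b i) hσ
          (Finset.mem_range.1 hi) θ
      have h5 := value_le' d L σ hd a b (pts l)
      have h6 := (abs_le.1 h2).2
      linarith
    have h7 : 0 ≤ eps0 * T0.total := by positivity
    linarith
  · intro hnear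
    obtain ⟨σ, hσ, a, b, ha, hb, hval⟩ := hV L (pts l) ω hω T0 hT0 hcard hsep hdist hnear
    have h2 := hsum σ hσ a b ha hb
    have h3 := sum_SE_le c d L l θ σ hσ a b ha hb
    have h4 : ∑ i ∈ Finset.range (I L), VS d L σ i (a i) (b i) (pts l)
        ≤ ∑ i ∈ Finset.range (I L), Ph Δ c d L σ i (a i) (b i) l θ
          + ∑ i ∈ Finset.range (I L), SE c d L σ i (a i) (b i) l θ := by
      rw [← Finset.sum_add_distrib]
      exact Finset.sum_le_sum fun i _ => Ph_lower hl c d L σ i (a i) (b i) θ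
    have h5 := le_outv d L T σ hσ a b ha hb
    have h6 := (abs_le.1 h2).1
    have h7 : 0 ≤ eps0 * T0.total := by positivity
    linarith

end Pool.Agent.H49.Tsp
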