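import Pool.Agent.H49.Tsp.Defs4
import Pool.Agent.H29.Stream.SubMain

/-!
Parameters of the streaming algorithm for the TSP problem, as functions of `L = log Δ + 1`.
-/

set_option autoImplicit false

namespace Pool.Agent.H49.Tsp.Par

open Pool.Agent.H29.Stream (PB PB.const PB.id PB.add PB.mul PB.pow)

def la (L : ℕ) : ℕ := 40 + (Nat.log 2 L + 1)
def m0 (L : ℕ) : ℕ := la L + 10
def m1 (L : ℕ) : ℕ := 20 * m0 L
def K (L : ℕ) : ℕ := m1 L + 8
def I (L : ℕ) : ℕ := L + 1 + K L + 8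
def mm (L : ℕ) : ℕ := m0 L + m1 L
def nN (L : ℕ) : ℕ := 52 + 2 * L + mm L + mm L * I L
def N (L : ℕ) : ℕ := 2 ^ nN L
def k1 (d L : ℕ) : ℕ := 2 ^ d * 2 ^ m1 L
def n (d L : ℕ) : ℕ := 3 * 2 ^ (la L + m1 L + d) + 2
def Z (L : ℕ) : ℕ := 10 ^ 6 * (33 + m1 L + mm L + mm L * I L) + 1
def J (L : ℕ) : ℕ := mm L * I L * 10 ^ 6
def ms (c d L : ℕ) : ℕ := (c * (J L * n d L ^ 2 * k1 d L)) ^ 2

theorem pb_mono {f g : ℕ → ℕ} (hg : PB g) (h : ∀ D, 1 ≤ D → f D ≤ g D) : PB f := by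
  obtain ⟨C, k, hC⟩ := hg
  exact ⟨C, k, fun D hD => (h D hD).trans (hC D hD)⟩

theorem lt_two_pow_log (L : ℕ) : L < 2 ^ (Nat.log 2 L + 1) :=
  Nat.lt_pow_succ_log_self (by norm_num) L

theorem two_pow_log_le (L : ℕ) (hL : 1 ≤ L) : 2 ^ (Nat.log 2 L + 1) ≤ 2 * L := by
  have h := Nat.pow_log_le_self 2 (x := L) (by omega)
  rw [pow_succ]
  omega

theorem pb_log : PB (fun L => Nat.log 2 L + 1) :=
  pb_mono (g := fun L => 2 * L) ((PB.const 2).mul PB.id) (fun L hL =>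
    (Nat.lt_two_pow_self).le.trans (two_pow_log_le L hL))

theorem pb_la : PB la := (PB.const 40).add pb_log
theorem pb_m0 : PB m0 := pb_la.add (PB.const 10)
theorem pb_m1 : PB m1 := (PB.const 20).mul pb_m0
theorem pb_K : PB K := pb_m1.add (PB.const 8)
theorem pb_I : PB I := ((PB.id.add (PB.const 1)).add pb_K).add (PB.const 8)
theorem pb_mm : PB mm := pb_m0.add pb_m1
theorem pb_nN : PB nN :=
  (((PB.const 52).add ((PB.const 2).mul PB.id)).add pb_mm).add (pb_mm.mul pb_I)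
theorem pb_J : PB J := (pb_mm.mul pb_I).mul (PB.const (10 ^ 6))
theorem pb_Z : PB Z := ((PB.const (10 ^ 6)).mul
  ((((PB.const 33).add pb_m1).add pb_mm).add (pb_mm.mul pb_I))).add (PB.const 1)

theorem pb_pow_log (a : ℕ) : PB (fun L => 2 ^ (a + (Nat.log 2 L + 1))) := by
  obtain ⟨c, hc⟩ : ∃ c : ℕ, c = 2 ^ a := ⟨_, rfl⟩
  refine pb_mono (g := fun L => c * (2 * L)) ((PB.const c).mul ((PB.const 2).mul PB.id)) ?_
  intro L hL
  rw [pow_add, hc]
  exact Nat.mul_le_mul_left _ (two_pow_log_le L hL)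

theorem pb_two_la : PB (fun L => 2 ^ la L) := pb_pow_log 40

theorem pb_two_m1 : PB (fun L => 2 ^ m1 L) := by
  have h : (fun L => 2 ^ m1 L) = fun L => (2 ^ la L * 2 ^ 10) ^ 20 := by
    funext L
    unfold m1 m0
    rw [← pow_add, ← pow_mul, mul_comm]
  rw [h]
  exact (pb_two_la.mul (PB.const (2 ^ 10))).pow 20

theorem pb_k1 (d : ℕ) : PB (k1 d) := (PB.const (2 ^ d)).mul pb_two_m1

theorem pb_n (d : ℕ) : PB (n d) := by
  have h : n d = fun L => 3 * (2 ^ la L * 2 ^ m1 L * 2 ^ d) + 2 := by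
    funext L
    unfold n
    rw [pow_add, pow_add]
  rw [h]
  exact ((PB.const 3).mul ((pb_two_la.mul pb_two_m1).mul (PB.const (2 ^ d)))).add (PB.const 2)

theorem pb_ms (c d : ℕ) : PB (ms c d) :=
  ((PB.const c).mul ((pb_J.mul ((pb_n d).pow 2)).mul (pb_k1 d))).pow 2

/-! Inequalities. -/

theorem m0_ge (L : ℕ) : 10 ≤ m0 L := by unfold m0; omega

theorem I_pos (L : ℕ) : 0 < I L := by unfold I; omega

theorem mm_pos (L : ℕ) : 0 < mm L := by unfold mm m0; omega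

theorem N_pos (L : ℕ) : 0 < N L := by unfold N; positivity

theorem k1_pos (d L : ℕ) : 0 < k1 d L := by unfold k1; positivity

theorem n_pos (d L : ℕ) : 0 < n d L := by unfold n; positivity

theorem J_pos (L : ℕ) : 0 < J L := by
  unfold J
  have := I_pos L
  have := mm_pos L
  positivity

theorem ms_pos (c d L : ℕ) (hc : 0 < c) : 0 < ms c d L :=
  Nat.pow_pos (Nat.mul_pos hc (Nat.mul_pos (Nat.mul_pos (J_pos L) (Nat.pow_pos (n_pos d L)))
    (k1_pos d L)))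

/-- The side of the squares is large compared with the number of blocks. -/
theorem la_large (L : ℕ) : 10 ^ 6 * ((L + 1) + K L + 8) ≤ 2 ^ la L := by
  have h1 := lt_two_pow_log L
  have h2 : Nat.log 2 L + 1 < 2 ^ (Nat.log 2 L + 1) := Nat.lt_two_pow_self
  have h3 : 2 ^ la L = 1099511627776 * 2 ^ (Nat.log 2 L + 1) := by
    unfold la
    rw [pow_add]
    norm_num
  rw [h3]
  have h4 : K L = 20 * (40 + (Nat.log 2 L + 1) + 10) + 8 := rfl
  rw [h4]
  obtain ⟨x, hx⟩ : ∃ x : ℕ, x = 2 ^ (Nat.log 2 L + 1) := ⟨_, rfl⟩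
  obtain ⟨y, hy⟩ : ∃ y : ℕ, y = Nat.log 2 L + 1 := ⟨_, rfl⟩
  rw [← hy] at h2 ⊢
  rw [← hy] at hx h1
  rw [← hx] at h1 h2 ⊢
  norm_num
  omega

theorem gap (L : ℕ) : 1000 * 2 ^ la L ≤ 2 ^ m0 L := by
  unfold m0
  rw [pow_add]
  have : 1 ≤ 2 ^ la L := Nat.one_le_two_pow
  omega

/-- Encoding of the scales. -/
def enc (L σ i a b : ℕ) : ℕ := ((σ * I L + i) * 1000 + a) * 1000 + b
def dσ (L j : ℕ) : ℕ := j / 1000 / 1000 / I L
def di (L j : ℕ) : ℕ := j / 1000 / 1000 % I L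
def da (j : ℕ) : ℕ := j / 1000 % 1000
def db (j : ℕ) : ℕ := j % 1000

theorem enc_lt (L σ i a b : ℕ) (hσ : σ < mm L) (hi : i < I L) (ha : a < 1000) (hb : b < 1000) :
    enc L σ i a b < J L := by
  unfold enc J
  have h1 : σ * I L + i < mm L * I L := by
    calc σ * I L + i < σ * I L + I L := by omega
      _ = (σ + 1) * I L := by ring
      _ ≤ mm L * I L := Nat.mul_le_mul_right _ hσ
  generalize σ * I L + i = x at h1 ⊢
  generalize mm L * I L = y at h1 ⊢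
  omega

theorem dec_enc (L σ i a b : ℕ) (hi : i < I L) (ha : a < 1000) (hb : b < 1000) :
    dσ L (enc L σ i a b) = σ ∧ di L (enc L σ i a b) = i ∧ da (enc L σ i a b) = a ∧
      db (enc L σ i a b) = b := by
  have h0 := I_pos L
  have e1 : enc L σ i a b / 1000 = (σ * I L + i) * 1000 + a := by unfold enc; omega
  have e2 : enc L σ i a b / 1000 / 1000 = σ * I L + i := by rw [e1]; omega
  refine ⟨?_, ?_, ?_, ?_⟩
  · unfold dσ
    rw [e2, mul_comm, Nat.mul_add_div h0, Nat.div_eq_of_lt hi, add_zero]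
  · unfold di
    rw [e2, mul_comm, Nat.mul_add_mod, Nat.mod_eq_of_lt hi]
  · unfold da
    rw [e1]; omega
  · unfold db enc; omega

theorem dec_bounds (L j : ℕ) (hj : j < J L) : dσ L j < mm L ∧ di L j < I L ∧ da j < 1000 ∧
    db j < 1000 := by
  have h0 := I_pos L
  refine ⟨?_, ?_, ?_, ?_⟩
  · unfold dσ
    rw [Nat.div_lt_iff_lt_mul h0]
    unfold J at hj
    generalize mm L * I L = y at hj ⊢
    omega
  · exact Nat.mod_lt _ h0
  · exact Nat.mod_lt _ (by norm_num)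
  · exact Nat.mod_lt _ (by norm_num)

/-! Real parameters. -/

/-- The smallest radius of the block. -/
noncomputable def uu (L σ i : ℕ) : ℝ := 2 ^ (σ + mm L * i) / 2 ^ K L
/-- The width of the annuli and the cells. -/
noncomputable def gg (d L σ i : ℕ) : ℝ := uu L σ i / 2 ^ d
/-- The side of the squares. -/
noncomputable def DD (L σ i : ℕ) : ℝ := 2 ^ la L * 2 ^ m1 L * uu L σ i
noncomputable def tau (L : ℕ) : ℝ := 1 / (2 ^ K L * 10 ^ 8)
noncomputable def tau0 (L : ℕ) : ℝ := 1 / (2 ^ K L * 10 ^ 9)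

theorem uu_pos (L σ i : ℕ) : 0 < uu L σ i := by unfold uu; positivity

theorem uu_ge (L σ i : ℕ) : 1 / 2 ^ K L ≤ uu L σ i := by
  unfold uu
  apply div_le_div_of_nonneg_right _ (by positivity)
  exact one_le_pow₀ (by norm_num)

theorem uu_le (L σ i : ℕ) (hσ : σ < mm L) (hi : i < I L) :
    uu L σ i ≤ 2 ^ (mm L + mm L * I L) / 2 ^ K L := by
  unfold uu
  apply div_le_div_of_nonneg_right _ (by positivity)
  apply pow_le_pow_right₀ (by norm_num)
  have := Nat.mul_le_mul_left (mm L) hi.le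
  omega

theorem gg_pos (d L σ i : ℕ) : 0 < gg d L σ i := by
  unfold gg
  have := uu_pos L σ i
  positivity

theorem DD_pos (L σ i : ℕ) : 0 < DD L σ i := by
  unfold DD
  have := uu_pos L σ i
  positivity

theorem tau_pos (L : ℕ) : 0 < tau L := by unfold tau; positivity
theorem tau0_pos (L : ℕ) : 0 < tau0 L := by unfold tau0; positivity

theorem tau_eq (L : ℕ) : tau L = 10 * tau0 L := by
  unfold tau tau0
  have : (2 : ℝ) ^ K L ≠ 0 := by positivity
  field_simp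

theorem k0_gg (d L σ i : ℕ) : (2 : ℝ) ^ d * gg d L σ i = uu L σ i := by
  unfold gg
  have : (2 : ℝ) ^ d ≠ 0 := by positivity
  field_simp

theorem k1_gg (d L σ i : ℕ) : (k1 d L : ℝ) * gg d L σ i = 2 ^ m1 L * uu L σ i := by
  unfold k1
  push_cast
  rw [← k0_gg d L σ i]
  ring

theorem gg_le_uu (d L σ i : ℕ) : gg d L σ i ≤ uu L σ i := by
  unfold gg
  apply div_le_self (uu_pos L σ i).le
  exact one_le_pow₀ (by norm_num)

theorem uu_le_DD (L σ i : ℕ) : uu L σ i ≤ DD L σ i := by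
  unfold DD
  have h1 : (1 : ℝ) ≤ 2 ^ la L * 2 ^ m1 L :=
    one_le_mul_of_one_le_of_one_le (one_le_pow₀ (by norm_num)) (one_le_pow₀ (by norm_num))
  nlinarith [uu_pos L σ i]

theorem tau_le (d L σ i : ℕ) : tau L ≤ ((2 ^ d : ℕ) : ℝ) * gg d L σ i / 10 ^ 8 := by
  push_cast
  rw [k0_gg]
  have := uu_ge L σ i
  unfold tau
  calc (1 : ℝ) / (2 ^ K L * 10 ^ 8) = 1 / 2 ^ K L / 10 ^ 8 := by rw [div_div]
    _ ≤ _ := by apply div_le_div_of_nonneg_right this (by positivity)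

theorem four_thousand (L : ℕ) : (4000 : ℝ) ≤ 2 ^ la L := by
  calc (4000 : ℝ) ≤ 2 ^ 40 := by norm_num
    _ ≤ 2 ^ la L := pow_le_pow_right₀ (by norm_num) (by unfold la; omega)

theorem DD_ge (d L σ i : ℕ) : 4000 * ((k1 d L : ℝ) * gg d L σ i) ≤ DD L σ i := by
  rw [k1_gg]
  unfold DD
  have h1 := four_thousand L
  have h2 := uu_pos L σ i
  have h3 : (0 : ℝ) < 2 ^ m1 L * uu L σ i := by positivity
  nlinarith

theorem one_le_DD (L σ i : ℕ) : 1 ≤ DD L σ i := by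
  have h1 := uu_ge L σ i
  unfold DD
  have h2 : (2 : ℝ) ^ K L = 2 ^ m1 L * 256 := by unfold K; rw [pow_add]; norm_num
  rw [h2] at h1
  have h3 : (1 : ℝ) / (2 ^ m1 L * 256) * (2 ^ m1 L) = 1 / 256 := by
    have : (2 : ℝ) ^ m1 L ≠ 0 := by positivity
    field_simp
  have h4 := four_thousand L
  have h5 : (1 : ℝ) / 256 ≤ 2 ^ m1 L * uu L σ i := by
    rw [← h3, mul_comm]
    exact mul_le_mul_of_nonneg_left h1 (by positivity)
  have h6 : 2 ^ la L * 2 ^ m1 L * uu L σ i = 2 ^ la L * (2 ^ m1 L * uu L σ i) := by ring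
  rw [h6]
  nlinarith

theorem gap_real (d L σ i j : ℕ) (hij : i < j) :
    1000 * DD L σ i ≤ ((2 ^ d : ℕ) : ℝ) * gg d L σ j := by
  push_cast
  rw [k0_gg]
  have h1 : (1000 : ℝ) * 2 ^ la L ≤ 2 ^ m0 L := by exact_mod_cast gap L
  have h2 : 2 ^ mm L * uu L σ i ≤ uu L σ j := by
    unfold uu
    rw [← mul_div_assoc, ← pow_add]
    apply div_le_div_of_nonneg_right _ (by positivity)
    apply pow_le_pow_right₀ (by norm_num)
    have := Nat.mul_le_mul_left (mm L) (show i + 1 ≤ j from hij)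
    rw [mul_add, mul_one] at this
    omega
  have h3 : (2 : ℝ) ^ mm L = 2 ^ m0 L * 2 ^ m1 L := by unfold mm; rw [pow_add]
  rw [h3] at h2
  unfold DD
  have h4 : (0 : ℝ) < 2 ^ m1 L * uu L σ i := mul_pos (by positivity) (uu_pos L σ i)
  nlinarith

theorem n_ge (d L σ i : ℕ) : 3 * DD L σ i / gg d L σ i + 2 ≤ (n d L : ℝ) := by
  unfold n DD gg
  have h := uu_pos L σ i
  have e : 3 * (2 ^ la L * 2 ^ m1 L * uu L σ i) / (uu L σ i / 2 ^ d)
      = 3 * 2 ^ (la L + m1 L + d) := by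
    rw [pow_add, pow_add]
    field_simp
  rw [e]
  push_cast
  exact le_rfl

theorem N_ge_shell (d L σ i : ℕ) (hσ : σ < mm L) (hi : i < I L) :
    1000 * (gg d L σ i / (N L : ℝ)) ≤ tau0 L := by
  have h1 := (gg_le_uu d L σ i).trans (uu_le L σ i hσ hi)
  have h2 : (N L : ℝ) = 2 ^ 52 * 2 ^ (2 * L) * 2 ^ (mm L + mm L * I L) := by
    unfold N nN
    push_cast
    rw [← pow_add, ← pow_add]
    congr 1
    ring
  have hN : (0 : ℝ) < N L := by exact_mod_cast N_pos L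
  have h3 : (1 : ℝ) ≤ 2 ^ (2 * L) := one_le_pow₀ (by norm_num)
  have hK : (0 : ℝ) < 2 ^ K L := by positivity
  have hm : (0 : ℝ) < 2 ^ (mm L + mm L * I L) := by positivity
  unfold tau0
  rw [← mul_div_assoc, div_le_div_iff₀ hN (by positivity), one_mul]
  calc 1000 * gg d L σ i * (2 ^ K L * 10 ^ 9)
      ≤ 1000 * (2 ^ (mm L + mm L * I L) / 2 ^ K L) * (2 ^ K L * 10 ^ 9) := by
        apply mul_le_mul_of_nonneg_right _ (by positivity)
        linarith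
    _ = 10 ^ 12 * 2 ^ (mm L + mm L * I L) := by field_simp; norm_num
    _ ≤ (N L : ℝ) := by
        rw [h2]
        have : (10 : ℝ) ^ 12 ≤ 2 ^ 52 * 2 ^ (2 * L) := by nlinarith
        exact mul_le_mul_of_nonneg_right this hm.le

theorem Z_ge (d L σ i : ℕ) (hσ : σ < mm L) (hi : i < I L) :
    4 * ((k1 d L : ℝ) * gg d L σ i) < tau0 L * (1 + 1 / 10 ^ 6) ^ (Z L - 1) := by
  rw [k1_gg]
  have h1 := uu_le L σ i hσ hi
  have e1 : Z L - 1 = 10 ^ 6 * (33 + m1 L + mm L + mm L * I L) := by unfold Z; omega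
  have h2 : (2 : ℝ) ≤ (1 + 1 / 10 ^ 6) ^ (10 ^ 6) := by
    have := one_add_mul_le_pow (a := (1 : ℝ) / 10 ^ 6) (by norm_num) (10 ^ 6)
    refine le_trans ?_ this
    norm_num
  have h3 : (2 : ℝ) ^ (33 + m1 L + mm L + mm L * I L) ≤ (1 + 1 / 10 ^ 6) ^ (Z L - 1) := by
    rw [e1, pow_mul]
    exact pow_le_pow_left₀ (by norm_num) h2 _
  have hK : (0 : ℝ) < 2 ^ K L := by positivity
  have h4 : (2 : ℝ) ^ (33 + m1 L + mm L + mm L * I L)
      = 2 ^ 33 * (2 ^ m1 L * 2 ^ (mm L + mm L * I L)) := by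
    rw [show 33 + m1 L + mm L + mm L * I L = 33 + (m1 L + (mm L + mm L * I L)) by
      rw [add_assoc, add_assoc], pow_add, pow_add]
  have hm : (0 : ℝ) < 2 ^ m1 L * 2 ^ (mm L + mm L * I L) := by positivity
  unfold tau0
  calc 4 * (2 ^ m1 L * uu L σ i) ≤ 4 * (2 ^ m1 L * (2 ^ (mm L + mm L * I L) / 2 ^ K L)) := by
        apply mul_le_mul_of_nonneg_left _ (by norm_num)
        exact mul_le_mul_of_nonneg_left h1 (by positivity)
    _ = 4 * 10 ^ 9 * (2 ^ m1 L * 2 ^ (mm L + mm L * I L)) * (1 / (2 ^ K L * 10 ^ 9)) := by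
        field_simp
    _ < 2 ^ 33 * (2 ^ m1 L * 2 ^ (mm L + mm L * I L)) * (1 / (2 ^ K L * 10 ^ 9)) := by
        apply mul_lt_mul_of_pos_right _ (by positivity)
        apply mul_lt_mul_of_pos_right _ hm
        norm_num
    _ = 1 / (2 ^ K L * 10 ^ 9) * 2 ^ (33 + m1 L + mm L + mm L * I L) := by rw [h4]; ring
    _ ≤ _ := mul_le_mul_of_nonneg_left h3 (by positivity)

theorem N_ge_card (L c : ℕ) (hc : c ≤ 2 ^ (2 * L)) : 2000 * (c + 1) ≤ N L := by
  have h3 : 1 ≤ 2 ^ (2 * L) := Nat.one_le_two_pow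
  have h5 : 2000 * (c + 1) ≤ 4096 * 2 ^ (2 * L) := by
    generalize 2 ^ (2 * L) = y at hc h3
    omega
  have h6 : 4096 * 2 ^ (2 * L) = 2 ^ (12 + 2 * L) := by rw [pow_add]; norm_num
  rw [h6] at h5
  refine h5.trans ?_
  unfold N nN
  apply Nat.pow_le_pow_right (by norm_num)
  omega

theorem I_eq (L : ℕ) : I L = L + 1 + K L + 8 := rfl
theorem mm_eq (L : ℕ) : mm L = m0 L + m1 L := rfl
theorem m1_ge (L : ℕ) : 20 * m0 L ≤ m1 L := le_rfl
theorem K_ge (L : ℕ) : m1 L + 8 ≤ K L := le_rfl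
theorem k1_eq (d L : ℕ) : k1 d L = 2 ^ d * 2 ^ m1 L := rfl
theorem J_eq (L : ℕ) : J L = mm L * I L * 10 ^ 6 := rfl
theorem ms_eq (c d L : ℕ) : ms c d L = (c * (J L * n d L ^ 2 * k1 d L)) ^ 2 := rfl
theorem Z_pos (L : ℕ) : 0 < Z L := by unfold Z; omega
theorem N_eq (L : ℕ) : N L = 2 ^ nN L := rfl

attribute [irreducible] la m0 m1 K I mm nN N k1 n Z J ms

end Pool.Agent.H49.Tsp.Par
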