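import Pool.Agent.H49.Tsp.StreamAct
import Pool.Agent.H49.Tsp.ActCard

/-!
The statistics of the streaming algorithm: sandwich, streaming error, sampling error.
-/

set_option autoImplicit false

namespace Pool.Agent.H49.Tsp

open Classical Par

/-- The normalizing factor of a scale. -/
noncomputable def Bn (d L σ i : ℕ) : ℝ := (n d L : ℝ) ^ 2 * k1 d L * gg d L σ i

theorem Bn_pos (d L σ i : ℕ) : 0 < Bn d L σ i := by
  unfold Bn
  have h1 : (0 : ℝ) < n d L := by exact_mod_cast n_pos d L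
  have h2 : (0 : ℝ) < k1 d L := by exact_mod_cast k1_pos d L
  have h3 := gg_pos d L σ i
  positivity

/-- The entry of the sketch used by the automaton. -/
noncomputable def Fsk (Δ c d L σ i a b : ℕ) (θ : Fin (ms c d L) → Fin (N L)) (Q : ℕ × ℕ)
    (κ : Idx (n d L) (k1 d L) (ms c d L) (Z L)) (x : ℕ × ℕ) : ℕ :=
  min (skv Δ (n d L) (k1 d L) (ms c d L) (Z L) (N L) (gg d L σ i) (DD L σ i) (tau0 L) θ
    (cor (off (DD L σ i) a b) (DD L σ i) (zc Q)) κ x) (Δ + 1)

/-- The value of the sketches of all active squares. -/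
noncomputable def Ph (Δ c d L σ i a b : ℕ) (l : List (ℕ × ℕ))
    (θ : Fin (ms c d L) → Fin (N L)) : ℝ :=
  ∑ Q ∈ act (pts l) (off (DD L σ i) a b) (DD L σ i),
    phi0 Δ (n d L) (2 ^ d) (k1 d L) (ms c d L) (Z L) (N L) (gg d L σ i) (DD L σ i) (tau0 L) θ
      (cor (off (DD L σ i) a b) (DD L σ i) Q)
      (sk Δ (n d L) (k1 d L) (ms c d L) (Z L) (N L) (gg d L σ i) (DD L σ i) (tau0 L) θ
        (cor (off (DD L σ i) a b) (DD L σ i) Q)
        (wpts l (DD L σ i) (cor (off (DD L σ i) a b) (DD L σ i) Q)))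

/-- The sampling error of all active squares. -/
noncomputable def SE (c d L σ i a b : ℕ) (l : List (ℕ × ℕ))
    (θ : Fin (ms c d L) → Fin (N L)) : ℝ :=
  ∑ Q ∈ act (pts l) (off (DD L σ i) a b) (DD L σ i),
    serr (gg d L σ i) (2 ^ d) (k1 d L) (N L) (tau L) (ms c d L) θ
      (win (pts l) (DD L σ i) (cor (off (DD L σ i) a b) (DD L σ i) Q))

/-- The exact values (strong form). -/
noncomputable def VS (d L σ i a b : ℕ) (P : Finset ℂ) : ℝ :=
  ∑ Q ∈ act P (off (DD L σ i) a b) (DD L σ i),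
    Val (gg d L σ i) (DD L σ i) (2 ^ d) (k1 d L) (cor (off (DD L σ i) a b) (DD L σ i) Q)
      (win P (DD L σ i) (cor (off (DD L σ i) a b) (DD L σ i) Q))
      (gamS (gg d L σ i) (N L) (win P (DD L σ i) (cor (off (DD L σ i) a b) (DD L σ i) Q)))

/-- The exact values (relaxed form). -/
noncomputable def VR (d L σ i a b : ℕ) (P : Finset ℂ) : ℝ :=
  ∑ Q ∈ act P (off (DD L σ i) a b) (DD L σ i),
    Val (gg d L σ i) (DD L σ i) (2 ^ d) (k1 d L) (cor (off (DD L σ i) a b) (DD L σ i) Q)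
      (win P (DD L σ i) (cor (off (DD L σ i) a b) (DD L σ i) Q))
      (gamR (gg d L σ i) (N L) (tau L)
        (win P (DD L σ i) (cor (off (DD L σ i) a b) (DD L σ i) Q)))

theorem serr_nonneg (g : ℝ) (hg : 0 ≤ g) (k0 k1 N : ℕ) (tau : ℝ) (ms : ℕ)
    (θ : Fin ms → Fin N) (X : Finset ℂ) : 0 ≤ serr g k0 k1 N tau ms θ X := by
  unfold serr
  exact Finset.sum_nonneg fun a _ => mul_nonneg hg (add_nonneg (abs_nonneg _) (abs_nonneg _))

theorem SE_nonneg (c d L σ i a b : ℕ) (l : List (ℕ × ℕ)) (θ : Fin (ms c d L) → Fin (N L)) :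
    0 ≤ SE c d L σ i a b l θ :=
  Finset.sum_nonneg fun _ _ => serr_nonneg _ (gg_pos d L σ i).le _ _ _ _ _ _ _

theorem sstat_eq {Δ : ℕ} {l : List (ℕ × ℕ)} (hl : H29.Stream.InBox Δ l) (c d L σ i : ℕ)
    {a b : ℕ} (ha : a < 1000) (hb : b < 1000) (θ : Fin (ms c d L) → Fin (N L)) :
    H29.Stream.sstat (Δ + 5) (hitN (DD L σ i) (off (DD L σ i) a b))
      (fun _ => fun _ : Idx (n d L) (k1 d L) (ms c d L) (Z L) => (0 : Fin (Δ + 1 + 1)))
      (fun Q S x => fun κ => max (S κ) (Fin.ofNat (Δ + 1 + 1) (Fsk Δ c d L σ i a b θ Q κ x)))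
      (fun Q S => phi0 Δ (n d L) (2 ^ d) (k1 d L) (ms c d L) (Z L) (N L) (gg d L σ i)
        (DD L σ i) (tau0 L) θ (cor (off (DD L σ i) a b) (DD L σ i) (zc Q))
        (fun κ => (S κ : ℕ)) / Bn d L σ i) l
      = Ph Δ c d L σ i a b l θ / Bn d L σ i := by
  unfold H29.Stream.sstat Ph
  rw [act_sum hl (one_le_DD L σ i) ha hb, Finset.sum_div]
  apply Finset.sum_congr rfl
  intro Q _
  beta_reduce
  congr 2
  funext κ
  rw [run_sk (Δ + 1) (hitN (DD L σ i) (off (DD L σ i) a b))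
    (fun Q κ x => Fsk Δ c d L σ i a b θ Q κ x) (fun Q κ x => min_le_right _ _) l Q κ]
  unfold sk wpts
  apply Finset.sup_congr rfl
  intro x hx
  rw [Finset.mem_filter, List.mem_toFinset] at hx
  have hb := hl x hx.1
  unfold Fsk
  exact min_eq_left (skv_le _ _ _ _ _ _ _ _ _ _ _ _ _ ⟨hb.2.1, hb.2.2.2⟩)

theorem Ph_lower {Δ : ℕ} {l : List (ℕ × ℕ)} (hl : H29.Stream.InBox Δ l) (c d L σ i a b : ℕ)
    (θ : Fin (ms c d L) → Fin (N L)) :
    VS d L σ i a b (pts l) ≤ Ph Δ c d L σ i a b l θ + SE c d L σ i a b l θ := by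
  unfold VS Ph SE
  rw [← Finset.sum_add_distrib]
  apply Finset.sum_le_sum
  intro Q _
  have h1 := (val_serr (gg d L σ i) (DD L σ i) (gg_pos d L σ i) (2 ^ d) (k1 d L) (N L) (tau L)
    (ms c d L) θ (cor (off (DD L σ i) a b) (DD L σ i) Q)
    (win (pts l) (DD L σ i) (cor (off (DD L σ i) a b) (DD L σ i) Q))).1
  refine h1.trans ?_
  rw [add_le_add_iff_right]
  rw [win_pts]
  exact phi0_lower Δ (n d L) (2 ^ d) (k1 d L) (ms c d L) (Z L) (N L) (gg d L σ i) (DD L σ i)
    (tau0 L) (gg_pos d L σ i) θ _ (n_ge d L σ i) _ (inYW_wpts hl _ _)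

theorem Ph_upper {Δ : ℕ} {l : List (ℕ × ℕ)} (hl : H29.Stream.InBox Δ l) (c d L σ i a b : ℕ)
    (hσ : σ < mm L) (hi : i < I L) (θ : Fin (ms c d L) → Fin (N L)) :
    Ph Δ c d L σ i a b l θ ≤ VR d L σ i a b (pts l) + SE c d L σ i a b l θ := by
  unfold VR Ph SE
  rw [← Finset.sum_add_distrib]
  apply Finset.sum_le_sum
  intro Q _
  have h1 := (val_serr (gg d L σ i) (DD L σ i) (gg_pos d L σ i) (2 ^ d) (k1 d L) (N L) (tau L)
    (ms c d L) θ (cor (off (DD L σ i) a b) (DD L σ i) Q)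
    (win (pts l) (DD L σ i) (cor (off (DD L σ i) a b) (DD L σ i) Q))).2
  refine le_trans ?_ h1
  rw [win_pts]
  exact phi0_upper Δ (n d L) (2 ^ d) (k1 d L) (ms c d L) (Z L) (N L) (gg d L σ i) (DD L σ i)
    (tau0 L) (tau L) (gg_pos d L σ i) (N_pos L) (by positivity) θ _ (n_ge d L σ i)
    (Z_ge d L σ i hσ hi) (Z_pos L) (tau0_pos L) (tau_eq L).ge (tau_le d L σ i)
    (N_ge_shell d L σ i hσ hi) _ (inYW_wpts hl _ _)

/-- The streaming error. -/
theorem stream_err {Δ : ℕ} {l : List (ℕ × ℕ)} (hl : H29.Stream.InBox Δ l) (c d L σ i : ℕ)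
    {a b : ℕ} (ha : a < 1000) (hb : b < 1000) (θ : Fin (ms c d L) → Fin (N L))
    (T : RTree (pts l)) (E : ℕ) (hE : 162 ≤ E) (t : ℝ)
    (h1 : |t - Ph Δ c d L σ i a b l θ / Bn d L σ i| * (E : ℝ)
      ≤ (H29.Stream.act (hitN (DD L σ i) (off (DD L σ i) a b)) (Δ + 5) l).card)
    (h2 : (H29.Stream.act (hitN (DD L σ i) (off (DD L σ i) a b)) (Δ + 5) l).card ≤ E →
      t = Ph Δ c d L σ i a b l θ / Bn d L σ i) :
    |Bn d L σ i * t - Ph Δ c d L σ i a b l θ|
      ≤ 162 * ((n d L : ℝ) ^ 2 * k1 d L) * T.total / E := by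
  have hM : 0 ≤ T.total := T.wt_nonneg _
  have hE0 : (0 : ℝ) < E := by exact_mod_cast (by omega : 0 < E)
  have hB := Bn_pos d L σ i
  have hn0 : (0 : ℝ) < (n d L : ℝ) ^ 2 * k1 d L := by
    have h1 : (0 : ℝ) < n d L := by exact_mod_cast n_pos d L
    have h2 : (0 : ℝ) < k1 d L := by exact_mod_cast k1_pos d L
    positivity
  set κ := (H29.Stream.act (hitN (DD L σ i) (off (DD L σ i) a b)) (Δ + 5) l).card with hκ
  have hD := DD_pos L σ i
  have e1 : Bn d L σ i * t - Ph Δ c d L σ i a b l θ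
      = Bn d L σ i * (t - Ph Δ c d L σ i a b l θ / Bn d L σ i) := by
    rw [mul_sub, mul_div_cancel₀ _ hB.ne']
  rw [e1, abs_mul, abs_of_pos hB]
  by_cases hk : κ ≤ E
  · rw [h2 hk, sub_self, abs_zero, mul_zero]
    positivity
  · push Not at hk
    have hcard : ((κ : ℕ) : ℝ) ≤ 81 * (T.total / DD L σ i + 1) := by
      have := act_card T (off (DD L σ i) a b) (DD L σ i) hD
      rwa [act_card_eq hl (one_le_DD L σ i) ha hb] at this
    have hkE : (162 : ℝ) ≤ κ := by exact_mod_cast (by omega : 162 ≤ κ)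
    have hk2 : (κ : ℝ) ≤ 162 * (T.total / DD L σ i) := by linarith
    have hg := gg_pos d L σ i
    have hgD : gg d L σ i ≤ DD L σ i := (gg_le_uu d L σ i).trans (uu_le_DD L σ i)
    rw [le_div_iff₀ hE0]
    calc Bn d L σ i * |t - Ph Δ c d L σ i a b l θ / Bn d L σ i| * E
        = Bn d L σ i * (|t - Ph Δ c d L σ i a b l θ / Bn d L σ i| * E) := by ring
      _ ≤ Bn d L σ i * κ := mul_le_mul_of_nonneg_left h1 hB.le
      _ ≤ Bn d L σ i * (162 * (T.total / DD L σ i)) := mul_le_mul_of_nonneg_left hk2 hB.le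
      _ = 162 * ((n d L : ℝ) ^ 2 * k1 d L) * T.total * (gg d L σ i / DD L σ i) := by
        unfold Bn; ring
      _ ≤ 162 * ((n d L : ℝ) ^ 2 * k1 d L) * T.total * 1 := by
        apply mul_le_mul_of_nonneg_left _ (by positivity)
        exact (div_le_one hD).2 hgD
      _ = _ := mul_one _

theorem dist_le_total {P : Finset ℂ} (T : RTree P) {p q : ℂ} (hp : p ∈ P) (hq : q ∈ P) :
    ‖p - q‖ ≤ T.total :=
  (T.norm_le_wt_sep hp hq).trans (T.wt_mono (T.sep_sub p q))

/-- The mean sampling error of one scale. -/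
theorem sum_SE {l : List (ℕ × ℕ)} (c d L σ i : ℕ) (hc : 0 < c) (a b : ℕ) (T : RTree (pts l)) :
    ∑ θ : Fin (ms c d L) → Fin (N L), SE c d L σ i a b l θ
      ≤ (N L : ℝ) ^ ms c d L * (324 * ((n d L : ℝ) ^ 2 * k1 d L) * T.total
        / Real.sqrt (ms c d L)) := by
  have hM : 0 ≤ T.total := T.wt_nonneg _
  have hms : 0 < ms c d L := ms_pos c d L hc
  have hs : 0 < Real.sqrt (ms c d L) := Real.sqrt_pos.2 (by exact_mod_cast hms)
  have hn0 : (0 : ℝ) < (n d L : ℝ) ^ 2 * k1 d L := by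
    have h1 : (0 : ℝ) < n d L := by exact_mod_cast n_pos d L
    have h2 : (0 : ℝ) < k1 d L := by exact_mod_cast k1_pos d L
    positivity
  have hN : (0 : ℝ) ≤ (N L : ℝ) ^ ms c d L := by positivity
  by_cases hu : T.total < uu L σ i
  · have h0 : ∀ θ : Fin (ms c d L) → Fin (N L), SE c d L σ i a b l θ = 0 := by
      intro θ
      unfold SE
      apply Finset.sum_eq_zero
      intro Q _
      apply serr_zero (gg d L σ i) (gg_pos d L σ i) (2 ^ d) (k1 d L) (N L) (tau L) (ms c d L) θ _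
        T.total
      · intro p hp q hq
        unfold win at hp hq
        rw [Finset.mem_filter] at hp hq
        exact dist_le_total T hp.1 hq.1
      · push_cast
        rw [k0_gg]
        exact hu
    rw [Finset.sum_congr rfl (fun θ _ => h0 θ), Finset.sum_const_zero]
    positivity
  · push Not at hu
    have hD := DD_pos L σ i
    have hg := gg_pos d L σ i
    have hcard : ((act (pts l) (off (DD L σ i) a b) (DD L σ i)).card : ℝ)
        ≤ 81 * (T.total / DD L σ i + 1) := act_card T _ _ hD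
    have h1 : ∀ Q ∈ act (pts l) (off (DD L σ i) a b) (DD L σ i),
        ∑ θ : Fin (ms c d L) → Fin (N L),
          serr (gg d L σ i) (2 ^ d) (k1 d L) (N L) (tau L) (ms c d L) θ
            (win (pts l) (DD L σ i) (cor (off (DD L σ i) a b) (DD L σ i) Q))
          ≤ (N L : ℝ) ^ ms c d L * (2 * ((n d L : ℝ) ^ 2 * k1 d L * gg d L σ i)
            / Real.sqrt (ms c d L)) := by
      intro Q _
      apply sum_serr (gg d L σ i) (DD L σ i) hg (2 ^ d) (k1 d L) (N L) (N_pos L) (tau L)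
        (ms c d L) hms (cor (off (DD L σ i) a b) (DD L σ i) Q) _ _ (n d L) (n_ge d L σ i)
      intro p hp
      unfold win at hp
      rw [Finset.mem_filter] at hp
      exact hp.2
    unfold SE
    rw [Finset.sum_comm]
    refine (Finset.sum_le_sum h1).trans ?_
    rw [Finset.sum_const, nsmul_eq_mul]
    have h2 : (81 * (T.total / DD L σ i + 1)) * gg d L σ i ≤ 162 * T.total := by
      have hgD : gg d L σ i ≤ DD L σ i := (gg_le_uu d L σ i).trans (uu_le_DD L σ i)
      have h3 : T.total / DD L σ i * gg d L σ i ≤ T.total := by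
        rw [div_mul_eq_mul_div, div_le_iff₀ hD]
        exact mul_le_mul_of_nonneg_left hgD hM
      have h4 : gg d L σ i ≤ T.total := (gg_le_uu d L σ i).trans hu
      nlinarith
    calc ((act (pts l) (off (DD L σ i) a b) (DD L σ i)).card : ℝ)
          * ((N L : ℝ) ^ ms c d L * (2 * ((n d L : ℝ) ^ 2 * k1 d L * gg d L σ i)
            / Real.sqrt (ms c d L)))
        ≤ (81 * (T.total / DD L σ i + 1))
          * ((N L : ℝ) ^ ms c d L * (2 * ((n d L : ℝ) ^ 2 * k1 d L * gg d L σ i)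
            / Real.sqrt (ms c d L))) := mul_le_mul_of_nonneg_right hcard (by positivity)
      _ = (N L : ℝ) ^ ms c d L * (2 * ((n d L : ℝ) ^ 2 * k1 d L)
          * ((81 * (T.total / DD L σ i + 1)) * gg d L σ i) / Real.sqrt (ms c d L)) := by ring
      _ ≤ (N L : ℝ) ^ ms c d L * (2 * ((n d L : ℝ) ^ 2 * k1 d L)
          * (162 * T.total) / Real.sqrt (ms c d L)) := by
          apply mul_le_mul_of_nonneg_left _ hN
          apply div_le_div_of_nonneg_right _ hs.le
          exact mul_le_mul_of_nonneg_left h2 (by positivity)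
      _ = _ := by ring

end Pool.Agent.H49.Tsp
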